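import Pool.Agent.NH56.HL.Stm
import Pool.Agent.NH56.HY.TanA
import Pool.Agent.NH56.HY.Ndg

/-!
# HL-CTR: elements of the center of the commutant
-/

set_option autoImplicit false

namespace Pool.Agent.NH56.HL

open Matrix Polynomial Filter Topology NumberField IsDedekindDomain Pool.Agent.NH56.HY

namespace Ctr

variable {ι : Type} [Fintype ι] [DecidableEq ι]

/-- two matrices which agree on the generalized eigenvectors of `T` are equal -/
theorem ext_gen {Ω : Type} [Field Ω] [IsAlgClosed Ω] (T A B : Matrix ι ι Ω)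
    (h : ∀ (a : Ω) (k : ℕ) (x : ι → Ω), ((T - a • (1 : Matrix ι ι Ω)) ^ k) *ᵥ x = 0 →
      A *ᵥ x = B *ᵥ x) : A = B := by
  set f : Module.End Ω (ι → Ω) := Matrix.toLinAlgEquiv' T with hf
  have h1 : ⨆ μ : Ω, f.maxGenEigenspace μ = ⊤ := Module.End.iSup_maxGenEigenspace_eq_top f
  have h2 : (⊤ : Submodule Ω (ι → Ω)) ≤ LinearMap.ker (Matrix.toLin' (A - B)) := by
    rw [← h1]
    apply iSup_le
    intro a x hx
    obtain ⟨k, hk⟩ := (Module.End.mem_maxGenEigenspace f a x).1 hx
    rw [← Algebra.algebraMap_eq_smul_one, hf, Tan.to_pow] at hk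
    rw [LinearMap.mem_ker, Matrix.toLin'_apply, Matrix.sub_mulVec, sub_eq_zero]
    exact h a k x hk
  have h3 : Matrix.toLin' (A - B) = 0 := by
    rw [← LinearMap.ker_eq_top]
    exact top_le_iff.1 h2
  have h4 : A - B = 0 := by
    apply Matrix.toLin'.injective
    rw [h3, map_zero]
  exact sub_eq_zero.1 h4

/-- the nilpotent part -/
theorem nil_part {Ω : Type} [Field Ω] [IsAlgClosed Ω] (T s : Matrix ι ι Ω)
    (hs : IsFn (fun a => a) T s) : IsNilpotent (T - s) := by
  set f : Module.End Ω (ι → Ω) := Matrix.toLinAlgEquiv' T with hf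
  have h1 : ⨆ μ : Ω, f.maxGenEigenspace μ = ⊤ := Module.End.iSup_maxGenEigenspace_eq_top f
  have key : ∀ (a : Ω) (k j : ℕ) (x : ι → Ω), ((T - a • (1 : Matrix ι ι Ω)) ^ k) *ᵥ x = 0 →
      ((T - s) ^ j) *ᵥ x = ((T - a • (1 : Matrix ι ι Ω)) ^ j) *ᵥ x := by
    intro a k j
    induction j with
    | zero => intro x _; rfl
    | succ j ih =>
      intro x hx
      have e1 : (T - s) *ᵥ x = (T - a • (1 : Matrix ι ι Ω)) *ᵥ x := by
        rw [Matrix.sub_mulVec, Matrix.sub_mulVec, hs a k x hx, Matrix.smul_mulVec,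
          Matrix.one_mulVec]
      rw [pow_succ, pow_succ, ← Matrix.mulVec_mulVec, ← Matrix.mulVec_mulVec, e1]
      apply ih
      rw [Matrix.mulVec_mulVec, ← pow_succ, pow_succ', ← Matrix.mulVec_mulVec, hx,
        Matrix.mulVec_zero]
  set f' : Module.End Ω (ι → Ω) := Matrix.toLinAlgEquiv' (T - s) with hf'
  have h2 : (⊤ : Submodule Ω (ι → Ω)) ≤ f'.maxGenEigenspace 0 := by
    rw [← h1]
    apply iSup_le
    intro a x hx
    obtain ⟨k, hk⟩ := (Module.End.mem_maxGenEigenspace f a x).1 hx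
    rw [← Algebra.algebraMap_eq_smul_one, hf, Tan.to_pow] at hk
    refine (Module.End.mem_maxGenEigenspace f' 0 x).2 ⟨k, ?_⟩
    rw [← Algebra.algebraMap_eq_smul_one, hf', Tan.to_pow, zero_smul, sub_zero,
      key a k k x hk, hk]
  refine ⟨Module.finrank Ω (ι → Ω), ?_⟩
  apply Matrix.toLin'.injective
  apply LinearMap.ext
  intro x
  have h3 := h2 (Submodule.mem_top : x ∈ ⊤)
  rw [Module.End.maxGenEigenspace_eq_genEigenspace_finrank,
    Module.End.mem_genEigenspace_nat, LinearMap.mem_ker, ← Algebra.algebraMap_eq_smul_one, hf',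
    Tan.to_pow, zero_smul, sub_zero] at h3
  rw [Matrix.toLin'_apply, map_zero, LinearMap.zero_apply]
  exact h3

theorem fn_idem {Ω : Type} [Field Ω] [IsAlgClosed Ω] [DecidableEq Ω] (C N : Matrix ι ι Ω) (z : Ω)
    (hN : IsFn (fun a => if a = z then (1 : Ω) else 0) C N) : N * N = N := by
  apply ext_gen C
  intro a k x hx
  rw [← Matrix.mulVec_mulVec, hN a k x hx, Matrix.mulVec_smul, hN a k x hx, smul_smul]
  congr 1
  dsimp only
  split_ifs <;> simp

/-- a matrix of the commutant with `trace (C e) = 0` for its own spectral projectors -/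
theorem lin' (hFUN : S_FUN) (hNDG : S_NDG) (X : Coh ι) (hX : IsHyperKahler X)
    (C : Matrix ι ι ℂ) (hC : X.Com ℂ C) (hcomm : ∀ B, X.Com ℂ B → C * B = B * C)
    (htr : ∀ e : Matrix ι ι ℂ, X.Com ℂ e → (∀ B, X.Com ℂ B → e * B = B * e) →
      (C * e).trace = 0) : C = 0 := by
  classical
  have hroot : ∀ z, z ∈ C.charpoly.roots → z = 0 := by
    intro z hz
    obtain ⟨⟨N, hN⟩, h0⟩ := hFUN ℂ ι (fun a => if a = z then (1 : ℂ) else 0) C
    obtain ⟨h1, h2, _, _⟩ := h0 N hN
    have hcm : ∀ B : Matrix ι ι ℂ, B * C = C * B → B * N = N * B := fun B hB =>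
      h1 ι C N B hN hB
    have hCN : X.Com ℂ N :=
      ⟨fun x => (hcm _ (hC.1 x).symm).symm, (hcm _ hC.2.symm).symm⟩
    have h3 := htr N hCN (fun B hB => (hcm B (hcomm B hB).symm).symm)
    obtain ⟨d, hd⟩ := Tan.pow_proj C N z hN
    have hCN' : C * N = N * C := hcm C rfl
    have hcomm2 : Commute (C - z • (1 : Matrix ι ι ℂ)) N := by
      unfold Commute SemiconjBy
      rw [sub_mul, mul_sub, hCN', smul_mul_assoc, mul_smul_comm, one_mul, mul_one]
    have hnil : IsNilpotent ((C - z • (1 : Matrix ι ι ℂ)) * N) := by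
      refine ⟨d + 1, ?_⟩
      rw [hcomm2.mul_pow, pow_succ' (C - z • (1 : Matrix ι ι ℂ)) d, pow_succ' N d, mul_assoc,
        ← mul_assoc _ N, hd, zero_mul, mul_zero]
    have h4 := (Matrix.isNilpotent_trace_of_isNilpotent hnil).eq_zero
    rw [sub_mul, Matrix.trace_sub, h3, zero_sub, neg_eq_zero, smul_mul_assoc, one_mul,
      Matrix.trace_smul, h2, Tan.sum_ind, smul_eq_mul, mul_eq_zero] at h4
    rcases h4 with h4 | h4
    · exact h4
    · exfalso
      have h5 : 0 < C.charpoly.roots.count z := Multiset.count_pos.2 hz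
      rw [Nat.cast_eq_zero] at h4
      omega
  have hnil' : IsNilpotent C := by
    refine ⟨Multiset.card C.charpoly.roots, ?_⟩
    have h1 : C.charpoly.roots = Multiset.replicate (Multiset.card C.charpoly.roots) 0 :=
      Multiset.eq_replicate.2 ⟨rfl, hroot⟩
    have h2 : C.charpoly =
        (C.charpoly.roots.map fun a => (Polynomial.X : Polynomial ℂ) - Polynomial.C a).prod :=
      (IsAlgClosed.splits C.charpoly).eq_prod_roots_of_monic (Matrix.charpoly_monic C)
    have h3 : C.charpoly = (Polynomial.X : Polynomial ℂ) ^ Multiset.card C.charpoly.roots := by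
      conv_lhs => rw [h2, h1]
      rw [Multiset.map_replicate, Multiset.prod_replicate, map_zero, sub_zero]
    have h4 := Matrix.aeval_self_charpoly C
    rw [h3, map_pow, aeval_X] at h4
    exact h4
  apply (hNDG ι X hX ℂ C hC).2
  intro B' hB'
  have h1 : X.Com ℂ (B'.map (algebraMap ℚ ℂ)) := Tan.com_map X hB'
  have h2 : Commute C (B'.map (algebraMap ℚ ℂ)) := hcomm _ h1
  exact (Matrix.isNilpotent_trace_of_isNilpotent (h2.isNilpotent_mul_right hnil')).eq_zero

/-- what commutes with the commutant over the rational numbers commutes with the commutant -/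
theorem comm_ext (hNDG : S_NDG) (X : Coh ι) (hX : IsHyperKahler X) {Ω : Type} [Field Ω]
    [CharZero Ω] (z : Matrix ι ι Ω)
    (hz : ∀ B : Matrix ι ι ℚ, X.Com ℚ B →
      z * B.map (algebraMap ℚ Ω) = B.map (algebraMap ℚ Ω) * z) (B : Matrix ι ι Ω)
    (hB : X.Com Ω B) : z * B = B * z := by
  have h1 := (hNDG ι X hX Ω B hB).1
  clear hB
  induction h1 using Submodule.span_induction with
  | mem x hx =>
    obtain ⟨B', hB', rfl⟩ := hx
    exact hz B' hB'
  | zero => rw [mul_zero, zero_mul]
  | add a b _ _ ha hb => rw [mul_add, add_mul, ha, hb]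
  | smul c a _ ha => rw [Matrix.mul_smul, Matrix.smul_mul, ha]

theorem mapsm {n F G : Type} [Field F] [Field G] (c : F →+* G) (r : F) (A : Matrix n n F) :
    (r • A).map c = c r • A.map c := by
  ext i j
  change c (r * A i j) = c r * c (A i j)
  exact map_mul c _ _

theorem mapsum {n F G κ : Type} [Field F] [Field G] (c : F →+* G) (s : Finset κ)
    (A : κ → Matrix n n F) : (∑ k ∈ s, A k).map c = ∑ k ∈ s, (A k).map c := by
  ext i j
  rw [Matrix.map_apply, Matrix.sum_apply, map_sum, Matrix.sum_apply]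
  rfl

end Ctr

open Ctr in
theorem t_CTR (hFUN : S_FUN) (hNDG : S_NDG) : S_CTR := by
  classical
  intro ι _ _ X hX Ω _ _ _ σ C hC hcomm htr
  -- rational central elements
  have h1 : ∀ z : Matrix ι ι ℚ, X.Com ℚ z → (∀ B : Matrix ι ι ℚ, X.Com ℚ B → z * B = B * z) →
      (C * z.map (algebraMap ℚ ℂ)).trace = 0 := by
    intro z hz hzB
    obtain ⟨z', hz'⟩ : ∃ z' : Matrix ι ι Ω, z' = z.map (algebraMap ℚ Ω) := ⟨_, rfl⟩
    have hcz : X.Com Ω z' := by rw [hz']; exact Tan.com_map X hz
    have hcB : ∀ B, X.Com Ω B → z' * B = B * z' := by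
      refine comm_ext hNDG X hX z' ?_
      intro B hB
      rw [hz', ← Matrix.map_mul, hzB B hB, Matrix.map_mul]
    -- the semisimple part
    obtain ⟨⟨s, hs⟩, h0⟩ := hFUN Ω ι (fun a => a) z'
    obtain ⟨f1, -, f3, -⟩ := h0 s hs
    have hcm : ∀ B : Matrix ι ι Ω, B * z' = z' * B → B * s = s * B := fun B hB =>
      f1 ι z' s B hs hB
    have hcs : X.Com Ω s := ⟨fun x => (hcm _ (hcz.1 x).symm).symm, (hcm _ hcz.2.symm).symm⟩
    have hzs : z' = s := by
      have hcν : X.Com Ω (z' - s) := by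
        refine ⟨fun x => ?_, ?_⟩
        · rw [sub_mul, mul_sub, hcz.1 x, hcs.1 x]
        · rw [sub_mul, mul_sub, hcz.2, hcs.2]
      have h2 : z' - s = 0 := by
        apply (hNDG ι X hX Ω _ hcν).2
        intro B' hB'
        have h3 : X.Com Ω (B'.map (algebraMap ℚ Ω)) := Tan.com_map X hB'
        have h4 : Commute (z' - s) (B'.map (algebraMap ℚ Ω)) := by
          unfold Commute SemiconjBy
          rw [sub_mul, mul_sub, hcB _ h3, hcm _ (hcB _ h3).symm]
        exact (Matrix.isNilpotent_trace_of_isNilpotent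
          (h4.isNilpotent_mul_right (nil_part z' s hs))).eq_zero
      exact sub_eq_zero.1 h2
    -- spectral projectors
    have hex : ∀ a : Ω, ∃ N, IsFn (fun b => if b = a then (1 : Ω) else 0) z' N := fun a =>
      (hFUN Ω ι (fun b => if b = a then (1 : Ω) else 0) z').1
    choose e he using hex
    have hce : ∀ a (B : Matrix ι ι Ω), B * z' = z' * B → B * e a = e a * B := fun a B hB =>
      ((hFUN Ω ι (fun b => if b = a then (1 : Ω) else 0) z').2 (e a) (he a)).1 ι z' (e a) B
        (he a) hB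
    have hCe : ∀ a, X.Com Ω (e a) := fun a =>
      ⟨fun x => (hce a _ (hcz.1 x).symm).symm, (hce a _ hcz.2.symm).symm⟩
    have hsum : z' = ∑ a ∈ z'.charpoly.roots.toFinset, a • e a := by
      apply ext_gen z'
      intro a k x hx
      have e1 : z' *ᵥ x = a • x := by
        conv_lhs => rw [hzs]
        exact hs a k x hx
      rw [e1, Matrix.sum_mulVec]
      by_cases hx0 : x = 0
      · rw [hx0, smul_zero]
        symm
        exact Finset.sum_eq_zero fun b _ => Matrix.mulVec_zero _
      · have e2 : a ∈ z'.charpoly.roots.toFinset := by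
          obtain ⟨b, hb1, hb2⟩ := f3 a x hx0 (hs a k x hx)
          have hb3 : b = a := hb2
          rw [hb3] at hb1
          rw [Multiset.mem_toFinset, mem_roots (Matrix.charpoly_monic z').ne_zero]
          exact hb1
        rw [Finset.sum_eq_single a]
        · rw [Matrix.smul_mulVec, he a a k x hx]
          dsimp only
          rw [if_pos rfl, one_smul]
        · intro b _ hb
          rw [Matrix.smul_mulVec, he b a k x hx]
          dsimp only
          rw [if_neg (fun h => hb h.symm), zero_smul, smul_zero]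
        · intro h
          exact absurd e2 h
    have hmap : z.map (algebraMap ℚ ℂ) = z'.map σ := by
      rw [hz']
      ext i j
      change algebraMap ℚ ℂ (z i j) = σ (algebraMap ℚ Ω (z i j))
      rw [eq_ratCast (algebraMap ℚ ℂ), eq_ratCast (algebraMap ℚ Ω), map_ratCast]
    rw [hmap]
    rw [hsum, mapsum, Finset.mul_sum, Matrix.trace_sum]
    refine Finset.sum_eq_zero fun a _ => ?_
    rw [mapsm, Matrix.mul_smul, Matrix.trace_smul,
      htr (e a) (hCe a) (fn_idem z' (e a) a (he a)) (fun B hB => (hce a B (hcB B hB).symm).symm),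
      smul_zero]
  -- central elements
  have h2 : ∀ W : Matrix ι ι ℂ, X.Com ℂ W → (∀ B, X.Com ℂ B → W * B = B * W) →
      (C * W).trace = 0 := by
    intro W hW hWB
    obtain ⟨s, hs⟩ := NDG.span_crd (Module.Basis.ofVectorSpace ℚ ℂ) W
    rw [hs, Finset.mul_sum, Matrix.trace_sum]
    refine Finset.sum_eq_zero fun k _ => ?_
    rw [Matrix.mul_smul, Matrix.trace_smul, h1 _ (NDG.crd_com X _ k W hW) ?_, smul_zero]
    intro B hB
    rw [← NDG.crd_mul, ← NDG.crd_mul', hWB _ (Tan.com_map X hB)]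
  exact lin' hFUN hNDG X hX C hC hcomm h2

end Pool.Agent.NH56.HL
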