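import Pool.Agent.NH56.HL.Stm

/-!
# HL-DEC: the decomposition of the semisimple part
-/

set_option autoImplicit false
set_option linter.unusedSectionVars false

namespace Pool.Agent.NH56.HL

open Matrix Polynomial Pool.Agent.NH56.HY Pool.Agent.NH56.HO

namespace DecAux

section graded

variable {ι : Type} [Fintype ι] [DecidableEq ι] {F : Type} [Field F] {deg : ι → ℕ}

theorem blk_mul {M : Matrix ι ι F} (hM : IsGraded deg M) (M' : Matrix ι ι F) (j : ℕ) :
    blk deg j (M * M') = blk deg j M * blk deg j M' := by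
  ext a b
  unfold blk
  rw [Matrix.submatrix_apply, Matrix.mul_apply, Matrix.mul_apply]
  have h : ∀ c : ι, c ∉ (Finset.univ.filter fun c => deg c = j) → M a.1 c * M' c b.1 = 0 := by
    intro c hc
    rw [hM a.1 c, zero_mul]
    intro h
    apply hc
    rw [Finset.mem_filter]
    exact ⟨Finset.mem_univ _, by rw [← h]; exact a.2⟩
  rw [← Finset.sum_subset (Finset.subset_univ (Finset.univ.filter fun c => deg c = j))
    (fun c _ hc => h c hc)]
  rw [Finset.sum_subtype (p := fun c => deg c = j) _ (by intro x; simp)]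
  rfl

theorem blk_one (j : ℕ) : blk deg j (1 : Matrix ι ι F) = 1 := by
  ext a b
  unfold blk
  rw [Matrix.submatrix_apply, Matrix.one_apply, Matrix.one_apply]
  simp only [Subtype.ext_iff]

theorem graded_comm {M : Matrix ι ι F} (h : IsGraded deg M) :
    M * Matrix.diagonal (fun a => (deg a : F)) = Matrix.diagonal (fun a => (deg a : F)) * M := by
  ext a b
  rw [Matrix.mul_diagonal, Matrix.diagonal_mul]
  by_cases hab : deg a = deg b
  · rw [hab, mul_comm]
  · rw [h a b hab, zero_mul, mul_zero]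

theorem graded_of_comm [CharZero F] {M : Matrix ι ι F}
    (h : M * Matrix.diagonal (fun a => (deg a : F)) = Matrix.diagonal (fun a => (deg a : F)) * M) :
    IsGraded deg M := by
  intro a b hab
  have h1 := congrFun (congrFun h a) b
  rw [Matrix.mul_diagonal, Matrix.diagonal_mul] at h1
  have h2 : ((deg a : F) - deg b) * M a b = 0 := by rw [sub_mul, ← h1]; ring
  rcases mul_eq_zero.1 h2 with h3 | h3
  · exact absurd (Nat.cast_injective (sub_eq_zero.1 h3)) hab
  · exact h3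

theorem graded_mul {M N : Matrix ι ι F} (hM : IsGraded deg M) (hN : IsGraded deg N) :
    IsGraded deg (M * N) := by
  intro a b hab
  rw [Matrix.mul_apply]
  refine Finset.sum_eq_zero fun c _ => ?_
  by_cases h : deg a = deg c
  · rw [hN c b (by rw [← h]; exact hab), mul_zero]
  · rw [hM a c h, zero_mul]

theorem graded_one : IsGraded deg (1 : Matrix ι ι F) := by
  intro a b hab
  rw [Matrix.one_apply_ne]
  intro h
  exact hab (by rw [h])

/-- extension of a vector by zero -/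
def ex (deg : ι → ℕ) (j : ℕ) (x : {a // deg a = j} → F) : ι → F :=
  fun a => if h : deg a = j then x ⟨a, h⟩ else 0

theorem ex_inj {j : ℕ} {x y : {a // deg a = j} → F} (h : ex deg j x = ex deg j y) : x = y := by
  funext a
  have h1 := congrFun h a.1
  unfold ex at h1
  rw [dif_pos a.2, dif_pos a.2] at h1
  exact h1

theorem ex_smul {j : ℕ} (c : F) (x : {a // deg a = j} → F) :
    ex deg j (c • x) = c • ex deg j x := by
  funext a
  unfold ex
  by_cases h : deg a = j
  · simp [h]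
  · simp [h]

theorem ex_zero {j : ℕ} : ex deg j (0 : {a // deg a = j} → F) = 0 := by
  funext a
  unfold ex
  by_cases h : deg a = j
  · simp [h]
  · simp [h]

theorem mulVec_ex {M : Matrix ι ι F} (hM : IsGraded deg M) {j : ℕ} (x : {a // deg a = j} → F) :
    M *ᵥ ex deg j x = ex deg j (blk deg j M *ᵥ x) := by
  funext a
  have h0 : (M *ᵥ ex deg j x) a = ∑ c : {c // deg c = j}, M a c.1 * x c := by
    have h1 : (M *ᵥ ex deg j x) a = ∑ c, M a c * ex deg j x c := rfl
    rw [h1]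
    have h : ∀ c : ι, c ∉ (Finset.univ.filter fun c => deg c = j) → M a c * ex deg j x c = 0 := by
      intro c hc
      have h2 : ¬ deg c = j := by
        intro h
        apply hc
        rw [Finset.mem_filter]
        exact ⟨Finset.mem_univ _, h⟩
      unfold ex
      rw [dif_neg h2, mul_zero]
    rw [← Finset.sum_subset (Finset.subset_univ (Finset.univ.filter fun c => deg c = j))
      (fun c _ hc => h c hc)]
    rw [Finset.sum_subtype (p := fun c => deg c = j) _ (by intro x; simp)]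
    refine Finset.sum_congr rfl fun c _ => ?_
    unfold ex
    rw [dif_pos c.2]
  rw [h0]
  by_cases ha : deg a = j
  · have h2 : ex deg j (blk deg j M *ᵥ x) a = (blk deg j M *ᵥ x) ⟨a, ha⟩ := by
      unfold ex
      rw [dif_pos ha]
    rw [h2]
    rfl
  · have h2 : ex deg j (blk deg j M *ᵥ x) a = 0 := by
      unfold ex
      rw [dif_neg ha]
    rw [h2]
    refine Finset.sum_eq_zero fun c _ => ?_
    rw [hM a c.1 (by rw [c.2]; exact ha), zero_mul]

theorem graded_sub_smul {M : Matrix ι ι F} (hM : IsGraded deg M) (a : F) :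
    IsGraded deg (M - a • (1 : Matrix ι ι F)) := by
  intro b c hbc
  rw [Matrix.sub_apply, Matrix.smul_apply, hM b c hbc, graded_one b c hbc, smul_zero, sub_zero]

theorem graded_pow {M : Matrix ι ι F} (hM : IsGraded deg M) (k : ℕ) : IsGraded deg (M ^ k) := by
  induction k with
  | zero => rw [pow_zero]; exact graded_one
  | succ k ih => rw [pow_succ]; exact graded_mul ih hM

theorem blk_pow {M : Matrix ι ι F} (hM : IsGraded deg M) (j k : ℕ) :
    blk deg j (M ^ k) = (blk deg j M) ^ k := by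
  induction k with
  | zero => rw [pow_zero, pow_zero, blk_one]
  | succ k ih => rw [pow_succ, blk_mul (graded_pow hM k), ih, pow_succ]

theorem blk_sub_smul (M : Matrix ι ι F) (a : F) (j : ℕ) :
    blk deg j (M - a • (1 : Matrix ι ι F)) = blk deg j M - a • (1 : Matrix _ _ F) := by
  rw [← blk_one (deg := deg) j]
  rfl

theorem fn_blk {R S : Matrix ι ι F} (hR : IsGraded deg R) (hS : IsGraded deg S)
    (h : IsFn (fun a => a) R S) (j : ℕ) : IsFn (fun a => a) (blk deg j R) (blk deg j S) := by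
  intro a k x hx
  have h1 : ((R - a • (1 : Matrix ι ι F)) ^ k) *ᵥ ex deg j x = 0 := by
    rw [mulVec_ex (graded_pow (graded_sub_smul hR a) k), blk_pow (graded_sub_smul hR a),
      blk_sub_smul, hx, ex_zero]
  have h2 := h a k _ h1
  rw [mulVec_ex hS, ← ex_smul] at h2
  exact ex_inj h2

theorem graded_inv [CharZero F] {S S' : Matrix ι ι F} (hS : IsGraded deg S) (h : S * S' = 1) :
    IsGraded deg S' := by
  apply graded_of_comm
  have h' : S' * S = 1 := mul_eq_one_comm.1 h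
  have h1 := graded_comm hS
  calc S' * Matrix.diagonal (fun a => (deg a : F))
      = S' * (Matrix.diagonal (fun a => (deg a : F)) * (S * S')) := by rw [h, mul_one]
    _ = S' * ((Matrix.diagonal (fun a => (deg a : F)) * S) * S') := by rw [Matrix.mul_assoc _ S S']
    _ = S' * ((S * Matrix.diagonal (fun a => (deg a : F))) * S') := by rw [← h1]
    _ = (S' * S) * (Matrix.diagonal (fun a => (deg a : F)) * S') := by
        simp only [Matrix.mul_assoc]
    _ = Matrix.diagonal (fun a => (deg a : F)) * S' := by rw [h', one_mul]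

end graded

/-! ### Skew and selfadjoint matrices -/

section skew

variable {n : Type} [Fintype n] [DecidableEq n]

theorem decomp (q : Matrix n n ℂ) (hq : qᵀ = q) (hd : q.det ≠ 0) (x : Matrix n n ℂ) :
    ∃ y w : Matrix n n ℂ, x = y + w ∧ yᵀ * q + q * y = 0 ∧ wᵀ * q = q * w := by
  have hu : IsUnit q.det := isUnit_iff_ne_zero.2 hd
  have h1 : q * q⁻¹ = 1 := Matrix.mul_nonsing_inv q hu
  have h2 : q⁻¹ * q = 1 := Matrix.nonsing_inv_mul q hu
  have h3 : (q⁻¹)ᵀ = q⁻¹ := by rw [Matrix.transpose_nonsing_inv, hq]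
  have h4 : (q⁻¹ * xᵀ * q)ᵀ * q = q * x := by
    rw [Matrix.transpose_mul, Matrix.transpose_mul, Matrix.transpose_transpose, h3, hq]
    rw [Matrix.mul_assoc, Matrix.mul_assoc, h2, mul_one]
  have h5 : q * (q⁻¹ * xᵀ * q) = xᵀ * q := by
    rw [Matrix.mul_assoc, ← Matrix.mul_assoc q, h1, one_mul]
  refine ⟨(2 : ℂ)⁻¹ • (x - q⁻¹ * xᵀ * q), (2 : ℂ)⁻¹ • (x + q⁻¹ * xᵀ * q), ?_, ?_, ?_⟩
  · rw [← smul_add, sub_add_add_cancel, ← two_smul ℂ, smul_smul, inv_mul_cancel₀ two_ne_zero, one_smul]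
  · rw [Matrix.transpose_smul, Matrix.transpose_sub, Matrix.smul_mul, Matrix.mul_smul, ← smul_add,
      Matrix.sub_mul, Matrix.mul_sub, h4, h5, sub_add_sub_cancel, sub_self, smul_zero]
  · rw [Matrix.transpose_smul, Matrix.transpose_add, Matrix.smul_mul, Matrix.mul_smul,
      Matrix.add_mul, Matrix.mul_add, h4, h5, add_comm]

theorem selfadj {q R R' w : Matrix n n ℂ} {μ : ℂ} (hR : R * R' = 1)
    (hs : Rᵀ * q * R = μ • q) (hw : wᵀ * q = q * w) :
    (R * w * R')ᵀ * q = q * (R * w * R') := by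
  have hR' : R' * R = 1 := mul_eq_one_comm.1 hR
  have h1 : Rᵀ * q = μ • (q * R') := by
    calc Rᵀ * q = Rᵀ * q * (R * R') := by rw [hR, mul_one]
      _ = (Rᵀ * q * R) * R' := by simp only [Matrix.mul_assoc]
      _ = μ • (q * R') := by rw [hs, Matrix.smul_mul]
  have h2 : q * R = μ • (R'ᵀ * q) := by
    calc q * R = (R * R')ᵀ * (q * R) := by rw [hR, Matrix.transpose_one, one_mul]
      _ = R'ᵀ * (Rᵀ * q * R) := by rw [Matrix.transpose_mul]; simp only [Matrix.mul_assoc]
      _ = μ • (R'ᵀ * q) := by rw [hs, Matrix.mul_smul]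
  rw [Matrix.transpose_mul, Matrix.transpose_mul]
  calc R'ᵀ * (wᵀ * Rᵀ) * q = R'ᵀ * (wᵀ * (Rᵀ * q)) := by simp only [Matrix.mul_assoc]
    _ = μ • (R'ᵀ * (wᵀ * q) * R') := by
        rw [h1, Matrix.mul_smul, Matrix.mul_smul]; simp only [Matrix.mul_assoc]
    _ = (μ • (R'ᵀ * q)) * (w * R') := by
        rw [hw, Matrix.smul_mul]; simp only [Matrix.mul_assoc]
    _ = q * (R * w * R') := by rw [← h2]; simp only [Matrix.mul_assoc]

end skew

theorem inv_unique {n : Type} [Fintype n] [DecidableEq n] {S S' S'' : Matrix n n ℂ}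
    (h : S * S' = 1) (h' : S * S'' = 1) : S' = S'' := by
  have h1 : S' * S = 1 := mul_eq_one_comm.1 h
  calc S' = S' * (S * S'') := by rw [h', mul_one]
    _ = (S' * S) * S'' := by rw [Matrix.mul_assoc]
    _ = S'' := by rw [h1, one_mul]

theorem pow_smul_sub {n : Type} [Fintype n] [DecidableEq n] (S : Matrix n n ℂ) {κ : ℂ}
    (hκ : κ ≠ 0) (a : ℂ) (k : ℕ) :
    (κ⁻¹ • S - a • (1 : Matrix n n ℂ)) ^ k =
      κ⁻¹ ^ k • (S - (κ * a) • (1 : Matrix n n ℂ)) ^ k := by
  rw [← _root_.smul_pow, smul_sub, smul_smul, inv_mul_cancel_left₀ hκ]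

theorem isDiag_smul {n : Type} [Fintype n] [DecidableEq n] {S : Matrix n n ℂ} {κ : ℂ}
    (hκ : κ ≠ 0) (h : HO.IsDiag S) : HO.IsDiag (κ⁻¹ • S) := by
  intro a k x hx
  rw [pow_smul_sub S hκ, Matrix.smul_mulVec] at hx
  have h1 : ((S - (κ * a) • (1 : Matrix n n ℂ)) ^ k) *ᵥ x = 0 := by
    rcases smul_eq_zero.1 hx with h2 | h2
    · exact absurd h2 (pow_ne_zero _ (inv_ne_zero hκ))
    · exact h2
  have h2 := h _ _ _ h1
  rw [Matrix.smul_mulVec, h2, smul_smul, inv_mul_cancel_left₀ hκ]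

end DecAux

open DecAux

theorem t_DEC (hFUN : S_FUN) (hMUL : S_MUL) (hEXM : S_EXM) (hEXP : S_EXP) (hFRM : S_FRM)
    (hFRC : S_FRC) (hBAS : S_BAS) : S_DEC := by
  intro ι _ _ X hX R R' κ hR
  obtain ⟨S, hS⟩ := (hFUN ℂ ι (fun a => a) R).1
  obtain ⟨⟨S', hSS'⟩, -, -, -, -, hcomm, -, hconj⟩ := hMUL ι R R' S hR.mul hS
  obtain ⟨bAdd, bSmul, bRat, bSelf, bSkew, -, bGr, -, -⟩ := hBAS ι X hX ℂ
  have hSg : IsGraded X.deg S := graded_of_comm (hcomm _ (graded_comm hR.graded).symm).symm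
  have hSg' : IsGraded X.deg S' := graded_inv hSg hSS'
  set q := X.qF ℂ with hqdef
  have hq : qᵀ = q := by
    rw [hqdef]; unfold Coh.qF
    rw [← Matrix.transpose_map, hX.symm]
  have hqd : q.det ≠ 0 := by
    rw [hqdef]; unfold Coh.qF
    have h1 : (X.q.map (algebraMap ℚ ℂ)).det = algebraMap ℚ ℂ X.q.det :=
      (RingHom.map_det (algebraMap ℚ ℂ) X.q).symm
    rw [h1]
    exact (_root_.map_ne_zero _).2 hX.nondeg
  have hR2 : blk X.deg 2 R * blk X.deg 2 R' = 1 := by
    rw [← blk_mul hR.graded, hR.mul, blk_one]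
  have hS2i : blk X.deg 2 S * blk X.deg 2 S' = 1 := by
    rw [← blk_mul hSg, hSS', blk_one]
  have hS2 : IsFn (fun a => a) (blk X.deg 2 R) (blk X.deg 2 S) := fn_blk hR.graded hSg hS 2
  have hκ : κ ≠ 0 := by
    intro h0
    have h1 := hR.det
    have h2 : (blk X.deg 2 R).det * (blk X.deg 2 R').det = 1 := by
      rw [← Matrix.det_mul, hR2, Matrix.det_one]
    rw [h1, h0, zero_pow (by have := hX.betti; omega), zero_mul] at h2
    exact zero_ne_one h2
  obtain ⟨-, hchar, hdiag, -, -, -, hsim, -⟩ := hMUL _ _ _ _ hR2 hS2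
  have hS2q := hsim q (κ ^ 2) hR.sim
  set S₂ := blk X.deg 2 S with hS₂
  have hdet : S₂.det = κ ^ Fintype.card {a // X.deg a = 2} := by
    rw [Matrix.det_eq_sign_charpoly_coeff, hchar, ← Matrix.det_eq_sign_charpoly_coeff, hR.det]
  have ht1 : (κ⁻¹ • S₂)ᵀ * q * (κ⁻¹ • S₂) = q := by
    rw [Matrix.transpose_smul, Matrix.smul_mul, Matrix.smul_mul, Matrix.mul_smul, hS2q, smul_smul,
      smul_smul]
    have : κ⁻¹ * (κ⁻¹ * κ ^ 2) = 1 := by field_simp
    rw [show κ⁻¹ * κ⁻¹ * κ ^ 2 = 1 by rw [mul_assoc]; exact this, one_smul]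
  have ht2 : (κ⁻¹ • S₂).det = 1 := by
    rw [Matrix.det_smul, hdet, ← mul_pow, inv_mul_cancel₀ hκ, one_pow]
  have ht3 : (κ⁻¹ • S₂).charpoly.IsRoot 1 := by
    have h1 : S₂.charpoly.IsRoot κ := by rw [hchar]; exact hR.eig
    rw [Polynomial.IsRoot, Matrix.eval_charpoly] at h1 ⊢
    have h2 : Matrix.scalar _ (1 : ℂ) - κ⁻¹ • S₂ = κ⁻¹ • (Matrix.scalar _ κ - S₂) := by
      rw [smul_sub]
      congr 1
      ext a b
      simp [Matrix.scalar_apply, Matrix.diagonal_apply, hκ]
    rw [h2, Matrix.det_smul, h1, mul_zero]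
  obtain ⟨s, e, u, u', z, c, he1, he2, hcard, hframe, hc, hacts⟩ :=
    hFRM _ q (κ⁻¹ • S₂) hq hqd ht1 ht2 (isDiag_smul hκ hdiag) ht3
  obtain ⟨-, funi, -, fskew, fu, fv, fz, -, -, -⟩ := hFRC _ q hq s e u u' z hcard hframe
  -- the element of the Lie algebra
  set x₀ : Matrix {a // X.deg a = 2} {a // X.deg a = 2} ℂ :=
    ∑ i, Complex.log (c i) • wd q (u i) (u' i) with hx₀
  have hexp : ∀ i, Complex.exp (Complex.log (c i)) = c i := fun i => Complex.exp_log (hc i)
  have hx₀s : X.IsSkew ℂ x₀ := by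
    unfold Coh.IsSkew
    rw [← hqdef, hx₀, Matrix.transpose_sum, Finset.sum_mul, Finset.mul_sum,
      ← Finset.sum_add_distrib]
    refine Finset.sum_eq_zero fun i _ => ?_
    rw [Matrix.transpose_smul, Matrix.smul_mul, Matrix.mul_smul, ← smul_add, fskew i, smul_zero]
  have hx₀u : ∀ j, x₀ *ᵥ u j = Complex.log (c j) • u j := by
    intro j
    rw [hx₀, Matrix.sum_mulVec, Finset.sum_eq_single j]
    · rw [Matrix.smul_mulVec, fu j j, if_pos rfl]
    · intro i _ hij
      rw [Matrix.smul_mulVec, fu i j, if_neg hij, smul_zero]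
    · intro h; exact absurd (Finset.mem_univ j) h
  have hx₀v : ∀ j, x₀ *ᵥ u' j = (-Complex.log (c j)) • u' j := by
    intro j
    rw [hx₀, Matrix.sum_mulVec, Finset.sum_eq_single j]
    · rw [Matrix.smul_mulVec, fv j j, if_pos rfl, smul_neg, neg_smul]
    · intro i _ hij
      rw [Matrix.smul_mulVec, fv i j, if_neg hij, smul_zero]
    · intro h; exact absurd (Finset.mem_univ j) h
  have hx₀z : ∀ k, x₀ *ᵥ z k = (0 : ℂ) • z k := by
    intro k
    rw [hx₀, Matrix.sum_mulVec, zero_smul]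
    refine Finset.sum_eq_zero fun i _ => ?_
    rw [Matrix.smul_mulVec, fz i k, smul_zero]
  obtain ⟨-, -, heig, -, -, -, -⟩ := hEXM _ x₀
  have hxt : NormedSpace.exp x₀ = κ⁻¹ • S₂ := by
    refine funi _ _ ?_ ?_ ?_
    · intro i
      rw [heig _ _ (hx₀u i), hexp, hacts.u]
    · intro i
      rw [heig _ _ (hx₀v i), Complex.exp_neg, hexp, hacts.v]
    · intro k
      rw [heig _ _ (hx₀z k), Complex.exp_zero, one_smul, hacts.z]
  have hL := hEXP ι X hX x₀ hx₀s
  rw [hxt] at hL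
  set t' := NormedSpace.exp (-x₀) with ht'
  set A := NormedSpace.exp (X.δF ℂ x₀) with hA
  set A' := NormedSpace.exp (-(X.δF ℂ x₀)) with hA'
  have hAA : A' * A = 1 := mul_eq_one_comm.1 hL.mul
  -- the linear map
  let d : Matrix {a // X.deg a = 2} {a // X.deg a = 2} ℂ →ₗ[ℂ] Matrix ι ι ℂ :=
    { toFun := X.δF ℂ
      map_add' := bAdd
      map_smul' := fun r x => bSmul r x }
  have hdR : ∀ x, R * d x * R' = d (blk X.deg 2 R * x * blk X.deg 2 R') := by
    intro x
    obtain ⟨y, w, hx, hy, hw⟩ := decomp q hq hqd x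
    have h1 : X.δF ℂ x = X.δF ℂ y := by rw [hx, bAdd, bSelf w hw, add_zero]
    have h2 : X.δF ℂ (blk X.deg 2 R * x * blk X.deg 2 R') =
        X.δF ℂ (blk X.deg 2 R * y * blk X.deg 2 R') := by
      rw [hx, Matrix.mul_add, Matrix.add_mul, bAdd, bSelf _ (selfadj hR2 hR.sim hw), add_zero]
    change R * X.δF ℂ x * R' = X.δF ℂ (blk X.deg 2 R * x * blk X.deg 2 R')
    rw [h1, h2, hR.conj y hy]
  have hSd : ∀ x, S * X.δF ℂ x = X.δF ℂ (S₂ * x * blk X.deg 2 S') * S :=
    hconj _ _ _ _ _ d hR2 hS2 hS2i hdR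
  have hS2' : blk X.deg 2 S' = κ⁻¹ • t' := by
    refine inv_unique hS2i ?_
    have h1 := hL.mul'
    rw [Matrix.smul_mul] at h1
    rw [Matrix.mul_smul]
    exact h1
  have hSt : ∀ x, S₂ * x * blk X.deg 2 S' = (κ⁻¹ • S₂) * x * t' := by
    intro x
    rw [hS2', Matrix.mul_smul, Matrix.smul_mul, Matrix.smul_mul]
  have hBd : ∀ x, (A' * S) * X.δF ℂ x = X.δF ℂ x * (A' * S) := by
    intro x
    obtain ⟨y, hy, hxy⟩ := bSkew x
    rw [← hxy]
    have h1 : A' * X.δF ℂ ((κ⁻¹ • S₂) * y * t') = X.δF ℂ y * A' := by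
      rw [← hL.conj y hy]
      calc A' * (A * X.δF ℂ y * A') = (A' * A) * (X.δF ℂ y * A') := by
            simp only [Matrix.mul_assoc]
        _ = X.δF ℂ y * A' := by rw [hAA, one_mul]
    calc (A' * S) * X.δF ℂ y = A' * (S * X.δF ℂ y) := by rw [Matrix.mul_assoc]
      _ = (A' * X.δF ℂ ((κ⁻¹ • S₂) * y * t')) * S := by
          rw [hSd, hSt, ← Matrix.mul_assoc]
      _ = X.δF ℂ y * (A' * S) := by rw [h1, Matrix.mul_assoc]
  have hCom : X.Com ℂ (A' * S) := by
    refine ⟨?_, graded_comm (graded_mul hL.graded' hSg)⟩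
    intro x
    rw [← bRat x]
    exact hBd _
  have hcomAB := hL.com _ hCom
  have hAB : A * (A' * S) = S := by rw [← Matrix.mul_assoc, hL.mul, one_mul]
  refine ⟨s, e, u, u', z, c, S, A, A' * S, ?_⟩
  refine ⟨he1, he2, hcard, hframe, hc, hκ, hS, hacts, hCom, hAB.symm, ?_, ⟨hSg, hL.graded⟩, ?_⟩
  · rw [← hcomAB, hAB]
  · intro j μ x hx
    have h1 : ∀ i, X.δF ℂ (wd q (u i) (u' i)) *ᵥ ex X.deg j x = (μ i : ℂ) • ex X.deg j x := by
      intro i
      rw [mulVec_ex (bGr _), hx i, ex_smul]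
    have h2 : X.δF ℂ x₀ = ∑ i, Complex.log (c i) • X.δF ℂ (wd q (u i) (u' i)) := by
      have h3 : d x₀ = ∑ i, Complex.log (c i) • d (wd q (u i) (u' i)) := by
        rw [hx₀, map_sum]
        refine Finset.sum_congr rfl fun i _ => ?_
        rw [map_smul]
      exact h3
    have h3 : X.δF ℂ x₀ *ᵥ ex X.deg j x = (∑ i, Complex.log (c i) * (μ i : ℂ)) • ex X.deg j x := by
      rw [h2, Matrix.sum_mulVec, Finset.sum_smul]
      refine Finset.sum_congr rfl fun i _ => ?_
      rw [Matrix.smul_mulVec, h1 i, smul_smul]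
    have h4 := (hEXM _ (X.δF ℂ x₀)).2.2.1 _ _ h3
    have h5 : Complex.exp (∑ i, Complex.log (c i) * (μ i : ℂ)) = ∏ i, c i ^ μ i := by
      rw [Complex.exp_sum]
      refine Finset.prod_congr rfl fun i _ => ?_
      rw [mul_comm, Complex.exp_int_mul, hexp]
    rw [h5] at h4
    apply ex_inj (deg := X.deg)
    rw [← mulVec_ex hL.graded, ex_smul]
    exact h4

end Pool.Agent.NH56.HL
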