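import Pool.Agent.NH56.HO.Def

/-!
# Local Euler factors of hyper-Kähler varieties at all places: definitions
-/

set_option autoImplicit false

namespace Pool.Agent.NH56.HL

open Matrix Polynomial Filter Topology NumberField IsDedekindDomain Pool.Agent.NH56.HY

/-- `g` acts on the residue field of `Q` as `x ↦ x ^ q`. If the place below `Q` has a residue field
with `q` elements these are the arithmetic Frobenius elements at `Q`. -/
def FrobeniusAt {K : Type} [Field K] (Q : Ideal (𝓞 (AlgebraicClosure K))) (q : ℕ) (g : GK K) : Prop :=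
  ∀ x : 𝓞 (AlgebraicClosure K), g • x - x ^ q ∈ Q

/-- `Q` is a maximal ideal of the ring of all algebraic integers above the place `v` of `K` -/
def Above {K : Type} [Field K] [NumberField K] (v : HeightOneSpectrum (𝓞 K))
    (Q : Ideal (𝓞 (AlgebraicClosure K))) : Prop :=
  Q.IsMaximal ∧ Q.comap (algebraMap (𝓞 K) (𝓞 (AlgebraicClosure K))) = v.asIdeal

/-- the vectors which are fixed by the inertia group at `Q` -/
def invariants {K F n : Type} [Field K] [Field F] [Fintype n] (r : GK K → Matrix n n F)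
    (Q : Ideal (𝓞 (AlgebraicClosure K))) : Submodule F (n → F) where
  carrier := {x | ∀ g ∈ inertia Q, r g *ᵥ x = x}
  add_mem' := by
    intro x y hx hy g hg
    rw [Matrix.mulVec_add, hx g hg, hy g hg]
  zero_mem' := by
    intro g _
    rw [Matrix.mulVec_zero]
  smul_mem' := by
    intro c x hx g hg
    rw [Matrix.mulVec_smul, hx g hg]

/-- `f` is the polynomial `det (1 - g T)` of `g` on the invariants of the inertia group at `Q`: if
`A` is the matrix of `g` with respect to a basis `b` of the invariants then `f = det (1 - A T)`. -/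
def IsLocalFactor {K F n : Type} [Field K] [Field F] [Fintype n] (r : GK K → Matrix n n F)
    (Q : Ideal (𝓞 (AlgebraicClosure K))) (g : GK K) (f : F[X]) : Prop :=
  ∃ (m : ℕ) (b : Module.Basis (Fin m) F (invariants r Q)) (A : Matrix (Fin m) (Fin m) F),
    (∀ j, r g *ᵥ (b j : n → F) = ∑ i, A i j • (b i : n → F)) ∧
    f = (1 - (Polynomial.X : F[X]) • A.map Polynomial.C).det

/-- the logarithm of a unipotent matrix -/
noncomputable def lgu {n F : Type} [Fintype n] [DecidableEq n] [Field F] (T : Matrix n n F) :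
    Matrix n n F :=
  ∑ i ∈ Finset.range (Fintype.card n), ((-1) ^ i / ((i : F) + 1)) • (T - 1) ^ (i + 1)

/-- The monodromy operator `N` and the element `G` of the Weil group satisfy the weight monodromy
conjecture in weight `w`, in the form of Jacobson and Morozov: the operator `H`, which acts on the
(generalized) eigenvectors of `G` for the eigenvalue `a` as `m - w` if `|a| = q ^ (m / 2)`, is part of
an `sl₂`-triple `E, H, N`. -/
def IsWM {n : Type} [Fintype n] [DecidableEq n] (q : ℝ) (w : ℕ) (G N : Matrix n n ℂ) : Prop :=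
  ∃ E H : Matrix n n ℂ,
    (∀ (a : ℂ) (k : ℕ) (x : n → ℂ), ((G - a • (1 : Matrix n n ℂ)) ^ k) *ᵥ x = 0 →
      H *ᵥ x = ((2 * Real.logb q ‖a‖ - w : ℝ) : ℂ) • x) ∧
    H * E - E * H = (2 : ℂ) • E ∧ H * N - N * H = -((2 : ℂ) • N) ∧ E * N - N * E = H

/-- The second Betti number is odd, or all elements of the Galois group act with determinant `χ ^ b₂` on
the second cohomology and with eigenvalue `χ` (on an ample class). -/
def Orient {Γ F ι : Type} [Group Γ] [Field F] [Fintype ι] [DecidableEq ι] (X : Coh ι)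
    (χ : Γ →* F) (ρ : Γ →* Matrix ι ι F) : Prop :=
  Odd (Fintype.card {a // X.deg a = 2}) ∨
    ∀ g, (blk X.deg 2 (ρ g)).det = χ g ^ Fintype.card {a // X.deg a = 2} ∧
      (blk X.deg 2 (ρ g)).charpoly.IsRoot (χ g)

/-- The known properties, at the place `v` and for all `ℓ` not below `v`, of the second cohomology (by
the theorem of Kuga and Satake; `N v` is the number of elements of the residue field): over the field
fixed by the open normal subgroup `U` inertia acts unipotently; the traces of the elements of the Weil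
group of positive degree are rational numbers independent of `ℓ`; weight monodromy. The geometric
Frobenius elements are integral on the full cohomology, and `χ` is the inverse of the cyclotomic
character. -/
structure KnownTwo {K : Type} [Field K] [NumberField K] {ι : Type} [Fintype ι] [DecidableEq ι]
    (X : Coh ι) (χ : ∀ (ℓ : ℕ) [Fact ℓ.Prime], GK K →* ℚ_[ℓ])
    (ρ : ∀ (ℓ : ℕ) [Fact ℓ.Prime], GK K →* Matrix ι ι ℚ_[ℓ]) (v : HeightOneSpectrum (𝓞 K))
    (Q : Ideal (𝓞 (AlgebraicClosure K))) (U : Subgroup (GK K)) : Prop where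
  normal : U.Normal
  isOpen : IsOpen (U : Set (GK K))
  cyclotomic : ∀ (ℓ : ℕ) [Fact ℓ.Prime], (ℓ : 𝓞 K) ∉ v.asIdeal → ∀ (k : ℕ) (g : GK K),
    FrobeniusAt Q (Ideal.absNorm v.asIdeal ^ k) g⁻¹ → χ ℓ g = (Ideal.absNorm v.asIdeal : ℚ_[ℓ]) ^ k
  unipotent : ∀ (ℓ : ℕ) [Fact ℓ.Prime], (ℓ : 𝓞 K) ∉ v.asIdeal → ∀ g ∈ U, g ∈ inertia Q →
    IsNilpotent (blk X.deg 2 (ρ ℓ g) - 1)
  traces : ∃ t : GK K → ℚ, ∀ (ℓ : ℕ) [Fact ℓ.Prime], (ℓ : 𝓞 K) ∉ v.asIdeal →
    ∀ k : ℕ, 1 ≤ k → ∀ g, FrobeniusAt Q (Ideal.absNorm v.asIdeal ^ k) g⁻¹ →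
      (blk X.deg 2 (ρ ℓ g)).trace = (t g : ℚ_[ℓ])
  monodromy : ∀ (ℓ : ℕ) [Fact ℓ.Prime], (ℓ : 𝓞 K) ∉ v.asIdeal → ∀ c : ℚ_[ℓ] →+* ℂ,
    ∀ g, FrobeniusAt Q (Ideal.absNorm v.asIdeal) g⁻¹ → ∃ u ∈ U, u ∈ inertia Q ∧
      IsWM (Ideal.absNorm v.asIdeal) 2 ((blk X.deg 2 (ρ ℓ g)).map c)
        ((lgu (blk X.deg 2 (ρ ℓ u))).map c)
  integral : ∀ (ℓ : ℕ) [Fact ℓ.Prime], (ℓ : 𝓞 K) ∉ v.asIdeal →
    ∀ g, FrobeniusAt Q (Ideal.absNorm v.asIdeal) g⁻¹ →
      ∃ f : ℤ[X], f.Monic ∧ aeval (ρ ℓ g) f = 0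

end Pool.Agent.NH56.HL
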