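import Pool.Agent.NH56.HL.Stm
import Pool.Agent.TH658.Eq.Newt

/-!
# Traces in even degrees, for two primes
-/

set_option autoImplicit false

namespace Pool.Agent.NH56.HL

open Matrix Polynomial Filter Topology NumberField IsDedekindDomain Pool.Agent.NH56.HY
open Pool.Agent.NH56.HO

namespace DnsAux

lemma rev_coeff {n K : Type} [Fintype n] [DecidableEq n] [Field K] (A : Matrix n n K) (Q : ℤ[X])
    (h : A.charpoly = Q.map (Int.castRingHom K)) (i : ℕ) :
    A.charpolyRev.coeff i = ((Q.coeff (revAt (Fintype.card n) i) : ℤ) : K) := by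
  rw [← Matrix.reverse_charpoly, coeff_reverse, Matrix.charpoly_natDegree_eq_dim, h, coeff_map]
  rfl

lemma traces {n K L : Type} [Fintype n] [DecidableEq n] [Field K] [Field L] (A : Matrix n n K)
    (B : Matrix n n L) (Q : ℤ[X]) (hA : A.charpoly = Q.map (Int.castRingHom K))
    (hB : B.charpoly = Q.map (Int.castRingHom L)) (k : ℕ) :
    ∃ t : ℤ, (A ^ (k + 1)).trace = (t : K) ∧ (B ^ (k + 1)).trace = (t : L) := by
  induction k using Nat.strong_induction_on with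
  | _ k ih =>
    have h1 := Pool.Agent.TH658.Eq.newton A k
    have h2 := Pool.Agent.TH658.Eq.newton B k
    have h3 : ∀ m : ℕ, ∃ t : ℤ, m < k → (A ^ (m + 1)).trace = (t : K) ∧
        (B ^ (m + 1)).trace = (t : L) := by
      intro m
      by_cases hm : m < k
      · obtain ⟨t, ht⟩ := ih m hm
        exact ⟨t, fun _ => ht⟩
      · exact ⟨0, fun h => absurd h hm⟩
    choose t ht using h3
    have h0A : A.charpolyRev.coeff 0 = 1 := by
      rw [coeff_zero_eq_eval_zero, Matrix.eval_charpolyRev]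
    have h0B : B.charpolyRev.coeff 0 = 1 := by
      rw [coeff_zero_eq_eval_zero, Matrix.eval_charpolyRev]
    rw [Finset.Nat.sum_antidiagonal_eq_sum_range_succ (fun a b => A.charpolyRev.coeff a *
      (A ^ (b + 1)).trace), Finset.sum_range_succ', h0A, one_mul, Nat.sub_zero] at h1
    rw [Finset.Nat.sum_antidiagonal_eq_sum_range_succ (fun a b => B.charpolyRev.coeff a *
      (B ^ (b + 1)).trace), Finset.sum_range_succ', h0B, one_mul, Nat.sub_zero] at h2
    refine ⟨-(Q.coeff (revAt (Fintype.card n) (k + 1)) * ((k : ℤ) + 1)) -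
      ∑ i ∈ Finset.range k, Q.coeff (revAt (Fintype.card n) (i + 1)) * t (k - (i + 1)), ?_, ?_⟩
    · have h4 : ∑ i ∈ Finset.range k, A.charpolyRev.coeff (i + 1) *
          (A ^ (k - (i + 1) + 1)).trace = ((∑ i ∈ Finset.range k,
            Q.coeff (revAt (Fintype.card n) (i + 1)) * t (k - (i + 1)) : ℤ) : K) := by
        push_cast
        refine Finset.sum_congr rfl fun i hi => ?_
        rw [rev_coeff A Q hA, (ht (k - (i + 1)) (by
          have := Finset.mem_range.1 hi; omega)).1]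
      rw [h4, rev_coeff A Q hA] at h1
      push_cast
      push_cast at h1
      linear_combination h1
    · have h4 : ∑ i ∈ Finset.range k, B.charpolyRev.coeff (i + 1) *
          (B ^ (k - (i + 1) + 1)).trace = ((∑ i ∈ Finset.range k,
            Q.coeff (revAt (Fintype.card n) (i + 1)) * t (k - (i + 1)) : ℤ) : L) := by
        push_cast
        refine Finset.sum_congr rfl fun i hi => ?_
        rw [rev_coeff B Q hB, (ht (k - (i + 1)) (by
          have := Finset.mem_range.1 hi; omega)).2]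
      rw [h4, rev_coeff B Q hB] at h2
      push_cast
      push_cast at h2
      linear_combination h2

lemma det_eq {n K : Type} [Fintype n] [DecidableEq n] [Field K] (A : Matrix n n K) (Q : ℤ[X])
    (h : A.charpoly = Q.map (Int.castRingHom K)) :
    A.det = (((-1) ^ Fintype.card n * Q.coeff 0 : ℤ) : K) := by
  rw [Matrix.det_eq_sign_charpoly_coeff, h, coeff_map]
  push_cast
  rfl

section

variable {K : Type} [Field K] [NumberField K] {ℓ : ℕ} [Fact ℓ.Prime] {ι : Type} [Fintype ι]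
  [DecidableEq ι] {X : Coh ι} {χ : GK K →* ℚ_[ℓ]} {ρ : GK K →* Matrix ι ι ℚ_[ℓ]}

omit [NumberField K] in
lemma continuous_blk (hρ : Continuous ρ) (j : ℕ) : Continuous fun g => blk X.deg j (ρ g) :=
  hρ.matrix_submatrix _ _

lemma isClosed_eq1 (hρ : Continuous ρ) (hk : Continuous (kap X χ ρ))
    (hk0 : ∀ g, kap X χ ρ g ≠ 0) (j : ℕ) (G : MvPolynomial ℕ ℚ) :
    IsClosed {g | (blk X.deg j (ρ g)).trace = kap X χ ρ g ^ (j / 2) *
      MvPolynomial.eval₂ (algebraMap ℚ ℚ_[ℓ]) (pt X χ ρ g) G} := by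
  refine isClosed_eq (continuous_blk hρ j).matrix_trace ?_
  refine (hk.pow _).mul ?_
  have h1 : Continuous fun g => pt X χ ρ g := by
    refine continuous_pi fun k => ?_
    unfold pt
    exact (((continuous_blk hρ 2).pow (k + 1)).matrix_trace).div (hk.pow (k + 1))
      fun g => pow_ne_zero _ (hk0 g)
  have h2 : (fun g => MvPolynomial.eval₂ (algebraMap ℚ ℚ_[ℓ]) (pt X χ ρ g) G) =
      fun g => MvPolynomial.eval (pt X χ ρ g) (MvPolynomial.map (algebraMap ℚ ℚ_[ℓ]) G) := by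
    funext g
    rw [MvPolynomial.eval₂_eq_eval_map]
  rw [h2]
  exact (MvPolynomial.continuous_eval _).comp h1

end

end DnsAux

open DnsAux in
theorem t_DNS (hDG1 : S_DG1) (hKAP : S_KAP) (hTRL : S_TRL) (hTAU : S_TAU) : S_DNS := by
  intro K _ _ ℓ ℓ' _ _ ι _ _ X S S' χ χ' Pol ρ ρ' hX hR hR' hN hO hO' j hj
  obtain ⟨c, P, hP, hG⟩ := hTRL K ℓ ι X S χ Pol ρ hX hR hN hO j hj
  obtain ⟨τ, hτ⟩ := hTAU
  obtain ⟨hk, hk1, -⟩ := hKAP K ℓ ι X S χ Pol ρ hX hR hO
  obtain ⟨hk', hk1', -⟩ := hKAP K ℓ' ι X S' χ' Pol ρ' hX hR' hO'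
  have hk0 : ∀ g, kap X χ ρ g ≠ 0 := fun g => (hk1 g).2.1
  have hk0' : ∀ g, kap X χ' ρ' g ≠ 0 := fun g => (hk1' g).2.1
  set Z : MvPolynomial ℕ ℚ → Set (GK K) := fun G =>
    {g | (blk X.deg j (ρ g)).trace = kap X χ ρ g ^ (j / 2) *
      MvPolynomial.eval₂ (algebraMap ℚ ℚ_[ℓ]) (pt X χ ρ g) G} ∩
    {g | (blk X.deg j (ρ' g)).trace = kap X χ' ρ' g ^ (j / 2) *
      MvPolynomial.eval₂ (algebraMap ℚ ℚ_[ℓ']) (pt X χ' ρ' g) G} with hZ
  have hclosed : IsClosed (⋃ G ∈ P, Z (τ G)) := by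
    refine hP.isClosed_biUnion fun G _ => ?_
    exact (isClosed_eq1 hR.continuous.1 hk hk0 j _).inter
      (isClosed_eq1 hR'.continuous.1 hk' hk0' j _)
  have hall : ∀ g, g ∈ ⋃ G ∈ P, Z (τ G) := by
    by_contra hcon
    push Not at hcon
    obtain ⟨g₀, hg₀⟩ := hcon
    obtain ⟨p, hp, hpS, v, hv, σ, hσ, hσU⟩ := hDG1 K (⋃ G ∈ P, Z (τ G))ᶜ hclosed.isOpen_compl
      ⟨g₀, hg₀⟩ (S ∪ S')
    have : Fact p.Prime := ⟨hp⟩
    rw [Finset.mem_union, not_or] at hpS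
    obtain ⟨hχ, hc⟩ := hR.frobenius p hpS.1 v hv σ hσ
    obtain ⟨hχ', hc'⟩ := hR'.frobenius p hpS.2 v hv σ hσ
    apply hσU
    -- the rational numbers
    obtain ⟨y0, hy0, hy0'⟩ := traces _ _ _ (hc j) (hc' j) 0
    have htr : ∀ k : ℕ, ∃ t : ℤ, ((blk X.deg 2 (ρ σ⁻¹)) ^ (k + 1)).trace = (t : ℚ_[ℓ]) ∧
        ((blk X.deg 2 (ρ' σ⁻¹)) ^ (k + 1)).trace = (t : ℚ_[ℓ']) := fun k =>
      traces _ _ _ (hc 2) (hc' 2) k
    choose t ht ht' using htr
    rw [zero_add, pow_one] at hy0 hy0'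
    have hr : ∃ r : ℚ, kap X χ ρ σ⁻¹ = (r : ℚ_[ℓ]) ∧ kap X χ' ρ' σ⁻¹ = (r : ℚ_[ℓ']) := by
      unfold kap
      split_ifs with hodd
      · refine ⟨(((-1) ^ Fintype.card {a // X.deg a = 2} * (Pol v 2).coeff 0 : ℤ) : ℚ) /
          (p : ℚ) ^ (Fintype.card {a // X.deg a = 2} - 1), ?_, ?_⟩
        · rw [det_eq _ _ (hc 2), hχ]
          push_cast
          rfl
        · rw [det_eq _ _ (hc' 2), hχ']
          push_cast
          rfl
      · exact ⟨(p : ℚ), by rw [hχ]; push_cast; rfl, by rw [hχ']; push_cast; rfl⟩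
    obtain ⟨r, hr, hr'⟩ := hr
    have hr0 : r ≠ 0 := by
      intro h
      apply hk0 σ⁻¹
      rw [hr, h, Rat.cast_zero]
    have hpt : pt X χ ρ σ⁻¹ = fun k => (((t k : ℚ) / r ^ (k + 1) : ℚ) : ℚ_[ℓ]) := by
      funext k
      unfold pt
      rw [ht k, hr]
      push_cast
      rfl
    have hpt' : pt X χ' ρ' σ⁻¹ = fun k => (((t k : ℚ) / r ^ (k + 1) : ℚ) : ℚ_[ℓ']) := by
      funext k
      unfold pt
      rw [ht' k, hr']
      push_cast
      rfl
    obtain ⟨G, hGP, hGe⟩ := hG σ⁻¹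
    rw [hy0, hr, hpt] at hGe
    simp only [map_ratCast, map_intCast] at hGe
    have hrC : ((r : ℂ)) ^ (j / 2) ≠ 0 := pow_ne_zero _ (by exact_mod_cast hr0)
    have hev := hτ G (fun k => (t k : ℚ) / r ^ (k + 1)) ((y0 : ℚ) / r ^ (j / 2)) (by
      rw [Rat.cast_div, Rat.cast_pow, Rat.cast_intCast, eq_div_iff hrC, hGe, mul_comm])
    have hrQ : r ^ (j / 2) ≠ 0 := pow_ne_zero _ hr0
    have hy : (y0 : ℚ) = r ^ (j / 2) *
        MvPolynomial.eval (fun k => (t k : ℚ) / r ^ (k + 1)) (τ G) := by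
      rw [hev, mul_div_cancel₀ _ hrQ]
    refine Set.mem_biUnion hGP ⟨?_, ?_⟩
    · rw [Set.mem_ofPred_eq, hy0, hr, hpt]
      have h5 := MvPolynomial.eval₂_comp (algebraMap ℚ ℚ_[ℓ])
        (fun k => (t k : ℚ) / r ^ (k + 1)) (τ G)
      have h6 : (fun k => (((t k : ℚ) / r ^ (k + 1) : ℚ) : ℚ_[ℓ])) =
        (algebraMap ℚ ℚ_[ℓ]) ∘ (fun k => (t k : ℚ) / r ^ (k + 1)) := by
        funext k
        rw [Function.comp_apply, eq_ratCast]
      rw [h6, ← h5, eq_ratCast, ← Rat.cast_pow, ← Rat.cast_mul, ← hy, Rat.cast_intCast]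
    · rw [Set.mem_ofPred_eq, hy0', hr', hpt']
      have h5 := MvPolynomial.eval₂_comp (algebraMap ℚ ℚ_[ℓ'])
        (fun k => (t k : ℚ) / r ^ (k + 1)) (τ G)
      have h6 : (fun k => (((t k : ℚ) / r ^ (k + 1) : ℚ) : ℚ_[ℓ'])) =
        (algebraMap ℚ ℚ_[ℓ']) ∘ (fun k => (t k : ℚ) / r ^ (k + 1)) := by
        funext k
        rw [Function.comp_apply, eq_ratCast]
      rw [h6, ← h5, eq_ratCast, ← Rat.cast_pow, ← Rat.cast_mul, ← hy, Rat.cast_intCast]
  intro g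
  obtain ⟨G, hG1, hG2⟩ := Set.mem_iUnion₂.1 (hall g)
  exact ⟨τ G, hG2.1, hG2.2⟩

end Pool.Agent.NH56.HL
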