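import Pool.Agent.NH56.HL.Stm
import Pool.Agent.NH56.HY.Laa
import Pool.Agent.NH56.HY.TanA

/-!
Project HL (helper56), part DTC: determinants on the images of idempotents, by density.
Written by helper30.
-/

set_option autoImplicit false

namespace Pool.Agent.NH56.HL

open Matrix Polynomial Filter Topology NumberField IsDedekindDomain Pool.Agent.NH56.HY
open Pool.Agent.NH56.HO

namespace Dtc

/-- a matrix over `ℚ_ℓ` which commutes with the commutant over `ℚ_ℓ` commutes with the commutant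
over the algebraic closure -/
theorem com_acl (hNDG : S_NDG) {ι : Type} [Fintype ι] [DecidableEq ι] (X : Coh ι)
    (hX : IsHyperKahler X) (ℓ : ℕ) [Fact ℓ.Prime] (A : Matrix ι ι ℚ_[ℓ])
    (hA : ∀ B : Matrix ι ι ℚ_[ℓ], X.Com ℚ_[ℓ] B → A * B = B * A)
    (e : Matrix ι ι (PadicAlgCl ℓ)) (he : X.Com (PadicAlgCl ℓ) e) :
    e * A.map (algebraMap ℚ_[ℓ] (PadicAlgCl ℓ)) = A.map (algebraMap ℚ_[ℓ] (PadicAlgCl ℓ)) * e := by
  have h1 := (hNDG ι X hX (PadicAlgCl ℓ) e he).1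
  clear he
  induction h1 using Submodule.span_induction with
  | mem x hx =>
    obtain ⟨B', hB', rfl⟩ := hx
    have h2 : X.Com ℚ_[ℓ] (B'.map (algebraMap ℚ ℚ_[ℓ])) := Tan.com_map X hB'
    have h3 := hA _ h2
    have h4 := congrArg (fun M : Matrix ι ι ℚ_[ℓ] => M.map (algebraMap ℚ_[ℓ] (PadicAlgCl ℓ))) h3
    simp only [Tan.map_mul_aux, Tan.map_map_aux] at h4
    exact h4.symm
  | zero => rw [zero_mul, mul_zero]
  | add x y _ _ hx hy => rw [add_mul, mul_add, hx, hy]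
  | smul a x _ hx => rw [smul_mul_assoc, mul_smul_comm, hx]

/-- the condition on the determinants is closed -/
theorem closed_det {Γ ι : Type} [TopologicalSpace Γ] [Fintype ι] [DecidableEq ι] (ℓ : ℕ)
    [Fact ℓ.Prime] (ρ : Γ → Matrix ι ι ℚ_[ℓ]) (χ : Γ → ℚ_[ℓ]) (hρ : Continuous ρ)
    (hχ : Continuous χ) (e : Matrix ι ι (PadicAlgCl ℓ)) (m : ℕ) :
    IsClosed {h : Γ | ((ρ h).map (algebraMap ℚ_[ℓ] (PadicAlgCl ℓ)) * e + (1 - e)).det ^ 2 =
      algebraMap ℚ_[ℓ] (PadicAlgCl ℓ) (χ h) ^ m} := by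
  have hc : Continuous (algebraMap ℚ_[ℓ] (PadicAlgCl ℓ)) := continuous_algebraMap _ _
  refine isClosed_eq ?_ ?_
  · refine Continuous.pow (Continuous.matrix_det ?_) 2
    exact ((hρ.matrix_map hc).mul continuous_const).add continuous_const
  · exact (hc.comp hχ).pow m

end Dtc

theorem t_DTC (hUNI : S_UNI) (hORD : S_ORD) (hCMU : HO.S_CMU) (hNDG : S_NDG) : S_DTC := by
  intro K _ _ ℓ _ ι _ _ X S χ Pol ρ hX hρ hnu
  obtain ⟨U1, hU1o, hU1⟩ := hCMU K ℓ ι X S χ Pol ρ hX hρ hnu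
  obtain ⟨U2, hU2o, hU2⟩ := near_subgroup χ ρ hρ.continuous.2 hρ.continuous.1
  have hdense : ∀ V : Set (GK K), IsOpen V → V.Nonempty → V ⊆ U2 → ∃ p : ℕ, p.Prime ∧ p ∉ S ∧
      ∃ v : HeightOneSpectrum (𝓞 K), Ideal.absNorm v.asIdeal = p ∧
      (∃ σ : GK K, IsFrobenius v σ ∧ σ⁻¹ ∈ V) ∧
      ¬ (p : ℤ) ∣ (Pol v 2).coeff (Fintype.card {a // X.deg a = 2} - 1) := by
    intro V hVo hVn hVU
    refine hORD K ℓ {a // X.deg a = 2} S χ (blkHom X.deg 2 ρ hρ.graded) (fun v => Pol v 2)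
      hρ.continuous.2 (continuous_blk X.deg 2 ρ hρ.continuous.1) (by have := hX.betti; omega)
      ?_ hnu V hVo hVn ?_
    · intro p hp hpS v hv
      haveI : Fact p.Prime := ⟨hp⟩
      refine ⟨(hρ.weil p hpS v hv 2).1, (hρ.weil p hpS v hv 2).2, fun σ hσ => ?_⟩
      exact ⟨(hρ.frobenius p hpS v hv σ hσ).1, (hρ.frobenius p hpS v hv σ hσ).2 2⟩
    · intro g hg
      have hg' : g ∈ Near χ ρ := by rw [← hU2]; exact hVU hg
      refine ⟨fun i j => ?_, hg'.2⟩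
      have := hg'.1 i.1 j.1
      convert this using 2
      simp only [blkHom, blk, MonoidHom.coe_mk, OneHom.coe_mk, Matrix.sub_apply,
        Matrix.submatrix_apply, Matrix.one_apply, Subtype.ext_iff]
  refine ⟨U1 ⊓ U2, ?_, ?_, ?_, ?_⟩
  · rw [Subgroup.coe_inf]
    exact hU1o.inter hU2o
  · rw [← hU2, Subgroup.coe_inf]
    exact Set.inter_subset_right
  · intro g hg B hB
    exact hU1 g hg.1 B hB
  · intro g hg M hM e m he hee _ hm
    by_contra hcon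
    have hcl := Dtc.closed_det ℓ ρ χ hρ.continuous.1 hρ.continuous.2 e m
    obtain ⟨p, hp, hpS, v, hv, ⟨σ, hσ, hσV⟩, hord⟩ := hdense
      (((U1 : Set (GK K)) ∩ U2) ∩ {h : GK K | ((ρ h).map (algebraMap ℚ_[ℓ] (PadicAlgCl ℓ)) * e +
        (1 - e)).det ^ 2 = algebraMap ℚ_[ℓ] (PadicAlgCl ℓ) (χ h) ^ m}ᶜ)
      ((hU1o.inter hU2o).inter hcl.isOpen_compl)
      ⟨g, hg, fun h => hcon (by rw [hM]; exact h)⟩
      (fun x hx => hx.1.2)
    haveI : Fact p.Prime := ⟨hp⟩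
    refine hσV.2 ?_
    exact (hUNI K ℓ ι X S χ Pol ρ hX hρ p hpS v hv σ hσ hord
      (by rw [← hU2]; exact hσV.1.2)).2 _ rfl e m he hee
      (Dtc.com_acl hNDG X hX ℓ (ρ σ⁻¹) (hU1 _ hσV.1.1) e he) hm

end Pool.Agent.NH56.HL
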