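import Pool.Agent.NH56.HL.Stm

/-!
# Properties of the matrix exponential
-/

set_option autoImplicit false

namespace Pool.Agent.NH56.HL

open Matrix

namespace ExmAux

section

variable {n : Type} [Fintype n] [DecidableEq n]

set_option backward.isDefEq.respectTransparency false in
/-- the exponential series -/
theorem hs (M : Matrix n n ℂ) :
    HasSum (fun k : ℕ => ((k.factorial : ℂ)⁻¹) • M ^ k) (NormedSpace.exp M) :=
  open scoped Norms.Operator in NormedSpace.exp_series_hasSum_exp' (𝕂 := ℂ) M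

theorem exp_mul_exp_neg (M : Matrix n n ℂ) : NormedSpace.exp M * NormedSpace.exp (-M) = 1 := by
  rw [← Matrix.exp_add_of_commute _ _ (Commute.neg_right (Commute.refl M)), add_neg_cancel,
    NormedSpace.exp_zero]

/-- intertwining -/
theorem inter {m : Type} [Fintype m] [DecidableEq m] (M : Matrix n n ℂ) (M' : Matrix m m ℂ)
    (L : Matrix m n ℂ) (h : L * M = M' * L) :
    L * NormedSpace.exp M = NormedSpace.exp M' * L := by
  have hk : ∀ k : ℕ, L * M ^ k = M' ^ k * L := by
    intro k
    induction k with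
    | zero => simp
    | succ k ih =>
      rw [pow_succ, ← Matrix.mul_assoc, ih, Matrix.mul_assoc, h, ← Matrix.mul_assoc, ← pow_succ]
  have h1 : HasSum (fun k : ℕ => L * (((k.factorial : ℂ)⁻¹) • M ^ k)) (L * NormedSpace.exp M) :=
    (hs M).map (AddMonoidHom.mk' (fun x : Matrix n n ℂ => L * x) (fun a b => Matrix.mul_add _ _ _))
      (continuous_const.matrix_mul continuous_id)
  have h2 : HasSum (fun k : ℕ => (((k.factorial : ℂ)⁻¹) • M' ^ k) * L) (NormedSpace.exp M' * L) :=
    (hs M').map (AddMonoidHom.mk' (fun x : Matrix m m ℂ => x * L) (fun a b => Matrix.add_mul _ _ _))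
      (continuous_id.matrix_mul continuous_const)
  have h3 : (fun k : ℕ => L * (((k.factorial : ℂ)⁻¹) • M ^ k)) =
      fun k : ℕ => (((k.factorial : ℂ)⁻¹) • M' ^ k) * L := by
    funext k
    rw [Matrix.mul_smul, hk, Matrix.smul_mul]
  rw [h3] at h1
  exact h1.unique h2

theorem eig (M : Matrix n n ℂ) (v : n → ℂ) (l : ℂ) (h : M *ᵥ v = l • v) :
    NormedSpace.exp M *ᵥ v = Complex.exp l • v := by
  have hk : ∀ k : ℕ, M ^ k *ᵥ v = l ^ k • v := by
    intro k
    induction k with
    | zero => simp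
    | succ k ih =>
      rw [pow_succ, ← Matrix.mulVec_mulVec, h, Matrix.mulVec_smul, ih, smul_smul, pow_succ,
        mul_comm]
  have h1 : HasSum (fun k : ℕ => (((k.factorial : ℂ)⁻¹) • M ^ k) *ᵥ v)
      (NormedSpace.exp M *ᵥ v) :=
    (hs M).map (AddMonoidHom.mk' (fun x : Matrix n n ℂ => x *ᵥ v)
      (fun a b => Matrix.add_mulVec _ _ _)) (continuous_id.matrix_mulVec continuous_const)
  have h2 : HasSum (fun k : ℕ => (((k.factorial : ℂ)⁻¹) • l ^ k) • v) (NormedSpace.exp l • v) :=
    (NormedSpace.exp_series_hasSum_exp' (𝕂 := ℂ) l).smul_const v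
  have h3 : (fun k : ℕ => (((k.factorial : ℂ)⁻¹) • M ^ k) *ᵥ v) =
      fun k : ℕ => (((k.factorial : ℂ)⁻¹) • l ^ k) • v := by
    funext k
    rw [Matrix.smul_mulVec, hk, smul_assoc]
  rw [h3] at h1
  rw [h1.unique h2, Complex.exp_eq_exp_ℂ]

/-- eigenmatrices -/
theorem eigM (M P : Matrix n n ℂ) (l : ℂ) (h : M * P = l • P) :
    NormedSpace.exp M * P = Complex.exp l • P := by
  ext i j
  have h1 := eig M (P.col j) l (by
    funext a
    have := congrFun (congrFun h a) j
    simpa [Matrix.mul_apply, Matrix.mulVec, dotProduct, Matrix.col_apply] using this)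
  have h2 := congrFun h1 i
  simpa [Matrix.mul_apply, Matrix.mulVec, dotProduct, Matrix.col_apply] using h2

theorem nil (M : Matrix n n ℂ) (h : M ^ 3 = 0) :
    NormedSpace.exp M = 1 + M + (2 : ℂ)⁻¹ • M ^ 2 := by
  have h1 : HasSum (fun k : ℕ => ((k.factorial : ℂ)⁻¹) • M ^ k)
      (∑ k ∈ Finset.range 3, ((k.factorial : ℂ)⁻¹) • M ^ k) := by
    apply hasSum_sum_of_ne_finset_zero
    intro k hk
    have h3 : 3 ≤ k := by simpa using hk
    obtain ⟨j, rfl⟩ := Nat.exists_eq_add_of_le h3
    rw [pow_add, h, zero_mul, smul_zero]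
  rw [(hs M).unique h1]
  simp [Finset.sum_range_succ, Nat.factorial]

theorem tri (M : Matrix n n ℂ) (h : M ^ 3 = -M) (t : ℂ) :
    NormedSpace.exp (t • M) = (1 + M ^ 2) +
      Complex.exp (t * Complex.I) • ((2 : ℂ)⁻¹ • (-M ^ 2 - Complex.I • M)) +
      Complex.exp (-(t * Complex.I)) • ((2 : ℂ)⁻¹ • (-M ^ 2 + Complex.I • M)) := by
  have hM : M * M ^ 2 = -M := by rw [← h]; rw [pow_succ' M 2]
  have h0 := eigM (t • M) (1 + M ^ 2) 0 (by
    rw [Matrix.smul_mul, Matrix.mul_add, hM, Matrix.mul_one, add_neg_cancel, smul_zero,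
      zero_smul])
  have hI : Complex.I * Complex.I = -1 := Complex.I_mul_I
  have hp := eigM (t • M) ((2 : ℂ)⁻¹ • (-M ^ 2 - Complex.I • M)) (t * Complex.I) (by
    rw [Matrix.smul_mul, Matrix.mul_smul, Matrix.mul_sub, Matrix.mul_neg, hM, Matrix.mul_smul,
      neg_neg, ← pow_two, mul_smul]
    congr 1
    rw [smul_comm]
    congr 1
    rw [smul_sub, smul_neg, smul_smul, hI]
    module)
  have hm := eigM (t • M) ((2 : ℂ)⁻¹ • (-M ^ 2 + Complex.I • M)) (-(t * Complex.I)) (by
    rw [Matrix.smul_mul, Matrix.mul_smul, Matrix.mul_add, Matrix.mul_neg, hM, Matrix.mul_smul,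
      neg_neg, ← pow_two, ← mul_neg t Complex.I, mul_smul]
    congr 1
    rw [smul_comm]
    congr 1
    rw [smul_add, smul_neg, smul_smul, neg_mul, hI]
    module)
  have hone : (1 + M ^ 2) + (2 : ℂ)⁻¹ • (-M ^ 2 - Complex.I • M) +
      (2 : ℂ)⁻¹ • (-M ^ 2 + Complex.I • M) = 1 := by
    module
  calc NormedSpace.exp (t • M) = NormedSpace.exp (t • M) *
      ((1 + M ^ 2) + (2 : ℂ)⁻¹ • (-M ^ 2 - Complex.I • M) +
      (2 : ℂ)⁻¹ • (-M ^ 2 + Complex.I • M)) := by rw [hone, mul_one]
    _ = _ := by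
      rw [Matrix.mul_add, Matrix.mul_add, h0, hp, hm, Complex.exp_zero, one_smul]

end

section

open scoped Norms.Operator

variable {n : Type} [Fintype n] [DecidableEq n]

set_option backward.isDefEq.respectTransparency false in
/-- the series of the exponential of an endomorphism -/
theorem hsE (T : Matrix n n ℂ →L[ℂ] Matrix n n ℂ) (x : Matrix n n ℂ) :
    HasSum (fun k : ℕ => ((k.factorial : ℂ)⁻¹) • (T ^ k) x) (NormedSpace.exp T x) := by
  have h := NormedSpace.exp_series_hasSum_exp' (𝕂 := ℂ) T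
  have h2 := (ContinuousLinearMap.apply ℂ (Matrix n n ℂ) x).hasSum h
  simpa using h2

theorem pow_l (M x : Matrix n n ℂ) (k : ℕ) :
    ((LinearMap.toContinuousLinearMap (LinearMap.mulLeft ℂ M)) ^ k) x = M ^ k * x := by
  induction k generalizing x with
  | zero => simp
  | succ k ih =>
    rw [pow_succ, ContinuousLinearMap.mul_apply, ih, pow_succ, Matrix.mul_assoc]
    rfl

theorem pow_r (M x : Matrix n n ℂ) (k : ℕ) :
    ((LinearMap.toContinuousLinearMap (LinearMap.mulRight ℂ M)) ^ k) x = x * M ^ k := by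
  induction k generalizing x with
  | zero => simp
  | succ k ih =>
    rw [pow_succ, ContinuousLinearMap.mul_apply, ih, pow_succ', ← Matrix.mul_assoc]
    rfl

set_option backward.isDefEq.respectTransparency false in
theorem exp_l (M x : Matrix n n ℂ) :
    NormedSpace.exp (LinearMap.toContinuousLinearMap (LinearMap.mulLeft ℂ M)) x =
      NormedSpace.exp M * x := by
  have h1 := hsE (LinearMap.toContinuousLinearMap (LinearMap.mulLeft ℂ M)) x
  have h2 : HasSum (fun k : ℕ => (((k.factorial : ℂ)⁻¹) • M ^ k) * x) (NormedSpace.exp M * x) :=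
    (hs M).map (AddMonoidHom.mk' (fun y : Matrix n n ℂ => y * x) (fun a b => Matrix.add_mul _ _ _))
      (continuous_id.matrix_mul continuous_const)
  have h3 : (fun k : ℕ => ((k.factorial : ℂ)⁻¹) •
      ((LinearMap.toContinuousLinearMap (LinearMap.mulLeft ℂ M)) ^ k) x) =
      fun k : ℕ => (((k.factorial : ℂ)⁻¹) • M ^ k) * x := by
    funext k
    rw [pow_l, Matrix.smul_mul]
  rw [h3] at h1
  exact h1.unique h2

set_option backward.isDefEq.respectTransparency false in
theorem exp_r (M x : Matrix n n ℂ) :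
    NormedSpace.exp (LinearMap.toContinuousLinearMap (LinearMap.mulRight ℂ M)) x =
      x * NormedSpace.exp M := by
  have h1 := hsE (LinearMap.toContinuousLinearMap (LinearMap.mulRight ℂ M)) x
  have h2 : HasSum (fun k : ℕ => x * (((k.factorial : ℂ)⁻¹) • M ^ k)) (x * NormedSpace.exp M) :=
    (hs M).map (AddMonoidHom.mk' (fun y : Matrix n n ℂ => x * y) (fun a b => Matrix.mul_add _ _ _))
      (continuous_const.matrix_mul continuous_id)
  have h3 : (fun k : ℕ => ((k.factorial : ℂ)⁻¹) •
      ((LinearMap.toContinuousLinearMap (LinearMap.mulRight ℂ M)) ^ k) x) =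
      fun k : ℕ => x * (((k.factorial : ℂ)⁻¹) • M ^ k) := by
    funext k
    rw [pow_r, Matrix.mul_smul]
  rw [h3] at h1
  exact h1.unique h2

set_option backward.isDefEq.respectTransparency false in
theorem exp_lr (M x : Matrix n n ℂ) :
    NormedSpace.exp (LinearMap.toContinuousLinearMap (LinearMap.mulLeft ℂ M) +
      LinearMap.toContinuousLinearMap (LinearMap.mulRight ℂ (-M))) x =
      NormedSpace.exp M * x * NormedSpace.exp (-M) := by
  letI : NormedAlgebra ℚ (Matrix n n ℂ →L[ℂ] Matrix n n ℂ) := NormedAlgebra.restrictScalars ℚ ℂ _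
  have hc : Commute (LinearMap.toContinuousLinearMap (LinearMap.mulLeft ℂ M))
      (LinearMap.toContinuousLinearMap (LinearMap.mulRight ℂ (-M))) := by
    ext1 y
    simp [Matrix.mul_assoc]
  rw [NormedSpace.exp_add_of_commute hc, ContinuousLinearMap.mul_apply, exp_l, exp_r,
    Matrix.mul_assoc]

set_option backward.isDefEq.respectTransparency false in
theorem conj {m : Type} [Fintype m] [DecidableEq m] (M : Matrix n n ℂ) (M' : Matrix m m ℂ)
    (d : Matrix n n ℂ →ₗ[ℂ] Matrix m m ℂ) (h : ∀ x, M' * d x - d x * M' = d (M * x - x * M))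
    (x : Matrix n n ℂ) :
    NormedSpace.exp M' * d x * NormedSpace.exp (-M') =
      d (NormedSpace.exp M * x * NormedSpace.exp (-M)) := by
  set T := LinearMap.toContinuousLinearMap (LinearMap.mulLeft ℂ M) +
      LinearMap.toContinuousLinearMap (LinearMap.mulRight ℂ (-M)) with hT
  set T' := LinearMap.toContinuousLinearMap (LinearMap.mulLeft ℂ M') +
      LinearMap.toContinuousLinearMap (LinearMap.mulRight ℂ (-M')) with hT'
  have hTT : ∀ y, d (T y) = T' (d y) := by
    intro y
    have h1 := h y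
    rw [hT, hT']
    simp only [ContinuousLinearMap.add_apply, LinearMap.coe_toContinuousLinearMap',
      LinearMap.mulLeft_apply, LinearMap.mulRight_apply, Matrix.mul_neg, ← sub_eq_add_neg]
    exact h1.symm
  have hk : ∀ (k : ℕ) (y : Matrix n n ℂ), d ((T ^ k) y) = (T' ^ k) (d y) := by
    intro k
    induction k with
    | zero => intro y; simp
    | succ k ih =>
      intro y
      rw [pow_succ, ContinuousLinearMap.mul_apply, ih, hTT, pow_succ,
        ContinuousLinearMap.mul_apply]
  have h1 := (hsE T x).map d.toAddMonoidHom (LinearMap.continuous_of_finiteDimensional d)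
  have h2 := hsE T' (d x)
  have h3 : (d.toAddMonoidHom ∘ fun k : ℕ => ((k.factorial : ℂ)⁻¹) • (T ^ k) x) =
      fun k : ℕ => ((k.factorial : ℂ)⁻¹) • (T' ^ k) (d x) := by
    funext k
    have : d (((k.factorial : ℂ)⁻¹) • (T ^ k) x) = ((k.factorial : ℂ)⁻¹) • (T' ^ k) (d x) := by
      rw [map_smul, hk]
    exact this
  rw [h3] at h1
  have h4 := h2.unique h1
  rw [hT', exp_lr] at h4
  rw [h4, hT]
  exact congrArg d (exp_lr M x)

end

end ExmAux

open ExmAux in
/-- **EXM** -/
theorem t_EXM : S_EXM := by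
  intro n _ _ M
  refine ⟨exp_mul_exp_neg M, fun m _ _ M' L h => inter M M' L h, fun v l h => eig M v l h,
    fun h => nil M h, fun h => ⟨?_, ?_⟩, fun m _ _ M' d h x => conj M M' d h x, fun q h => ?_⟩
  · rw [tri M h, Complex.exp_pi_mul_I, Complex.exp_neg, Complex.exp_pi_mul_I]
    have : (-1 : ℂ)⁻¹ = -1 := by norm_num
    rw [this]
    module
  · rw [tri M h, Complex.exp_neg, Complex.exp_pi_div_two_mul_I, Complex.inv_I]
    have h1 : (1 + M ^ 2) + Complex.I • ((2 : ℂ)⁻¹ • (-M ^ 2 - Complex.I • M)) +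
        (-Complex.I) • ((2 : ℂ)⁻¹ • (-M ^ 2 + Complex.I • M)) =
        1 + M ^ 2 + (-(Complex.I * Complex.I)) • M := by
      module
    rw [h1, Complex.I_mul_I, neg_neg, one_smul]
    abel
  · have h1 : q * M = (-Mᵀ) * q := by
      rw [Matrix.neg_mul]
      exact eq_neg_of_add_eq_zero_right h
    rw [Matrix.mul_assoc, inter M (-Mᵀ) q h1, ← Matrix.exp_transpose, ← Matrix.mul_assoc,
      exp_mul_exp_neg, Matrix.one_mul]

end Pool.Agent.NH56.HL
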