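import Pool.Agent.NH56.HL.Stm

/-! Job HL-EXP: the exponentials of the elements of the Lie algebra can be lifted (`S_EXP`). -/

set_option autoImplicit false

namespace Pool.Agent.NH56.HL.Exp68

open Matrix Polynomial Filter Topology NumberField IsDedekindDomain Pool.Agent.NH56.HY
open Pool.Agent.NH56.HO

/-- a matrix is graded if and only if it commutes with the degree operator -/
theorem graded_iff {ι : Type} [Fintype ι] [DecidableEq ι] (X : Coh ι) (M : Matrix ι ι ℂ) :
    IsGraded X.deg M ↔ X.H ℂ * M = M * X.H ℂ := by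
  constructor
  · intro h
    ext a b
    simp only [Coh.H, Matrix.diagonal_mul, Matrix.mul_diagonal]
    by_cases hab : X.deg a = X.deg b
    · rw [hab, mul_comm]
    · rw [h a b hab, mul_zero, zero_mul]
  · intro h a b hab
    have h1 := congrFun (congrFun h a) b
    simp only [Coh.H, Matrix.diagonal_mul, Matrix.mul_diagonal] at h1
    have h2 : ((X.deg a : ℂ) - X.deg b) * M a b = 0 := by
      rw [sub_mul, h1, mul_comm]
      ring
    rcases mul_eq_zero.mp h2 with h3 | h3
    · exfalso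
      apply hab
      have h4 : (X.deg a : ℂ) = X.deg b := sub_eq_zero.mp h3
      exact_mod_cast h4
    · exact h3

/-- the projection to degree two -/
def pr {ι : Type} [DecidableEq ι] (deg : ι → ℕ) : Matrix {a // deg a = 2} ι ℂ :=
  fun a b => if (a : ι) = b then 1 else 0

theorem mul_pr {ι : Type} [Fintype ι] [DecidableEq ι] (deg : ι → ℕ)
    (N : Matrix {a // deg a = 2} {a // deg a = 2} ℂ) (a b : {a // deg a = 2}) :
    (N * pr deg) a (b : ι) = N a b := by
  rw [Matrix.mul_apply, Finset.sum_eq_single b]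
  · simp [pr]
  · intro c _ hc
    have : (c : ι) ≠ b := fun h => hc (Subtype.ext h)
    simp [pr, this]
  · intro h
    exact absurd (Finset.mem_univ b) h

theorem pr_mul {ι : Type} [Fintype ι] [DecidableEq ι] (deg : ι → ℕ) (M : Matrix ι ι ℂ)
    (hM : IsGraded deg M) : pr deg * M = blk deg 2 M * pr deg := by
  ext a b
  have h1 : (pr deg * M) a b = M a b := by
    rw [Matrix.mul_apply, Finset.sum_eq_single (a : ι)]
    · simp [pr]
    · intro c _ hc
      simp [pr, hc.symm]
    · intro h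
      exact absurd (Finset.mem_univ _) h
  rw [h1]
  by_cases hb : deg b = 2
  · exact (mul_pr deg (blk deg 2 M) a ⟨b, hb⟩).symm
  · rw [hM a b (by rw [a.2]; exact fun h => hb h.symm), Matrix.mul_apply, Finset.sum_eq_zero]
    intro c _
    have : (c : ι) ≠ b := fun h => hb (h ▸ c.2)
    simp [pr, this]

end Pool.Agent.NH56.HL.Exp68

namespace Pool.Agent.NH56.HL

open Matrix Polynomial Filter Topology NumberField IsDedekindDomain Pool.Agent.NH56.HY
open Pool.Agent.NH56.HO

theorem t_EXP (hEXM : S_EXM) (hBAS : S_BAS) (hPER : S_PER) : S_EXP := by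
  intro ι _ _ X hX x hx
  obtain ⟨b1, b2, -, -, -, b6, b7, b8, -⟩ := hBAS ι X hX ℂ
  obtain ⟨m1, m2, -, -, -, -, -⟩ := hEXM ι (X.δF ℂ x)
  obtain ⟨-, n2, -, -, -, -, -⟩ := hEXM ι (-(X.δF ℂ x))
  obtain ⟨k1, -, -, -, -, k6, k7⟩ := hEXM {a // X.deg a = 2} x
  have hg : IsGraded X.deg (NormedSpace.exp (X.δF ℂ x)) := by
    rw [Exp68.graded_iff]
    exact m2 ι (X.δF ℂ x) (X.H ℂ) ((Exp68.graded_iff X _).mp (b7 x))
  have hg' : IsGraded X.deg (NormedSpace.exp (-(X.δF ℂ x))) := by
    rw [Exp68.graded_iff]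
    refine n2 ι (-(X.δF ℂ x)) (X.H ℂ) ?_
    rw [mul_neg, neg_mul, (Exp68.graded_iff X _).mp (b7 x)]
  refine ⟨m1, k1, hg, hg', ?_, ?_, ?_, ?_⟩
  · have e1 : Exp68.pr X.deg * X.δF ℂ x = x * Exp68.pr X.deg := by
      rw [Exp68.pr_mul X.deg _ (b7 x), b8 x hx]
    have e2 := m2 {a // X.deg a = 2} x (Exp68.pr X.deg) e1
    rw [Exp68.pr_mul X.deg _ hg] at e2
    ext a b
    have e3 := congrFun (congrFun e2 a) (b : ι)
    rw [Exp68.mul_pr, Exp68.mul_pr] at e3
    exact e3
  · exact k7 _ hx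
  · intro y _
    let d : Matrix {a // X.deg a = 2} {a // X.deg a = 2} ℂ →ₗ[ℂ] Matrix ι ι ℂ :=
      { toFun := X.δF ℂ
        map_add' := b1
        map_smul' := b2 }
    exact k6 ι (X.δF ℂ x) d (fun z => (b6 x z hx).symm) y
  · intro B hB
    have h := (hPER ι X hX ℂ B hB).1 x
    exact (m2 ι (X.δF ℂ x) B h.symm).symm

end Pool.Agent.NH56.HL
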