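import Pool.Agent.NH56.HL.Stm
import Pool.Agent.NH56.HY.Laa

/-!
# Local Euler factors of hyper-Kähler varieties at all places: the theorem
-/

set_option autoImplicit false

namespace Pool.Agent.NH56.HL

open Matrix Polynomial Filter Topology NumberField IsDedekindDomain Pool.Agent.NH56.HY
open Pool.Agent.NH56.HO

namespace FinP

theorem exists_pow {K : Type} [Field K] [NumberField K] (U : Subgroup (GK K))
    (hU : IsOpen (U : Set (GK K))) (g : GK K) : ∃ m : ℕ, 0 < m ∧ g ^ m ∈ U := by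
  have : Finite (GK K ⧸ U) := Subgroup.quotient_finite_of_isOpen U hU
  have : U.FiniteIndex := Subgroup.finiteIndex_of_finite_quotient
  obtain ⟨m, h1, -, h2⟩ := Subgroup.exists_pow_mem_of_index_ne_zero
    (Subgroup.FiniteIndex.index_ne_zero (H := U)) g
  exact ⟨m, h1, h2⟩

theorem inertia_pow {K : Type} [Field K] (Q : Ideal (𝓞 (AlgebraicClosure K))) {g : GK K}
    (hg : g ∈ inertia Q) (m : ℕ) : g ^ m ∈ inertia Q := by
  induction m with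
  | zero =>
    intro x
    rw [pow_zero, one_smul, sub_self]
    exact Q.zero_mem
  | succ m ih =>
    intro x
    have h1 := hg ((g ^ m) • x)
    have h2 := Q.add_mem h1 (ih x)
    rw [sub_add_sub_cancel, smul_smul, ← pow_succ'] at h2
    exact h2

theorem two_le_norm {K : Type} [Field K] [NumberField K] (v : HeightOneSpectrum (𝓞 K)) :
    2 ≤ Ideal.absNorm v.asIdeal := by
  have h0 : Ideal.absNorm v.asIdeal ≠ 0 := fun h => v.ne_bot (Ideal.absNorm_eq_zero_iff.1 h)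
  have h1 : Ideal.absNorm v.asIdeal ≠ 1 := fun h =>
    v.isPrime.ne_top (Ideal.absNorm_eq_one_iff.1 h)
  omega

theorem isWM_smul {n : Type} [Fintype n] [DecidableEq n] {q : ℝ} {w : ℕ} {G N : Matrix n n ℂ}
    (h : IsWM q w G N) (m : ℂ) (hm : m ≠ 0) : IsWM q w G (m • N) := by
  obtain ⟨E, H, h1, h2, h3, h4⟩ := h
  refine ⟨m⁻¹ • E, H, h1, ?_, ?_, ?_⟩
  · rw [Matrix.mul_smul, Matrix.smul_mul, ← smul_sub, h2, smul_comm]
  · rw [Matrix.mul_smul, Matrix.smul_mul, ← smul_sub, h3, smul_neg, smul_comm]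
  · rw [Matrix.mul_smul, Matrix.smul_mul, Matrix.mul_smul, Matrix.smul_mul, smul_smul, smul_smul,
      mul_inv_cancel₀ hm, inv_mul_cancel₀ hm, one_smul, one_smul, h4]

theorem aeval_blk {Γ ι : Type} [Group Γ] [Fintype ι] [DecidableEq ι] {F : Type} [Field F]
    (deg : ι → ℕ) (j : ℕ) (ρ : Γ →* Matrix ι ι F) (h : ∀ g, IsGraded deg (ρ g)) (g : Γ) (f : ℤ[X])
    (hf : aeval (ρ g) f = 0) : aeval (blkHom deg j ρ h g) f = 0 := by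
  rw [Polynomial.aeval_eq_sum_range] at hf ⊢
  ext a b
  have h1 := congrFun (congrFun hf a.1) b.1
  rw [Matrix.zero_apply, Matrix.sum_apply] at h1 ⊢
  rw [← h1]
  refine Finset.sum_congr rfl fun i _ => ?_
  rw [Matrix.smul_apply, Matrix.smul_apply, ← map_pow, ← map_pow]
  rfl

theorem lgu_map {n : Type} [Fintype n] [DecidableEq n] {ℓ : ℕ} [Fact ℓ.Prime] (c : ℚ_[ℓ] →+* ℂ)
    (m : ℕ) (N : Matrix n n ℚ_[ℓ]) : ((m : ℚ_[ℓ]) • N).map c = (m : ℂ) • N.map c := by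
  ext a b
  rw [Matrix.map_apply, Matrix.smul_apply, Matrix.smul_apply, Matrix.map_apply, smul_eq_mul,
    smul_eq_mul, map_mul, map_natCast]

end FinP

open FinP in
theorem t_FIN (hNUS : HO.S_NUS) (hLGU : S_LGU) (hWMJ : S_WMJ) (hUNP : S_UNP) (hRAT : S_RAT)
    (hLOC : S_LOC) : S_FIN := by
  intro K _ _ ι _ _ X S χ Pol ρ hX hR hHT hOr v Q U₀ hQ hK j hj
  have hNU : ∀ (ℓ : ℕ) [Fact ℓ.Prime], NonUnip (χ ℓ) (fun g => blk X.deg 2 (ρ ℓ g)) :=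
    fun ℓ _ => hNUS K ℓ ι X (S ℓ) (χ ℓ) Pol (ρ ℓ) hX (hR ℓ) (hHT ℓ)
  obtain ⟨U, hUn, hUo, hUle, hU⟩ := hUNP K ι X S χ Pol ρ hX hR hNU hOr v Q U₀ hQ hK
  refine ⟨⟨U, hUo, fun ℓ _ hℓ g hg hg' => hU j hj ℓ hℓ g hg hg'⟩, ?_⟩
  refine hLOC K {a // X.deg a = j} (fun ℓ _ => blkHom X.deg j (ρ ℓ) (hR ℓ).graded)
    (fun ℓ _ => continuous_blk X.deg j (ρ ℓ) (hR ℓ).continuous.1) v Q U j hQ hUn hUo
    (fun ℓ _ hℓ g hg hg' => hU j hj ℓ hℓ g hg hg') ?_ ?_ ?_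
  · obtain ⟨t, ht⟩ := hRAT K ι X S χ Pol ρ hX hR hNU hOr v Q U₀ hQ hK j hj
    exact ⟨t, fun ℓ _ hℓ k hk g hg => ht ℓ hℓ k hk g hg⟩
  · intro ℓ _ hℓ g hg
    obtain ⟨f, hf1, hf2⟩ := hK.integral ℓ hℓ g hg
    exact ⟨f, hf1, aeval_blk X.deg j (ρ ℓ) (hR ℓ).graded g f hf2⟩
  · intro ℓ _ hℓ c g hg y x hx
    obtain ⟨u₀, hu1, hu2, hWM⟩ := hK.monodromy ℓ hℓ c g hg
    obtain ⟨W, hWo, hW⟩ := near_subgroup (χ ℓ) (ρ ℓ) (hR ℓ).continuous.2 (hR ℓ).continuous.1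
    obtain ⟨m, hm, hmW⟩ := exists_pow (U ⊓ W) (hUo.inter hWo) u₀
    have hI : u₀ ^ m ∈ inertia Q := inertia_pow Q hu2 m
    have hnear : u₀ ^ m ∈ Near (χ ℓ) (ρ ℓ) := by
      rw [← hW]
      exact hmW.2
    have hnil : IsNilpotent (blk X.deg 2 (ρ ℓ (u₀ ^ m)) - 1) :=
      hU 2 even_two ℓ hℓ _ hmW.1 hI
    have hpow : blk X.deg 2 (ρ ℓ (u₀ ^ m)) = blk X.deg 2 (ρ ℓ u₀) ^ m :=
      map_pow (blkHom X.deg 2 (ρ ℓ) (hR ℓ).graded) u₀ m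
    have hlg := (hLGU ℓ _ (blk X.deg 2 (ρ ℓ u₀)) (hK.unipotent ℓ hℓ u₀ hu1 hu2)).2.2 m
    have hWM' : IsWM ((Ideal.absNorm v.asIdeal : ℕ) : ℝ) 2 ((blk X.deg 2 (ρ ℓ g)).map c)
        ((lgu (blk X.deg 2 (ρ ℓ (u₀ ^ m)))).map c) := by
      rw [hpow, hlg, lgu_map]
      exact isWM_smul hWM _ (Nat.cast_ne_zero.2 hm.ne')
    have h := hWMJ K ℓ ι X (S ℓ) (χ ℓ) Pol (ρ ℓ) hX (hR ℓ) (hNU ℓ) c _ g (u₀ ^ m)
      (two_le_norm v) hnear hnil hWM' j x y hx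
    exact ⟨fun h1 h2 => h.1 (h1 _ hmW.1 hI) h2, fun h1 h2 => h.2 (h1 _ hmW.1 hI) h2⟩

end Pool.Agent.NH56.HL
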