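import Pool.Agent.NH56.HL.Stm

/-!
# Hyperbolic bases of eigenvectors
-/

set_option autoImplicit false

namespace Pool.Agent.NH56.HL

namespace Fra

open Module

section

variable {V : Type} [AddCommGroup V] [Module ℂ V]

/-- a quadratic form of rank at least two is isotropic -/
theorem exists_iso (B : V →ₗ[ℂ] V →ₗ[ℂ] ℂ) (hs : ∀ x y, B x y = B y x) (E : Submodule ℂ V)
    (h2 : 2 ≤ finrank ℂ E) : ∃ u ∈ E, u ≠ 0 ∧ B u u = 0 := by
  have hnt : Nontrivial E := Module.nontrivial_of_finrank_pos (R := ℂ) (by omega)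
  obtain ⟨x, hx⟩ := exists_ne (0 : E)
  obtain ⟨y, hy⟩ := exists_linearIndependent_pair_of_one_lt_finrank (R := ℂ) (M := E) (by omega) hx
  rw [LinearIndependent.pair_iff] at hy
  have hy0 : (y : V) ≠ 0 := by
    intro h
    have h' : y = 0 := Subtype.ext h
    have := (hy 0 1 (by rw [h', zero_smul, smul_zero, add_zero])).2
    exact one_ne_zero this
  by_cases hyy : B y y = 0
  · exact ⟨y, y.2, hy0, hyy⟩
  obtain ⟨d, hd⟩ := IsAlgClosed.exists_eq_mul_self
    (discrim (B (y : V) y) (2 * B (x : V) y) (B (x : V) x))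
  obtain ⟨s, hs'⟩ := exists_quadratic_eq_zero hyy ⟨d, hd⟩
  refine ⟨(x : V) + s • (y : V), E.add_mem x.2 (E.smul_mem s y.2), fun h => ?_, ?_⟩
  · have h' : (1 : ℂ) • x + s • y = 0 := by
      apply Subtype.ext
      rw [one_smul]
      exact h
    exact one_ne_zero (hy 1 s h').1
  · simp only [map_add, map_smul, LinearMap.add_apply, LinearMap.smul_apply, smul_eq_mul]
    rw [hs (y : V) x]
    linear_combination hs'

/-- a hyperbolic pair from an isotropic vector -/
theorem exists_hyp (B : V →ₗ[ℂ] V →ₗ[ℂ] ℂ) (hs : ∀ x y, B x y = B y x) (E : Submodule ℂ V)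
    {u : V} (hu : u ∈ E) (h0 : B u u = 0) {z : V} (hz : z ∈ E) (h1 : B u z ≠ 0) :
    ∃ v ∈ E, B v v = 0 ∧ B u v = 1 := by
  obtain ⟨y, hy⟩ : ∃ y, y = (B u z)⁻¹ • z := ⟨_, rfl⟩
  have hyE : y ∈ E := by
    rw [hy]
    exact E.smul_mem _ hz
  have huy : B u y = 1 := by
    rw [hy, map_smul, smul_eq_mul, inv_mul_cancel₀ h1]
  refine ⟨y - (B y y / 2) • u, E.sub_mem hyE (E.smul_mem _ hu), ?_, ?_⟩
  · simp only [map_sub, map_smul, LinearMap.sub_apply, LinearMap.smul_apply, smul_eq_mul]
    rw [hs y u, huy, h0]
    ring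
  · rw [map_sub, map_smul, h0, huy, smul_zero, sub_zero]

/-- the claim: one pair -/
theorem pair [FiniteDimensional ℂ V] (B : V →ₗ[ℂ] V →ₗ[ℂ] ℂ) (t : V →ₗ[ℂ] V)
    (hs : ∀ x y, B x y = B y x) (hn : ∀ x, (∀ y, B x y = 0) → x = 0)
    (ht : ∀ x y, B (t x) (t y) = B x y) (hdet : LinearMap.det t = 1)
    (htop : ⨆ a, Module.End.eigenspace t a = ⊤) (h2 : 2 ≤ finrank ℂ V) :
    ∃ (u v : V) (c : ℂ), B u u = 0 ∧ B v v = 0 ∧ B u v = 1 ∧ c ≠ 0 ∧ t u = c • u ∧
      t v = c⁻¹ • v := by
  -- vectors orthogonal to all eigenvectors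
  have hall : ∀ u : V, (∀ b, ∀ x ∈ Module.End.eigenspace t b, B u x = 0) → u = 0 := by
    intro u hu
    refine hn u fun y => ?_
    have hy : y ∈ ⨆ a, Module.End.eigenspace t a := by
      rw [htop]
      exact Submodule.mem_top
    induction hy using Submodule.iSup_induction' with
    | mem b x hx => exact hu b x hx
    | zero => rw [map_zero]
    | add x y _ _ hx hy => rw [map_add, hx, hy, add_zero]
  have horth : ∀ a b : ℂ, a * b ≠ 1 → ∀ x ∈ Module.End.eigenspace t a,
      ∀ y ∈ Module.End.eigenspace t b, B x y = 0 := by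
    intro a b hab x hx y hy
    rw [Module.End.mem_eigenspace_iff] at hx hy
    have h := ht x y
    rw [hx, hy] at h
    simp only [map_smul, LinearMap.smul_apply, smul_eq_mul] at h
    have h3 : (a * b - 1) * B x y = 0 := by
      linear_combination h
    exact (mul_eq_zero.1 h3).resolve_left (sub_ne_zero.2 hab)
  by_cases hi : ∃ a : ℂ, a ^ 2 ≠ 1 ∧ Module.End.eigenspace t a ≠ ⊥
  · obtain ⟨a, ha, hne⟩ := hi
    obtain ⟨u, hu, hu0⟩ := Submodule.exists_mem_ne_zero_of_ne_bot hne
    have hex : ∃ b, ∃ x ∈ Module.End.eigenspace t b, B u x ≠ 0 := by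
      by_contra hcon
      push Not at hcon
      exact hu0 (hall u hcon)
    obtain ⟨b, x, hx, hux⟩ := hex
    have hab : a * b = 1 := by
      by_contra hcon
      exact hux (horth a b hcon u hu x hx)
    have ha0 : a ≠ 0 := left_ne_zero_of_mul_eq_one hab
    have hb : b = a⁻¹ := eq_inv_of_mul_eq_one_right hab
    subst hb
    have haa : a * a ≠ 1 := by rwa [← pow_two]
    have hbb : a⁻¹ * a⁻¹ ≠ 1 := by
      rw [← mul_inv, Ne, inv_eq_one]
      exact haa
    refine ⟨u, (B u x)⁻¹ • x, a, horth a a haa u hu u hu, ?_, ?_, ha0,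
      Module.End.mem_eigenspace_iff.1 hu, ?_⟩
    · exact horth _ _ hbb _ (Submodule.smul_mem _ _ hx) _ (Submodule.smul_mem _ _ hx)
    · rw [map_smul, smul_eq_mul, inv_mul_cancel₀ hux]
    · exact Module.End.mem_eigenspace_iff.1 (Submodule.smul_mem _ _ hx)
  · push Not at hi
    set P := Module.End.eigenspace t 1 with hP
    set Q := Module.End.eigenspace t (-1) with hQ
    have hPQ : P ⊔ Q = ⊤ := by
      rw [eq_top_iff, ← htop]
      refine iSup_le fun a => ?_
      by_cases h1 : a ^ 2 = 1
      · rcases (mul_self_eq_one_iff (a := a)).1 (by rw [← pow_two]; exact h1) with h | h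
        · rw [h]
          exact le_sup_left
        · rw [h]
          exact le_sup_right
      · rw [hi a h1]
        exact bot_le
    -- large eigenspaces
    have hbig : ∀ e : ℂ, e * e = 1 → (∀ b, b ≠ e → b * b = 1 → e * b ≠ 1) →
        2 ≤ finrank ℂ (Module.End.eigenspace t e) →
        ∃ (u v : V) (c : ℂ), B u u = 0 ∧ B v v = 0 ∧ B u v = 1 ∧ c ≠ 0 ∧ t u = c • u ∧
          t v = c⁻¹ • v := by
      intro e he hb hr
      obtain ⟨u, hu, hu0, huu⟩ := exists_iso B hs _ hr
      have hex : ∃ z ∈ Module.End.eigenspace t e, B u z ≠ 0 := by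
        by_contra hcon
        push Not at hcon
        refine hu0 (hall u fun b x hx => ?_)
        by_cases hbe : b = e
        · subst hbe
          exact hcon x hx
        · by_cases hbb : b * b = 1
          · exact horth e b (hb b hbe hbb) u hu x hx
          · have : Module.End.eigenspace t b = ⊥ := hi b (by rwa [pow_two])
            rw [this, Submodule.mem_bot] at hx
            rw [hx, map_zero]
      obtain ⟨z, hz, huz⟩ := hex
      obtain ⟨v, hv, hvv, huv⟩ := exists_hyp B hs _ hu huu hz huz
      have he0 : e ≠ 0 := left_ne_zero_of_mul_eq_one he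
      have hei : e⁻¹ = e := (eq_inv_of_mul_eq_one_left he).symm
      exact ⟨u, v, e, huu, hvv, huv, he0, Module.End.mem_eigenspace_iff.1 hu,
        by rw [hei]; exact Module.End.mem_eigenspace_iff.1 hv⟩
    have hone : ∀ b : ℂ, b * b = 1 → b = 1 ∨ b = -1 := by
      intro b hb
      exact mul_self_eq_one_iff.1 hb
    by_cases hP2 : 2 ≤ finrank ℂ P
    · refine hbig 1 (by ring) (fun b hb1 hb2 => ?_) hP2
      rw [one_mul]
      exact hb1
    by_cases hQ2 : 2 ≤ finrank ℂ Q
    · refine hbig (-1) (by ring) (fun b hb1 hb2 => ?_) hQ2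
      rcases hone b hb2 with h | h
      · rw [h]
        norm_num
      · exact absurd h hb1
    exfalso
    have hdis : Disjoint P Q := by
      rw [Submodule.disjoint_def]
      intro x hx hx'
      rw [hP, Module.End.mem_eigenspace_iff, one_smul] at hx
      rw [hQ, Module.End.mem_eigenspace_iff, hx, neg_smul, one_smul] at hx'
      have h2 : (2 : ℂ) • x = 0 := by
        rw [two_smul]
        nth_rewrite 1 [hx']
        exact neg_add_cancel x
      exact (smul_eq_zero.1 h2).resolve_left two_ne_zero
    have hc : IsCompl P Q := ⟨hdis, codisjoint_iff.2 hPQ⟩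
    have hfr := Submodule.finrank_add_eq_of_isCompl hc
    have hQ1 : finrank ℂ Q = 1 := by omega
    have hconj : ((Submodule.prodEquivOfIsCompl P Q hc).symm : V →ₗ[ℂ] P × Q) ∘ₗ t ∘ₗ
        ((Submodule.prodEquivOfIsCompl P Q hc).symm.symm : P × Q →ₗ[ℂ] V) =
        LinearMap.prodMap (LinearMap.id : P →ₗ[ℂ] P) ((-1 : ℂ) • (LinearMap.id : Q →ₗ[ℂ] Q)) := by
      apply LinearMap.ext
      intro x
      apply (Submodule.prodEquivOfIsCompl P Q hc).injective
      rw [LinearMap.comp_apply, LinearMap.comp_apply, LinearEquiv.coe_coe, LinearEquiv.coe_coe,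
        LinearEquiv.apply_symm_apply, LinearEquiv.symm_symm, Submodule.coe_prodEquivOfIsCompl',
        Submodule.coe_prodEquivOfIsCompl', LinearMap.prodMap_apply, map_add,
        Module.End.mem_eigenspace_iff.1 x.1.2, Module.End.mem_eigenspace_iff.1 x.2.2, one_smul]
      rfl
    have hd : LinearMap.det t = -1 := by
      rw [← LinearMap.det_conj t (Submodule.prodEquivOfIsCompl P Q hc).symm, hconj,
        LinearMap.det_prodMap, LinearMap.det_id, LinearMap.det_smul, LinearMap.det_id, hQ1]
      norm_num
    rw [hd] at hdet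
    norm_num at hdet

end

end Fra

open Fra Module in
theorem t_FRA : S_FRA := by
  intro s
  induction s with
  | zero =>
    intro V _ _ _ B t hs hn ht hdet htop hr
    exact ⟨fun i => i.elim0, fun i => i.elim0, fun i => i.elim0, fun i => i.elim0, fun i => i.elim0,
      fun i => i.elim0, fun i => i.elim0, fun i => i.elim0, fun i => i.elim0⟩
  | succ s ih =>
    intro V _ _ _ B t hs hn ht hdet htop hr
    obtain ⟨u, v, c, huu, hvv, huv, hc, htu, htv⟩ := pair B t hs hn ht hdet htop (by omega)
    have hvu : B v u = 1 := by rw [hs, huv]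
    have hBu : ∀ x, B u (t x) = c⁻¹ * B u x := by
      intro x
      have h := ht u x
      rw [htu, map_smul, LinearMap.smul_apply, smul_eq_mul] at h
      rw [← h, ← mul_assoc, inv_mul_cancel₀ hc, one_mul]
    have hBv : ∀ x, B v (t x) = c * B v x := by
      intro x
      have h := ht v x
      rw [htv, map_smul, LinearMap.smul_apply, smul_eq_mul] at h
      rw [← h, ← mul_assoc, mul_inv_cancel₀ hc, one_mul]
    set W : Submodule ℂ V := LinearMap.ker (B u) ⊓ LinearMap.ker (B v) with hW
    have hmem : ∀ {w : V}, w ∈ W ↔ B u w = 0 ∧ B v w = 0 := by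
      intro w
      rw [hW, Submodule.mem_inf, LinearMap.mem_ker, LinearMap.mem_ker]
    -- the projection
    obtain ⟨π, hπ⟩ : ∃ π : V →ₗ[ℂ] W, ∀ x, ((π x : W) : V) = x - B v x • u - B u x • v := by
      refine ⟨LinearMap.codRestrict W (LinearMap.id - (B v).smulRight u - (B u).smulRight v)
        (fun x => ?_), fun x => rfl⟩
      rw [hmem]
      simp only [LinearMap.sub_apply, LinearMap.id_apply, LinearMap.smulRight_apply, map_sub,
        map_smul, smul_eq_mul, huu, hvv, huv, hvu]
      constructor <;> ring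
    have hπW : ∀ w : W, π w = w := by
      intro w
      apply Subtype.ext
      rw [hπ, (hmem.1 w.2).1, (hmem.1 w.2).2, zero_smul, zero_smul, sub_zero, sub_zero]
    have htW : ∀ w ∈ W, t w ∈ W := by
      intro w hw
      rw [hmem] at hw ⊢
      rw [hBu, hBv, hw.1, hw.2, mul_zero, mul_zero]
      exact ⟨rfl, rfl⟩
    set tW : W →ₗ[ℂ] W := t.restrict htW with htWd
    have htWc : ∀ w : W, ((tW w : W) : V) = t w := fun w => rfl
    have hcomm : ∀ x, π (t x) = tW (π x) := by
      intro x
      apply Subtype.ext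
      rw [hπ, htWc, hπ, hBu, hBv, map_sub, map_sub, map_smul, map_smul, htu, htv, smul_smul,
        smul_smul, mul_comm c, mul_comm c⁻¹]
    -- the equivalence
    let e : V ≃ₗ[ℂ] W × (ℂ × ℂ) :=
      { toFun := fun x => (π x, (B v x, B u x))
        map_add' := fun x y => by simp only [map_add]; rfl
        map_smul' := fun a x => by simp only [map_smul]; rfl
        invFun := fun y => (y.1 : V) + y.2.1 • u + y.2.2 • v
        left_inv := fun x => by
          show ((π x : W) : V) + B v x • u + B u x • v = x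
          rw [hπ]
          abel
        right_inv := fun y => by
          obtain ⟨w, a, b⟩ := y
          have h1 := (hmem.1 w.2).1
          have h2 := (hmem.1 w.2).2
          have h3 : B v ((w : V) + a • u + b • v) = a := by
            simp only [map_add, map_smul, smul_eq_mul, h2, hvu, hvv]
            ring
          have h4 : B u ((w : V) + a • u + b • v) = b := by
            simp only [map_add, map_smul, smul_eq_mul, h1, huv, huu]
            ring
          show (π ((w : V) + a • u + b • v), (B v ((w : V) + a • u + b • v),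
            B u ((w : V) + a • u + b • v))) = (w, a, b)
          rw [h3, h4]
          refine Prod.ext (Subtype.ext ?_) rfl
          show ((π ((w : V) + a • u + b • v) : W) : V) = w
          rw [hπ, h3, h4]
          abel }
    have hconj : (e : V →ₗ[ℂ] W × (ℂ × ℂ)) ∘ₗ t ∘ₗ (e.symm : W × (ℂ × ℂ) →ₗ[ℂ] V) =
        LinearMap.prodMap tW (LinearMap.prodMap (c • (LinearMap.id : ℂ →ₗ[ℂ] ℂ))
          (c⁻¹ • (LinearMap.id : ℂ →ₗ[ℂ] ℂ))) := by
      apply LinearMap.ext
      intro y
      obtain ⟨x, rfl⟩ := e.surjective y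
      rw [LinearMap.comp_apply, LinearMap.comp_apply, LinearEquiv.coe_coe, LinearEquiv.coe_coe,
        LinearEquiv.symm_apply_apply]
      show (π (t x), (B v (t x), B u (t x))) = (tW (π x), (c * B v x, c⁻¹ * B u x))
      rw [hcomm, hBu, hBv]
    have hdetW : LinearMap.det tW = 1 := by
      have h := LinearMap.det_conj t e
      rw [hconj, LinearMap.det_prodMap, LinearMap.det_prodMap, LinearMap.det_smul,
        LinearMap.det_smul, LinearMap.det_id, hdet, finrank_self, pow_one,
        pow_one, mul_one, mul_one, mul_inv_cancel₀ hc, mul_one] at h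
      exact h
    have hrW : finrank ℂ W = 2 * s := by
      have h := LinearEquiv.finrank_eq e
      rw [finrank_prod, finrank_prod, finrank_self, hr] at h
      omega
    -- the form on W
    let BW : W →ₗ[ℂ] W →ₗ[ℂ] ℂ := B.domRestrict₁₂ W W
    have hBW : ∀ x y : W, BW x y = B x y := fun x y => rfl
    have hnW : ∀ x : W, (∀ y : W, BW x y = 0) → x = 0 := by
      intro x hx
      apply Subtype.ext
      refine hn x fun y => ?_
      have h1 : y = (π y : V) + B v y • u + B u y • v := by
        rw [hπ]
        abel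
      have h2 : B x (π y : V) = 0 := hx (π y)
      rw [h1, map_add, map_add, map_smul, map_smul, h2, hs x u, hs x v, (hmem.1 x.2).1,
        (hmem.1 x.2).2, smul_zero, smul_zero, add_zero, add_zero]
    have htopW : ⨆ a, Module.End.eigenspace tW a = ⊤ := by
      rw [eq_top_iff]
      intro w _
      have h1 : ⨆ a, Module.End.eigenspace t a ≤
          Submodule.comap π (⨆ a, Module.End.eigenspace tW a) := by
        refine iSup_le fun a x hx => ?_
        rw [Submodule.mem_comap]
        refine Submodule.mem_iSup_of_mem a ?_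
        rw [Module.End.mem_eigenspace_iff] at hx ⊢
        rw [← hcomm, hx, map_smul]
      rw [htop] at h1
      have h2 := h1 (Submodule.mem_top (x := (w : V)))
      rw [Submodule.mem_comap, hπW] at h2
      exact h2
    obtain ⟨a, a', d, h1, h2, h3, h4, h5, h6⟩ := ih W BW tW (fun x y => hs x y) hnW
      (fun x y => ht x y) hdetW htopW hrW
    have hua : ∀ i, B u (a i) = 0 := fun i => (hmem.1 (a i).2).1
    have hva : ∀ i, B v (a i) = 0 := fun i => (hmem.1 (a i).2).2
    have hua' : ∀ i, B u (a' i) = 0 := fun i => (hmem.1 (a' i).2).1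
    have hva' : ∀ i, B v (a' i) = 0 := fun i => (hmem.1 (a' i).2).2
    refine ⟨Fin.cons u fun i => (a i : V), Fin.cons v fun i => (a' i : V), Fin.cons c d,
      ?_, ?_, ?_, ?_, ?_, ?_⟩
    · intro i j
      refine Fin.cases ?_ (fun i => ?_) i <;> refine Fin.cases ?_ (fun j => ?_) j
      · simpa using huu
      · simpa using hua j
      · simpa [hs _ u] using hua i
      · rw [Fin.cons_succ, Fin.cons_succ]
        exact h1 i j
    · intro i j
      refine Fin.cases ?_ (fun i => ?_) i <;> refine Fin.cases ?_ (fun j => ?_) j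
      · simpa using hvv
      · simpa using hva' j
      · simpa [hs _ v] using hva' i
      · rw [Fin.cons_succ, Fin.cons_succ]
        exact h2 i j
    · intro i j
      refine Fin.cases ?_ (fun i => ?_) i <;> refine Fin.cases ?_ (fun j => ?_) j
      · simpa using huv
      · rw [if_neg (Fin.succ_ne_zero j).symm]
        simpa using hua' j
      · rw [if_neg (Fin.succ_ne_zero i)]
        simpa [hs _ v] using hva i
      · have := h3 i j
        simp only [Fin.cons_succ, Fin.succ_inj]
        exact this
    · intro i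
      refine Fin.cases ?_ (fun i => ?_) i
      · exact hc
      · exact h4 i
    · intro i
      refine Fin.cases ?_ (fun i => ?_) i
      · exact htu
      · exact congrArg Subtype.val (h5 i)
    · intro i
      refine Fin.cases ?_ (fun i => ?_) i
      · exact htv
      · exact congrArg Subtype.val (h6 i)

end Pool.Agent.NH56.HL
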