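import Pool.Agent.NH56.HL.Stm

/-!
# Consequences of a frame
-/

set_option autoImplicit false

namespace Pool.Agent.NH56.HL

open Matrix

namespace FrcAux

variable {n : Type} [Fintype n] {q : Matrix n n ℂ}

lemma bl_comm (hq : qᵀ = q) (a c : n → ℂ) : bl q a c = bl q c a := by
  unfold bl
  rw [dotProduct_mulVec, ← mulVec_transpose, hq, dotProduct_comm]

lemma wd_mulVec (hq : qᵀ = q) (a c v : n → ℂ) :
    wd q a c *ᵥ v = bl q c v • a - bl q a v • c := by
  have h : ∀ x y : n → ℂ, vecMulVec x (q *ᵥ y) *ᵥ v = bl q y v • x := by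
    intro x y
    ext i
    have : (q *ᵥ y) ⬝ᵥ v = bl q y v := by
      rw [bl_comm hq, dotProduct_comm]
      rfl
    rw [Pi.smul_apply, smul_eq_mul, ← this]
    generalize q *ᵥ y = w
    simp only [mulVec, dotProduct, vecMulVec_apply, Finset.sum_mul]
    refine Finset.sum_congr rfl fun j _ => ?_
    ring
  unfold wd
  rw [sub_mulVec, h, h]

/-- the index set of the frame -/
abbrev J (s e : ℕ) : Type := (Fin s ⊕ Fin s) ⊕ Fin e

/-- the family of the frame -/
def fam {s e : ℕ} (u u' : Fin s → n → ℂ) (z : Fin e → n → ℂ) : J s e → n → ℂ :=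
  Sum.elim (Sum.elim u u') z

lemma dual (hq : qᵀ = q) {s e : ℕ} {u u' : Fin s → n → ℂ} {z : Fin e → n → ℂ}
    (h : Frame q u u' z) (i j : J s e) :
    bl q (fam u' u z i) (fam u u' z j) = if i = j then 1 else 0 := by
  rcases i with (i | i) | i <;> rcases j with (j | j) | j
  · simp only [fam, Sum.elim_inl, Sum.inl.injEq]
    rw [bl_comm hq, h.uv]
    by_cases hij : i = j
    · simp [hij]
    · simp [hij, Ne.symm hij]
  · simp [fam, h.vv]
  · simp [fam, h.vz]
  · simp [fam, h.uu]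
  · simp [fam, h.uv]
  · simp [fam, h.uz]
  · simp only [fam, Sum.elim_inl, Sum.elim_inr]
    rw [bl_comm hq, h.uz]
    simp
  · simp only [fam, Sum.elim_inl, Sum.elim_inr]
    rw [bl_comm hq, h.vz]
    simp
  · simp [fam, h.zz]

variable [DecidableEq n]

lemma mat (hq : qᵀ = q) {s e : ℕ} {u u' : Fin s → n → ℂ} {z : Fin e → n → ℂ}
    (hc : Fintype.card n = 2 * s + e) (h : Frame q u u' z) :
    ∃ (B : Matrix n (J s e) ℂ) (D : Matrix (J s e) n ℂ), B * D = 1 ∧
      (∀ j, (fun i => B i j) = fam u u' z j) ∧ ∀ j v, (D *ᵥ v) j = bl q (fam u' u z j) v := by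
  refine ⟨Matrix.of fun i j => fam u u' z j i, Matrix.of fun j => (fam u' u z j) ᵥ* q, ?_, ?_, ?_⟩
  · have hcard : Fintype.card (J s e) = Fintype.card n := by
      rw [hc]; simp [J]; ring
    refine (Matrix.mul_eq_one_comm_of_equiv (Fintype.card_eq.mp hcard).some).1 ?_
    ext i j
    rw [Matrix.mul_apply, Matrix.one_apply, ← dual hq h i j]
    unfold bl
    rw [dotProduct_mulVec]
    rfl
  · intro j
    rfl
  · intro j v
    unfold bl
    rw [dotProduct_mulVec]
    rfl

lemma resolve (hq : qᵀ = q) {s e : ℕ} {u u' : Fin s → n → ℂ} {z : Fin e → n → ℂ}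
    (hc : Fintype.card n = 2 * s + e) (h : Frame q u u' z) (v : n → ℂ) :
    v = ∑ i, (bl q (u' i) v • u i + bl q (u i) v • u' i) + ∑ k, bl q (z k) v • z k := by
  obtain ⟨B, D, hBD, hB, hD⟩ := mat hq hc h
  have h1 : v = ∑ j, bl q (fam u' u z j) v • fam u u' z j := by
    calc v = (B * D) *ᵥ v := by rw [hBD, one_mulVec]
      _ = B *ᵥ (D *ᵥ v) := by rw [mulVec_mulVec]
      _ = ∑ j, (D *ᵥ v) j • (fun i => B i j) := by
          ext i
          simp only [mulVec, dotProduct, Finset.sum_apply, Pi.smul_apply, smul_eq_mul]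
          exact Finset.sum_congr rfl fun j _ => mul_comm _ _
      _ = _ := by
          refine Finset.sum_congr rfl fun j _ => ?_
          rw [hB, hD]
  conv_lhs => rw [h1]
  rw [Fintype.sum_sum_type, Fintype.sum_sum_type, Finset.sum_add_distrib]
  rfl

lemma ext_frame (hq : qᵀ = q) {s e : ℕ} {u u' : Fin s → n → ℂ} {z : Fin e → n → ℂ}
    (hc : Fintype.card n = 2 * s + e) (h : Frame q u u' z) (M M' : Matrix n n ℂ)
    (h1 : ∀ i, M *ᵥ u i = M' *ᵥ u i) (h2 : ∀ i, M *ᵥ u' i = M' *ᵥ u' i)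
    (h3 : ∀ k, M *ᵥ z k = M' *ᵥ z k) : M = M' := by
  obtain ⟨B, D, hBD, hB, -⟩ := mat hq hc h
  have h4 : ∀ j, M *ᵥ fam u u' z j = M' *ᵥ fam u u' z j := by
    rintro ((i | i) | k)
    · exact h1 i
    · exact h2 i
    · exact h3 k
  have h5 : M * B = M' * B := by
    ext i j
    have := congrFun (h4 j) i
    rw [← hB j] at this
    exact this
  calc M = M * (B * D) := by rw [hBD, Matrix.mul_one]
    _ = M' * (B * D) := by rw [← Matrix.mul_assoc, h5, Matrix.mul_assoc]
    _ = M' := by rw [hBD, Matrix.mul_one]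

lemma pow_mulVec (t : Matrix n n ℂ) (x : n → ℂ) (a : ℂ) (h : t *ᵥ x = a • x) (k : ℕ) :
    (t ^ k) *ᵥ x = a ^ k • x := by
  induction k with
  | zero => simp
  | succ k ih => rw [pow_succ, ← mulVec_mulVec, h, mulVec_smul, ih, smul_smul, pow_succ']

end FrcAux

open FrcAux in
theorem t_FRC : S_FRC := by
  intro n _ _ q hq s e u u' z hc h
  have hu : ∀ i j, wd q (u i) (u' i) *ᵥ u j = if i = j then u j else 0 := by
    intro i j
    rw [wd_mulVec hq, bl_comm hq, h.uv, h.uu, zero_smul, sub_zero]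
    by_cases hij : i = j
    · subst hij; simp
    · rw [if_neg hij, if_neg (Ne.symm hij), zero_smul]
  have hv : ∀ i j, wd q (u i) (u' i) *ᵥ u' j = if i = j then -u' j else 0 := by
    intro i j
    rw [wd_mulVec hq, h.uv, h.vv, zero_smul, zero_sub]
    by_cases hij : i = j
    · subst hij; simp
    · rw [if_neg hij, if_neg hij, zero_smul, neg_zero]
  have hz : ∀ i k, wd q (u i) (u' i) *ᵥ z k = 0 := by
    intro i k
    rw [wd_mulVec hq, h.uz, h.vz, zero_smul, zero_smul, sub_zero]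
  refine ⟨resolve hq hc h, ext_frame hq hc h, ?_, ?_, hu, hv, hz, ?_, ?_, ?_⟩
  · intro i
    exact ⟨h.uu i i, h.vv i i, by rw [h.uv, if_pos rfl]⟩
  · intro i
    have hvm : ∀ x : n → ℂ, x ᵥ* q = q *ᵥ x := fun x => by rw [← mulVec_transpose, hq]
    unfold wd
    rw [transpose_sub, transpose_vecMulVec, transpose_vecMulVec, Matrix.sub_mul, Matrix.mul_sub,
      vecMulVec_mul, vecMulVec_mul, mul_vecMulVec, mul_vecMulVec, hvm, hvm]
    abel
  · intro i
    unfold wd
    rw [trace_sub, trace_vecMulVec, trace_vecMulVec]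
    have := bl_comm hq (u i) (u' i)
    unfold bl at this
    rw [this, sub_self]
  · intro i j
    refine ext_frame hq hc h _ _ ?_ ?_ ?_
    · intro k
      rw [← mulVec_mulVec, ← mulVec_mulVec, hu, hu]
      by_cases h1 : i = k <;> by_cases h2 : j = k <;> simp [h1, h2, hu, mulVec_zero]
    · intro k
      rw [← mulVec_mulVec, ← mulVec_mulVec, hv, hv]
      by_cases h1 : i = k <;> by_cases h2 : j = k <;> simp [h1, h2, hv, mulVec_zero, mulVec_neg]
    · intro k
      rw [← mulVec_mulVec, ← mulVec_mulVec, hz, hz, mulVec_zero, mulVec_zero]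
  · intro c t ht k
    obtain ⟨B, D, hBD, hB, hD⟩ := mat hq hc h
    let ev : J s e → ℂ := Sum.elim (Sum.elim c (fun i => (c i)⁻¹)) (fun _ => 1)
    have hev : ∀ j, t *ᵥ fam u u' z j = ev j • fam u u' z j := by
      rintro ((i | i) | k)
      · exact ht.u i
      · exact ht.v i
      · show t *ᵥ z k = (1 : ℂ) • z k
        rw [ht.z, one_smul]
    have h1 : (t ^ k).trace = (D * (t ^ k * B)).trace := by
      rw [Matrix.trace_mul_comm, Matrix.mul_assoc, hBD, Matrix.mul_one]
    rw [h1]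
    have h2 : ∀ j, (D * (t ^ k * B)) j j = ev j ^ k := by
      intro j
      have h3 : (D * (t ^ k * B)) j j = (D *ᵥ ((t ^ k) *ᵥ (fun i => B i j))) j := rfl
      rw [h3, hB, pow_mulVec t _ _ (hev j), mulVec_smul, Pi.smul_apply, hD, dual hq h, if_pos rfl,
        smul_eq_mul, mul_one]
    unfold Matrix.trace
    simp only [diag_apply, h2]
    rw [Fintype.sum_sum_type, Fintype.sum_sum_type, Finset.sum_add_distrib]
    simp only [ev, Sum.elim_inl, Sum.elim_inr, one_pow, Finset.sum_const, Finset.card_univ,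
      Fintype.card_fin, nsmul_eq_mul, mul_one]
    ring

end Pool.Agent.NH56.HL
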