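import Pool.Agent.NH56.HL.Stm

/-!
# HL-FRM: a frame of eigenvectors (helper72)
-/

set_option autoImplicit false

namespace Pool.Agent.NH56.HL

open Matrix Polynomial Module

namespace FrmH

/-- an isometry of determinant one with spanning eigenspaces -/
structure Dt {V : Type} [AddCommGroup V] [Module ℂ V] (B : V →ₗ[ℂ] V →ₗ[ℂ] ℂ)
    (t : V →ₗ[ℂ] V) : Prop where
  sy : ∀ x y, B x y = B y x
  nd : ∀ x, (∀ y, B x y = 0) → x = 0
  is : ∀ x y, B (t x) (t y) = B x y
  de : LinearMap.det t = 1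
  sp : ⨆ a, Module.End.eigenspace t a = ⊤

variable {V : Type} [AddCommGroup V] [Module ℂ V] [FiniteDimensional ℂ V]
  {B : V →ₗ[ℂ] V →ₗ[ℂ] ℂ} {t : V →ₗ[ℂ] V}

theorem split (h : Dt B t) (z : V) (hz : t z = z) (hzz : B z z = 1) :
    ∃ ht : ∀ x ∈ LinearMap.ker (B z), t x ∈ LinearMap.ker (B z),
      Dt (B.domRestrict₁₂ (LinearMap.ker (B z)) (LinearMap.ker (B z))) (t.restrict ht) ∧
      finrank ℂ (LinearMap.ker (B z)) + 1 = finrank ℂ V := by
  have h1 : ∀ x, B z (t x) = B z x := fun x => by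
    conv_lhs => rw [← hz]
    exact h.is z x
  have ht : ∀ x ∈ LinearMap.ker (B z), t x ∈ LinearMap.ker (B z) := by
    intro x hx
    rw [LinearMap.mem_ker] at hx ⊢
    rw [h1, hx]
  refine ⟨ht, ⟨?_, ?_, ?_, ?_, ?_⟩, ?_⟩
  · intro x y
    exact h.sy x y
  · rintro ⟨x, hx⟩ hxy
    apply Subtype.ext
    apply h.nd
    intro y
    have hx' : B z x = 0 := hx
    have h2 : y - B z y • z ∈ LinearMap.ker (B z) := by
      rw [LinearMap.mem_ker, map_sub, map_smul, hzz, smul_eq_mul, mul_one, sub_self]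
    have h3 : B x (y - B z y • z) = 0 := hxy ⟨_, h2⟩
    rw [map_sub, map_smul, h.sy x z, hx', smul_zero, sub_zero] at h3
    exact h3
  · intro x y
    exact h.is x y
  · have h4 := LinearMap.det_eq_det_mul_det (LinearMap.ker (B z)) t ht
    have h5 : (LinearMap.ker (B z)).mapQ (LinearMap.ker (B z)) t ht = LinearMap.id := by
      apply Submodule.linearMap_qext
      apply LinearMap.ext
      intro x
      change (LinearMap.ker (B z)).mkQ (t x) = (LinearMap.ker (B z)).mkQ x
      rw [Submodule.mkQ_apply, Submodule.mkQ_apply, Submodule.Quotient.eq, LinearMap.mem_ker,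
        map_sub, h1, sub_self]
    rw [h.de, h5, LinearMap.det_id, mul_one] at h4
    exact h4.symm
  · exact Module.End.genEigenspace_restrict_eq_top (k := 1) ht h.sp
  · have h6 := LinearMap.finrank_range_add_finrank_ker (B z)
    have h7 : LinearMap.range (B z) = ⊤ := by
      rw [LinearMap.range_eq_top]
      intro c
      exact ⟨c • z, by rw [map_smul, hzz, smul_eq_mul, mul_one]⟩
    rw [h7, finrank_top, finrank_self] at h6
    omega

omit [FiniteDimensional ℂ V] in
theorem norm_one {x : V} (hx : t x = x) (hxx : B x x ≠ 0) : ∃ z, t z = z ∧ B z z = 1 := by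
  obtain ⟨c, hc⟩ := IsAlgClosed.exists_pow_nat_eq (B x x)⁻¹ (n := 2) (by norm_num)
  refine ⟨c • x, by rw [map_smul, hx], ?_⟩
  rw [map_smul, LinearMap.map_smul, LinearMap.smul_apply, smul_eq_mul, smul_eq_mul, ← mul_assoc,
    ← pow_two, hc, inv_mul_cancel₀ hxx]

omit [FiniteDimensional ℂ V] in
theorem fixed (h : Dt B t) (hx : ∃ x : V, x ≠ 0 ∧ t x = x) : ∃ z, t z = z ∧ B z z = 1 := by
  obtain ⟨x, hx0, hx⟩ := hx
  have h1 : ∃ y, t y = y ∧ B x y ≠ 0 := by
    by_contra hno
    push Not at hno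
    apply hx0
    apply h.nd
    intro y
    have hy : y ∈ ⨆ a, Module.End.eigenspace t a := by rw [h.sp]; trivial
    have h2 : ⨆ a, Module.End.eigenspace t a ≤ LinearMap.ker (B x) := by
      apply iSup_le
      intro a y hy
      rw [Module.End.mem_eigenspace_iff] at hy
      rw [LinearMap.mem_ker]
      by_cases ha : a = 1
      · rw [ha, one_smul] at hy
        exact hno y hy
      · have h3 := h.is x y
        rw [hx, hy, map_smul, smul_eq_mul] at h3
        have h4 : (a - 1) * B x y = 0 := by linear_combination h3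
        rcases mul_eq_zero.1 h4 with h5 | h5
        · exact absurd (sub_eq_zero.1 h5) ha
        · exact h5
    exact h2 hy
  obtain ⟨y, hy, hxy⟩ := h1
  by_cases hxx : B x x = 0
  · by_cases hyy : B y y = 0
    · apply norm_one (x := x + y) (by rw [map_add, hx, hy])
      rw [map_add, map_add, LinearMap.add_apply, LinearMap.add_apply, hxx, hyy, h.sy y x]
      intro h6
      apply hxy
      have h7 : (2 : ℂ) * B x y = 0 := by linear_combination h6
      simpa using h7
    · exact norm_one hy hyy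
  · exact norm_one hx hxx

theorem odd_fixed (h : Dt B t) (ho : Odd (finrank ℂ V)) : ∃ x : V, x ≠ 0 ∧ t x = x := by
  have hb := finBasis ℂ V
  obtain ⟨b⟩ : Nonempty (Basis (Fin (finrank ℂ V)) ℂ V) := ⟨hb⟩
  obtain ⟨q, hq⟩ : ∃ q, q = LinearMap.toMatrix₂ b b B := ⟨_, rfl⟩
  obtain ⟨T, hT⟩ : ∃ T, T = LinearMap.toMatrix b b t := ⟨_, rfl⟩
  have h1 : Tᵀ * q * T = q := by
    rw [hq, hT, ← LinearMap.toMatrix₂_compl₁₂]
    congr 1
    apply LinearMap.ext
    intro x
    apply LinearMap.ext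
    intro y
    exact h.is x y
  have h2 : q.det ≠ 0 := by
    rw [hq, ← LinearMap.separatingLeft_iff_det_ne_zero]
    exact h.nd
  have h3 : T.det = 1 := by
    rw [hT, LinearMap.det_toMatrix, h.de]
  have h4 : Tᵀ * q * (T - 1) = (1 - Tᵀ) * q := by
    rw [Matrix.mul_sub, h1, Matrix.mul_one, Matrix.sub_mul, Matrix.one_mul]
  have h5 := congrArg Matrix.det h4
  rw [Matrix.det_mul, Matrix.det_mul, Matrix.det_mul, Matrix.det_transpose, h3, one_mul,
    show (1 - Tᵀ : Matrix _ _ ℂ) = (1 - T)ᵀ by rw [Matrix.transpose_sub, Matrix.transpose_one],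
    Matrix.det_transpose, mul_comm] at h5
  have h6 := mul_right_cancel₀ h2 h5
  have h7 : (T - 1).det = -(1 - T).det := by
    rw [← neg_sub 1 T, Matrix.det_neg, Fintype.card_fin, ho.neg_one_pow, neg_one_mul]
  have h8 : (1 - T).det = 0 := by
    rw [h7] at h6
    have h9 : (2 : ℂ) * (1 - T).det = 0 := by linear_combination -h6
    simpa using h9
  have h9 : LinearMap.det (1 - t) = 0 := by
    rw [← LinearMap.det_toMatrix b, map_sub, LinearMap.toMatrix_one, ← hT, h8]
  have h10 := LinearMap.bot_lt_ker_of_det_eq_zero h9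
  obtain ⟨x, hx, hx0⟩ := Submodule.exists_mem_ne_zero_of_ne_bot h10.ne'
  refine ⟨x, hx0, ?_⟩
  rw [LinearMap.mem_ker] at hx
  have h11 : x - t x = 0 := hx
  exact (sub_eq_zero.1 h11).symm

theorem main (hFRA : S_FRA) (h : Dt B t) (hx : ∃ x : V, x ≠ 0 ∧ t x = x) :
    ∃ (s e : ℕ) (u u' : Fin s → V) (z : Fin e → V) (c : Fin s → ℂ), 1 ≤ e ∧ e ≤ 2 ∧
      finrank ℂ V = 2 * s + e ∧ (∀ i j, B (u i) (u j) = 0) ∧ (∀ i j, B (u' i) (u' j) = 0) ∧
      (∀ i j, B (u i) (u' j) = if i = j then 1 else 0) ∧ (∀ i k, B (z k) (u i) = 0) ∧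
      (∀ i k, B (z k) (u' i) = 0) ∧ (∀ k l, B (z k) (z l) = if k = l then 1 else 0) ∧
      (∀ i, c i ≠ 0) ∧ (∀ i, t (u i) = c i • u i) ∧ (∀ i, t (u' i) = (c i)⁻¹ • u' i) ∧
      ∀ k, t (z k) = z k := by
  obtain ⟨z, hz, hzz⟩ := fixed h hx
  obtain ⟨ht, hD, hf⟩ := split h z hz hzz
  rcases Nat.even_or_odd (finrank ℂ (LinearMap.ker (B z))) with he | ho
  · obtain ⟨s, hs⟩ := he
    obtain ⟨u, u', c, f1, f2, f3, f4, f5, f6⟩ := hFRA s (LinearMap.ker (B z))
      (B.domRestrict₁₂ (LinearMap.ker (B z)) (LinearMap.ker (B z))) (t.restrict ht) hD.sy hD.nd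
      hD.is hD.de hD.sp (by omega)
    refine ⟨s, 1, fun i => u i, fun i => u' i, fun _ => z, c, le_rfl, by norm_num, by omega,
      f1, f2, f3, fun i k => (u i).2, fun i k => (u' i).2, fun k l => ?_, f4,
      fun i => congrArg Subtype.val (f5 i), fun i => congrArg Subtype.val (f6 i), fun k => hz⟩
    rw [if_pos (Subsingleton.elim k l), hzz]
  · obtain ⟨w, hw, hww⟩ := fixed hD (odd_fixed hD ho)
    obtain ⟨ht2, hD2, hf2⟩ := split hD w hw hww
    obtain ⟨s, hs⟩ := ho
    obtain ⟨u, u', c, f1, f2, f3, f4, f5, f6⟩ := hFRA s _ _ _ hD2.sy hD2.nd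
      hD2.is hD2.de hD2.sp (by omega)
    have hwz : B z w = 0 := w.2
    have hww' : B w w = 1 := hww
    refine ⟨s, 2, fun i => ((u i : LinearMap.ker (B z)) : V),
      fun i => ((u' i : LinearMap.ker (B z)) : V), ![z, (w : V)], c, by norm_num, le_rfl,
      by omega, f1, f2, f3, ?_, ?_, ?_, f4,
      fun i => congrArg (fun x => ((x : LinearMap.ker (B z)) : V)) (congrArg Subtype.val (f5 i)),
      fun i => congrArg (fun x => ((x : LinearMap.ker (B z)) : V)) (congrArg Subtype.val (f6 i)),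
      ?_⟩
    · intro i k
      fin_cases k
      · exact (u i : LinearMap.ker (B z)).2
      · exact (u i).2
    · intro i k
      fin_cases k
      · exact (u' i : LinearMap.ker (B z)).2
      · exact (u' i).2
    · intro k l
      fin_cases k <;> fin_cases l
      · simpa using hzz
      · simpa using hwz
      · simpa [h.sy (w : V) z] using hwz
      · simpa using hww'
    · intro k
      fin_cases k
      · exact hz
      · exact congrArg Subtype.val hw

end FrmH

open FrmH in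
theorem t_FRM (hFRA : S_FRA) : S_FRM := by
  intro n _ _ q t hqs hqd htq htd hdi hroot
  obtain ⟨B, hB⟩ : ∃ B : (n → ℂ) →ₗ[ℂ] (n → ℂ) →ₗ[ℂ] ℂ, ∀ x y, B x y = bl q x y :=
    ⟨Matrix.toLinearMap₂' ℂ q, fun x y => Matrix.toLinearMap₂'_apply' q x y⟩
  have hT : ∀ x, Matrix.toLin' t x = t *ᵥ x := fun x => Matrix.toLin'_apply t x
  have hD : Dt B (Matrix.toLin' t) := by
    refine ⟨?_, ?_, ?_, ?_, ?_⟩
    · intro x y
      rw [hB, hB, bl, bl, Matrix.dotProduct_mulVec, ← Matrix.mulVec_transpose, hqs,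
        dotProduct_comm]
    · intro x hx
      have h1 : x ᵥ* q = 0 := by
        funext j
        have h2 := hx (Pi.single j 1)
        rw [hB, bl, Matrix.dotProduct_mulVec] at h2
        simpa using h2
      exact Matrix.eq_zero_of_vecMul_eq_zero hqd h1
    · intro x y
      rw [hB, hB, hT, hT, bl, bl]
      conv_rhs => rw [← htq]
      rw [← Matrix.mulVec_mulVec, ← Matrix.mulVec_mulVec, Matrix.dotProduct_mulVec x tᵀ,
        Matrix.vecMul_transpose]
    · rw [LinearMap.det_toLin', htd]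
    · rw [eq_top_iff, ← Module.End.iSup_maxGenEigenspace_eq_top (Matrix.toLin' t)]
      apply iSup_mono
      intro a x hx
      rw [Module.End.mem_maxGenEigenspace] at hx
      obtain ⟨k, hk⟩ := hx
      rw [Module.End.mem_eigenspace_iff, hT]
      apply hdi a k
      rw [← hk, ← Matrix.toLin'_apply, Matrix.toLin'_pow, map_sub, map_smul, Matrix.toLin'_one]
      rfl
  have hx : ∃ x : n → ℂ, x ≠ 0 ∧ Matrix.toLin' t x = x := by
    rw [Polynomial.IsRoot.def, Matrix.eval_charpoly] at hroot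
    obtain ⟨v, hv, hv2⟩ := Matrix.exists_mulVec_eq_zero_iff.2 hroot
    refine ⟨v, hv, ?_⟩
    rw [Matrix.sub_mulVec, map_one, Matrix.one_mulVec, sub_eq_zero] at hv2
    rw [hT, ← hv2]
  obtain ⟨s, e, u, u', z, c, h1, h2, h3, h4, h5, h6, h7, h8, h9, h10, h11, h12, h13⟩ :=
    main hFRA hD hx
  rw [Module.finrank_fintype_fun_eq_card] at h3
  refine ⟨s, e, u, u', z, c, h1, h2, h3, ⟨fun i j => by rw [← hB, h4], fun i j => by rw [← hB, h5],
    fun i j => by rw [← hB, h6], fun i k => by rw [← hB, hD.sy, h7],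
    fun i k => by rw [← hB, hD.sy, h8], fun k l => by rw [← hB, h9]⟩, h10,
    ⟨fun i => by rw [← hT, h11], fun i => by rw [← hT, h12], fun k => by rw [← hT, h13]⟩⟩

end Pool.Agent.NH56.HL
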