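import Pool.Agent.NH56.HL.Stm

/-!
# HDG: the Hodge operator is given by a hyperbolic pair
-/

set_option autoImplicit false
set_option linter.unusedSectionVars false

namespace Pool.Agent.NH56.HL

open Matrix Polynomial Filter Topology NumberField IsDedekindDomain Pool.Agent.NH56.HY
open Pool.Agent.NH56.HO

namespace Hdg

section lin

variable {n : Type} [Fintype n] [DecidableEq n]

lemma bl_col (q P : Matrix n n ℂ) (b c : n) :
    bl q (fun k => P k b) (fun k => P k c) = (Pᵀ * q * P) b c := by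
  unfold bl
  rw [Matrix.mul_assoc, Matrix.mul_apply]
  simp only [dotProduct, Matrix.transpose_apply, Matrix.mul_apply, Matrix.mulVec]

lemma vm_col (q P : Matrix n n ℂ) (u v : n → ℂ) (i b : n) :
    (vecMulVec u (q *ᵥ v) * P) i b = u i * bl q (fun k => P k b) v := by
  unfold bl
  rw [Matrix.mul_apply]
  simp only [dotProduct, vecMulVec_apply, Finset.mul_sum]
  refine Finset.sum_congr rfl fun k _ => ?_
  ring

lemma bl_smul_right (q : Matrix n n ℂ) (v w : n → ℂ) (c : ℂ) : bl q v (c • w) = c * bl q v w := by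
  unfold bl
  rw [Matrix.mulVec_smul, dotProduct_smul, smul_eq_mul]

lemma bl_smul_left (q : Matrix n n ℂ) (v w : n → ℂ) (c : ℂ) : bl q (c • v) w = c * bl q v w := by
  unfold bl
  rw [smul_dotProduct, smul_eq_mul]

/-- the core: a diagonalizable element of `so(q)` with the eigenvalues `1`, `-1`, `0, …, 0` -/
lemma core {q P P' Y : Matrix n n ℂ} (hq : qᵀ = q) (hd : q.det ≠ 0) (hP : P * P' = 1)
    (l : n → ℂ) (hY : Y * P = P * diagonal l) (hs : Yᵀ * q + q * Y = 0) {i j : n}
    (hi : l i = 1) (hj : l j = -1) (hk : ∀ k, k ≠ i → k ≠ j → l k = 0) :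
    ∃ a a', Hyp q a a' ∧ Y = wd q a a' := by
  have hP' : P' * P = 1 := mul_eq_one_comm.1 hP
  have hij : i ≠ j := by
    rintro rfl
    rw [hi] at hj
    norm_num at hj
  set G : Matrix n n ℂ := Pᵀ * q * P with hG
  have hsym : ∀ b c, G b c = G c b := by
    have : Gᵀ = G := by
      rw [hG, Matrix.transpose_mul, Matrix.transpose_mul, Matrix.transpose_transpose, hq,
        Matrix.mul_assoc]
    intro b c
    rw [← Matrix.transpose_apply G b c, this]
  have hrel : ∀ b c, (l b + l c) * G b c = 0 := by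
    have h1 : Pᵀ * (Yᵀ * q + q * Y) * P = 0 := by rw [hs, Matrix.mul_zero, Matrix.zero_mul]
    have h2 : Pᵀ * (Yᵀ * q + q * Y) * P = (Y * P)ᵀ * q * P + Pᵀ * q * (Y * P) := by
      rw [Matrix.transpose_mul]
      simp only [Matrix.mul_add, Matrix.add_mul, Matrix.mul_assoc]
    rw [h2, hY, Matrix.transpose_mul, Matrix.diagonal_transpose] at h1
    have h3 : diagonal l * Pᵀ * q * P + Pᵀ * q * (P * diagonal l) =
        diagonal l * G + G * diagonal l := by
      rw [hG]
      simp only [Matrix.mul_assoc]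
    rw [h3] at h1
    intro b c
    have h4 := congrFun (congrFun h1 b) c
    rw [Matrix.add_apply, Matrix.diagonal_mul, Matrix.mul_diagonal, Matrix.zero_apply] at h4
    linear_combination h4
  have hdet : G.det ≠ 0 := by
    rw [hG, Matrix.det_mul, Matrix.det_mul, Matrix.det_transpose]
    have h1 : P.det * P'.det = 1 := by rw [← Matrix.det_mul, hP, Matrix.det_one]
    have h2 : P.det ≠ 0 := left_ne_zero_of_mul_eq_one h1
    exact mul_ne_zero (mul_ne_zero h2 hd) h2
  have hib : ∀ b, b ≠ j → G i b = 0 := by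
    intro b hb
    have h1 := hrel i b
    by_cases hbi : b = i
    · subst hbi
      rw [hi] at h1
      norm_num at h1
      exact h1
    · rw [hi, hk b hbi hb] at h1
      simpa using h1
  have hjb : ∀ b, b ≠ i → G j b = 0 := by
    intro b hb
    have h1 := hrel j b
    by_cases hbj : b = j
    · subst hbj
      rw [hj] at h1
      norm_num at h1
      exact h1
    · rw [hj, hk b hb hbj] at h1
      simpa using h1
  have hg : G i j ≠ 0 := by
    intro h0
    apply hdet
    refine Matrix.det_eq_zero_of_row_eq_zero i fun b => ?_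
    by_cases hb : b = j
    · rw [hb]; exact h0
    · exact hib b hb
  set g := G i j with hgdef
  refine ⟨fun k => P k i, g⁻¹ • fun k => P k j, ⟨?_, ?_, ?_⟩, ?_⟩
  · rw [bl_col, ← hG]
    exact hib i hij
  · rw [bl_smul_right, bl_smul_left, bl_col, ← hG, hjb j hij.symm, mul_zero, mul_zero]
  · rw [bl_smul_right, bl_col, ← hG, ← hgdef]
    exact inv_mul_cancel₀ hg
  · have key : Y * P = wd q (fun k => P k i) (g⁻¹ • fun k => P k j) * P := by
      rw [hY]
      unfold wd
      rw [Matrix.sub_mul]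
      ext r b
      rw [Matrix.sub_apply, vm_col, vm_col, Matrix.mul_diagonal, bl_smul_right, bl_col, bl_col,
        ← hG, Pi.smul_apply, smul_eq_mul]
      by_cases hbi : b = i
      · rw [hbi, hi, hib i hij, ← hgdef, inv_mul_cancel₀ hg]
        ring
      · by_cases hbj : b = j
        · rw [hbj, hj, hjb j hij.symm, hsym j i, ← hgdef]
          field_simp
          ring
        · rw [hk b hbi hbj, hsym b j, hsym b i, hib b hbj, hjb b hbi]
          ring
    calc Y = Y * P * P' := by rw [Matrix.mul_assoc, hP, Matrix.mul_one]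
      _ = wd q (fun k => P k i) (g⁻¹ • fun k => P k j) * P * P' := by rw [key]
      _ = _ := by rw [Matrix.mul_assoc, hP, Matrix.mul_one]

end lin

section graded

variable {ι F : Type} [Fintype ι] [DecidableEq ι] [Field F]

lemma blk_mul {deg : ι → ℕ} {A : Matrix ι ι F} (hA : IsGraded deg A) (j : ℕ) (B : Matrix ι ι F) :
    blk deg j (A * B) = blk deg j A * blk deg j B := by
  ext a b
  unfold blk
  rw [Matrix.submatrix_apply, Matrix.mul_apply, Matrix.mul_apply]
  have h := Fintype.sum_subtype_add_sum_subtype (fun c : ι => deg c = j)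
    (fun c => A a c * B c b)
  rw [← h]
  have h0 : ∑ c : {c // ¬ deg c = j}, A a c * B c b = 0 := by
    refine Finset.sum_eq_zero fun c _ => ?_
    rw [hA a c (fun h => c.2 (h ▸ a.2)), zero_mul]
  rw [h0, add_zero]
  rfl

lemma graded_inv {deg : ι → ℕ} [CharZero F] {A A' : Matrix ι ι F} (hA : IsGraded deg A)
    (h : A * A' = 1) : IsGraded deg A' := by
  have h' : A' * A = 1 := mul_eq_one_comm.1 h
  set H : Matrix ι ι F := diagonal fun a => (deg a : F) with hH
  have h1 : H * A = A * H := by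
    ext a b
    rw [hH, Matrix.diagonal_mul, Matrix.mul_diagonal]
    by_cases hab : deg a = deg b
    · rw [hab]; ring
    · rw [hA a b hab]; ring
  have h2 : A' * H = H * A' := by
    calc A' * H = A' * H * (A * A') := by rw [h, Matrix.mul_one]
      _ = A' * (H * A) * A' := by simp only [Matrix.mul_assoc]
      _ = A' * A * (H * A') := by rw [h1]; simp only [Matrix.mul_assoc]
      _ = H * A' := by rw [h', Matrix.one_mul]
  intro a b hab
  have h3 := congrFun (congrFun h2 a) b
  rw [hH, Matrix.diagonal_mul, Matrix.mul_diagonal] at h3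
  have h4 : ((deg a : F) - deg b) * A' a b = 0 := by linear_combination -h3
  rcases mul_eq_zero.1 h4 with h5 | h5
  · exact absurd (Nat.cast_injective (sub_eq_zero.1 h5)) hab
  · exact h5

lemma blk_one (deg : ι → ℕ) (j : ℕ) : blk deg j (1 : Matrix ι ι F) = 1 := by
  ext a b
  unfold blk
  rw [Matrix.submatrix_apply]
  by_cases hab : a = b
  · rw [hab, Matrix.one_apply_eq, Matrix.one_apply_eq]
  · rw [Matrix.one_apply_ne hab, Matrix.one_apply_ne fun h => hab (Subtype.ext h)]

lemma blk_diag (deg : ι → ℕ) (j : ℕ) (l : ι → F) :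
    blk deg j (diagonal l) = diagonal fun a : {a // deg a = j} => l a := by
  ext a b
  unfold blk
  rw [Matrix.submatrix_apply]
  by_cases hab : a = b
  · rw [hab, Matrix.diagonal_apply_eq, Matrix.diagonal_apply_eq]
  · rw [Matrix.diagonal_apply_ne _ hab, Matrix.diagonal_apply_ne _ fun h => hab (Subtype.ext h)]

end graded

/-- the index with a Hodge number that occurs once -/
lemma exists_one {α : Type} (s : Finset α) (f : α → ℝ) (c : ℝ)
    (h : Multiset.count c (s.val.map f) = 1) :
    ∃ a ∈ s, f a = c ∧ ∀ b ∈ s, f b = c → b = a := by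
  classical
  rw [Multiset.count_map] at h
  have h1 : (s.filter fun a => c = f a).card = 1 := h
  obtain ⟨a, ha⟩ := Finset.card_eq_one.1 h1
  have h2 : ∀ b, (b ∈ s ∧ c = f b) ↔ b = a := by
    intro b
    have := Finset.ext_iff.1 ha b
    rwa [Finset.mem_filter, Finset.mem_singleton] at this
  have h3 := (h2 a).2 rfl
  exact ⟨a, h3.1, h3.2.symm, fun b hb hbc => (h2 b).1 ⟨hb, hbc.symm⟩⟩

end Hdg

open Hdg in
/-- **HDG** -/
theorem t_HDG (_hBAS : S_BAS) : S_HDG := by
  intro ι _ _ X hX
  obtain ⟨hu, hgr⟩ := hX.basis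
  have hPP : X.P * X.P⁻¹ = 1 := Matrix.mul_nonsing_inv _ ((Matrix.isUnit_iff_isUnit_det _).1 hu)
  have hgr' : IsGraded X.deg X.P⁻¹ := graded_inv hgr hPP
  have hgd : IsGraded X.deg (Matrix.diagonal fun a => (X.hdg a : ℂ)) := by
    intro a b hab
    exact Matrix.diagonal_apply_ne _ fun h => hab (congrArg X.deg h)
  -- the Hodge numbers
  have h2 := hX.hodge_two
  unfold Coh.hodge at h2
  have hc0 : Multiset.count (0 : ℝ) ((Finset.univ.filter fun a => X.deg a = 2).val.map
      fun a => (X.hdg a : ℝ)) = 1 := by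
    rw [h2, Multiset.count_cons_self, Multiset.count_cons_of_ne (by norm_num),
      Multiset.count_replicate]
    norm_num
  have hc2 : Multiset.count (2 : ℝ) ((Finset.univ.filter fun a => X.deg a = 2).val.map
      fun a => (X.hdg a : ℝ)) = 1 := by
    rw [h2, Multiset.count_cons_of_ne (by norm_num), Multiset.count_cons_self,
      Multiset.count_replicate]
    norm_num
  obtain ⟨j, hj1, hj2, hj3⟩ := exists_one _ _ _ hc0
  obtain ⟨i, hi1, hi2, hi3⟩ := exists_one _ _ _ hc2
  have hj1' : X.deg j = 2 := (Finset.mem_filter.1 hj1).2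
  have hi1' : X.deg i = 2 := (Finset.mem_filter.1 hi1).2
  have hmem : ∀ k, X.deg k = 2 → (X.hdg k : ℝ) = 0 ∨ (X.hdg k : ℝ) = 2 ∨ (X.hdg k : ℝ) = 1 := by
    intro k hk
    have h3 : (X.hdg k : ℝ) ∈ (Finset.univ.filter fun a => X.deg a = 2).val.map
        fun a => (X.hdg a : ℝ) :=
      Multiset.mem_map_of_mem _ (Finset.mem_filter.2 ⟨Finset.mem_univ _, hk⟩)
    rw [h2, Multiset.mem_cons, Multiset.mem_cons] at h3
    rcases h3 with h3 | h3 | h3
    · exact Or.inl h3
    · exact Or.inr (Or.inl h3)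
    · exact Or.inr (Or.inr (Multiset.eq_of_mem_replicate h3))
  -- the matrices in degree two
  set P := blk X.deg 2 X.P with hP
  set P' := blk X.deg 2 X.P⁻¹ with hP'
  have h1 : P * P' = 1 := by rw [hP, hP', ← blk_mul hgr, hPP, blk_one]
  have h1' : P' * P = 1 := mul_eq_one_comm.1 h1
  have hD : blk X.deg 2 X.D = P * diagonal (fun a : {a // X.deg a = 2} => (X.hdg a : ℂ)) * P' := by
    unfold Coh.D
    have hg : IsGraded X.deg (X.P * Matrix.diagonal fun a => (X.hdg a : ℂ)) := by
      intro a b hab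
      rw [Matrix.mul_diagonal, hgr a b hab, zero_mul]
    rw [blk_mul hg, blk_mul hgr, blk_diag]
  have hYP : (blk X.deg 2 X.D - 1) * P =
      P * diagonal (fun a : {a // X.deg a = 2} => (X.hdg a : ℂ) - 1) := by
    rw [Matrix.sub_mul, hD, Matrix.mul_assoc, h1', Matrix.mul_one, Matrix.one_mul]
    ext a b
    rw [Matrix.sub_apply, Matrix.mul_diagonal, Matrix.mul_diagonal]
    ring
  have hqT : (X.qF ℂ)ᵀ = X.qF ℂ := by
    unfold Coh.qF
    rw [← Matrix.transpose_map, hX.symm]
  have hqd : (X.qF ℂ).det ≠ 0 := by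
    unfold Coh.qF
    have := (algebraMap ℚ ℂ).map_det X.q
    rw [RingHom.mapMatrix_apply] at this
    rw [← this]
    exact (_root_.map_ne_zero _).2 hX.nondeg
  have hR : ∀ (k : ι) (c : ℝ), (X.hdg k : ℝ) = c → (X.hdg k : ℂ) = (c : ℂ) := by
    intro k c h
    rw [← h]
    push_cast
    rfl
  refine core hqT hqd h1 _ hYP hX.verbitsky.1 (i := ⟨i, hi1'⟩) (j := ⟨j, hj1'⟩) ?_ ?_ ?_
  · show (X.hdg i : ℂ) - 1 = 1
    rw [hR i 2 hi2]
    push_cast
    norm_num
  · show (X.hdg j : ℂ) - 1 = -1
    rw [hR j 0 hj2]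
    push_cast
    norm_num
  · intro k hki hkj
    show (X.hdg k : ℂ) - 1 = 0
    have hk := k.2
    rcases hmem k hk with h3 | h3 | h3
    · exact absurd (Subtype.ext (hj3 k (Finset.mem_filter.2 ⟨Finset.mem_univ _, hk⟩) h3)) hkj
    · exact absurd (Subtype.ext (hi3 k (Finset.mem_filter.2 ⟨Finset.mem_univ _, hk⟩) h3)) hki
    · rw [hR k 1 h3]
      push_cast
      ring

end Pool.Agent.NH56.HL
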