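import Pool.Agent.NH56.HL.Stm

/-!
# HYP: any two hyperbolic pairs are conjugate
-/

set_option autoImplicit false

namespace Pool.Agent.NH56.HL

namespace HypAux

open Matrix

variable {n : Type} [Fintype n] [DecidableEq n] {q : Matrix n n ℂ}

omit [DecidableEq n] in
theorem bl_add (a b c : n → ℂ) : bl q a (b + c) = bl q a b + bl q a c := by
  simp [bl, mulVec_add, dotProduct_add]

omit [DecidableEq n] in
theorem bl_smul (s : ℂ) (a b : n → ℂ) : bl q a (s • b) = s * bl q a b := by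
  simp [bl, mulVec_smul, dotProduct_smul]

omit [DecidableEq n] in
theorem bl_sub (a b c : n → ℂ) : bl q a (b - c) = bl q a b - bl q a c := by
  simp [bl, mulVec_sub, dotProduct_sub]

omit [DecidableEq n] in
theorem bl_comm (hq : qᵀ = q) (a b : n → ℂ) : bl q a b = bl q b a := by
  unfold bl
  rw [dotProduct_mulVec, ← mulVec_transpose, hq, dotProduct_comm]

omit [DecidableEq n] in
theorem add_bl (b c a : n → ℂ) : bl q (b + c) a = bl q b a + bl q c a := by
  simp [bl, add_dotProduct]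

omit [DecidableEq n] in
theorem smul_bl (s : ℂ) (b a : n → ℂ) : bl q (s • b) a = s * bl q b a := by
  simp [bl, smul_dotProduct]

omit [DecidableEq n] in
theorem sub_bl (b c a : n → ℂ) : bl q (b - c) a = bl q b a - bl q c a := by
  simp [bl, sub_dotProduct]

omit [DecidableEq n] in
theorem wd_mulVec (hq : qᵀ = q) (a c v : n → ℂ) :
    wd q a c *ᵥ v = bl q c v • a - bl q a v • c := by
  have h1 : ∀ c : n → ℂ, (q *ᵥ c) ⬝ᵥ v = bl q c v := by
    intro c
    rw [bl_comm hq]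
    unfold bl
    rw [dotProduct_comm]
  unfold wd
  rw [sub_mulVec, vecMulVec_mulVec, vecMulVec_mulVec, h1, h1]
  simp

omit [DecidableEq n] in
theorem wd_skew (hq : qᵀ = q) (a c : n → ℂ) : (wd q a c)ᵀ * q + q * wd q a c = 0 := by
  unfold wd
  rw [transpose_sub, transpose_vecMulVec, transpose_vecMulVec, Matrix.sub_mul, Matrix.mul_sub,
    vecMulVec_mul, vecMulVec_mul, mul_vecMulVec, mul_vecMulVec, ← mulVec_transpose,
    ← mulVec_transpose, hq]
  abel

omit [DecidableEq n] in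
theorem wd_smul (l : ℂ) (hl : l ≠ 0) (a c : n → ℂ) : wd q (l⁻¹ • a) (l • c) = wd q a c := by
  unfold wd
  rw [mulVec_smul, mulVec_smul, smul_vecMulVec, vecMulVec_smul, smul_vecMulVec, vecMulVec_smul,
    smul_smul, smul_smul, inv_mul_cancel₀ hl, mul_inv_cancel₀ hl, one_smul, one_smul]

/-- `g` is an isometry with inverse `g'`, of the class `G` -/
structure Iso (q : Matrix n n ℂ) (G : Matrix n n ℂ → Matrix n n ℂ → Prop)
    (g g' : Matrix n n ℂ) : Prop where
  cls : G g g'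
  inv : g * g' = 1
  orth : gᵀ * q * g = q

theorem Iso.left {G : Matrix n n ℂ → Matrix n n ℂ → Prop} {g g' : Matrix n n ℂ} (hq : qᵀ = q)
    (h : Iso q G g g') : q * g = g'ᵀ * q := by
  have h1 : gᵀ * q = q * g' := by
    have h2 : gᵀ * q * (g * g') = q * g' := by
      rw [← Matrix.mul_assoc, h.orth]
    rw [h.inv, Matrix.mul_one] at h2
    exact h2
  have h3 := congrArg Matrix.transpose h1
  rw [transpose_mul, transpose_mul, transpose_transpose, hq] at h3
  exact h3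

theorem Iso.bl {G : Matrix n n ℂ → Matrix n n ℂ → Prop} {g g' : Matrix n n ℂ}
    (h : Iso q G g g') (a b : n → ℂ) : bl q (g *ᵥ a) (g *ᵥ b) = HL.bl q a b := by
  unfold HL.bl
  rw [dotProduct_mulVec, dotProduct_mulVec, vecMul_vecMul]
  have h1 : (g *ᵥ a) ᵥ* q = a ᵥ* (gᵀ * q) := by
    rw [← vecMul_vecMul, vecMul_transpose]
  rw [← vecMul_vecMul, h1, vecMul_vecMul, h.orth, dotProduct_mulVec]

theorem Iso.conj {G : Matrix n n ℂ → Matrix n n ℂ → Prop} {g g' : Matrix n n ℂ} (hq : qᵀ = q)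
    (h : Iso q G g g') (a c : n → ℂ) : g * wd q a c * g' = wd q (g *ᵥ a) (g *ᵥ c) := by
  have h1 : ∀ c, (q *ᵥ c) ᵥ* g' = q *ᵥ (g *ᵥ c) := by
    intro c
    rw [← mulVec_transpose, mulVec_mulVec, mulVec_mulVec, h.left hq]
  unfold wd
  rw [Matrix.mul_sub, Matrix.sub_mul, mul_vecMulVec, mul_vecMulVec, vecMulVec_mul, vecMulVec_mul,
    h1, h1]

theorem Iso.mul {G : Matrix n n ℂ → Matrix n n ℂ → Prop} (hG : Gen q G) {g g' h h' : Matrix n n ℂ}
    (hg : Iso q G g g') (hh : Iso q G h h') : Iso q G (g * h) (h' * g') := by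
  refine ⟨hG.mul _ _ _ _ hg.cls hh.cls, ?_, ?_⟩
  · rw [Matrix.mul_assoc, ← Matrix.mul_assoc h, hh.inv, Matrix.one_mul, hg.inv]
  · rw [transpose_mul]
    calc hᵀ * gᵀ * q * (g * h) = hᵀ * (gᵀ * q * g) * h := by simp only [Matrix.mul_assoc]
      _ = q := by rw [hg.orth, hh.orth]

theorem iso_one {G : Matrix n n ℂ → Matrix n n ℂ → Prop} (hG : Gen q G) {J : Matrix n n ℂ}
    (hJ : Jᵀ * q + q * J = 0) (h3 : J ^ 3 = -J) :
    Iso q G (1 + (2 : ℂ) • J ^ 2) (1 + (2 : ℂ) • J ^ 2) := by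
  have hJ' : Jᵀ * q = -(q * J) := eq_neg_of_add_eq_zero_left hJ
  have h4 : J ^ 2 * J ^ 2 = -J ^ 2 := by
    calc J ^ 2 * J ^ 2 = J ^ 3 * J := by noncomm_ring
      _ = -J ^ 2 := by rw [h3]; noncomm_ring
  have hinv : (1 + (2 : ℂ) • J ^ 2) * (1 + (2 : ℂ) • J ^ 2) = 1 := by
    simp only [add_mul, mul_add, one_mul, mul_one, smul_mul_assoc, mul_smul_comm, h4]
    module
  refine ⟨hG.one J hJ h3, hinv, ?_⟩
  have h5 : (1 + (2 : ℂ) • J ^ 2)ᵀ * q = q * (1 + (2 : ℂ) • J ^ 2) := by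
    rw [transpose_add, transpose_one, transpose_smul, transpose_pow, add_mul, mul_add,
      one_mul, mul_one, smul_mul_assoc, mul_smul_comm, pow_two, pow_two, Matrix.mul_assoc, hJ',
      mul_neg, ← Matrix.mul_assoc, hJ', neg_mul, neg_neg, Matrix.mul_assoc]
  rw [h5, Matrix.mul_assoc, hinv, Matrix.mul_one]

theorem iso_uni {G : Matrix n n ℂ → Matrix n n ℂ → Prop} (hG : Gen q G) {y : Matrix n n ℂ}
    (hy : yᵀ * q + q * y = 0) (h3 : y ^ 3 = 0) :
    Iso q G (1 + y + (2 : ℂ)⁻¹ • y ^ 2) (1 - y + (2 : ℂ)⁻¹ • y ^ 2) := by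
  have hy' : yᵀ * q = -(q * y) := eq_neg_of_add_eq_zero_left hy
  have h31 : y * y ^ 2 = 0 := by rw [← h3]; noncomm_ring
  have h32 : y ^ 2 * y = 0 := by rw [← h3]; noncomm_ring
  have h4 : y ^ 2 * y ^ 2 = 0 := by
    calc y ^ 2 * y ^ 2 = y * (y * y ^ 2) := by noncomm_ring
      _ = 0 := by rw [h31, mul_zero]
  have h2 : y * y = y ^ 2 := (pow_two y).symm
  have hinv : (1 + y + (2 : ℂ)⁻¹ • y ^ 2) * (1 - y + (2 : ℂ)⁻¹ • y ^ 2) = 1 := by
    simp only [add_mul, mul_add, mul_sub, one_mul, mul_one, smul_mul_assoc, mul_smul_comm, h31,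
      h32, h4, h2, smul_zero, add_zero]
    module
  have hinv' : (1 - y + (2 : ℂ)⁻¹ • y ^ 2) * (1 + y + (2 : ℂ)⁻¹ • y ^ 2) = 1 :=
    mul_eq_one_comm.1 hinv
  refine ⟨hG.uni y hy h3, hinv, ?_⟩
  have h5 : (1 + y + (2 : ℂ)⁻¹ • y ^ 2)ᵀ * q = q * (1 - y + (2 : ℂ)⁻¹ • y ^ 2) := by
    have h6 : (yᵀ) ^ 2 * q = q * y ^ 2 := by
      rw [pow_two, pow_two, Matrix.mul_assoc, hy', mul_neg, ← Matrix.mul_assoc, hy', neg_mul,
        neg_neg, Matrix.mul_assoc]
    rw [transpose_add, transpose_add, transpose_one, transpose_smul, transpose_pow, add_mul,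
      add_mul, one_mul, smul_mul_assoc, h6, hy', mul_add, mul_sub, mul_one, mul_smul_comm]
    abel
  rw [h5, Matrix.mul_assoc, hinv', Matrix.mul_one]

/-- the hyperbolic pairs `p` and `p'` are conjugate -/
def T (q : Matrix n n ℂ) (G : Matrix n n ℂ → Matrix n n ℂ → Prop) (a a' b b' : n → ℂ) : Prop :=
  ∃ g g', Iso q G g g' ∧ g * wd q a a' * g' = wd q b b'

theorem T.trans {G : Matrix n n ℂ → Matrix n n ℂ → Prop} (hG : Gen q G) {a a' b b' c c' : n → ℂ}
    (h1 : T q G a a' b b') (h2 : T q G b b' c c') : T q G a a' c c' := by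
  obtain ⟨g, g', hg, e1⟩ := h1
  obtain ⟨h, h', hh, e2⟩ := h2
  refine ⟨h * g, g' * h', hh.mul hG hg, ?_⟩
  rw [← e2, ← e1]
  simp only [Matrix.mul_assoc]

/-- Step 1 -/
theorem step1 (hq : qᵀ = q) {G : Matrix n n ℂ → Matrix n n ℂ → Prop} (hG : Gen q G)
    {a a' a'' : n → ℂ} (h1 : Hyp q a a') (h2 : Hyp q a a'') : T q G a a' a a'' := by
  set s := bl q a' a'' with hs
  set x := a'' - a' - s • a with hx
  have hax : bl q a x = 0 := by
    rw [hx, bl_sub, bl_sub, bl_smul, h1.aa, h1.ac, h2.ac]; ring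
  have ha'a : bl q a' a = 1 := by rw [bl_comm hq, h1.ac]
  have ha''a : bl q a'' a = 1 := by rw [bl_comm hq, h2.ac]
  have ha'x : bl q a' x = 0 := by
    rw [hx, bl_sub, bl_sub, bl_smul, h1.cc, ha'a, ← hs]; ring
  have ha''x : bl q a'' x = -(2 * s) := by
    rw [hx, bl_sub, bl_sub, bl_smul, h2.cc, ha''a, bl_comm hq, ← hs]; ring
  have hxx : bl q x x = -(2 * s) := by
    rw [show bl q x x = bl q (a'' - a' - s • a) x by rw [← hx], sub_bl, sub_bl, smul_bl, ha''x,
      ha'x, hax]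
    ring
  have hxa : bl q x a = 0 := by rw [bl_comm hq, hax]
  have hxa' : bl q x a' = 0 := by rw [bl_comm hq, ha'x]
  set y := wd q x a with hy
  have hyv : ∀ v, y *ᵥ v = bl q a v • x - bl q x v • a := fun v => wd_mulVec hq x a v
  have hya : y *ᵥ a = 0 := by rw [hyv, h1.aa, hxa]; simp
  have hya' : y *ᵥ a' = x := by rw [hyv, h1.ac, hxa']; simp
  have hyx : y *ᵥ x = (2 * s) • a := by rw [hyv, hax, hxx]; simp
  have hy2 : ∀ v, y ^ 2 *ᵥ v = y *ᵥ (y *ᵥ v) := by
    intro v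
    rw [mulVec_mulVec, pow_two]
  have hy3 : y ^ 3 = 0 := by
    apply mulVec_injective
    funext v
    rw [zero_mulVec, show y ^ 3 = y * y ^ 2 by noncomm_ring, ← mulVec_mulVec, hy2, hyv v,
      mulVec_sub, mulVec_smul, mulVec_smul, hyx, hya, smul_zero, sub_zero, mulVec_smul,
      mulVec_smul, hya, smul_zero, smul_zero]
  have hI := iso_uni hG (wd_skew hq x a) hy3
  refine ⟨_, _, hI, ?_⟩
  rw [hI.conj hq]
  congr 1
  · rw [add_mulVec, add_mulVec, smul_mulVec, hy2, hya, mulVec_zero, one_mulVec, smul_zero,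
      add_zero, add_zero]
  · rw [add_mulVec, add_mulVec, smul_mulVec, hy2, hya', hyx, one_mulVec, smul_smul, hx]
    module

/-- There is a vector of square `-1/2` orthogonal to a hyperbolic pair. -/
theorem exists_x (hq : qᵀ = q) (hdet : q.det ≠ 0) (hn : 3 ≤ Fintype.card n) {a c : n → ℂ}
    (h : Hyp q a c) : ∃ x, bl q a x = 0 ∧ bl q c x = 0 ∧ bl q x x = -(1 / 2) := by
  have hca : bl q c a = 1 := by rw [bl_comm hq, h.ac]
  -- a vector outside the span
  obtain ⟨e, he⟩ : ∃ e : n → ℂ, e ∉ Submodule.span ℂ (Set.range ![a, c]) := by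
    by_contra hcon
    push Not at hcon
    have htop : Submodule.span ℂ (Set.range ![a, c]) = ⊤ := by
      rw [eq_top_iff]
      intro v _
      exact hcon v
    have h1 : (Set.range ![a, c]).finrank ℂ ≤ Fintype.card (Fin 2) := finrank_range_le_card _
    rw [Set.finrank, htop, finrank_top, Module.finrank_pi, Fintype.card_fin] at h1
    omega
  have key : ∀ v : n → ℂ, bl q a (v - bl q c v • a - bl q a v • c) = 0 ∧
      bl q c (v - bl q c v • a - bl q a v • c) = 0 := by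
    intro v
    constructor
    · rw [bl_sub, bl_sub, bl_smul, bl_smul, h.aa, h.ac]; ring
    · rw [bl_sub, bl_sub, bl_smul, bl_smul, h.cc, hca]; ring
  -- a vector of nonzero square in the orthogonal complement
  obtain ⟨w, hw1, hw2, hw3⟩ : ∃ w, bl q a w = 0 ∧ bl q c w = 0 ∧ bl q w w ≠ 0 := by
    set w := e - bl q c e • a - bl q a e • c with hw
    obtain ⟨hw1, hw2⟩ := key e
    rw [← hw] at hw1 hw2
    have hw0 : w ≠ 0 := by
      intro h0
      apply he
      have h1 : e = bl q c e • a + bl q a e • c := by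
        rw [hw] at h0
        rw [← sub_eq_zero, ← h0]
        abel
      rw [h1]
      refine Submodule.add_mem _ (Submodule.smul_mem _ _ (Submodule.subset_span ⟨0, rfl⟩))
        (Submodule.smul_mem _ _ (Submodule.subset_span ⟨1, rfl⟩))
    have hqw : q *ᵥ w ≠ 0 := by
      intro h0
      apply hw0
      have h1 : IsUnit q := (Matrix.isUnit_iff_isUnit_det q).2 (isUnit_iff_ne_zero.2 hdet)
      apply mulVec_injective_of_isUnit h1
      rw [h0, mulVec_zero]
    obtain ⟨i, hi⟩ := Function.ne_iff.1 hqw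
    set v : n → ℂ := Pi.single i 1 with hv
    have hwv : bl q w v ≠ 0 := by
      rw [bl_comm hq]
      unfold bl
      rw [hv, single_one_dotProduct]
      exact hi
    set z := v - bl q c v • a - bl q a v • c with hz
    obtain ⟨hz1, hz2⟩ := key v
    rw [← hz] at hz1 hz2
    have hwz : bl q w z ≠ 0 := by
      rw [hz, bl_sub, bl_sub, bl_smul, bl_smul, bl_comm hq w a, bl_comm hq w c, hw1, hw2]
      simpa using hwv
    by_cases hww : bl q w w = 0
    · by_cases hzz : bl q z z = 0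
      · refine ⟨w + z, by rw [bl_add, hw1, hz1, add_zero], by rw [bl_add, hw2, hz2, add_zero], ?_⟩
        rw [bl_add, add_bl, add_bl, hww, hzz, bl_comm hq z w]
        intro h0
        apply hwz
        linear_combination h0 / 2
      · exact ⟨z, hz1, hz2, hzz⟩
    · exact ⟨w, hw1, hw2, hww⟩
  obtain ⟨t, ht⟩ := IsAlgClosed.exists_pow_nat_eq (-(1 / 2) / bl q w w) (n := 2) (by norm_num)
  refine ⟨t • w, by rw [bl_smul, hw1, mul_zero], by rw [bl_smul, hw2, mul_zero], ?_⟩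
  rw [bl_smul, smul_bl]
  have h1 : t * (t * bl q w w) = t ^ 2 * bl q w w := by ring
  rw [h1, ht, div_mul_cancel₀ _ hw3]

/-- Step 2 -/
theorem step2 (hq : qᵀ = q) (hdet : q.det ≠ 0) (hn : 3 ≤ Fintype.card n)
    {G : Matrix n n ℂ → Matrix n n ℂ → Prop} (hG : Gen q G) {a a' b b' : n → ℂ}
    (h1 : Hyp q a a') (h2 : Hyp q b b') (hab : bl q a b ≠ 0) : T q G a a' b b' := by
  set l := bl q a b with hl
  set c := l⁻¹ • b with hc
  have hac : Hyp q a c :=
    ⟨h1.aa, by rw [hc, bl_smul, smul_bl, h2.aa]; ring, by rw [hc, bl_smul, ← hl]; field_simp⟩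
  have hca : bl q c a = 1 := by rw [bl_comm hq, hac.ac]
  obtain ⟨x, hax, hcx, hxx⟩ := exists_x hq hdet hn hac
  have hxa : bl q x a = 0 := by rw [bl_comm hq, hax]
  set w := a - c with hw
  have hwa : bl q w a = -1 := by rw [hw, sub_bl, hac.aa, hca]; ring
  have hwc : bl q w c = 1 := by rw [hw, sub_bl, hac.ac, hac.cc]; ring
  have hww : bl q w w = -2 := by
    rw [show bl q w w = bl q w (a - c) by rw [← hw], bl_sub, hwa, hwc]; ring
  have hwx : bl q w x = 0 := by rw [hw, sub_bl, hax, hcx]; ring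
  have hxw : bl q x w = 0 := by rw [bl_comm hq, hwx]
  set J := wd q w x with hJ
  have hJv : ∀ v, J *ᵥ v = bl q x v • w - bl q w v • x := fun v => wd_mulVec hq w x v
  have hJw : J *ᵥ w = (2 : ℂ) • x := by rw [hJv, hxw, hww]; module
  have hJx : J *ᵥ x = (-(1 / 2) : ℂ) • w := by rw [hJv, hwx, hxx]; module
  have hJ2 : ∀ v, J ^ 2 *ᵥ v = (2 * bl q x v) • x + (bl q w v / 2) • w := by
    intro v
    rw [pow_two, ← mulVec_mulVec, hJv v, mulVec_sub, mulVec_smul, mulVec_smul, hJw, hJx]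
    module
  have hJ3 : J ^ 3 = -J := by
    apply mulVec_injective
    funext v
    rw [neg_mulVec, show J ^ 3 = J * J ^ 2 by noncomm_ring, ← mulVec_mulVec, hJ2, hJv v,
      mulVec_add, mulVec_smul, mulVec_smul, hJw, hJx]
    module
  have hI := iso_one hG (wd_skew hq w x) hJ3
  set g := (1 + (2 : ℂ) • J ^ 2) with hg
  have hga : g *ᵥ a = c := by
    rw [hg, add_mulVec, one_mulVec, smul_mulVec, hJ2, hxa, hwa, hw]
    module
  have hgc : Hyp q c (g *ᵥ a') := by
    refine ⟨hac.cc, ?_, ?_⟩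
    · rw [hI.bl, h1.cc]
    · rw [← hga, hI.bl, h1.ac]
  have hcb : Hyp q c (l • b') := by
    refine ⟨hac.cc, by rw [bl_smul, smul_bl, h2.cc]; ring, ?_⟩
    rw [hc, bl_smul, smul_bl, h2.ac]
    field_simp
  have hT1 : T q G a a' c (g *ᵥ a') := ⟨g, g, hI, by rw [hI.conj hq, hga]⟩
  have hT2 := step1 hq hG hgc hcb
  have hT3 := hT1.trans hG hT2
  obtain ⟨k, k', hk, e⟩ := hT3
  exact ⟨k, k', hk, by rw [e, hc, wd_smul l hab]⟩

omit [DecidableEq n] in
/-- an intermediate isotropic vector -/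
theorem exists_d (hq : qᵀ = q) {a a' b b' : n → ℂ} (h1 : Hyp q a a') (h2 : Hyp q b b')
    (hab : bl q a b = 0) : ∃ d, bl q d d = 0 ∧ bl q a d ≠ 0 ∧ bl q d b ≠ 0 := by
  by_cases h3 : bl q a' b = 0
  · by_cases h4 : bl q a b' = 0
    · refine ⟨a' + b' + (-bl q a' b') • a, ?_, ?_, ?_⟩
      · simp only [bl_add, add_bl, bl_smul, smul_bl, h1.aa, h1.cc, h2.cc, h4, bl_comm hq a' a,
          h1.ac, bl_comm hq b' a, bl_comm hq b' a']
        ring
      · simp only [bl_add, bl_smul, h1.aa, h1.ac, h4]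
        simp
      · simp only [add_bl, smul_bl, h3, hab, bl_comm hq b' b, h2.ac]
        simp
    · exact ⟨b', h2.cc, h4, by rw [bl_comm hq, h2.ac]; exact one_ne_zero⟩
  · exact ⟨a', h1.cc, by rw [h1.ac]; exact one_ne_zero, h3⟩

end HypAux

open HypAux in
theorem t_HYP : S_HYP := by
  intro n _ _ q hq hdet hn G hG a a' b b' h1 h2
  have main : T q G a a' b b' := by
    by_cases hab : bl q a b = 0
    · obtain ⟨d, hd, had, hdb⟩ := exists_d hq h1 h2 hab
      have h3 : Hyp q d ((bl q a d)⁻¹ • a) := by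
        refine ⟨hd, by rw [bl_smul, smul_bl, h1.aa]; ring, ?_⟩
        rw [bl_smul, bl_comm hq d a]
        exact inv_mul_cancel₀ had
      exact (step2 hq hdet hn hG h1 h3 had).trans hG (step2 hq hdet hn hG h3 h2 hdb)
    · exact step2 hq hdet hn hG h1 h2 hab
  obtain ⟨g, g', hg, e⟩ := main
  exact ⟨g, g', hg.cls, hg.inv, e⟩

end Pool.Agent.NH56.HL
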