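import Pool.Agent.NH56.HL.Stm

/-!
# HL-INT: integrality in even degrees

By helper17 (project HL of helper56).
-/

set_option autoImplicit false

namespace Pool.Agent.NH56.HL

open Matrix Polynomial Filter Topology NumberField IsDedekindDomain Pool.Agent.NH56.HY
open Pool.Agent.NH56.HO

namespace IntH17

section graded

variable {ι : Type} [Fintype ι] [DecidableEq ι] {F : Type} [Field F] {deg : ι → ℕ}

theorem blk_mul {M : Matrix ι ι F} (hM : IsGraded deg M) (M' : Matrix ι ι F) (j : ℕ) :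
    blk deg j (M * M') = blk deg j M * blk deg j M' := by
  ext a b
  unfold blk
  rw [Matrix.submatrix_apply, Matrix.mul_apply, Matrix.mul_apply]
  have h : ∀ c : ι, c ∉ (Finset.univ.filter fun c => deg c = j) → M a.1 c * M' c b.1 = 0 := by
    intro c hc
    rw [hM a.1 c, zero_mul]
    intro h
    apply hc
    rw [Finset.mem_filter]
    exact ⟨Finset.mem_univ _, by rw [← h]; exact a.2⟩
  rw [← Finset.sum_subset (Finset.subset_univ (Finset.univ.filter fun c => deg c = j))
    (fun c _ hc => h c hc)]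
  rw [Finset.sum_subtype (p := fun c => deg c = j) _ (by intro x; simp)]
  rfl

theorem blk_one (j : ℕ) : blk deg j (1 : Matrix ι ι F) = 1 := by
  ext a b
  unfold blk
  rw [Matrix.submatrix_apply, Matrix.one_apply, Matrix.one_apply]
  simp only [Subtype.ext_iff]

theorem graded_mul {M M' : Matrix ι ι F} (h : IsGraded deg M) (h' : IsGraded deg M') :
    IsGraded deg (M * M') := by
  intro a b hab
  rw [Matrix.mul_apply]
  refine Finset.sum_eq_zero fun c _ => ?_
  by_cases hc : deg a = deg c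
  · rw [h' c b (by rw [← hc]; exact hab), mul_zero]
  · rw [h a c hc, zero_mul]

theorem graded_diag (d : ι → F) : IsGraded deg (Matrix.diagonal d) := by
  intro a b hab
  exact Matrix.diagonal_apply_ne _ (fun h => hab (by rw [h]))

theorem blk_diag (d : ι → F) (j : ℕ) :
    blk deg j (Matrix.diagonal d) = Matrix.diagonal fun a : {a // deg a = j} => d a.1 := by
  ext a b
  unfold blk
  rw [Matrix.submatrix_apply, Matrix.diagonal_apply, Matrix.diagonal_apply]
  by_cases hab : a = b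
  · subst hab
    rw [if_pos rfl, if_pos rfl]
  · rw [if_neg hab, if_neg (fun h => hab (Subtype.ext h))]

theorem comm_H {M : Matrix ι ι F} (h : IsGraded deg M) :
    M * Matrix.diagonal (fun a => (deg a : F)) = Matrix.diagonal (fun a => (deg a : F)) * M := by
  ext a b
  rw [Matrix.mul_diagonal, Matrix.diagonal_mul]
  by_cases hab : deg a = deg b
  · rw [hab, mul_comm]
  · rw [h a b hab, zero_mul, mul_zero]

end graded

theorem aeval_conj {n : Type} [Fintype n] [DecidableEq n] (R R' D : Matrix n n ℂ)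
    (h : R' * R = 1) (h' : R * R' = 1) (p : ℂ[X]) : aeval (R * D * R') p = R * aeval D p * R' := by
  induction p using Polynomial.induction_on' with
  | add p q hp hq => rw [map_add, map_add, hp, hq, Matrix.mul_add, Matrix.add_mul]
  | monomial k c =>
    rw [aeval_monomial, aeval_monomial]
    have hk : (R * D * R') ^ k = R * D ^ k * R' := by
      induction k with
      | zero => rw [pow_zero, pow_zero, Matrix.mul_one, h']
      | succ k ih =>
        rw [pow_succ, ih, pow_succ]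
        calc R * D ^ k * R' * (R * D * R') = R * D ^ k * (R' * R) * D * R' := by
              simp only [Matrix.mul_assoc]
          _ = R * (D ^ k * D) * R' := by rw [h]; simp only [Matrix.mul_assoc, Matrix.one_mul]
    rw [hk, ← Algebra.smul_def, ← Algebra.smul_def, Matrix.mul_smul, Matrix.smul_mul]

theorem aeval_diag {n : Type} [Fintype n] [DecidableEq n] (d : n → ℂ) (p : ℂ[X]) :
    aeval (Matrix.diagonal d) p = Matrix.diagonal fun a => eval (d a) p := by
  induction p using Polynomial.induction_on' with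
  | add p q hp hq =>
    rw [map_add, hp, hq, Matrix.diagonal_add]
    congr 1
    funext a
    rw [eval_add]
  | monomial k c =>
    rw [aeval_monomial, Matrix.diagonal_pow, ← Algebra.smul_def, ← Matrix.diagonal_smul]
    congr 1
    funext a
    rw [eval_monomial]
    rfl

theorem eval_pM (M : ℕ) (m : ℤ) (h : m ∈ Finset.Icc (-(M : ℤ)) M) : eval (m : ℂ) (pM M) = 0 := by
  unfold pM
  rw [eval_prod]
  refine Finset.prod_eq_zero h ?_
  rw [eval_sub, eval_X, eval_C, sub_self]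

theorem gen {ι : Type} [Fintype ι] [DecidableEq ι] {X : Coh ι} (hLMU : S_LMU)
    (hX : IsHyperKahler X) : Gen (X.qF ℂ) (Lif X) := by
  obtain ⟨-, h2, h3, h4⟩ := hLMU ι X hX
  exact ⟨h2, fun J h h' => (h3 J h h').1, fun J h h' => (h3 J h h').2, h4⟩

theorem qF_symm {ι : Type} [Fintype ι] [DecidableEq ι] {X : Coh ι} (hX : IsHyperKahler X) :
    (X.qF ℂ)ᵀ = X.qF ℂ := by
  unfold Coh.qF
  rw [← Matrix.transpose_map, hX.symm]

theorem qF_det {ι : Type} [Fintype ι] [DecidableEq ι] {X : Coh ι} (hX : IsHyperKahler X) :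
    (X.qF ℂ).det ≠ 0 := by
  unfold Coh.qF
  have h : (X.q.map (algebraMap ℚ ℂ)).det = algebraMap ℚ ℂ X.q.det := by
    rw [RingHom.map_det, RingHom.mapMatrix_apply]
  rw [h]
  intro h0
  exact hX.nondeg ((algebraMap ℚ ℂ).injective (by rw [h0, map_zero]))

end IntH17

open IntH17 in
theorem t_INT (hLMU : S_LMU) (hHYP : S_HYP) (hHDG : S_HDG) (hBAS : S_BAS) : S_INT := by
  intro ι _ _ X hX a a' haa j hj
  obtain ⟨a0, a0', h0, hD⟩ := hHDG ι X hX
  obtain ⟨g, g', ⟨A, A', hA⟩, -, hgg⟩ := hHYP _ (X.qF ℂ) (qF_symm hX) (qF_det hX) hX.betti (Lif X)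
    (gen hLMU hX) a0 a0' a a' h0 haa
  obtain ⟨hsk, hver⟩ := hX.verbitsky
  obtain ⟨hPu, hgP⟩ := hX.basis
  have hPdet : IsUnit X.P.det := (Matrix.isUnit_iff_isUnit_det _).1 hPu
  have hPP : X.P * X.P⁻¹ = 1 := Matrix.mul_nonsing_inv _ hPdet
  have hPP' : X.P⁻¹ * X.P = 1 := Matrix.nonsing_inv_mul _ hPdet
  -- the operator
  have e0 : A * X.δF ℂ (blk X.deg 2 X.D - 1) * A' = X.δF ℂ (wd (X.qF ℂ) a a') := by
    rw [hA.conj _ hsk, hD, hgg]
  have e1 : X.δF ℂ (blk X.deg 2 X.D - 1) = X.D - (2 : ℂ)⁻¹ • X.H ℂ := by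
    nth_rewrite 2 [hver]
    abel
  have e2 : X.D - (2 : ℂ)⁻¹ • X.H ℂ =
      X.P * Matrix.diagonal (fun a => (X.hdg a : ℂ) - (2 : ℂ)⁻¹ * (X.deg a : ℂ)) * X.P⁻¹ := by
    have h1 : X.H ℂ = X.P * X.H ℂ * X.P⁻¹ := by
      unfold Coh.H
      rw [comm_H hgP, Matrix.mul_assoc, hPP, Matrix.mul_one]
    have h2 : Matrix.diagonal (fun a => (X.hdg a : ℂ) - (2 : ℂ)⁻¹ * (X.deg a : ℂ)) =
        Matrix.diagonal (fun a => (X.hdg a : ℂ)) - (2 : ℂ)⁻¹ • X.H ℂ := by
      unfold Coh.H
      rw [← Matrix.diagonal_smul, Matrix.diagonal_sub]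
      rfl
    rw [h2, Matrix.mul_sub, Matrix.sub_mul, Matrix.mul_smul, Matrix.smul_mul, ← h1]
    rfl
  have e3 : X.δF ℂ (wd (X.qF ℂ) a a') = (A * X.P) *
      Matrix.diagonal (fun a => (X.hdg a : ℂ) - (2 : ℂ)⁻¹ * (X.deg a : ℂ)) * (X.P⁻¹ * A') := by
    rw [← e0, e1, e2]
    simp only [Matrix.mul_assoc]
  have hR : IsGraded X.deg (A * X.P) := graded_mul hA.graded hgP
  have hRR : (A * X.P) * (X.P⁻¹ * A') = 1 := by
    calc (A * X.P) * (X.P⁻¹ * A') = A * (X.P * X.P⁻¹) * A' := by simp only [Matrix.mul_assoc]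
      _ = 1 := by rw [hPP, Matrix.mul_one, hA.mul]
  have hRj : blk X.deg j (A * X.P) * blk X.deg j (X.P⁻¹ * A') = 1 := by
    rw [← blk_mul hR, hRR, blk_one]
  have hRj' : blk X.deg j (X.P⁻¹ * A') * blk X.deg j (A * X.P) = 1 :=
    mul_eq_one_comm.1 hRj
  rw [e3, blk_mul (graded_mul hR (graded_diag _)), blk_mul hR, blk_diag, aeval_conj _ _ _ hRj' hRj,
    aeval_diag]
  have h5 : (fun b : {b // X.deg b = j} =>
      eval ((X.hdg b.1 : ℂ) - (2 : ℂ)⁻¹ * (X.deg b.1 : ℂ)) (pM (Mx X))) = fun _ => 0 := by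
    funext b
    obtain ⟨i, hi⟩ := hj
    have h6 : (X.hdg b.1 : ℂ) - (2 : ℂ)⁻¹ * (X.deg b.1 : ℂ) =
        (((X.hdg b.1 : ℤ) - (i : ℤ) : ℤ) : ℂ) := by
      have h9 : X.deg b.1 = i + i := by rw [b.2, ← hi]
      rw [h9]
      push_cast
      ring
    rw [h6]
    refine eval_pM _ _ ?_
    have h7 : X.hdg b.1 + X.deg b.1 ≤ Mx X :=
      Finset.single_le_sum (f := fun a => X.hdg a + X.deg a) (fun _ _ => Nat.zero_le _)
        (Finset.mem_univ b.1)
    rw [b.2] at h7
    rw [Finset.mem_Icc]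
    omega
  rw [h5]
  have h8 : Matrix.diagonal (fun _ : {b // X.deg b = j} => (0 : ℂ)) = 0 := Matrix.diagonal_zero
  rw [h8, Matrix.mul_zero, Matrix.zero_mul]

end Pool.Agent.NH56.HL
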