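import Pool.Agent.NH56.HL.Stm
import Pool.Agent.NH56.HY.Trn

/-! HL-KAP: the similitude character -/

set_option autoImplicit false
set_option linter.unusedSectionVars false

namespace Pool.Agent.NH56.HL

open Matrix Polynomial Filter Topology NumberField IsDedekindDomain Pool.Agent.NH56.HY

namespace Kap80

section alg

variable {n F : Type} [Fintype n] [DecidableEq n] [Field F] [CharZero F]

theorem det_sq {q T : Matrix n n F} {x : F} (hq : q.det ≠ 0) (h : Tᵀ * q * T = x ^ 2 • q) :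
    T.det ^ 2 = (x ^ 2) ^ Fintype.card n := by
  have h1 := congrArg Matrix.det h
  rw [det_mul, det_mul, det_transpose, det_smul] at h1
  apply mul_right_cancel₀ hq
  linear_combination h1

theorem root_iff {T : Matrix n n F} {k : F} : T.charpoly.IsRoot k ↔ (k • 1 - T).det = 0 := by
  rw [Polynomial.IsRoot.def, Matrix.eval_charpoly, Matrix.scalar_apply,
    ← Matrix.smul_one_eq_diagonal]

theorem odd_case {q T : Matrix n n F} {x k : F} (hq : q.det ≠ 0) (h : Tᵀ * q * T = x ^ 2 • q)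
    (hx : x ≠ 0) (ho : Odd (Fintype.card n)) (hk : k = T.det / x ^ (Fintype.card n - 1)) :
    k ≠ 0 ∧ k ^ 2 = x ^ 2 ∧ T.det = k ^ Fintype.card n ∧ T.charpoly.IsRoot k := by
  obtain ⟨m, hm⟩ := ho
  have h1 := det_sq hq h
  rw [hm] at h1
  have hb : Fintype.card n - 1 = 2 * m := by omega
  rw [hb] at hk
  have hx2 : x ^ (2 * m) ≠ 0 := pow_ne_zero _ hx
  have hT : T.det = k * x ^ (2 * m) := by
    rw [hk, div_mul_cancel₀ _ hx2]
  have hk2 : k ^ 2 = x ^ 2 := by
    apply mul_right_cancel₀ (pow_ne_zero 2 hx2)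
    have e1 : k ^ 2 * (x ^ (2 * m)) ^ 2 = T.det ^ 2 := by rw [hT]; ring
    rw [e1, h1]
    ring
  have hk0 : k ≠ 0 := by
    rintro rfl
    rw [zero_pow two_ne_zero] at hk2
    exact pow_ne_zero 2 hx hk2.symm
  have hdet : T.det = k ^ Fintype.card n := by
    rw [hm, hT, pow_succ, pow_mul, pow_mul, hk2]
    ring
  refine ⟨hk0, hk2, hdet, root_iff.2 ?_⟩
  have h2 : Tᵀ * q * (k • 1 - T) = (-k) • ((k • 1 - T)ᵀ * q) := by
    rw [mul_sub, h, Matrix.mul_smul, mul_one, transpose_sub, transpose_smul, transpose_one, sub_mul,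
      Matrix.smul_mul, one_mul, smul_sub, smul_smul, ← hk2, neg_smul, sub_neg_eq_add, pow_two,
      neg_mul, neg_smul]
    exact sub_eq_neg_add _ _
  have h3 := congrArg Matrix.det h2
  rw [det_mul, det_mul, det_transpose, det_smul, det_mul, det_transpose, hdet, Odd.neg_pow ⟨m, hm⟩] at h3
  have h4 : k ^ Fintype.card n * q.det * (2 * (k • (1 : Matrix n n F) - T).det) = 0 := by
    linear_combination h3
  rcases mul_eq_zero.1 h4 with h5 | h5
  · exact absurd h5 (mul_ne_zero (pow_ne_zero _ hk0) hq)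
  · exact (mul_eq_zero.1 h5).resolve_left two_ne_zero

end alg

theorem main (K : Type) [Field K] [NumberField K] (ℓ : ℕ) [Fact ℓ.Prime] (ι : Type)
    [Fintype ι] [DecidableEq ι] (X : Coh ι) (S : Finset ℕ) (χ : GK K →* ℚ_[ℓ])
    (Pol : HeightOneSpectrum (𝓞 K) → ℕ → ℤ[X]) (ρ : GK K →* Matrix ι ι ℚ_[ℓ])
    (hX : IsHyperKahler X) (hR : IsRealization X S χ Pol ρ) (hO : Orient X χ ρ) (g : GK K) :
    χ g ≠ 0 ∧ kap X χ ρ g ≠ 0 ∧ kap X χ ρ g ^ 2 = χ g ^ 2 ∧
      (blk X.deg 2 (ρ g)).det = kap X χ ρ g ^ Fintype.card {a // X.deg a = 2} ∧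
      (blk X.deg 2 (ρ g)).charpoly.IsRoot (kap X χ ρ g) := by
  have hχ : χ g ≠ 0 := by
    intro h0
    have h1 : χ g * χ g⁻¹ = 1 := by rw [← map_mul, mul_inv_cancel, map_one]
    rw [h0, zero_mul] at h1
    exact zero_ne_one h1
  have hq : (X.qF ℚ_[ℓ]).det ≠ 0 := by
    have h1 : (X.qF ℚ_[ℓ]).det = algebraMap ℚ ℚ_[ℓ] X.q.det :=
      (RingHom.map_det (algebraMap ℚ ℚ_[ℓ]) X.q).symm
    rw [h1]
    exact (map_ne_zero_iff _ (algebraMap ℚ ℚ_[ℓ]).injective).2 hX.nondeg
  by_cases ho : Odd (Fintype.card {a // X.deg a = 2})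
  · have hk : kap X χ ρ g = (blk X.deg 2 (ρ g)).det / χ g ^ (Fintype.card {a // X.deg a = 2} - 1) := by
      unfold kap
      rw [if_pos ho]
    exact ⟨hχ, odd_case hq (hR.similitude g) hχ ho hk⟩
  · have hk : kap X χ ρ g = χ g := by
      unfold kap
      rw [if_neg ho]
    obtain ⟨h1, h2⟩ := (hO.resolve_left ho) g
    rw [hk]
    exact ⟨hχ, hχ, rfl, h1, h2⟩

end Kap80

open Trn78 Kap80 in
theorem t_KAP (hBAS : S_BAS) : S_KAP := by
  intro K _ _ ℓ _ ι _ _ X S χ Pol ρ hX hR hO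
  have hmain := Kap80.main K ℓ ι X S χ Pol ρ hX hR hO
  refine ⟨?_, fun g => ⟨(hmain g).1, (hmain g).2.1, (hmain g).2.2.1, (hmain g).2.2.2.1⟩,
    fun c g => ?_⟩
  · by_cases ho : Odd (Fintype.card {a // X.deg a = 2})
    · have hk : kap X χ ρ = fun g => (blk X.deg 2 (ρ g)).det /
          χ g ^ (Fintype.card {a // X.deg a = 2} - 1) := by
        funext g
        unfold kap
        rw [if_pos ho]
      rw [hk]
      refine Continuous.div ?_ (hR.continuous.2.pow _) (fun g => pow_ne_zero _ (hmain g).1)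
      exact (hR.continuous.1.matrix_submatrix _ _).matrix_det
    · have hk : kap X χ ρ = χ := by
        funext g
        unfold kap
        rw [if_neg ho]
      rw [hk]
      exact hR.continuous.2
  · obtain ⟨hχ, hk0, hk2, hdet, hroot⟩ := hmain g
    have hgr : ∀ g, IsGraded X.deg ((ρ g).map c) := by
      intro g a b hab
      rw [Matrix.map_apply, hR.graded g a b hab, map_zero]
    refine ⟨?_, hgr g, hgr g⁻¹, ?_, ?_, ?_, ?_⟩
    · rw [← Matrix.map_mul, ← map_mul, mul_inv_cancel, map_one]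
      exact Matrix.map_one _ (map_zero _) (map_one _)
    · have h1 := congrArg (fun M => Matrix.map M c) (hR.similitude g)
      beta_reduce at h1
      rw [Matrix.map_mul, Matrix.map_mul, transpose_map, mapsm, qF_map, ← hk2, map_pow] at h1
      rw [blk_map]
      exact h1
    · refine equiv_all X hBAS hX _ _ _ _ ?_
      intro y hy
      have hy' : X.IsSkew ℚ_[ℓ] (y.map (algebraMap ℚ ℚ_[ℓ])) := by
        unfold Coh.IsSkew Coh.qF
        rw [← transpose_map, ← Matrix.map_mul, ← Matrix.map_mul,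
          ← Matrix.map_add _ (fun a b => map_add (algebraMap ℚ ℚ_[ℓ]) a b), hy]
        exact Matrix.map_zero _ (map_zero _)
      have h1 := congrArg (fun M => Matrix.map M c) (hR.equivariant g _ hy')
      beta_reduce at h1
      have h2 : (y.map (algebraMap ℚ ℚ_[ℓ])).map c = y.map (algebraMap ℚ ℂ) := by
        ext i j
        change c (algebraMap ℚ ℚ_[ℓ] (y i j)) = algebraMap ℚ ℂ (y i j)
        rw [eq_ratCast (algebraMap ℚ ℚ_[ℓ]), eq_ratCast (algebraMap ℚ ℂ), map_ratCast]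
      rw [Matrix.map_mul, Matrix.map_mul, δF_map, δF_map, Matrix.map_mul, Matrix.map_mul, h2] at h1
      exact h1
    · have h1 : (blk X.deg 2 ((ρ g).map c)).det = c (blk X.deg 2 (ρ g)).det :=
        (RingHom.map_det c (blk X.deg 2 (ρ g))).symm
      rw [h1, hdet, map_pow]
    · rw [blk_map, Matrix.charpoly_map]
      exact hroot.map

end Pool.Agent.NH56.HL
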