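import Pool.Agent.NH56.HL.Stm
import Pool.Agent.NH57.WM.Log

/-!
# Project HL, LGU: the logarithm of a unipotent matrix
-/

set_option autoImplicit false

namespace Pool.Agent.NH56.HL

open Filter Topology

namespace Lgu

open Polynomial
open Pool.Agent.NH57.WM (bp bp_eval pow_eq_sum)

lemma nil_card {n F : Type} [Fintype n] [DecidableEq n] [Field F] {M : Matrix n n F}
    (h : IsNilpotent M) : M ^ Fintype.card n = 0 := by
  have h1 := Matrix.isNilpotent_charpoly_sub_pow_of_isNilpotent h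
  have h2 : M.charpoly = X ^ Fintype.card n := sub_eq_zero.1 h1.eq_zero
  have h3 := Matrix.aeval_self_charpoly M
  rw [h2, map_pow, aeval_X] at h3
  exact h3

lemma desc_neg_one (k : Type) [Field k] (j : ℕ) :
    (descPochhammer k j).eval (-1) = (-1) ^ j * (j.factorial : k) := by
  induction j with
  | zero => simp
  | succ j ih =>
    rw [descPochhammer_succ_right, eval_mul, ih, eval_sub, eval_X, eval_natCast, Nat.factorial_succ]
    push_cast
    ring

lemma bp_zero (k : Type) [Field k] (x : k) : (bp k 0).eval x = 1 := by simp [bp]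

lemma bp_succ_zero (k : Type) [Field k] (j : ℕ) : (bp k (j + 1)).eval 0 = 0 := by
  unfold bp
  rw [eval_mul, descPochhammer_succ_left, eval_mul, eval_X, zero_mul, mul_zero]

lemma bp_der (k : Type) [Field k] [CharZero k] (j : ℕ) :
    (derivative (bp k (j + 1))).eval 0 = (-1) ^ j / ((j : k) + 1) := by
  unfold bp
  rw [derivative_C_mul, descPochhammer_succ_left, derivative_mul, derivative_X, one_mul, eval_mul, eval_C,
    eval_add, eval_mul, eval_X, zero_mul, add_zero, eval_comp, eval_sub, eval_X, eval_one, zero_sub,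
    desc_neg_one, Nat.factorial_succ]
  have h1 : (j.factorial : k) ≠ 0 := by exact_mod_cast j.factorial_ne_zero
  have h2 : (j : k) + 1 ≠ 0 := by exact_mod_cast j.succ_ne_zero
  push_cast
  field_simp

section
variable {ℓ : ℕ} [hℓ : Fact ℓ.Prime] {n : Type} [Fintype n] [DecidableEq n]

lemma pow_tendsto : Tendsto (fun k : ℕ => (ℓ : ℚ_[ℓ]) ^ k) atTop (𝓝[≠] 0) := by
  rw [tendsto_nhdsWithin_iff]
  constructor
  · apply tendsto_pow_atTop_nhds_zero_of_norm_lt_one
    rw [Padic.norm_p]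
    exact inv_lt_one_of_one_lt₀ (by exact_mod_cast hℓ.out.one_lt)
  · refine Eventually.of_forall fun k => ?_
    have : (ℓ : ℚ_[ℓ]) ≠ 0 := by exact_mod_cast hℓ.out.ne_zero
    exact pow_ne_zero _ this

lemma coef_tendsto (m j : ℕ) :
    Tendsto (fun k : ℕ => ((ℓ : ℚ_[ℓ]) ^ k)⁻¹ * (bp ℚ_[ℓ] (j + 1)).eval ((m : ℚ_[ℓ]) * (ℓ : ℚ_[ℓ]) ^ k))
      atTop (𝓝 ((m : ℚ_[ℓ]) * ((-1) ^ j / ((j : ℚ_[ℓ]) + 1)))) := by
  set p : ℚ_[ℓ][X] := (bp ℚ_[ℓ] (j + 1)).comp (C (m : ℚ_[ℓ]) * X) with hp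
  have h0 : p.eval 0 = 0 := by
    rw [hp, eval_comp, eval_mul, eval_X, mul_zero, bp_succ_zero]
  have hd : (derivative p).eval 0 = (m : ℚ_[ℓ]) * ((-1) ^ j / ((j : ℚ_[ℓ]) + 1)) := by
    rw [hp, derivative_comp, derivative_C_mul, derivative_X, mul_one, eval_mul, eval_C, eval_comp, eval_mul,
      eval_X, mul_zero, bp_der]
  have h1 := (p.hasDerivAt 0).tendsto_slope.comp (pow_tendsto (ℓ := ℓ))
  rw [hd] at h1
  refine h1.congr fun k => ?_
  show slope (fun x => p.eval x) 0 ((ℓ : ℚ_[ℓ]) ^ k) = _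
  rw [slope_def_field, h0, sub_zero, sub_zero, hp, eval_comp, eval_mul, eval_C, eval_X, div_eq_inv_mul]

lemma tl (T : Matrix n n ℚ_[ℓ]) (hT : IsNilpotent (T - 1)) (m : ℕ) :
    Tendsto (fun k : ℕ => ((ℓ : ℚ_[ℓ]) ^ k)⁻¹ • (T ^ (m * ℓ ^ k) - 1)) atTop
      (𝓝 ((m : ℚ_[ℓ]) • lgu T)) := by
  set d := Fintype.card n with hd
  have hM : (T - 1) ^ (d + 1) = 0 := by rw [pow_succ, nil_card hT, zero_mul]
  have key : ∀ k : ℕ, ((ℓ : ℚ_[ℓ]) ^ k)⁻¹ • (T ^ (m * ℓ ^ k) - 1) =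
      ∑ j ∈ Finset.range d, (((ℓ : ℚ_[ℓ]) ^ k)⁻¹ *
        (bp ℚ_[ℓ] (j + 1)).eval ((m : ℚ_[ℓ]) * (ℓ : ℚ_[ℓ]) ^ k)) • (T - 1) ^ (j + 1) := by
    intro k
    rw [pow_eq_sum (k := ℚ_[ℓ]) hM (m * ℓ ^ k), Finset.sum_range_succ', bp_zero, pow_zero, one_smul,
      add_sub_cancel_right, Finset.smul_sum]
    refine Finset.sum_congr rfl fun j _ => ?_
    rw [smul_smul]
    push_cast
    rfl
  have hl : (m : ℚ_[ℓ]) • lgu T =
      ∑ j ∈ Finset.range d, ((m : ℚ_[ℓ]) * ((-1) ^ j / ((j : ℚ_[ℓ]) + 1))) • (T - 1) ^ (j + 1) := by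
    unfold lgu
    rw [Finset.smul_sum]
    refine Finset.sum_congr rfl fun j _ => ?_
    rw [smul_smul]
  rw [hl]
  simp only [key]
  exact tendsto_finsetSum _ fun j _ => (coef_tendsto m j).smul_const _

end

end Lgu

open Lgu in
theorem t_LGU : S_LGU := by
  intro ℓ _ n _ _ T hT
  have h1 := tl T hT 1
  refine ⟨?_, ?_, ?_⟩
  · simpa using h1
  · have hc : Commute (T - 1) (∑ i ∈ Finset.range (Fintype.card n), ((-1) ^ i / ((i : ℚ_[ℓ]) + 1)) • (T - 1) ^ i) :=
      Commute.sum_right _ _ _ fun i _ => ((Commute.refl (T - 1)).pow_right i).smul_right _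
    have h2 : lgu T = (T - 1) * (∑ i ∈ Finset.range (Fintype.card n), ((-1) ^ i / ((i : ℚ_[ℓ]) + 1)) • (T - 1) ^ i) := by
      unfold lgu
      rw [Finset.mul_sum]
      refine Finset.sum_congr rfl fun i _ => ?_
      rw [mul_smul_comm, ← pow_succ']
    rw [h2]
    exact hc.isNilpotent_mul_right hT
  · intro m
    have hTm : IsNilpotent (T ^ m - 1) := by
      have h2 : T ^ m - 1 = (T - 1) * (∑ i ∈ Finset.range m, T ^ i) := (mul_geom_sum T m).symm
      have hc : Commute (T - 1) (∑ i ∈ Finset.range m, T ^ i) :=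
        Commute.sum_right _ _ _ fun i _ => ((Commute.refl T).sub_left (Commute.one_left T)).pow_right i
      rw [h2]
      exact hc.isNilpotent_mul_right hT
    have h2 := tl (T ^ m) hTm 1
    have h3 := tl T hT m
    rw [Nat.cast_one, one_smul] at h2
    refine tendsto_nhds_unique h2 ?_
    refine h3.congr fun k => ?_
    rw [one_mul, pow_mul]

end Pool.Agent.NH56.HL
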