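import Pool.Agent.NH56.HL.Stm

/-!
# Local Euler factors of hyper-Kähler varieties: products of lifts and generators (LMU)
-/

set_option autoImplicit false

namespace Pool.Agent.NH56.HL

open Matrix Polynomial Filter Topology NumberField IsDedekindDomain Pool.Agent.NH56.HY
open Pool.Agent.NH56.HO

namespace Lmu

theorem graded_mul {ι : Type} [Fintype ι] (deg : ι → ℕ) (A B : Matrix ι ι ℂ)
    (hA : IsGraded deg A) (hB : IsGraded deg B) : IsGraded deg (A * B) := by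
  intro a c hac
  rw [Matrix.mul_apply]
  apply Finset.sum_eq_zero
  intro b _
  by_cases h : deg a = deg b
  · rw [hB b c (fun h' => hac (h.trans h')), mul_zero]
  · rw [hA a b h, zero_mul]

theorem blk_mul {ι : Type} [Fintype ι] (deg : ι → ℕ) (j : ℕ) (A B : Matrix ι ι ℂ)
    (hA : IsGraded deg A) : blk deg j (A * B) = blk deg j A * blk deg j B := by
  ext a c
  have e : ∑ b ∈ Finset.univ.filter (fun b => deg b = j), A a.1 b * B b c.1 =
      ∑ b : {a // deg a = j}, A a.1 b.1 * B b.1 c.1 :=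
    Finset.sum_subtype (Finset.univ.filter (fun b => deg b = j)) (by simp)
      (fun b => A a.1 b * B b c.1)
  have e2 : (blk deg j A * blk deg j B) a c =
      ∑ b : {a // deg a = j}, A a.1 b.1 * B b.1 c.1 := Matrix.mul_apply
  have e3 : blk deg j (A * B) a c = ∑ b, A a.1 b * B b c.1 := Matrix.mul_apply
  rw [e2, e3, ← e, Finset.sum_filter]
  apply Finset.sum_congr rfl
  intro b _
  by_cases h : deg b = j
  · rw [if_pos h]
  · rw [if_neg h, hA a.1 b (fun h' => h (h'.symm.trans a.2)), zero_mul]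

theorem skew_conj {ι : Type} [Fintype ι] [DecidableEq ι] (X : Coh ι)
    (h h' x : Matrix {a // X.deg a = 2} {a // X.deg a = 2} ℂ) (hm : h * h' = 1)
    (ho : hᵀ * X.qF ℂ * h = X.qF ℂ) (hx : X.IsSkew ℂ x) : X.IsSkew ℂ (h * x * h') := by
  unfold Coh.IsSkew at hx ⊢
  have e1 : hᵀ * X.qF ℂ = X.qF ℂ * h' := by
    calc hᵀ * X.qF ℂ = hᵀ * X.qF ℂ * (h * h') := by rw [hm, Matrix.mul_one]
      _ = (hᵀ * X.qF ℂ * h) * h' := by simp only [Matrix.mul_assoc]
      _ = X.qF ℂ * h' := by rw [ho]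
  have hm' : h'ᵀ * hᵀ = 1 := by
    rw [← Matrix.transpose_mul, hm, Matrix.transpose_one]
  have e2 : X.qF ℂ * h = h'ᵀ * X.qF ℂ := by
    calc X.qF ℂ * h = (h'ᵀ * hᵀ) * (X.qF ℂ * h) := by rw [hm', Matrix.one_mul]
      _ = h'ᵀ * (hᵀ * X.qF ℂ * h) := by simp only [Matrix.mul_assoc]
      _ = h'ᵀ * X.qF ℂ := by rw [ho]
  calc (h * x * h')ᵀ * X.qF ℂ + X.qF ℂ * (h * x * h')
      = h'ᵀ * xᵀ * (hᵀ * X.qF ℂ) + (X.qF ℂ * h) * x * h' := by
        simp only [Matrix.transpose_mul, Matrix.mul_assoc]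
    _ = h'ᵀ * (xᵀ * X.qF ℂ + X.qF ℂ * x) * h' := by
        rw [e1, e2]
        simp only [Matrix.mul_add, Matrix.add_mul, Matrix.mul_assoc]
    _ = 0 := by rw [hx, Matrix.mul_zero, Matrix.zero_mul]

theorem lift_mul {ι : Type} [Fintype ι] [DecidableEq ι] (X : Coh ι)
    (g g' h h' : Matrix {a // X.deg a = 2} {a // X.deg a = 2} ℂ) (A A' B B' : Matrix ι ι ℂ)
    (h1 : IsLift X g g' A A') (h2 : IsLift X h h' B B') :
    IsLift X (g * h) (h' * g') (A * B) (B' * A') where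
  mul := by
    calc A * B * (B' * A') = A * (B * B') * A' := by simp only [Matrix.mul_assoc]
      _ = 1 := by rw [h2.mul, Matrix.mul_one, h1.mul]
  mul' := by
    calc g * h * (h' * g') = g * (h * h') * g' := by simp only [Matrix.mul_assoc]
      _ = 1 := by rw [h2.mul', Matrix.mul_one, h1.mul']
  graded := graded_mul _ _ _ h1.graded h2.graded
  graded' := graded_mul _ _ _ h2.graded' h1.graded'
  two := by rw [blk_mul _ _ _ _ h1.graded, h1.two, h2.two]
  orth := by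
    calc (g * h)ᵀ * X.qF ℂ * (g * h) = hᵀ * (gᵀ * X.qF ℂ * g) * h := by
          simp only [Matrix.transpose_mul, Matrix.mul_assoc]
      _ = X.qF ℂ := by rw [h1.orth, h2.orth]
  conj := by
    intro x hx
    calc A * B * X.δF ℂ x * (B' * A') = A * (B * X.δF ℂ x * B') * A' := by
          simp only [Matrix.mul_assoc]
      _ = A * X.δF ℂ (h * x * h') * A' := by rw [h2.conj x hx]
      _ = X.δF ℂ (g * (h * x * h') * g') := h1.conj _ (skew_conj X h h' x h2.mul' h2.orth hx)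
      _ = X.δF ℂ (g * h * x * (h' * g')) := by simp only [Matrix.mul_assoc]
  com := by
    intro C hC
    rw [Matrix.mul_assoc, h2.com C hC, ← Matrix.mul_assoc, h1.com C hC, Matrix.mul_assoc]

theorem skew_smul {ι : Type} [Fintype ι] [DecidableEq ι] (X : Coh ι)
    (c : ℂ) (x : Matrix {a // X.deg a = 2} {a // X.deg a = 2} ℂ) (hx : X.IsSkew ℂ x) :
    X.IsSkew ℂ (c • x) := by
  unfold Coh.IsSkew at hx ⊢
  rw [Matrix.transpose_smul, Matrix.smul_mul, Matrix.mul_smul, ← smul_add, hx, smul_zero]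

end Lmu

open Lmu in
/-- **LMU** -/
theorem t_LMU (hEXM : S_EXM) (hEXP : S_EXP) (_hBAS : S_BAS) : S_LMU := by
  intro ι _ _ X hX
  refine ⟨fun g g' h h' A A' B B' h1 h2 => lift_mul X g g' h h' A A' B B' h1 h2, ?_, ?_, ?_⟩
  · rintro g g' h h' ⟨A, A', h1⟩ ⟨B, B', h2⟩
    exact ⟨_, _, lift_mul X g g' h h' A A' B B' h1 h2⟩
  · intro J hJ hJ3
    have hJn : (-J) ^ 3 = -(-J) := by
      rw [neg_neg, Odd.neg_pow (by decide), hJ3, neg_neg]
    obtain ⟨-, -, -, -, e5, -, -⟩ := hEXM _ J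
    obtain ⟨-, -, -, -, e5', -, -⟩ := hEXM _ (-J)
    obtain ⟨a1, a2⟩ := e5 hJ3
    obtain ⟨b1, b2⟩ := e5' hJn
    rw [neg_pow_two] at b1 b2
    rw [smul_neg] at b1 b2
    refine ⟨?_, ?_⟩
    · have := hEXP ι X hX ((Real.pi : ℂ) • J) (skew_smul X _ _ hJ)
      rw [a1, b1] at this
      exact ⟨_, _, this⟩
    · have := hEXP ι X hX ((Real.pi / 2 : ℂ) • J) (skew_smul X _ _ hJ)
      rw [a2, b2] at this
      rw [sub_eq_add_neg]
      exact ⟨_, _, this⟩
  · intro y hy hy3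
    obtain ⟨-, -, -, e4, -, -, -⟩ := hEXM _ y
    obtain ⟨-, -, -, e4', -, -, -⟩ := hEXM _ (-y)
    have a1 := e4 hy3
    have b1 := e4' (by rw [Odd.neg_pow (by decide), hy3, neg_zero])
    rw [neg_pow_two] at b1
    have := hEXP ι X hX y hy
    rw [a1, b1] at this
    rw [sub_eq_add_neg]
    exact ⟨_, _, this⟩

end Pool.Agent.NH56.HL
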