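import Pool.Agent.NH56.HL.Stm
import Pool.Agent.NH57.WM.Fin

/-!
# HL-LOC: local factors of a family of representations with known local properties

(port of `Pool.Agent.NH57.WM.Loc`, without a second family and without semisimplicity)
-/

set_option autoImplicit false

namespace Pool.Agent.NH56.HL

namespace Loc

open NumberField Filter Topology IsDedekindDomain Pool.Agent.W401.Cheb Pool.Agent.R401.Sup
open Pool.Agent.W569.FM Pool.Agent.R401.Img Pool.Agent.R401.Sup3 Pool.Agent.R401.Sup4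
open Pool.Agent.R401.Tr3 Pool.Agent.R401.Tr4 Pool.Agent.R401.Tr5 Module Polynomial Matrix
open Pool.Agent.R401.Tr8 Pool.Agent.R401.Tr9 Pool.Agent.NH57.WM

section one

variable {K : Type} [Field K] [NumberField K] {ℓ : ℕ} [Fact ℓ.Prime]
variable {n : ℕ} (V : GK K →* GL (Fin n) ℚ_[ℓ]) (hV : Continuous V)
  {P : Ideal (OO K)} (hP : P.IsMaximal) {q : ℕ} (hq : 2 ≤ q)
  (hℓP : (ℓ : OO K) ∉ P) (U₁ : Subgroup (GK K)) (hU₁n : U₁.Normal)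
  (hU₁o : IsOpen (U₁ : Set (GK K)))
  (hVu : ∀ τ ∈ U₁, InInertia P τ → IsNilpotent (mt V τ - 1))
  {r : ℝ} (hr : 0 < r) (e : ℚ_[ℓ] →+* ℂ)

include hq hU₁n hU₁o in
theorem bound_ker' (hWLE : WLE V P q r e) {k : ℕ} (hk : 1 ≤ k) {g : GK K}
    (hg : FrobAt (q ^ k) P g⁻¹) (S : Submodule ℚ_[ℓ] (Fin n → ℚ_[ℓ]))
    (hSd : ∀ x ∈ S, ∀ τ ∈ U₁, InInertia P τ → mt V τ *ᵥ x = x)
    (hS : S ≤ S.comap (Matrix.toLin' (mt V g))) {z : ℂ}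
    (hz : z ∈ (((Matrix.toLin' (mt V g)).restrict hS).charpoly.map e).roots) :
    ‖z‖ ^ 2 ≤ r ^ k := by
  have hq1 : 1 ≤ q ^ k := Nat.one_le_pow _ _ (by omega)
  obtain ⟨p, hp, hpz, x, hxS, hx0, hpx⟩ := exists_vec e (mt V g) S hS hz 1
  rw [pow_one] at hpz hpx
  obtain ⟨x', hx', hx'e, hx'D⟩ := exists_eigenvector e _ hx0 hp hpx hpz
  refine hWLE k hk g hg U₁ hU₁n hU₁o _ x' hx' ?_ hx'e
  intro τ hτU hτ
  exact hx'D _ fun i => mt_conj_fix V hq1 hU₁n hg (hSd x hxS) hτU hτ i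

include hP hq hU₁n hU₁o hr in
theorem bound_coker' (hWGE : WGE V P q r e) {k : ℕ} (hk : 1 ≤ k) {g : GK K}
    (hg : FrobAt (q ^ k) P g⁻¹) (R : Submodule ℚ_[ℓ] (Fin n → ℚ_[ℓ]))
    (hRd : ∀ y : Fin n → ℚ_[ℓ], (∀ x ∈ R, y ⬝ᵥ x = 0) → ∀ τ ∈ U₁, InInertia P τ →
      y ᵥ* mt V τ = y)
    (hR : R ≤ R.comap ((((q ^ k : ℕ) : ℚ_[ℓ])) • Matrix.toLin' (mt V g))) {z : ℂ}
    (hz : z ∈ ((R.mapQ R ((((q ^ k : ℕ) : ℚ_[ℓ])) • Matrix.toLin' (mt V g)) hR).charpoly.map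
      e).roots) :
    r ^ k < ‖z‖ ^ 2 := by
  have hQ0 : ((q ^ k : ℕ) : ℚ_[ℓ]) ≠ 0 := by
    have : q ^ k ≠ 0 := pow_ne_zero _ (by omega)
    exact_mod_cast this
  have hR' : R ≤ R.comap (Matrix.toLin' (mt V g)) := by
    intro x hx
    have h1 := hR hx
    rw [Submodule.mem_comap, LinearMap.smul_apply] at h1
    have h2 := R.smul_mem (((q ^ k : ℕ) : ℚ_[ℓ])⁻¹) h1
    rwa [smul_smul, inv_mul_cancel₀ hQ0, one_smul] at h2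
  have hmq : R.mapQ R ((((q ^ k : ℕ) : ℚ_[ℓ])) • Matrix.toLin' (mt V g)) hR =
      (((q ^ k : ℕ) : ℚ_[ℓ])) • R.mapQ R (Matrix.toLin' (mt V g)) hR' := by
    ext x
    rfl
  rw [hmq] at hz
  have hz' := roots_smul e _ hQ0 hz
  rw [map_natCast] at hz'
  obtain ⟨p, hp, hpz, y, hy0, hyR, hpy⟩ := exists_row e (mt V g) R hR' hz' 1
  rw [pow_one] at hpz hpy
  have hpy'' : (aeval (mt V g)ᵀ p) *ᵥ y = 0 := by
    have h1 := aeval_transpose (mt V g) p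
    rw [h1, Matrix.mulVec_transpose]
    exact hpy
  obtain ⟨x', hx', hx'e, hx'D⟩ := exists_eigenvector e _ hy0 hp hpy'' hpz
  have key2 : r ^ k ≤ ‖z / ((q ^ k : ℕ) : ℂ)‖ ^ 2 := by
    refine hWGE k hk _ hg U₁ hU₁n hU₁o _ x' hx' ?_ ?_
    · intro τ hτU hτ
      have h1 := hx'D (mt V τ)ᵀ fun i => ?_
      · rw [Matrix.transpose_map, Matrix.mulVec_transpose] at h1
        exact h1
      · rw [← Matrix.transpose_pow, Matrix.mulVec_transpose, Matrix.mulVec_transpose]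
        exact mt_conj_fix_row V hP hU₁n hg (hRd y hyR) hτU hτ i
    · rw [Matrix.transpose_map, Matrix.mulVec_transpose] at hx'e
      exact hx'e
  rw [norm_div, Complex.norm_natCast, div_pow] at key2
  have hq2 : (1 : ℝ) < ((q ^ k : ℕ) : ℝ) ^ 2 := by
    have h1 : 2 ≤ q ^ k := hq.trans (Nat.le_self_pow (by omega) q)
    have h2 : (2 : ℝ) ≤ ((q ^ k : ℕ) : ℝ) := by exact_mod_cast h1
    nlinarith
  rw [le_div_iff₀ (by positivity)] at key2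
  have h3 : 0 < r ^ k := by positivity
  nlinarith

open Classical in
include hV hP hq hℓP hU₁n hU₁o hVu hr in
theorem trace_S' (hWLE : WLE V P q r e) (hWGE : WGE V P q r e) {P0 : Matrix (Fin n) (Fin n) ℚ_[ℓ]}
    (h0 : ∀ x, P0 *ᵥ x ∈ SI V P U₁) (h1 : ∀ x ∈ SI V P U₁, P0 *ᵥ x = x) {k : ℕ} (hk : 1 ≤ k)
    {g : GK K} (hg : FrobAt (q ^ k) P g⁻¹) :
    e (mt V g * P0).trace =
      (((mt V g).charpoly.map e).roots.filter (fun z => ‖z‖ ^ 2 ≤ r ^ k)).sum -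
      ((((((q ^ k : ℕ) : ℚ_[ℓ])) • mt V g).charpoly.map e).roots.filter
        (fun z => ‖z‖ ^ 2 ≤ r ^ k)).sum := by
  obtain ⟨N, hN1, hN2, hN3⟩ := exists_mono V hV hP hℓP U₁ hVu
  have hq1 : 1 ≤ q ^ k := Nat.one_le_pow _ _ (by omega)
  have hrel := hN3 g (q ^ k) hq1 hg
  have hrel' : (Matrix.toLin' N) ∘ₗ (Matrix.toLin' (mt V g)) =
      (((q ^ k : ℕ) : ℚ_[ℓ])) • ((Matrix.toLin' (mt V g)) ∘ₗ (Matrix.toLin' N)) := by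
    rw [← Matrix.toLin'_mul, hrel, map_smul, Matrix.toLin'_mul]
  have hker : LinearMap.ker (Matrix.toLin' N) = SI V P U₁ := by
    ext x
    rw [LinearMap.mem_ker, Matrix.toLin'_apply, hN1, mem_SI]
  have hS : LinearMap.ker (Matrix.toLin' N) ≤ (LinearMap.ker (Matrix.toLin' N)).comap
      (Matrix.toLin' (mt V g)) := by
    intro x hx
    rw [Submodule.mem_comap, LinearMap.mem_ker, ← LinearMap.comp_apply, hrel',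
      LinearMap.smul_apply, LinearMap.comp_apply, LinearMap.mem_ker.1 hx, map_zero, smul_zero]
  have hR : LinearMap.range (Matrix.toLin' N) ≤ (LinearMap.range (Matrix.toLin' N)).comap
      ((((q ^ k : ℕ) : ℚ_[ℓ])) • (Matrix.toLin' (mt V g))) := by
    rintro _ ⟨x, rfl⟩
    refine ⟨Matrix.toLin' (mt V g) x, ?_⟩
    rw [← LinearMap.comp_apply, hrel']
    rfl
  have h2 := trace_ker e (Matrix.toLin' (mt V g)) (Matrix.toLin' N) hrel' hS hR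
    (fun z => ‖z‖ ^ 2 ≤ r ^ k) (fun z hz => bound_ker' V hq U₁ hU₁n
      hU₁o e hWLE hk hg _ (fun x hx => by rw [hker] at hx; exact hx) hS hz)
    (fun z hz => not_le.2 (bound_coker' V hP hq U₁ hU₁n
      hU₁o hr e hWGE hk hg _ (fun y hy => (hN2 y).1 ?_) hR hz))
  · rw [trace_proj hS (fun x => by rw [hker]; exact h0 x) (fun x hx => h1 x (by rwa [hker] at hx)),
      h2, ← map_smul]
    simp only [Matrix.charpoly_toLin']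
  · funext i
    have h3 := hy (N *ᵥ Pi.single i 1) ⟨Pi.single i 1, Matrix.toLin'_apply _ _⟩
    rw [Matrix.dotProduct_mulVec, dotProduct_single_one] at h3
    exact h3

end one

variable {K : Type} [Field K] [NumberField K]

/-- **The local factor.** -/
theorem loc' {n : ℕ} (V : ∀ (ℓ : ℕ) [Fact ℓ.Prime], GK K →* GL (Fin n) ℚ_[ℓ])
    (hV : ∀ (ℓ : ℕ) [Fact ℓ.Prime], Continuous (V ℓ))
    {P : Ideal (OO K)} (hP : P.IsMaximal) {q : ℕ} (hq : 2 ≤ q) {σ : GK K} (hσ : FrobAt q P σ)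
    (U₁ : Subgroup (GK K)) (hU₁n : U₁.Normal) (hU₁o : IsOpen (U₁ : Set (GK K)))
    (hVu : ∀ (ℓ : ℕ) [Fact ℓ.Prime], (ℓ : OO K) ∉ P → ∀ τ ∈ U₁, InInertia P τ →
      IsNilpotent (mt (V ℓ) τ - 1))
    {r : ℝ} (hr : 0 < r)
    (t : GK K → ℚ) (ht : ∀ (ℓ : ℕ) [Fact ℓ.Prime], (ℓ : OO K) ∉ P → ∀ k : ℕ, 1 ≤ k →
      ∀ g : GK K, FrobAt (q ^ k) P g⁻¹ → (mt (V ℓ) g).trace = (t g : ℚ_[ℓ]))
    (hWLE : ∀ (ℓ : ℕ) [Fact ℓ.Prime], (ℓ : OO K) ∉ P → ∀ e : ℚ_[ℓ] →+* ℂ, WLE (V ℓ) P q r e)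
    (hWGE : ∀ (ℓ : ℕ) [Fact ℓ.Prime], (ℓ : OO K) ∉ P → ∀ e : ℚ_[ℓ] →+* ℂ, WGE (V ℓ) P q r e)
    (hint : ∀ (ℓ : ℕ) [Fact ℓ.Prime], (ℓ : OO K) ∉ P →
      ∃ f : ℤ[X], f.Monic ∧ aeval (mt (V ℓ) σ⁻¹) f = 0)
    (I : ∀ (ℓ : ℕ) [Fact ℓ.Prime], Submodule ℚ_[ℓ] (Fin n → ℚ_[ℓ]))
    (hI : ∀ (ℓ : ℕ) [Fact ℓ.Prime] (x : Fin n → ℚ_[ℓ]),
      x ∈ I ℓ ↔ ∀ τ, InInertia P τ → mt (V ℓ) τ *ᵥ x = x) :
    ∃ f : ℤ[X], ∀ (ℓ : ℕ) [Fact ℓ.Prime], (ℓ : OO K) ∉ P →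
      ∀ (r : ℕ) (b : Basis (Fin r) ℚ_[ℓ] (I ℓ)) (A : Matrix (Fin r) (Fin r) ℚ_[ℓ]),
        (∀ j, mt (V ℓ) σ⁻¹ *ᵥ (b j : Fin n → ℚ_[ℓ]) = ∑ i, A i j • (b i : Fin n → ℚ_[ℓ])) →
        A.charpolyRev = f.map (Int.castRingHom ℚ_[ℓ]) := by
  classical
  have hproj : ∀ (ℓ : ℕ) [Fact ℓ.Prime], ∃ P0 : Matrix (Fin n) (Fin n) ℚ_[ℓ],
      (∀ x, P0 *ᵥ x ∈ SI (V ℓ) P U₁) ∧ ∀ x ∈ SI (V ℓ) P U₁, P0 *ᵥ x = x := fun ℓ _ =>
    exists_proj _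
  choose P0 hP0 hP0' using hproj
  have hemb : ∀ (ℓ : ℕ) [Fact ℓ.Prime], Nonempty (ℚ_[ℓ] →+* ℂ) := by
    intro ℓ _
    obtain ⟨e⟩ := Pool.Agent.R401.Iso.exists_iso ℓ
    exact ⟨(e : PadicAlgCl ℓ →+* ℂ).comp (algebraMap ℚ_[ℓ] (PadicAlgCl ℓ))⟩
  -- the traces on the invariants of the small inertia group
  have step : ∀ (ℓ : ℕ) [Fact ℓ.Prime] (ℓ' : ℕ) [Fact ℓ'.Prime], (ℓ : OO K) ∉ P →
      (ℓ' : OO K) ∉ P → ∀ (e : ℚ_[ℓ] →+* ℂ) (e' : ℚ_[ℓ'] →+* ℂ) (k : ℕ), 1 ≤ k → ∀ g : GK K,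
      FrobAt (q ^ k) P g⁻¹ → e (mt (V ℓ) g * P0 ℓ).trace = e' (mt (V ℓ') g * P0 ℓ').trace := by
    intro ℓ _ ℓ' _ hℓP hℓ'P e e' k hk g hg
    have htr : ∀ j : ℕ, 1 ≤ j → e (mt (V ℓ) g ^ j).trace = e' (mt (V ℓ') g ^ j).trace := by
      intro j hj
      have hgj : FrobAt (q ^ (k * j)) P (g ^ j)⁻¹ := by
        rw [pow_mul, ← inv_pow]
        exact frob_pow hg j
      have hkj : 1 ≤ k * j := Nat.mul_pos hk hj
      rw [← mt_pow, ← mt_pow, ht ℓ hℓP _ hkj _ hgj, ht ℓ' hℓ'P _ hkj _ hgj, map_ratCast,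
        map_ratCast]
    rw [trace_S' (V ℓ) (hV ℓ) hP hq hℓP U₁ hU₁n hU₁o
      (hVu ℓ hℓP) hr e (hWLE ℓ hℓP e) (hWGE ℓ hℓP e) (hP0 ℓ) (hP0' ℓ) hk hg,
      trace_S' (V ℓ') (hV ℓ') hP hq hℓ'P U₁ hU₁n hU₁o
      (hVu ℓ' hℓ'P) hr e' (hWLE ℓ' hℓ'P e') (hWGE ℓ' hℓ'P e') (hP0 ℓ') (hP0' ℓ')
      hk hg, charpoly_map_eq e e' _ _ htr, charpoly_smul_map_eq e e' _ _ htr]
  -- the coefficients
  have hcoeff : ∀ (ℓ : ℕ) [Fact ℓ.Prime] (ℓ' : ℕ) [Fact ℓ'.Prime], (ℓ : OO K) ∉ P →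
      (ℓ' : OO K) ∉ P → ∀ (e : ℚ_[ℓ] →+* ℂ) (e' : ℚ_[ℓ'] →+* ℂ)
      (s : ℕ) (b : Basis (Fin s) ℚ_[ℓ] (I ℓ)) (A : Matrix (Fin s) (Fin s) ℚ_[ℓ]),
        (∀ j, mt (V ℓ) σ⁻¹ *ᵥ (b j : Fin n → ℚ_[ℓ]) = ∑ i, A i j • (b i : Fin n → ℚ_[ℓ])) →
      ∀ (s' : ℕ) (b' : Basis (Fin s') ℚ_[ℓ'] (I ℓ')) (A' : Matrix (Fin s') (Fin s') ℚ_[ℓ']),
        (∀ j, mt (V ℓ') σ⁻¹ *ᵥ (b' j : Fin n → ℚ_[ℓ']) =
          ∑ i, A' i j • (b' i : Fin n → ℚ_[ℓ'])) →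
        ∀ i, e (A.charpolyRev.coeff i) = e' (A'.charpolyRev.coeff i) := by
    intro ℓ _ ℓ' _ hℓP hℓ'P e e' s b A hA s' b' A' hA'
    apply rev_coeff_eq
    intro k hk
    rw [trace_pow (avg_mem (V ℓ) U₁ hU₁o (hP0 ℓ) (hI ℓ)) (avg_fix (V ℓ) U₁ hU₁o (hP0' ℓ) (hI ℓ))
        b hA,
      trace_pow (avg_mem (V ℓ') U₁ hU₁o (hP0 ℓ') (hI ℓ')) (avg_fix (V ℓ') U₁ hU₁o (hP0' ℓ') (hI ℓ'))
        b' hA', trace_avg (V ℓ) U₁ hU₁o e, trace_avg (V ℓ') U₁ hU₁o e']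
    congr 1
    refine finsum_congr fun x => ?_
    refine step ℓ ℓ' hℓP hℓ'P e e' k hk _ ?_
    rw [_root_.mul_inv_rev, ← inv_pow, inv_inv]
    exact frob_mul_inertia (frob_pow hσ k) ((IG P).inv_mem x.out.2)
  -- integrality
  have hZ : ∀ (ℓ : ℕ) [Fact ℓ.Prime], (ℓ : OO K) ∉ P → 
      ∀ (s : ℕ) (b : Basis (Fin s) ℚ_[ℓ] (I ℓ)) (A : Matrix (Fin s) (Fin s) ℚ_[ℓ]),
        (∀ j, mt (V ℓ) σ⁻¹ *ᵥ (b j : Fin n → ℚ_[ℓ]) = ∑ i, A i j • (b i : Fin n → ℚ_[ℓ])) →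
        ∀ i, ∃ z : ℤ, A.charpolyRev.coeff i = z := by
    intro ℓ _ hℓP s b A hA i
    apply rat_of_const
    · obtain ⟨f, hf, hf0⟩ := hint ℓ hℓP
      have h2 := coeff_charpoly_integral A f hf (aeval_eq_zero b hA f hf0)
      rw [← Matrix.reverse_charpoly, coeff_reverse]
      exact h2 _
    · intro e e'
      exact hcoeff ℓ ℓ hℓP hℓP e e' s b A hA s b A hA i
  obtain ⟨ℓ₀, hℓ₀, hℓ₀P⟩ := Pool.Agent.R401.Tr6.exists_prime_not_mem hP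
  have : Fact ℓ₀.Prime := ⟨hℓ₀⟩
  obtain ⟨m₀, b₀, A₀, hA₀⟩ := Pool.Agent.R401.Tr6.exists_basis (V ℓ₀) hq hσ (hI ℓ₀)
  choose c hc using hZ ℓ₀ hℓ₀P m₀ b₀ A₀ hA₀
  obtain ⟨e₀⟩ := hemb ℓ₀
  have hzero : ∀ k, m₀ < k → c k = 0 := by
    intro k hk
    have h1 := hc k
    rw [coeff_eq_zero_of_natDegree_lt (lt_of_le_of_lt (natDegree_charpolyRev A₀) hk)] at h1
    exact_mod_cast h1.symm
  refine ⟨∑ k ∈ Finset.range (m₀ + 1), C (c k) * X ^ k, ?_⟩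
  intro ℓ _ hℓP s b A hA
  refine Polynomial.ext fun k => ?_
  obtain ⟨e⟩ := hemb ℓ
  obtain ⟨z, hz⟩ := hZ ℓ hℓP s b A hA k
  have h1 := hcoeff ℓ ℓ₀ hℓP hℓ₀P e e₀ s b A hA m₀ b₀ A₀ hA₀ k
  rw [hz, hc, map_intCast, map_intCast] at h1
  have h2 : z = c k := by exact_mod_cast h1
  rw [hz, h2, coeff_map, finsetSum_coeff]
  simp only [coeff_C_mul, coeff_X_pow, mul_ite, mul_one, mul_zero]
  rw [Finset.sum_ite_eq]
  split_ifs with hk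
  · rfl
  · rw [Finset.mem_range] at hk
    rw [hzero k (by omega), Int.cast_zero, map_zero]

/-! ## Matrices with arbitrary indices -/

section reidx

variable {n : Type} [Fintype n] [DecidableEq n]

/-- the representation with the indices `Fin d` -/
noncomputable def rV {ℓ : ℕ} [Fact ℓ.Prime] {Γ : Type} [Group Γ] (V : Γ →* Matrix n n ℚ_[ℓ]) :
    Γ →* GL (Fin (Fintype.card n)) ℚ_[ℓ] :=
  MonoidHom.toHomUnits (((Matrix.reindexAlgEquiv ℚ_[ℓ] ℚ_[ℓ] (Fintype.equivFin n) :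
    Matrix n n ℚ_[ℓ] →* Matrix (Fin (Fintype.card n)) (Fin (Fintype.card n)) ℚ_[ℓ])).comp V)

theorem mt_rV {ℓ : ℕ} [Fact ℓ.Prime] {Γ : Type} [Group Γ] (V : Γ →* Matrix n n ℚ_[ℓ]) (g : Γ) :
    mt (rV V) g = (V g).submatrix (Fintype.equivFin n).symm (Fintype.equivFin n).symm := rfl

theorem mt_rV_mulVec {ℓ : ℕ} [Fact ℓ.Prime] {Γ : Type} [Group Γ] (V : Γ →* Matrix n n ℚ_[ℓ]) (g : Γ)
    (x : n → ℚ_[ℓ]) : mt (rV V) g *ᵥ (x ∘ (Fintype.equivFin n).symm) =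
      (V g *ᵥ x) ∘ (Fintype.equivFin n).symm := by
  rw [mt_rV, Matrix.submatrix_mulVec_equiv]
  congr 2
  funext i
  simp

theorem map_rV {ℓ : ℕ} [Fact ℓ.Prime] {Γ : Type} [Group Γ] (V : Γ →* Matrix n n ℚ_[ℓ]) (g : Γ)
    (e : ℚ_[ℓ] →+* ℂ) : (mt (rV V) g).map e =
      ((V g).map e).submatrix (Fintype.equivFin n).symm (Fintype.equivFin n).symm := rfl

end reidx

end Loc

open NumberField IsDedekindDomain Polynomial Matrix Pool.Agent.NH56.HY Pool.Agent.R401.Img Loc in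
theorem t_LOC : S_LOC := by
  intro K _ _ n _ _ V hV v Q U w hQ hUn hUo hunip htr hint hwt g hg
  obtain ⟨t, ht⟩ := htr
  have hq : 2 ≤ Ideal.absNorm v.asIdeal := by
    have h0 : Ideal.absNorm v.asIdeal ≠ 0 := fun h0 => v.ne_bot (Ideal.absNorm_eq_zero_iff.1 h0)
    have h1 : Ideal.absNorm v.asIdeal ≠ 1 := fun h1 =>
      v.isPrime.ne_top (Ideal.absNorm_eq_one_iff.1 h1)
    omega
  have hQℓ : ∀ ℓ : ℕ, (ℓ : 𝓞 (AlgebraicClosure K)) ∈ Q ↔ (ℓ : 𝓞 K) ∈ v.asIdeal := by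
    intro ℓ
    rw [← hQ.2, Ideal.mem_comap, map_natCast]
  have hr : (0 : ℝ) < (Ideal.absNorm v.asIdeal : ℝ) ^ w := by
    have h1 : 0 < Ideal.absNorm v.asIdeal := by omega
    have h2 : (0 : ℝ) < (Ideal.absNorm v.asIdeal : ℝ) := by exact_mod_cast h1
    positivity
  let ε := Fintype.equivFin n
  let V' : ∀ (ℓ : ℕ) [Fact ℓ.Prime], GK K →* GL (Fin (Fintype.card n)) ℚ_[ℓ] :=
    fun ℓ _ => rV (V ℓ)
  have hV' : ∀ (ℓ : ℕ) [Fact ℓ.Prime], Continuous (V' ℓ) := by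
    intro ℓ _
    rw [Units.continuous_iff]
    refine ⟨(hV ℓ).matrix_submatrix _ _, ?_⟩
    have h1 : (fun g : GK K => (((V' ℓ g)⁻¹ : GL (Fin (Fintype.card n)) ℚ_[ℓ]) :
        Matrix (Fin (Fintype.card n)) (Fin (Fintype.card n)) ℚ_[ℓ])) =
        fun g => (V ℓ g⁻¹).submatrix ε.symm ε.symm := by
      funext g
      rw [← map_inv]
      rfl
    rw [h1]
    exact ((hV ℓ).comp continuous_inv).matrix_submatrix _ _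
  have hmt : ∀ (ℓ : ℕ) [Fact ℓ.Prime] (g : GK K), mt (V' ℓ) g =
      Matrix.reindexAlgEquiv ℚ_[ℓ] ℚ_[ℓ] ε (V ℓ g) := fun ℓ _ g => rfl
  have hu' : ∀ (ℓ : ℕ) [Fact ℓ.Prime], (ℓ : 𝓞 (AlgebraicClosure K)) ∉ Q → ∀ τ ∈ U,
      Pool.Agent.W569.FM.InInertia Q τ → IsNilpotent (mt (V' ℓ) τ - 1) := by
    intro ℓ _ hℓ τ hτU hτ
    have h1 := hunip ℓ (fun h' => hℓ ((hQℓ ℓ).2 h')) τ hτU hτ
    have h2 := h1.map (Matrix.reindexAlgEquiv ℚ_[ℓ] ℚ_[ℓ] ε)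
    rwa [map_sub, map_one] at h2
  have ht' : ∀ (ℓ : ℕ) [Fact ℓ.Prime], (ℓ : 𝓞 (AlgebraicClosure K)) ∉ Q → ∀ k : ℕ, 1 ≤ k →
      ∀ g : GK K, Pool.Agent.W569.FM.FrobAt (Ideal.absNorm v.asIdeal ^ k) Q g⁻¹ →
        (mt (V' ℓ) g).trace = (t g : ℚ_[ℓ]) := by
    intro ℓ _ hℓ k hk g hg
    rw [← ht ℓ (fun h' => hℓ ((hQℓ ℓ).2 h')) k hk g hg]
    exact Fintype.sum_equiv ε.symm _ _ fun i => rfl
  have hle : ∀ (ℓ : ℕ) [Fact ℓ.Prime], (ℓ : 𝓞 (AlgebraicClosure K)) ∉ Q → ∀ e : ℚ_[ℓ] →+* ℂ,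
      Pool.Agent.NH57.WM.WLE (V' ℓ) Q (Ideal.absNorm v.asIdeal)
        ((Ideal.absNorm v.asIdeal : ℝ) ^ w) e := by
    intro ℓ _ hℓ e
    refine Pool.Agent.NH57.WM.wle_of (V' ℓ) (by omega) hg hr U hUn hUo (hu' ℓ hℓ) e ?_
    intro z x hx0 hx hz
    rw [inv_inv] at hz
    have hx0' : x ∘ ε ≠ 0 := by
      intro h
      apply hx0
      funext i
      have := congrFun h (ε.symm i)
      simpa using this
    have hcomp : ∀ (g : GK K) (y : Fin (Fintype.card n) → ℂ),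
        ((mt (V' ℓ) g).map e) *ᵥ x = y → (V ℓ g).map e *ᵥ (x ∘ ε) = y ∘ ε := by
      intro g y h
      rw [map_rV, Matrix.submatrix_mulVec_equiv] at h
      rw [← h]
      funext i
      simp [ε]
    refine ((hwt ℓ (fun h' => hℓ ((hQℓ ℓ).2 h')) e g hg z (x ∘ ε) hx0').1 ?_ ?_)
    · intro h hU hI
      exact hcomp h x (hx h hU hI)
    · exact hcomp g _ hz
  have hge : ∀ (ℓ : ℕ) [Fact ℓ.Prime], (ℓ : 𝓞 (AlgebraicClosure K)) ∉ Q → ∀ e : ℚ_[ℓ] →+* ℂ,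
      Pool.Agent.NH57.WM.WGE (V' ℓ) Q (Ideal.absNorm v.asIdeal)
        ((Ideal.absNorm v.asIdeal : ℝ) ^ w) e := by
    intro ℓ _ hℓ e
    refine Pool.Agent.NH57.WM.wge_of (V' ℓ) (by omega) hg hr U hUn hUo (hu' ℓ hℓ) e ?_
    intro z x hx0 hx hz
    rw [inv_inv] at hz
    have hx0' : x ∘ ε ≠ 0 := by
      intro h
      apply hx0
      funext i
      have := congrFun h (ε.symm i)
      simpa using this
    have hcomp : ∀ (g : GK K) (y : Fin (Fintype.card n) → ℂ),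
        x ᵥ* ((mt (V' ℓ) g).map e) = y → (x ∘ ε) ᵥ* (V ℓ g).map e = y ∘ ε := by
      intro g y h
      rw [map_rV, Matrix.submatrix_vecMul_equiv] at h
      rw [← h]
      funext i
      simp [ε]
    refine ((hwt ℓ (fun h' => hℓ ((hQℓ ℓ).2 h')) e g hg z (x ∘ ε) hx0').2 ?_ ?_)
    · intro h hU hI
      exact hcomp h x (hx h hU hI)
    · exact hcomp g _ hz
  have hint' : ∀ (ℓ : ℕ) [Fact ℓ.Prime], (ℓ : 𝓞 (AlgebraicClosure K)) ∉ Q →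
      ∃ f : ℤ[X], f.Monic ∧ aeval (mt (V' ℓ) g⁻¹⁻¹) f = 0 := by
    intro ℓ _ hℓ
    obtain ⟨f, hf, hf0⟩ := hint ℓ (fun h' => hℓ ((hQℓ ℓ).2 h')) g hg
    refine ⟨f, hf, ?_⟩
    rw [inv_inv, hmt]
    have h1 := Polynomial.aeval_algHom_apply
      (((Matrix.reindexAlgEquiv ℚ_[ℓ] ℚ_[ℓ] ε).toRingEquiv.toRingHom).toIntAlgHom) (V ℓ g) f
    rw [hf0, map_zero] at h1
    exact h1
  -- the invariants
  let L : ∀ (ℓ : ℕ) [Fact ℓ.Prime], (n → ℚ_[ℓ]) ≃ₗ[ℚ_[ℓ]] (Fin (Fintype.card n) → ℚ_[ℓ]) :=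
    fun ℓ _ => LinearEquiv.funCongrLeft ℚ_[ℓ] ℚ_[ℓ] ε.symm
  have hL : ∀ (ℓ : ℕ) [Fact ℓ.Prime] (x : n → ℚ_[ℓ]), L ℓ x = x ∘ ε.symm := fun ℓ _ x => rfl
  have hLm : ∀ (ℓ : ℕ) [Fact ℓ.Prime] (h : GK K) (x : n → ℚ_[ℓ]),
      mt (V' ℓ) h *ᵥ (L ℓ x) = L ℓ (V ℓ h *ᵥ x) := fun ℓ _ h x => mt_rV_mulVec (V ℓ) h x
  let I : ∀ (ℓ : ℕ) [Fact ℓ.Prime], Submodule ℚ_[ℓ] (Fin (Fintype.card n) → ℚ_[ℓ]) := fun ℓ _ =>
    (invariants (fun g => V ℓ g) Q).map (L ℓ : (n → ℚ_[ℓ]) →ₗ[ℚ_[ℓ]] _)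
  have hI : ∀ (ℓ : ℕ) [Fact ℓ.Prime] (x : Fin (Fintype.card n) → ℚ_[ℓ]),
      x ∈ I ℓ ↔ ∀ τ, Pool.Agent.W569.FM.InInertia Q τ → mt (V' ℓ) τ *ᵥ x = x := by
    intro ℓ _ x
    constructor
    · rintro ⟨y, hy, rfl⟩ τ hτ
      change mt (V' ℓ) τ *ᵥ (L ℓ y) = L ℓ y
      rw [hLm]
      congr 1
      exact hy τ hτ
    · intro h
      refine ⟨(L ℓ).symm x, ?_, (L ℓ).apply_symm_apply x⟩
      intro τ hτ
      apply (L ℓ).injective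
      change L ℓ (V ℓ τ *ᵥ (L ℓ).symm x) = L ℓ ((L ℓ).symm x)
      rw [← hLm, (L ℓ).apply_symm_apply]
      exact h τ hτ
  obtain ⟨f, hf⟩ := loc' V' hV' hQ.1 hq hg U hUn hUo hu' hr t ht' hle hge hint' I hI
  rw [inv_inv] at hf
  refine ⟨f, ?_⟩
  intro ℓ _ hℓ f'
  have hℓQ : (ℓ : 𝓞 (AlgebraicClosure K)) ∉ Q := fun h' => hℓ ((hQℓ ℓ).1 h')
  constructor
  · rintro ⟨m, b, A, hA, rfl⟩
    refine hf ℓ hℓQ m (b.map ((L ℓ).submoduleMap (invariants (fun g => V ℓ g) Q))) A ?_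
    intro j
    change mt (V' ℓ) g *ᵥ (L ℓ (b j : n → ℚ_[ℓ])) = ∑ i, A i j • (L ℓ (b i : n → ℚ_[ℓ]))
    rw [hLm, hA j, map_sum]
    simp only [map_smul]
  · rintro rfl
    have hQm := hQ.1
    obtain ⟨m, b, A, hA⟩ := Pool.Agent.R401.Tr6.exists_basis (V' ℓ) hq hg (hI ℓ)
    rw [inv_inv] at hA
    refine ⟨m, b.map ((L ℓ).submoduleMap (invariants (fun g => V ℓ g) Q)).symm, A, ?_,
      (hf ℓ hℓQ m b A hA).symm⟩
    intro j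
    have hb : ∀ i, L ℓ ((b.map ((L ℓ).submoduleMap (invariants (fun g => V ℓ g) Q)).symm i :
        invariants (fun g => V ℓ g) Q) : n → ℚ_[ℓ]) = (b i : Fin (Fintype.card n) → ℚ_[ℓ]) := by
      intro i
      have h1 := congrArg Subtype.val
        (((L ℓ).submoduleMap (invariants (fun g => V ℓ g) Q)).apply_symm_apply (b i))
      exact h1
    apply (L ℓ).injective
    rw [← hLm, hb, hA j, map_sum]
    simp only [map_smul, hb]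

end Pool.Agent.NH56.HL
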