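import Pool.Agent.NH56.HL.Stm
import Pool.Agent.NH56.HY.Adj

/-!
# MUL: the semisimple part of a matrix
-/

set_option autoImplicit false

namespace Pool.Agent.NH56.HL

open Matrix Polynomial Pool.Agent.NH56.HY
open Pool.Agent.NH56.HY.Adj (ind_end ind_mat root_of_gen cj_apply claim claim3)

namespace Mul

variable {n m : Type} [Fintype n] [DecidableEq n] [Fintype m] [DecidableEq m]

theorem com_pow {T B : Matrix n n ℂ} (h : B * T = T * B) (a : ℂ) (k : ℕ) :
    B * (T - a • (1 : Matrix n n ℂ)) ^ k = (T - a • (1 : Matrix n n ℂ)) ^ k * B := by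
  have h1 : Commute B (T - a • (1 : Matrix n n ℂ)) :=
    Commute.sub_right h ((Commute.one_right B).smul_right a)
  exact (h1.pow_right k).eq

/-- everything that commutes with `T` commutes with `S` -/
theorem com {T S : Matrix n n ℂ} (hS : IsFn (fun a => a) T S) {B : Matrix n n ℂ}
    (h : B * T = T * B) : B * S = S * B := by
  rw [Matrix.ext_iff_mulVec]
  intro x
  refine ind_mat T (fun x => (B * S) *ᵥ x = (S * B) *ᵥ x) ?_ (fun x y hx hy => ?_)
    (fun a k z hz => ?_) x
  · simp
  · rw [Matrix.mulVec_add, hx, hy, Matrix.mulVec_add]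
  · have h1 : ((T - a • (1 : Matrix n n ℂ)) ^ k) *ᵥ (B *ᵥ z) = 0 := by
      rw [Matrix.mulVec_mulVec, ← com_pow h, ← Matrix.mulVec_mulVec, hz, Matrix.mulVec_zero]
    rw [← Matrix.mulVec_mulVec, ← Matrix.mulVec_mulVec, hS a k z hz, hS a k _ h1,
      Matrix.mulVec_smul]

/-- generalized eigenvectors of the conjugation -/
theorem key {T T' S : Matrix n n ℂ} (hT : T * T' = 1) (hS : IsFn (fun a => a) T S) (t : ℂ) (k : ℕ)
    (B : Matrix n n ℂ) (hB : ((cj T T' - t • (1 : Module.End ℂ (Matrix n n ℂ))) ^ k) B = 0) :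
    S * B = t • (B * S) := by
  have hT' : T' * T = 1 := mul_eq_one_comm.1 hT
  rw [Matrix.ext_iff_mulVec]
  intro x
  refine ind_mat T (fun x => (S * B) *ᵥ x = (t • (B * S)) *ᵥ x) ?_ (fun x y hx hy => ?_)
    (fun a l z hz => ?_) x
  · simp
  · rw [Matrix.mulVec_add, hx, hy, Matrix.mulVec_add]
  · have h1 := claim hT' t a (k + l) k l rfl B z hB hz
    have e1 := hS _ _ _ h1
    have e2 := hS a l z hz
    rw [← Matrix.mulVec_mulVec, e1, Matrix.smul_mulVec, ← Matrix.mulVec_mulVec, e2,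
      Matrix.mulVec_smul, smul_smul]

/-- `T - S` is locally nilpotent -/
theorem nil {T S : Matrix n n ℂ} (hS : IsFn (fun a => a) T S) (x : n → ℂ) :
    ∃ k, ((T - S) ^ k) *ᵥ x = 0 := by
  refine ind_mat T (fun x => ∃ k, ((T - S) ^ k) *ᵥ x = 0) ⟨0, by simp⟩ ?_ ?_ x
  · rintro x y ⟨k, hk⟩ ⟨l, hl⟩
    refine ⟨k + l, ?_⟩
    rw [Matrix.mulVec_add]
    have e1 : ((T - S) ^ (k + l)) *ᵥ x = 0 := by
      rw [add_comm, pow_add, ← Matrix.mulVec_mulVec, hk, Matrix.mulVec_zero]
    have e2 : ((T - S) ^ (k + l)) *ᵥ y = 0 := by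
      rw [pow_add, ← Matrix.mulVec_mulVec, hl, Matrix.mulVec_zero]
    rw [e1, e2, add_zero]
  · intro a k z hz
    refine ⟨k, ?_⟩
    induction k generalizing z with
    | zero => simpa using hz
    | succ k ih =>
      have h1 : (T - S) *ᵥ z = (T - a • (1 : Matrix n n ℂ)) *ᵥ z := by
        rw [Matrix.sub_mulVec, Matrix.sub_mulVec, hS a _ z hz, Matrix.smul_mulVec,
          Matrix.one_mulVec]
      rw [pow_succ, ← Matrix.mulVec_mulVec, h1]
      apply ih
      rw [Matrix.mulVec_mulVec, ← pow_succ]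
      exact hz

/-- eigenvectors of `S` are generalized eigenvectors of `T` -/
theorem gen {T S : Matrix n n ℂ} (hS : IsFn (fun a => a) T S) (a : ℂ) (x : n → ℂ)
    (hx : S *ᵥ x = a • x) : ∃ k, ((T - a • (1 : Matrix n n ℂ)) ^ k) *ᵥ x = 0 := by
  obtain ⟨k, hk⟩ := nil hS x
  refine ⟨k, ?_⟩
  rw [← hk]
  clear hk
  induction k generalizing x with
  | zero => simp
  | succ k ih =>
    have h1 : (T - S) *ᵥ x = (T - a • (1 : Matrix n n ℂ)) *ᵥ x := by
      rw [Matrix.sub_mulVec, Matrix.sub_mulVec, hx, Matrix.smul_mulVec, Matrix.one_mulVec]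
    rw [pow_succ, pow_succ, ← Matrix.mulVec_mulVec, ← Matrix.mulVec_mulVec, h1]
    apply ih
    have h2 : T * S = S * T := com hS rfl
    rw [Matrix.mulVec_mulVec, Matrix.mul_sub, ← h2, Matrix.mul_smul, Matrix.mul_one,
      Matrix.sub_mulVec, Matrix.smul_mulVec, ← Matrix.mulVec_mulVec, hx, Matrix.mulVec_smul,
      Matrix.sub_mulVec, Matrix.smul_mulVec, Matrix.one_mulVec, smul_sub]

theorem sum_ind (s : Multiset ℂ) (z : ℂ) :
    (s.map fun a => if a = z then (1 : ℂ) else 0).sum = (s.count z : ℂ) := by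
  induction s using Multiset.induction_on with
  | empty => simp
  | cons a s ih =>
    rw [Multiset.map_cons, Multiset.sum_cons, ih, Multiset.count_cons]
    by_cases h : a = z
    · rw [if_pos h, if_pos h.symm]
      push_cast
      ring
    · rw [if_neg h, if_neg (fun h' => h h'.symm)]
      push_cast
      ring

end Mul

open Mul in
/-- **MUL** -/
theorem t_MUL (hFUN : S_FUN) : S_MUL := by
  intro n _ _ T T' S hT hS
  have hT' : T' * T = 1 := mul_eq_one_comm.1 hT
  have hdiag : HO.IsDiag S := ((hFUN ℂ n (fun a => a) T).2 S hS).2.2.2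
  refine ⟨?_, ?_, hdiag, (com hS rfl).symm, gen hS, fun B hB => com hS hB, ?_, ?_⟩
  · obtain ⟨N', hN'⟩ := (hFUN ℂ n (fun a => a⁻¹) T).1
    refine ⟨N', ?_⟩
    rw [Matrix.ext_iff_mulVec]
    intro x
    refine ind_mat T (fun x => (S * N') *ᵥ x = (1 : Matrix n n ℂ) *ᵥ x) ?_ (fun x y hx hy => ?_)
      (fun a k z hz => ?_) x
    · simp
    · rw [Matrix.mulVec_add, hx, hy, Matrix.mulVec_add]
    · rw [Matrix.one_mulVec, ← Matrix.mulVec_mulVec, hN' a k z hz, Matrix.mulVec_smul,
        hS a k z hz, smul_smul]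
      by_cases hz0 : z = 0
      · rw [hz0, smul_zero]
      · have ha : a ≠ 0 := by
          rintro rfl
          obtain ⟨v, hv, h1⟩ := (Adj.root_iff T 0).1 (root_of_gen T 0 k z hz hz0)
          apply hv
          rw [zero_smul] at h1
          rw [← Matrix.one_mulVec v, ← hT', ← Matrix.mulVec_mulVec, h1, Matrix.mulVec_zero]
        rw [inv_mul_cancel₀ ha, one_smul]
  · have hroots : S.charpoly.roots = T.charpoly.roots := by
      classical
      refine Multiset.ext.2 fun z => ?_
      obtain ⟨N, hN⟩ := (hFUN ℂ n (fun a => if a = z then (1 : ℂ) else 0) T).1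
      have hN2 : IsFn (fun a => if a = z then (1 : ℂ) else 0) S N := by
        intro a k x hx
        obtain ⟨l, hl⟩ := gen hS a x (hdiag a k x hx)
        exact hN a l x hl
      have h1 := ((hFUN ℂ n _ T).2 N hN).2.1
      have h2 := ((hFUN ℂ n _ S).2 N hN2).2.1
      rw [sum_ind] at h1 h2
      rw [h1] at h2
      exact_mod_cast h2.symm
    have e1 := (IsAlgClosed.splits S.charpoly).eq_prod_roots_of_monic (Matrix.charpoly_monic S)
    have e2 := (IsAlgClosed.splits T.charpoly).eq_prod_roots_of_monic (Matrix.charpoly_monic T)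
    rw [e1, e2, hroots]
  · intro q μ hq
    have h1 : ∀ x y : n → ℂ, (S *ᵥ x) ⬝ᵥ (q *ᵥ (S *ᵥ y)) = μ * (x ⬝ᵥ (q *ᵥ y)) := by
      intro x y
      refine ind_mat T (fun x => (S *ᵥ x) ⬝ᵥ (q *ᵥ (S *ᵥ y)) = μ * (x ⬝ᵥ (q *ᵥ y))) ?_ ?_ ?_ x
      · simp
      · intro x1 x2 hx1 hx2
        rw [Matrix.mulVec_add, add_dotProduct, add_dotProduct]
        linear_combination hx1 + hx2
      · intro a k z hz
        refine ind_mat T (fun y => (S *ᵥ z) ⬝ᵥ (q *ᵥ (S *ᵥ y)) = μ * (z ⬝ᵥ (q *ᵥ y))) ?_ ?_ ?_ y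
        · simp
        · intro y1 y2 hy1 hy2
          simp only [Matrix.mulVec_add, dotProduct_add]
          linear_combination hy1 + hy2
        · intro b l w hw
          rw [hS a k z hz, hS b l w hw, smul_dotProduct, Matrix.mulVec_smul, dotProduct_smul]
          simp only [smul_eq_mul]
          by_cases hzw : z ⬝ᵥ (q *ᵥ w) = 0
          · rw [hzw]
            ring
          · have hab : a * b = μ := by
              by_contra hab
              exact hzw (claim3 hq a b hab (k + l) k l rfl z w hz hw)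
            rw [← hab]
            ring
    rw [Matrix.ext_iff_mulVec]
    intro y
    apply dotProduct_eq
    intro x
    have h2 := h1 x y
    rw [Matrix.smul_mulVec, smul_dotProduct, smul_eq_mul, dotProduct_comm (q *ᵥ y), ← h2,
      dotProduct_comm, ← Matrix.mulVec_mulVec, ← Matrix.mulVec_mulVec, Matrix.dotProduct_mulVec,
      Matrix.vecMul_transpose]
  · intro m _ _ T₂ T₂' S₂ S₂' d hT₂ hS₂ hinv hd x
    have hpow : ∀ (t : ℂ) (k : ℕ) (x : Matrix m m ℂ),
        ((cj T T' - t • (1 : Module.End ℂ (Matrix n n ℂ))) ^ k) (d x) =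
          d (((cj T₂ T₂' - t • (1 : Module.End ℂ (Matrix m m ℂ))) ^ k) x) := by
      intro t k
      induction k with
      | zero => intro x; simp
      | succ k ih =>
        intro x
        rw [pow_succ, pow_succ, Module.End.mul_apply, Module.End.mul_apply, ← ih]
        congr 1
        simp [cj_apply, hd]
    refine ind_end (cj T₂ T₂') (fun x => S * d x = d (S₂ * x * S₂') * S) ?_ ?_ ?_ x
    · simp
    · intro x y hx hy
      rw [map_add, Matrix.mul_add, hx, hy, Matrix.mul_add, Matrix.add_mul, map_add, Matrix.add_mul]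
    · intro t k y hy
      have h1 := key hT₂ hS₂ t k y hy
      have h2 := key hT hS t k (d y) (by rw [hpow, hy, map_zero])
      rw [h1, h2, Matrix.smul_mul, Matrix.mul_assoc, hinv, Matrix.mul_one, map_smul,
        Matrix.smul_mul]

end Pool.Agent.NH56.HL
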