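import Pool.Agent.NH56.HL.Stm
import Pool.Agent.NH56.HY.TanA
import Pool.Agent.NH56.HO.Ssf

/-!
# HL-NPH: additive functions of all elements of the Galois group
-/

set_option autoImplicit false

namespace Pool.Agent.NH56.HL

open Matrix Polynomial Filter Topology NumberField IsDedekindDomain Pool.Agent.NH56.HY

namespace Nph

theorem add_pow {φ : ℂ → ℂ} (hφ : IsAdd (fun x => x ≠ 0) φ) {a : ℂ} (ha : a ≠ 0) (m : ℕ) :
    φ (a ^ m) = m * φ a := by
  induction m with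
  | zero =>
    have h := hφ.map 1 1 one_ne_zero one_ne_zero
    rw [mul_one] at h
    rw [pow_zero, Nat.cast_zero, zero_mul]
    exact left_eq_add.1 h
  | succ m ih =>
    rw [pow_succ, hφ.map _ _ (pow_ne_zero m ha) ha, ih]
    push_cast
    ring

theorem fn_pow {n : Type} [Fintype n] [DecidableEq n] {T T' N N' : Matrix n n ℂ}
    (hT : T * T' = 1) {φ : ℂ → ℂ} (hφ : IsAdd (fun x => x ≠ 0) φ) (m : ℕ) (hN : IsFn φ T N)
    (hN' : IsFn φ (T ^ m) N') : N' = (m : ℂ) • N := by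
  set f : Module.End ℂ (n → ℂ) := Matrix.toLinAlgEquiv' T with hf
  have h1 : ⨆ μ : ℂ, f.maxGenEigenspace μ = ⊤ := Module.End.iSup_maxGenEigenspace_eq_top f
  have h2 : (⊤ : Submodule ℂ (n → ℂ)) ≤
      LinearMap.ker (Matrix.toLin' (N' - (m : ℂ) • N)) := by
    rw [← h1]
    apply iSup_le
    intro a x hx
    obtain ⟨k, hk⟩ := (Module.End.mem_maxGenEigenspace f a x).1 hx
    rw [← Algebra.algebraMap_eq_smul_one, hf, Tan.to_pow] at hk
    rw [LinearMap.mem_ker, Matrix.toLin'_apply, Matrix.sub_mulVec, sub_eq_zero,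
      Matrix.smul_mulVec, hN a k x hk]
    by_cases ha : a = 0
    · have hx0 : x = 0 := by
        rw [ha, zero_smul, sub_zero] at hk
        have h3 : T' ^ k * T ^ k = 1 := by
          have h4 : T' * T = 1 := mul_eq_one_comm.1 hT
          have h5 : Commute T' T := by
            unfold Commute SemiconjBy
            rw [h4, hT]
          rw [← h5.mul_pow, h4, one_pow]
        calc x = (T' ^ k * T ^ k) *ᵥ x := by rw [h3, Matrix.one_mulVec]
          _ = 0 := by rw [← Matrix.mulVec_mulVec, hk, Matrix.mulVec_zero]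
      rw [hx0, Matrix.mulVec_zero, smul_zero, smul_zero]
    · have h4 : ((T ^ m - (a ^ m) • (1 : Matrix n n ℂ)) ^ k) *ᵥ x = 0 := by
        obtain ⟨Q, hQ⟩ := sub_dvd_pow_sub_pow (Polynomial.X : ℂ[X]) (Polynomial.C a) m
        have h5 : T ^ m - (a ^ m) • (1 : Matrix n n ℂ) =
            aeval T ((Polynomial.X : ℂ[X]) ^ m - (Polynomial.C a) ^ m) := by
          rw [map_sub, map_pow, map_pow, aeval_X, aeval_C, Algebra.algebraMap_eq_smul_one,
            _root_.smul_pow, one_pow]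
        have h6 : aeval T ((Polynomial.X : ℂ[X]) - Polynomial.C a) =
            T - a • (1 : Matrix n n ℂ) := by
          rw [map_sub, aeval_X, aeval_C, Algebra.algebraMap_eq_smul_one]
        rw [h5, hQ, ← map_pow, mul_pow, mul_comm, map_mul, ← Matrix.mulVec_mulVec,
          map_pow (aeval T) ((Polynomial.X : ℂ[X]) - Polynomial.C a), h6, hk, Matrix.mulVec_zero]
      rw [hN' _ k x h4, add_pow hφ ha, smul_smul]
  have h3 : Matrix.toLin' (N' - (m : ℂ) • N) = 0 := by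
    rw [← LinearMap.ker_eq_top]
    exact top_le_iff.1 h2
  have h4 : N' - (m : ℂ) • N = 0 := by
    apply Matrix.toLin'.injective
    rw [h3, map_zero]
  exact sub_eq_zero.1 h4

theorem δt_smul (hBAS : S_BAS) {ι : Type} [Fintype ι] [DecidableEq ι] (X : Coh ι)
    (hX : IsHyperKahler X) (r : ℂ) (x : Matrix {a // X.deg a = 2} {a // X.deg a = 2} ℂ) :
    X.δt ℂ (r • x) = r • X.δt ℂ x := by
  obtain ⟨-, h2, -⟩ := hBAS ι X hX ℂ
  unfold Coh.δt
  rw [h2, Matrix.trace_smul, smul_add, smul_smul, smul_eq_mul, mul_div_assoc]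

end Nph

open Nph in
theorem t_NPH (hFUN : S_FUN) (hNPU : S_NPU) (hDTC : S_DTC) (hBAS : S_BAS) : S_NPH := by
  intro K _ _ ℓ _ ι _ _ X S χ Pol ρ hX hR hNU c g
  obtain ⟨U, hUo, -, hcom, hdet⟩ := hDTC K ℓ ι X S χ Pol ρ hX hR hNU
  obtain ⟨σ, hσ⟩ : ∃ σ : PadicAlgCl ℓ →+* ℂ,
      ∀ x : ℚ_[ℓ], σ (algebraMap ℚ_[ℓ] (PadicAlgCl ℓ) x) = c x := by
    letI := c.toAlgebra
    let f : PadicAlgCl ℓ →ₐ[ℚ_[ℓ]] ℂ := IsAlgClosed.lift
    exact ⟨f.toRingHom, fun x => f.commutes x⟩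
  have hinv : ∀ h : GK K, (ρ h).map c * (ρ h⁻¹).map c = 1 := by
    intro h
    rw [← Matrix.map_mul, ← map_mul, mul_inv_cancel, map_one]
    exact Matrix.map_one _ (map_zero _) (map_one _)
  have hU : ∀ h ∈ U, AddTwo X ((ρ h).map c) := by
    intro h hh
    have hχ : χ h ≠ 0 := by
      intro h0
      have h1 : χ h * χ h⁻¹ = 1 := by rw [← map_mul, mul_inv_cancel, map_one]
      rw [h0, zero_mul] at h1
      exact zero_ne_one h1
    refine hNPU ι X hX (PadicAlgCl ℓ) σ ((ρ h).map (algebraMap ℚ_[ℓ] (PadicAlgCl ℓ)))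
      ((ρ h).map c) ((ρ h⁻¹).map c) (algebraMap ℚ_[ℓ] (PadicAlgCl ℓ) (χ h)) ?_ (hinv h) ?_ ?_ ?_
      ?_ ?_ ?_
    · ext i j
      exact (hσ _).symm
    · intro a b hab
      rw [Matrix.map_apply, hR.graded h a b hab, map_zero]
    · rw [Ne, map_eq_zero]
      exact hχ
    · have h1 := congrArg (fun M => Matrix.map M c) (hR.similitude h)
      beta_reduce at h1
      rw [Matrix.map_mul, Matrix.map_mul, transpose_map, Trn78.mapsm, Trn78.qF_map, map_pow] at h1
      rw [hσ]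
      exact h1
    · refine HO.SsfA.equivF hX _ _ _ _ ?_
      intro y hy
      have hy' : X.IsSkew ℚ_[ℓ] (y.map (algebraMap ℚ ℚ_[ℓ])) := by
        unfold Coh.IsSkew Coh.qF
        rw [← transpose_map, ← Matrix.map_mul, ← Matrix.map_mul,
          ← Matrix.map_add _ (fun a b => map_add (algebraMap ℚ ℚ_[ℓ]) a b), hy]
        exact Matrix.map_zero _ (map_zero _)
      have h1 := congrArg (fun M => Matrix.map M c) (hR.equivariant h _ hy')
      beta_reduce at h1
      have h2 : (y.map (algebraMap ℚ ℚ_[ℓ])).map c = y.map (algebraMap ℚ ℂ) := by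
        ext i j
        change c (algebraMap ℚ ℚ_[ℓ] (y i j)) = algebraMap ℚ ℂ (y i j)
        rw [eq_ratCast (algebraMap ℚ ℚ_[ℓ]), eq_ratCast (algebraMap ℚ ℂ), map_ratCast]
      rw [Matrix.map_mul, Matrix.map_mul, Trn78.δF_map, Trn78.δF_map, Matrix.map_mul,
        Matrix.map_mul, h2] at h1
      exact h1
    · intro B hB
      have h1 := hcom h hh _ (HO.SsfA.com_map (F := ℚ_[ℓ]) hB)
      have h2 := congrArg (fun M => Matrix.map M (algebraMap ℚ_[ℓ] (PadicAlgCl ℓ))) h1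
      beta_reduce at h2
      have h3 : (B.map (algebraMap ℚ ℚ_[ℓ])).map (algebraMap ℚ_[ℓ] (PadicAlgCl ℓ)) =
          B.map (algebraMap ℚ (PadicAlgCl ℓ)) := by
        ext i j
        change algebraMap ℚ_[ℓ] (PadicAlgCl ℓ) (algebraMap ℚ ℚ_[ℓ] (B i j)) =
          algebraMap ℚ (PadicAlgCl ℓ) (B i j)
        rw [eq_ratCast (algebraMap ℚ ℚ_[ℓ]), eq_ratCast (algebraMap ℚ (PadicAlgCl ℓ)), map_ratCast]
      rw [Matrix.map_mul, Matrix.map_mul, h3] at h2
      exact h2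
    · intro e m h1 h2 h3 h4
      exact hdet h hh _ rfl e m h1 h2 h3 h4
  obtain ⟨m, hm, hgm⟩ := HO.SsfA.exists_pow U hUo g
  intro φ hφ N hN
  have hpow : (ρ (g ^ m)).map c = ((ρ g).map c) ^ m := by
    rw [map_pow]
    exact map_pow (RingHom.mapMatrix c) (ρ g) m
  obtain ⟨N', hN'⟩ := (hFUN ℂ ι φ ((ρ (g ^ m)).map c)).1
  have h1 := hU _ hgm φ hφ N' hN'
  rw [hpow] at hN'
  have h2 := fn_pow (hinv g) hφ m hN hN'
  have h3 : blk X.deg 2 ((m : ℂ) • N) = (m : ℂ) • blk X.deg 2 N := rfl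
  rw [h2, h3, δt_smul hBAS X hX] at h1
  have hm0 : (m : ℂ) ≠ 0 := by exact_mod_cast hm.ne'
  exact smul_right_injective _ hm0 h1

end Pool.Agent.NH56.HL
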