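import Pool.Agent.NH56.HL.Stm

/-!
# HL-NPU: additive functions of elements which commute with the commutant
-/

set_option autoImplicit false

namespace Pool.Agent.NH56.HL

open Matrix Polynomial Filter Topology NumberField IsDedekindDomain Pool.Agent.NH56.HY
open Pool.Agent.NH56.HO

namespace Npu

set_option linter.unusedSectionVars false
set_option linter.unusedTactic false

section graded

variable {ι : Type} [Fintype ι] [DecidableEq ι] {F : Type} [Field F] {deg : ι → ℕ}

theorem blk_mul {M : Matrix ι ι F} (hM : IsGraded deg M) (M' : Matrix ι ι F) (j : ℕ) :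
    blk deg j (M * M') = blk deg j M * blk deg j M' := by
  ext a b
  unfold blk
  rw [Matrix.submatrix_apply, Matrix.mul_apply, Matrix.mul_apply]
  have h : ∀ c : ι, c ∉ (Finset.univ.filter fun c => deg c = j) → M a.1 c * M' c b.1 = 0 := by
    intro c hc
    rw [hM a.1 c, zero_mul]
    intro h
    apply hc
    rw [Finset.mem_filter]
    exact ⟨Finset.mem_univ _, by rw [← h]; exact a.2⟩
  rw [← Finset.sum_subset (Finset.subset_univ (Finset.univ.filter fun c => deg c = j))
    (fun c _ hc => h c hc)]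
  rw [Finset.sum_subtype (p := fun c => deg c = j) _ (by intro x; simp)]
  rfl

theorem blk_one (j : ℕ) : blk deg j (1 : Matrix ι ι F) = 1 := by
  ext a b
  unfold blk
  rw [Matrix.submatrix_apply, Matrix.one_apply, Matrix.one_apply]
  simp only [Subtype.ext_iff]

theorem blk_sub (M M' : Matrix ι ι F) (j : ℕ) :
    blk deg j (M - M') = blk deg j M - blk deg j M' := rfl

theorem blk_smul (c : F) (M : Matrix ι ι F) (j : ℕ) :
    blk deg j (c • M) = c • blk deg j M := rfl

theorem graded_one : IsGraded deg (1 : Matrix ι ι F) := by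
  intro a b h
  exact Matrix.one_apply_ne (fun h' => h (by rw [h']))

theorem graded_sub {M M' : Matrix ι ι F} (h : IsGraded deg M) (h' : IsGraded deg M') :
    IsGraded deg (M - M') := by
  intro a b hab
  rw [Matrix.sub_apply, h a b hab, h' a b hab, sub_zero]

theorem graded_smul (c : F) {M : Matrix ι ι F} (h : IsGraded deg M) : IsGraded deg (c • M) := by
  intro a b hab
  rw [Matrix.smul_apply, h a b hab, smul_zero]

theorem graded_mul {M M' : Matrix ι ι F} (h : IsGraded deg M) (h' : IsGraded deg M') :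
    IsGraded deg (M * M') := by
  intro a b hab
  rw [Matrix.mul_apply]
  refine Finset.sum_eq_zero fun c _ => ?_
  by_cases hc : deg a = deg c
  · rw [h' c b (by rw [← hc]; exact hab), mul_zero]
  · rw [h a c hc, zero_mul]

theorem graded_pow {M : Matrix ι ι F} (h : IsGraded deg M) (k : ℕ) : IsGraded deg (M ^ k) := by
  induction k with
  | zero => rw [pow_zero]; exact graded_one
  | succ k ih => rw [pow_succ]; exact graded_mul ih h

theorem blk_pow {M : Matrix ι ι F} (h : IsGraded deg M) (j k : ℕ) :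
    blk deg j (M ^ k) = (blk deg j M) ^ k := by
  induction k with
  | zero => rw [pow_zero, pow_zero, blk_one]
  | succ k ih => rw [pow_succ, pow_succ, blk_mul (graded_pow h k), ih]

theorem graded_iff [CharZero F] (M : Matrix ι ι F) :
    IsGraded deg M ↔ M * Matrix.diagonal (fun a => (deg a : F)) =
      Matrix.diagonal (fun a => (deg a : F)) * M := by
  constructor
  · intro h
    ext a b
    rw [Matrix.mul_diagonal, Matrix.diagonal_mul]
    by_cases hab : deg a = deg b
    · rw [hab, mul_comm]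
    · rw [h a b hab, zero_mul, mul_zero]
  · intro h a b hab
    have h1 := congrFun (congrFun h a) b
    rw [Matrix.mul_diagonal, Matrix.diagonal_mul] at h1
    have h2 : M a b * ((deg b : F) - (deg a : F)) = 0 := by
      rw [mul_sub, h1]; ring
    rcases mul_eq_zero.1 h2 with h3 | h3
    · exact h3
    · exfalso
      apply hab
      rw [sub_eq_zero] at h3
      exact_mod_cast h3.symm

theorem mulVec_blk {M : Matrix ι ι F} (h : IsGraded deg M) (x : ι → F) (j : ℕ)
    (a : {a // deg a = j}) :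
    (M *ᵥ x) a.1 = (blk deg j M *ᵥ (fun b : {a // deg a = j} => x b.1)) a := by
  unfold Matrix.mulVec dotProduct blk
  have h0 : ∀ c : ι, c ∉ (Finset.univ.filter fun c => deg c = j) → M a.1 c * x c = 0 := by
    intro c hc
    rw [h a.1 c, zero_mul]
    intro h
    apply hc
    rw [Finset.mem_filter]
    exact ⟨Finset.mem_univ _, by rw [← h]; exact a.2⟩
  rw [← Finset.sum_subset (Finset.subset_univ (Finset.univ.filter fun c => deg c = j))
    (fun c _ hc => h0 c hc)]
  rw [Finset.sum_subtype (p := fun c => deg c = j) _ (by intro x; simp)]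
  rfl

theorem trace_blk (M : Matrix ι ι F) :
    M.trace = ∑ j ∈ Finset.univ.image deg, (blk deg j M).trace := by
  unfold Matrix.trace
  rw [← Finset.sum_fiberwise_of_maps_to (s := Finset.univ) (t := Finset.univ.image deg) (g := deg)
    (fun i _ => Finset.mem_image_of_mem _ (Finset.mem_univ i))]
  refine Finset.sum_congr rfl fun j _ => ?_
  rw [Finset.sum_subtype (p := fun c => deg c = j) _ (by intro x; simp)]
  rfl

/-- extension by zero -/
def ex (deg : ι → ℕ) (j : ℕ) (x : {a // deg a = j} → F) (i : ι) : F :=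
  if h : deg i = j then x ⟨i, h⟩ else 0

theorem ex_val (j : ℕ) (x : {a // deg a = j} → F) (a : {a // deg a = j}) :
    ex deg j x a.1 = x a := by
  unfold ex
  rw [dif_pos a.2]

theorem mulVec_ex {M : Matrix ι ι F} (h : IsGraded deg M) (j : ℕ) (x : {a // deg a = j} → F) :
    M *ᵥ (ex deg j x) = ex deg j (blk deg j M *ᵥ x) := by
  funext i
  rw [mulVec_blk h (ex deg j x) (deg i) ⟨i, rfl⟩]
  by_cases hi : deg i = j
  · subst hi
    unfold ex
    rw [dif_pos rfl]
    congr 1
    congr 1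
    funext b
    rw [dif_pos b.2]
  · have e : (fun b : {a // deg a = deg i} => ex deg j x b.1) = 0 := by
      funext b
      unfold ex
      rw [dif_neg]
      · rfl
      · rw [b.2]; exact hi
    rw [e, Matrix.mulVec_zero]
    unfold ex
    rw [dif_neg hi]
    rfl

theorem ex_eq_zero {j : ℕ} {x : {a // deg a = j} → F} : ex deg j x = 0 ↔ x = 0 := by
  constructor
  · intro h
    funext a
    rw [← ex_val (deg := deg) j x a, h]
    rfl
  · intro h
    funext i
    unfold ex
    rw [h]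
    split_ifs <;> rfl

theorem ex_smul (j : ℕ) (c : F) (x : {a // deg a = j} → F) :
    ex deg j (c • x) = c • ex deg j x := by
  funext i
  unfold ex
  rw [Pi.smul_apply]
  split_ifs
  · rfl
  · rw [smul_zero]

theorem fn_blk {φ : F → F} {T N : Matrix ι ι F} (hT : IsGraded deg T) (hN : IsGraded deg N)
    (h : IsFn φ T N) (j : ℕ) : IsFn φ (blk deg j T) (blk deg j N) := by
  intro a k x hx
  have hTa : IsGraded deg (T - a • (1 : Matrix ι ι F)) :=
    graded_sub hT (graded_smul a graded_one)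
  have h1 : ((T - a • (1 : Matrix ι ι F)) ^ k) *ᵥ (ex deg j x) = 0 := by
    rw [mulVec_ex (graded_pow hTa k), blk_pow hTa, blk_sub, blk_smul, blk_one, ex_eq_zero]
    exact hx
  have h2 := h a k _ h1
  rw [mulVec_ex hN, ← ex_smul] at h2
  funext b
  have h3 := congrFun h2 b.1
  rwa [ex_val, ex_val] at h3

theorem root_blk {T : Matrix ι ι F} (hT : IsGraded deg T) (j : ℕ) {a : F}
    (h : (blk deg j T).charpoly.IsRoot a) : T.charpoly.IsRoot a := by
  rw [Polynomial.IsRoot.def, Matrix.eval_charpoly] at h ⊢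
  obtain ⟨v, hv0, hv⟩ := Matrix.exists_mulVec_eq_zero_iff.2 h
  rw [← Matrix.exists_mulVec_eq_zero_iff]
  refine ⟨ex deg j v, fun h0 => hv0 (ex_eq_zero.1 h0), ?_⟩
  have hs : ∀ (n : Type) [Fintype n] [DecidableEq n], Matrix.scalar n a = a • (1 : Matrix n n F) :=
    fun n _ _ => by ext i j; simp [Matrix.scalar_apply, Matrix.diagonal_apply, Matrix.one_apply]
  have hg : IsGraded deg (Matrix.scalar ι a - T) := by
    rw [hs]
    exact graded_sub (graded_smul a graded_one) hT
  rw [mulVec_ex hg, ex_eq_zero, blk_sub, hs ι, blk_smul, blk_one, ← hs]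
  exact hv

end graded

variable {ι : Type} [Fintype ι] [DecidableEq ι]

/-- the trace of an idempotent matrix is a natural number -/
theorem trace_idem {F m : Type} [Field F] [Fintype m] [DecidableEq m] (e : Matrix m m F)
    (he : e * e = e) : ∃ k : ℕ, e.trace = k := by
  have h1 : IsIdempotentElem (Matrix.toLin' e) := by
    unfold IsIdempotentElem
    rw [Module.End.mul_eq_comp, ← Matrix.toLin'_mul, he]
  have h2 := (LinearMap.IsIdempotentElem.isProj_range _ h1).trace
  rw [Matrix.trace_toLin'_eq] at h2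
  exact ⟨_, h2⟩

theorem graded_of_comm (X : Coh ι) {F : Type} [Field F] [CharZero F] {A : Matrix ι ι F}
    (h : A * X.H F = X.H F * A) : IsGraded X.deg A := by
  intro a b hab
  have h1 := congrFun (congrFun h a) b
  unfold Coh.H at h1
  rw [Matrix.mul_diagonal, Matrix.diagonal_mul] at h1
  have h2 : ((X.deg b : F) - X.deg a) * A a b = 0 := by
    rw [sub_mul]
    rw [mul_comm (X.deg b : F), h1, sub_self]
  rcases mul_eq_zero.1 h2 with h3 | h3
  · exfalso
    apply hab
    have h4 : (X.deg b : F) = X.deg a := sub_eq_zero.1 h3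
    exact (Nat.cast_injective h4).symm
  · exact h3

theorem comm_of_graded (X : Coh ι) {F : Type} [Field F] [CharZero F] {A : Matrix ι ι F}
    (h : IsGraded X.deg A) : A * X.H F = X.H F * A := by
  ext a b
  unfold Coh.H
  rw [Matrix.mul_diagonal, Matrix.diagonal_mul]
  by_cases hab : X.deg a = X.deg b
  · rw [hab, mul_comm]
  · rw [h a b hab, zero_mul, mul_zero]

/-- the trace of the degree operator on the image of an idempotent is a natural number -/
theorem trace_H (X : Coh ι) {F : Type} [Field F] [CharZero F] (e : Matrix ι ι F)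
    (he : e * e = e) (hc : e * X.H F = X.H F * e) : ∃ m : ℕ, (X.H F * e).trace = m := by
  classical
  have hg := graded_of_comm X hc
  have h1 : ∀ j, ∃ k : ℕ, (blk X.deg j e).trace = k := fun j =>
    trace_idem _ (by rw [← blk_mul hg, he])
  choose k hk using h1
  refine ⟨∑ j ∈ Finset.univ.image X.deg, j * k j, ?_⟩
  have h2 : (X.H F * e).trace = ∑ a, (X.deg a : F) * e a a := by
    unfold Matrix.trace Coh.H
    refine Finset.sum_congr rfl fun a _ => ?_
    rw [Matrix.diag_apply, Matrix.diagonal_mul]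
  rw [h2, ← Finset.sum_fiberwise_of_maps_to (g := X.deg) (t := Finset.univ.image X.deg)
    (fun a ha => Finset.mem_image_of_mem _ ha)]
  push_cast
  refine Finset.sum_congr rfl fun j _ => ?_
  rw [← hk j]
  unfold Matrix.trace
  have h3 : ∑ i : {a // X.deg a = j}, (blk X.deg j e).diag i =
      ∑ a ∈ Finset.univ.filter fun a => X.deg a = j, e a a := by
    rw [← Finset.sum_subtype_of_mem (p := fun a => X.deg a = j) (f := fun a => e a a)
      (s := Finset.univ.filter fun a => X.deg a = j)]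
    · rw [Finset.sum_congr]
      · ext i
        simp [i.2]
      · intro i _
        rfl
    · intro a ha
      exact (Finset.mem_filter.1 ha).2
  rw [h3, Finset.mul_sum]
  refine Finset.sum_congr rfl fun a ha => ?_
  rw [(Finset.mem_filter.1 ha).2]


theorem map_map_aux {F Ω : Type} [Field F] [CharZero F] [Field Ω] [CharZero Ω]
    (σ : F →+* Ω) {m : Type} (A : Matrix m m ℚ) :
    (A.map (algebraMap ℚ F)).map σ = A.map (algebraMap ℚ Ω) := by
  ext i j
  simp

theorem H_map (X : Coh ι) {F Ω : Type} [Field F] [CharZero F] [Field Ω] [CharZero Ω]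
    (σ : F →+* Ω) : (X.H F).map σ = X.H Ω := by
  unfold Coh.H
  rw [Matrix.diagonal_map (map_zero _)]
  congr 1
  funext a
  simp

theorem mul_map {F Ω : Type} [Field F] [Field Ω] (f : F →+* Ω) (A B : Matrix ι ι F) :
    (A * B).map f = A.map f * B.map f := Matrix.map_mul

theorem com_map (X : Coh ι) {F Ω : Type} [Field F] [CharZero F] [Field Ω] [CharZero Ω]
    (σ : F →+* Ω) {B : Matrix ι ι F} (h : X.Com F B) : X.Com Ω (B.map σ) := by
  refine ⟨fun x => ?_, ?_⟩
  · have h1 := congrArg (fun M : Matrix ι ι F => M.map σ) (h.1 x)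
    simp only [mul_map, map_map_aux] at h1
    exact h1
  · have h1 := congrArg (fun M : Matrix ι ι F => M.map σ) h.2
    simp only [mul_map, H_map] at h1
    exact h1

/-- commuting with a span -/
theorem comm_span {F : Type} [Field F] (M : Matrix ι ι F) (S : Set (Matrix ι ι F))
    (h : ∀ B ∈ S, M * B = B * M) (B : Matrix ι ι F) (hB : B ∈ Submodule.span F S) :
    M * B = B * M := by
  induction hB using Submodule.span_induction with
  | mem x hx => exact h x hx
  | zero => rw [Matrix.mul_zero, Matrix.zero_mul]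
  | add x y _ _ hx hy => rw [Matrix.mul_add, Matrix.add_mul, hx, hy]
  | smul c x _ hx => rw [Matrix.mul_smul, Matrix.smul_mul, hx]

end Npu

open Npu in
/-- HL-NPU -/
theorem t_NPU (hFUN : S_FUN) (hADJ : S_ADJ) (hBAS : S_BAS) (hPER : S_PER) (hNDG : S_NDG)
    (hCTR : S_CTR) : S_NPU := by
  intro ι _ _ X hX Ω _ _ _ σ T₀ T T' χ₀ hTdef hTT hgT hχ hq hequiv hcomQ hdet φ hA N hN
  obtain ⟨hadd, hsmul, hmap, hself, -, hbr, hgr, hnat, -⟩ := hBAS ι X hX ℂ
  have hgH : ∀ {M : Matrix ι ι ℂ}, IsGraded X.deg M ↔ M * X.H ℂ = X.H ℂ * M :=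
    fun {M} => graded_iff M
  have hgHH : IsGraded X.deg (X.H ℂ) := hgH.2 rfl
  set A : ℂ → Prop := fun x => x ≠ 0 with hAdef
  have hσ : σ χ₀ ≠ 0 := (map_ne_zero σ).2 hχ
  -- inverse
  have hT'T : T' * T = 1 := mul_eq_one_comm.1 hTT
  have hroots : ∀ a, T.charpoly.IsRoot a → A a := by
    intro a ha h0
    rw [h0, Polynomial.IsRoot.def, Matrix.eval_charpoly] at ha
    have h1 : (Matrix.scalar ι (0 : ℂ) - T).det * ((-1) ^ Fintype.card ι * T'.det) = 1 := by
      rw [map_zero, zero_sub, Matrix.det_neg]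
      have h2 : T.det * T'.det = 1 := by rw [← Matrix.det_mul, hTT, Matrix.det_one]
      have h3 : ((-1 : ℂ) ^ Fintype.card ι) * (-1) ^ Fintype.card ι = 1 := by
        rw [← mul_pow]
        norm_num
      calc (-1 : ℂ) ^ Fintype.card ι * T.det * ((-1) ^ Fintype.card ι * T'.det) =
          ((-1 : ℂ) ^ Fintype.card ι * (-1) ^ Fintype.card ι) * (T.det * T'.det) := by ring
        _ = 1 := by rw [h2, h3, one_mul]
    rw [ha, zero_mul] at h1
    exact zero_ne_one h1
  have hgT' : IsGraded X.deg T' := by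
    rw [hgH]
    have h1 := hgH.1 hgT
    calc T' * X.H ℂ = T' * (X.H ℂ * T) * T' := by
          rw [Matrix.mul_assoc, Matrix.mul_assoc, hTT, Matrix.mul_one]
      _ = T' * (T * X.H ℂ) * T' := by rw [h1]
      _ = X.H ℂ * T' := by rw [← Matrix.mul_assoc, hT'T, Matrix.one_mul]
  -- `N` is graded
  obtain ⟨-, hFN⟩ := hFUN ℂ ι φ T
  obtain ⟨hint, -, -, -⟩ := hFN N hN
  have hgN : IsGraded X.deg N := by
    rw [hgH]
    exact (hint ι T N (X.H ℂ) hN (hgH.1 hgT).symm).symm
  set T₂ := blk X.deg 2 T with hT₂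
  set T₂' := blk X.deg 2 T' with hT₂'
  set N₂ := blk X.deg 2 N with hN₂
  set q := X.qF ℂ with hqdef
  have hf2 : IsFn φ T₂ N₂ := fn_blk hgT hgN hN 2
  have hTT₂ : T₂ * T₂' = 1 := by rw [hT₂, hT₂', ← blk_mul hgT, hTT, blk_one]
  have hTT₂' : T₂' * T₂ = 1 := mul_eq_one_comm.1 hTT₂
  have hroots₂ : ∀ a, T₂.charpoly.IsRoot a → A a := fun a ha => hroots a (root_blk hgT 2 ha)
  obtain ⟨μ, hμ⟩ : ∃ μ : ℂ, μ = σ χ₀ ^ 2 := ⟨_, rfl⟩
  obtain ⟨f0, hf0⟩ : ∃ f0 : ℂ, f0 = φ (σ χ₀) := ⟨_, rfl⟩
  rw [← hμ] at hq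
  have hAμ : A μ := by
    rw [hμ]
    exact pow_ne_zero 2 hσ
  have hφμ : φ μ = 2 * f0 := by
    rw [hμ, sq, hA.map _ _ hσ hσ, ← hf0]
    ring
  -- (a)
  obtain ⟨-, -, hadj3, -⟩ := hADJ ℂ A φ hA _ T₂ T₂' N₂ hTT₂ hroots₂ hf2
  have hskN : N₂ᵀ * q + q * N₂ = (2 * f0 : ℂ) • q := by
    have h := hadj3 q μ hq hAμ
    rw [h, hφμ]
  set n' := N₂ - f0 • (1 : Matrix {a // X.deg a = 2} {a // X.deg a = 2} ℂ) with hn'
  have hskn : X.IsSkew ℂ n' := by
    unfold Coh.IsSkew
    rw [hn', Matrix.transpose_sub, Matrix.transpose_smul, Matrix.transpose_one, Matrix.sub_mul,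
      Matrix.mul_sub, Matrix.smul_mul, Matrix.mul_smul, Matrix.one_mul, Matrix.mul_one]
    have e : N₂ᵀ * X.qF ℂ - f0 • X.qF ℂ + (X.qF ℂ * N₂ - f0 • X.qF ℂ) =
        (N₂ᵀ * q + q * N₂) - (2 * f0 : ℂ) • q := by
      rw [two_mul, add_smul, hqdef]; abel
    rw [e, hskN, sub_self]
  -- symmetry of the form
  have hqT : qᵀ = q := by
    rw [hqdef]
    unfold Coh.qF
    rw [← Matrix.transpose_map, hX.symm]
  have hqu : IsUnit q.det := by
    rw [hqdef]
    unfold Coh.qF
    rw [← RingHom.mapMatrix_apply, ← RingHom.map_det]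
    exact (hX.nondeg.isUnit).map _
  have hqq : q * q⁻¹ = 1 := Matrix.mul_nonsing_inv q hqu
  have hqq' : q⁻¹ * q = 1 := Matrix.nonsing_inv_mul q hqu
  -- (b)
  have hTq : T₂ᵀ * q = μ • (q * T₂') := by
    calc T₂ᵀ * q = T₂ᵀ * q * T₂ * T₂' := by
          rw [Matrix.mul_assoc (T₂ᵀ * q), hTT₂, Matrix.mul_one]
      _ = _ := by rw [hq, Matrix.smul_mul]
  have hqTt : q * T₂ = μ • (T₂'ᵀ * q) := by
    have h1 : T₂'ᵀ * T₂ᵀ = 1 := by rw [← Matrix.transpose_mul, hTT₂, Matrix.transpose_one]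
    calc q * T₂ = T₂'ᵀ * T₂ᵀ * (q * T₂) := by rw [h1, Matrix.one_mul]
      _ = T₂'ᵀ * (T₂ᵀ * q * T₂) := by simp only [Matrix.mul_assoc]
      _ = _ := by rw [hq, Matrix.mul_smul]
  have hall : ∀ x, T * X.δF ℂ x * T' = X.δF ℂ (T₂ * x * T₂') := by
    intro x
    set xs := q⁻¹ * xᵀ * q with hxs
    have e1 : xsᵀ * q = q * x := by
      rw [hxs, Matrix.transpose_mul, Matrix.transpose_mul, Matrix.transpose_transpose, hqT,
        Matrix.transpose_nonsing_inv, hqT]
      rw [Matrix.mul_assoc, Matrix.mul_assoc, hqq', Matrix.mul_one]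
    have e2 : q * xs = xᵀ * q := by
      rw [hxs, ← Matrix.mul_assoc, ← Matrix.mul_assoc, hqq, Matrix.one_mul]
    set y := (2 : ℂ)⁻¹ • (x - xs) with hy
    set z := (2 : ℂ)⁻¹ • (x + xs) with hz
    have hxyz : x = y + z := by
      rw [hy, hz, ← smul_add, sub_add_add_cancel, ← two_smul ℂ x, smul_smul]
      norm_num
    have hysk : X.IsSkew ℂ y := by
      unfold Coh.IsSkew
      rw [hy, Matrix.transpose_smul, Matrix.transpose_sub, Matrix.smul_mul, Matrix.mul_smul,
        Matrix.sub_mul, Matrix.mul_sub, ← hqdef, e1, e2, ← smul_add]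
      have : xᵀ * q - q * x + (q * x - xᵀ * q) = 0 := by abel
      rw [this, smul_zero]
    have hzsa : zᵀ * q = q * z := by
      rw [hz, Matrix.transpose_smul, Matrix.transpose_add, Matrix.smul_mul, Matrix.mul_smul,
        Matrix.add_mul, Matrix.mul_add, e1, e2, add_comm]
    have hTz : (T₂ * z * T₂')ᵀ * q = q * (T₂ * z * T₂') := by
      calc (T₂ * z * T₂')ᵀ * q = T₂'ᵀ * zᵀ * (T₂ᵀ * q) := by
            rw [Matrix.transpose_mul, Matrix.transpose_mul]
            simp only [Matrix.mul_assoc]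
        _ = T₂'ᵀ * (zᵀ * q) * (μ • T₂') := by
            rw [hTq]
            simp only [Matrix.mul_assoc, Matrix.mul_smul]
        _ = (μ • (T₂'ᵀ * q)) * z * T₂' := by
            rw [hzsa]
            simp only [Matrix.mul_assoc, Matrix.mul_smul, Matrix.smul_mul]
        _ = _ := by rw [← hqTt]; simp only [Matrix.mul_assoc]
    have hz0 : X.δF ℂ z = 0 := hself z hzsa
    have hTz0 : X.δF ℂ (T₂ * z * T₂') = 0 := hself _ hTz
    have h3 : X.δF ℂ x = X.δF ℂ y := by rw [hxyz, hadd, hz0, add_zero]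
    have h4 : X.δF ℂ (T₂ * x * T₂') = X.δF ℂ (T₂ * y * T₂') := by
      rw [hxyz, Matrix.mul_add, Matrix.add_mul, hadd, hTz0, add_zero]
    rw [h3, h4]
    exact hequiv y hysk
  let d : Matrix {a // X.deg a = 2} {a // X.deg a = 2} ℂ →ₗ[ℂ] Matrix ι ι ℂ :=
    { toFun := X.δF ℂ
      map_add' := hadd
      map_smul' := hsmul }
  obtain ⟨-, hadj2, -, hadj4⟩ := hADJ ℂ A φ hA _ T T' N hTT hroots hN
  have hNd : ∀ x, N * X.δF ℂ x - X.δF ℂ x * N = X.δF ℂ (N₂ * x - x * N₂) :=
    fun x => hadj2 _ T₂ T₂' N₂ d hTT₂ hroots₂ hf2 hall x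
  -- (c)
  have hnd : ∀ x, X.δF ℂ n' * X.δF ℂ x - X.δF ℂ x * X.δF ℂ n' = X.δF ℂ (N₂ * x - x * N₂) := by
    intro x
    rw [← hbr n' x hskn, hn', Matrix.sub_mul, Matrix.mul_sub, Matrix.smul_mul, Matrix.mul_smul,
      Matrix.one_mul, Matrix.mul_one]
    congr 1
    abel
  set Z := N - (f0 / 2) • X.H ℂ - X.δF ℂ n' with hZ
  have hHx : ∀ x, X.H ℂ * X.δF ℂ x = X.δF ℂ x * X.H ℂ := fun x => (hgH.1 (hgr x)).symm
  have hZx : ∀ x, Z * X.δF ℂ x = X.δF ℂ x * Z := by
    intro x
    rw [hZ, Matrix.sub_mul, Matrix.sub_mul, Matrix.mul_sub, Matrix.mul_sub, Matrix.smul_mul,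
      Matrix.mul_smul, hHx]
    have h3 := hNd x
    have h4 := hnd x
    have h5 : N * X.δF ℂ x = X.δF ℂ (N₂ * x - x * N₂) + X.δF ℂ x * N := by rw [← h3]; abel
    have h6 : X.δF ℂ n' * X.δF ℂ x = X.δF ℂ (N₂ * x - x * N₂) + X.δF ℂ x * X.δF ℂ n' := by
      rw [← h4]; abel
    rw [h5, h6]
    abel
  have hgZ : IsGraded X.deg Z := graded_sub (graded_sub hgN (graded_smul _ hgHH)) (hgr n')
  have hCom : X.Com ℂ Z := by
    refine ⟨fun x => ?_, hgH.1 hgZ⟩
    rw [← hmap x]
    exact hZx _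
  -- the trace
  have hb0 : (Fintype.card {a // X.deg a = 2} : ℂ) ≠ 0 := by
    have := hX.betti
    exact_mod_cast (by omega : Fintype.card {a // X.deg a = 2} ≠ 0)
  have htrn : n'.trace = 0 := by
    have h1 : q * n' = -(n'ᵀ * q) := by
      have := hskn
      unfold Coh.IsSkew at this
      rw [← hqdef] at this
      exact (neg_eq_of_add_eq_zero_right this).symm
    have h2 : n'.trace = -n'.trace := by
      calc n'.trace = (q⁻¹ * (q * n')).trace := by
            rw [← Matrix.mul_assoc, hqq', Matrix.one_mul]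
        _ = -(q⁻¹ * (n'ᵀ * q)).trace := by rw [h1, Matrix.mul_neg, Matrix.trace_neg]
        _ = -(n'ᵀ).trace := by
            rw [← Matrix.mul_assoc, Matrix.trace_mul_comm, ← Matrix.mul_assoc, hqq, Matrix.one_mul]
        _ = -n'.trace := by rw [Matrix.trace_transpose]
    have h3 : n'.trace + n'.trace = 0 := by
      nth_rewrite 1 [h2]
      ring
    have h4 : (2 : ℂ) * n'.trace = 0 := by rw [two_mul, h3]
    exact (mul_eq_zero.1 h4).resolve_left two_ne_zero
  have htrN : N₂.trace = f0 * (Fintype.card {a // X.deg a = 2} : ℂ) := by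
    have h1 : N₂ = n' + f0 • (1 : Matrix {a // X.deg a = 2} {a // X.deg a = 2} ℂ) := by
      rw [hn']
      abel
    rw [h1, Matrix.trace_add, htrn, Matrix.trace_smul, Matrix.trace_one, zero_add, smul_eq_mul]
  have hδn : X.δF ℂ N₂ = X.δF ℂ n' := by
    have h1 : N₂ = n' + f0 • (1 : Matrix {a // X.deg a = 2} {a // X.deg a = 2} ℂ) := by
      rw [hn']
      abel
    have h2 : X.δF ℂ (1 : Matrix {a // X.deg a = 2} {a // X.deg a = 2} ℂ) = 0 :=
      hself _ (by rw [Matrix.transpose_one, Matrix.one_mul, Matrix.mul_one])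
    nth_rewrite 1 [h1]
    rw [hadd, hsmul, h2, smul_zero, add_zero]
  have hgoal : Z = 0 → N = X.δt ℂ N₂ := by
    intro h0
    unfold Coh.δt
    rw [hδn, htrN]
    have e : f0 * (Fintype.card {a // X.deg a = 2} : ℂ) /
        (2 * (Fintype.card {a // X.deg a = 2} : ℂ)) = f0 / 2 := by
      rw [mul_div_mul_right _ _ hb0]
    rw [e]
    have h1 : N = Z + ((f0 / 2) • X.H ℂ + X.δF ℂ n') := by
      rw [hZ]
      abel
    rw [h1, h0, zero_add, add_comm]
  apply hgoal
  -- commuting with the commutant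
  have hTQ : ∀ B : Matrix ι ι ℚ, X.Com ℚ B →
      T * B.map (algebraMap ℚ ℂ) = B.map (algebraMap ℚ ℂ) * T := by
    intro B hB
    have h1 := congrArg (fun M : Matrix ι ι Ω => M.map σ) (hcomQ B hB)
    simp only [mul_map, map_map_aux] at h1
    rw [hTdef]
    exact h1
  have hNB : ∀ B : Matrix ι ι ℂ, X.Com ℂ B → N * B = B * N := by
    intro B hB
    refine comm_span N _ ?_ B ((hNDG ι X hX ℂ B hB).1)
    rintro _ ⟨B', hB', rfl⟩
    exact (hint ι T N _ hN (hTQ B' hB').symm).symm
  have hZB : ∀ B : Matrix ι ι ℂ, X.Com ℂ B → Z * B = B * Z := by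
    intro B hB
    rw [hZ, Matrix.sub_mul, Matrix.sub_mul, Matrix.mul_sub, Matrix.mul_sub, Matrix.smul_mul,
      Matrix.mul_smul, hNB B hB, hB.2, (hPER ι X hX ℂ B hB).1 n']
  refine hCTR ι X hX Ω σ Z hCom hZB ?_
  intro e he hee hcen
  have heT : e * T₀ = T₀ * e := by
    refine (comm_span T₀ _ ?_ e ((hNDG ι X hX Ω e he).1)).symm
    rintro _ ⟨B', hB', rfl⟩
    exact hcomQ B' hB'
  obtain ⟨m, hm⟩ := trace_H X e hee he.2
  have h1 := hdet e m he hee heT hm
  have he' : X.Com ℂ (e.map σ) := com_map X σ he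
  have hee' : e.map σ * e.map σ = e.map σ := by rw [← mul_map, hee]
  have heT' : e.map σ * T = T * e.map σ := by rw [hTdef, ← mul_map, heT, mul_map]
  have h2 : (T * e.map σ + (1 - e.map σ)).det ^ 2 = σ χ₀ ^ m := by
    have h3 : T * e.map σ + (1 - e.map σ) = (T₀ * e + (1 - e)).map σ := by
      have h4 : (1 : Matrix ι ι Ω).map σ = 1 := Matrix.map_one _ (map_zero σ) (map_one σ)
      rw [hTdef, Matrix.map_add _ (map_add σ), Matrix.map_sub _ (map_sub σ), h4, mul_map]
    rw [h3, ← RingHom.mapMatrix_apply, ← RingHom.map_det, ← map_pow, h1, map_pow]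
  obtain ⟨h3, h4⟩ := hadj4 (e.map σ) hee' heT'
  have hpow : ∀ k : ℕ, φ (σ χ₀ ^ k) = k * f0 := by
    have hone : φ 1 = 0 := by
      have := hA.map 1 1 one_ne_zero one_ne_zero
      rw [mul_one] at this
      linear_combination (-1 : ℂ) * this
    intro k
    induction k with
    | zero => rw [pow_zero, hone]; simp
    | succ k ih =>
      rw [pow_succ, hA.map _ _ (pow_ne_zero k hσ) hσ, ih, ← hf0]
      push_cast
      ring
  have h5 : 2 * (N * e.map σ).trace = m * f0 := by
    rw [← hpow m, ← h2, sq, hA.map _ _ h3 h3, h4]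
    ring
  have h6 : (X.H ℂ * e.map σ).trace = m := by
    have h7 : ((X.H Ω * e).map σ).trace = σ (X.H Ω * e).trace := by
      unfold Matrix.trace
      rw [map_sum]
      rfl
    rw [← H_map X σ, ← mul_map, h7, hm, map_natCast]
  rw [hZ, Matrix.sub_mul, Matrix.sub_mul, Matrix.smul_mul, Matrix.trace_sub, Matrix.trace_sub,
    Matrix.trace_smul, (hPER ι X hX ℂ _ he').2 n', h6, smul_eq_mul, sub_zero]
  linear_combination (1 / 2 : ℂ) * h5

end Pool.Agent.NH56.HL
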