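import Pool.Agent.NH56.HL.Stm
import Pool.Agent.TH658.Eq.Newt
import Pool.Agent.R401.Iso

/-!
# Local Euler factors of hyper-Kähler varieties: rational traces in even degrees
-/

set_option autoImplicit false

namespace Pool.Agent.NH56.HL

open Matrix Polynomial Filter Topology NumberField IsDedekindDomain Pool.Agent.NH56.HY
open Pool.Agent.NH56.HO

namespace RAT

theorem blk_mul {ι F : Type} [Fintype ι] [DecidableEq ι] [Field F] {deg : ι → ℕ}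
    {M : Matrix ι ι F} (hM : IsGraded deg M) (M' : Matrix ι ι F) (j : ℕ) :
    blk deg j (M * M') = blk deg j M * blk deg j M' := by
  ext a b
  unfold blk
  rw [Matrix.submatrix_apply, Matrix.mul_apply, Matrix.mul_apply]
  have h : ∀ c : ι, c ∉ (Finset.univ.filter fun c => deg c = j) → M a.1 c * M' c b.1 = 0 := by
    intro c hc
    rw [hM a.1 c, zero_mul]
    intro h
    apply hc
    rw [Finset.mem_filter]
    exact ⟨Finset.mem_univ _, by rw [← h]; exact a.2⟩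
  rw [← Finset.sum_subset (Finset.subset_univ (Finset.univ.filter fun c => deg c = j))
    (fun c _ hc => h c hc)]
  rw [Finset.sum_subtype (p := fun c => deg c = j) _ (by intro x; simp)]
  rfl

theorem blk_one {ι F : Type} [Fintype ι] [DecidableEq ι] [Field F] {deg : ι → ℕ} (j : ℕ) :
    blk deg j (1 : Matrix ι ι F) = 1 := by
  ext a b
  unfold blk
  rw [Matrix.submatrix_apply, Matrix.one_apply, Matrix.one_apply]
  simp only [Subtype.ext_iff]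

theorem blk_pow {Γ ι F : Type} [Group Γ] [Fintype ι] [DecidableEq ι] [Field F] {deg : ι → ℕ}
    (ρ : Γ →* Matrix ι ι F) (hρ : ∀ g, IsGraded deg (ρ g)) (j : ℕ) (g : Γ) (k : ℕ) :
    blk deg j (ρ g) ^ k = blk deg j (ρ (g ^ k)) := by
  induction k with
  | zero => rw [pow_zero, pow_zero, map_one, blk_one]
  | succ k ih => rw [pow_succ, pow_succ, map_mul, blk_mul (hρ _), ih]

theorem frob_pow {K : Type} [Field K] {Q : Ideal (𝓞 (AlgebraicClosure K))} {q : ℕ} {σ : GK K}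
    (hσ : FrobeniusAt Q q σ) (j : ℕ) : FrobeniusAt Q (q ^ j) (σ ^ j) := by
  induction j with
  | zero =>
    intro x
    rw [pow_zero, pow_zero, pow_one, one_smul, sub_self]
    exact Q.zero_mem
  | succ j ih =>
    intro x
    have h1 : (σ ^ (j + 1)) • x - x ^ (q ^ (j + 1)) =
        ((σ ^ j) • (σ • x) - (σ • x) ^ (q ^ j)) + ((σ • x) ^ (q ^ j) - (x ^ q) ^ (q ^ j)) := by
      rw [pow_succ σ, mul_smul, pow_succ' q, pow_mul]
      ring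
    rw [h1]
    refine Q.add_mem (ih _) ?_
    exact Q.mem_of_dvd (sub_dvd_pow_sub_pow _ _ _) (hσ x)

theorem exists_emb (ℓ : ℕ) [Fact ℓ.Prime] : Nonempty (ℚ_[ℓ] →+* ℂ) := by
  obtain ⟨e⟩ := Pool.Agent.R401.Iso.exists_iso ℓ
  exact ⟨(e : PadicAlgCl ℓ →+* ℂ).comp (algebraMap ℚ_[ℓ] (PadicAlgCl ℓ))⟩

/-- determinants of matrices over different fields with the same rational traces of all powers -/
theorem det_map_eq {k k' n : Type} [Field k] [Field k'] [Fintype n] [DecidableEq n] (e : k →+* ℂ)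
    (e' : k' →+* ℂ) (A : Matrix n n k) (A' : Matrix n n k')
    (h : ∀ j : ℕ, 1 ≤ j → e (A ^ j).trace = e' (A' ^ j).trace) : e A.det = e' A'.det := by
  have tm : ∀ (k : Type) [Field k] (e : k →+* ℂ) (A : Matrix n n k) (j : ℕ),
      ((A.map e) ^ j).trace = e (A ^ j).trace := by
    intro k _ e A j
    have h1 : (A.map e) ^ j = (A ^ j).map e := by
      rw [← RingHom.mapMatrix_apply, ← RingHom.mapMatrix_apply, map_pow]
    rw [h1, Matrix.trace, Matrix.trace, map_sum]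
    rfl
  have h2 : (A.map e).det = (A'.map e').det := by
    apply Pool.Agent.TH658.Eq.det_eq_of_traces
    intro j
    rw [tm, tm]
    rcases Nat.eq_zero_or_pos j with hj | hj
    · subst hj
      rw [pow_zero, pow_zero, Matrix.trace_one, Matrix.trace_one, map_natCast, map_natCast]
    · exact h j hj
  rw [← RingHom.mapMatrix_apply, ← RingHom.mapMatrix_apply, ← RingHom.map_det, ← RingHom.map_det]
    at h2
  exact h2

/-- a number with the square of a rational number -/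
theorem rat_of_sq {ℓ : ℕ} [Fact ℓ.Prime] {x : ℚ_[ℓ]} {r : ℚ} (h : x ^ 2 = (r : ℚ_[ℓ]) ^ 2) :
    x = r ∨ x = ((-r : ℚ) : ℚ_[ℓ]) := by
  rcases sq_eq_sq_iff_eq_or_eq_neg.1 h with h | h
  · exact Or.inl h
  · right
    rw [h, Rat.cast_neg]

end RAT

open RAT in
theorem t_RAT (hKAP : S_KAP) (hDNS : S_DNS) : S_RAT := by
  intro K _ _ ι _ _ X S χ Pol ρ hX hR hN hO v Q U₀ hQ hKT j hj
  obtain ⟨t2, ht2⟩ := hKT.traces
  obtain ⟨q, hq⟩ : ∃ q, q = Ideal.absNorm v.asIdeal := ⟨_, rfl⟩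
  have hq0 : (q : ℚ) ≠ 0 := by
    rw [hq]
    have := Ideal.absNorm_ne_zero_iff_mem_nonZeroDivisors (I := v.asIdeal)
    have h2 : Ideal.absNorm v.asIdeal ≠ 0 := by
      rw [Ne, Ideal.absNorm_eq_zero_iff]
      exact v.ne_bot
    exact_mod_cast h2
  have hcyc := hKT.cyclotomic
  rw [← hq] at ht2 hcyc
  rw [← hq]
  -- the number `κ`
  have key : ∀ (ℓ : ℕ) [Fact ℓ.Prime] (ℓ' : ℕ) [Fact ℓ'.Prime], (ℓ : 𝓞 K) ∉ v.asIdeal →
      (ℓ' : 𝓞 K) ∉ v.asIdeal → ∀ k : ℕ, 1 ≤ k → ∀ g, FrobeniusAt Q (q ^ k) g⁻¹ →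
      ∃ y : ℚ, (blk X.deg j (ρ ℓ g)).trace = (y : ℚ_[ℓ]) ∧
        (blk X.deg j (ρ ℓ' g)).trace = (y : ℚ_[ℓ']) := by
    intro ℓ _ ℓ' _ hℓ hℓ' k hk g hg
    -- traces of powers
    have htr : ∀ (ℓ : ℕ) [Fact ℓ.Prime], (ℓ : 𝓞 K) ∉ v.asIdeal → ∀ i : ℕ, 1 ≤ i →
        (blk X.deg 2 (ρ ℓ g) ^ i).trace = (t2 (g ^ i) : ℚ_[ℓ]) := by
      intro ℓ _ hℓ i hi
      rw [blk_pow (ρ ℓ) (hR ℓ).graded]
      refine ht2 ℓ hℓ (k * i) (Nat.mul_pos hk hi) _ ?_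
      rw [pow_mul, ← inv_pow]
      exact frob_pow hg i
    have hchi : ∀ (ℓ : ℕ) [Fact ℓ.Prime], (ℓ : 𝓞 K) ∉ v.asIdeal →
        χ ℓ g = (((q : ℚ) ^ k : ℚ) : ℚ_[ℓ]) := by
      intro ℓ _ hℓ
      rw [hcyc ℓ hℓ k g hg]
      push_cast
      rfl
    have hk2 : ∀ (ℓ : ℕ) [Fact ℓ.Prime], (ℓ : 𝓞 K) ∉ v.asIdeal →
        kap X (χ ℓ) (ρ ℓ) g = (((q : ℚ) ^ k : ℚ) : ℚ_[ℓ]) ∨
        kap X (χ ℓ) (ρ ℓ) g = ((-(q : ℚ) ^ k : ℚ) : ℚ_[ℓ]) := by
      intro ℓ _ hℓ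
      obtain ⟨_, h1, _⟩ := hKAP K ℓ ι X (S ℓ) (χ ℓ) Pol (ρ ℓ) hX (hR ℓ) (hO ℓ)
      obtain ⟨_, _, h2, _⟩ := h1 g
      rw [hchi ℓ hℓ] at h2
      exact rat_of_sq h2
    have hdet : ∀ (ℓ : ℕ) [Fact ℓ.Prime], (blk X.deg 2 (ρ ℓ g)).det =
        kap X (χ ℓ) (ρ ℓ) g ^ Fintype.card {a // X.deg a = 2} := by
      intro ℓ _
      obtain ⟨_, h1, _⟩ := hKAP K ℓ ι X (S ℓ) (χ ℓ) Pol (ρ ℓ) hX (hR ℓ) (hO ℓ)
      exact (h1 g).2.2.2
    obtain ⟨r, hr0, hr, hr'⟩ : ∃ r : ℚ, r ≠ 0 ∧ kap X (χ ℓ) (ρ ℓ) g = (r : ℚ_[ℓ]) ∧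
        kap X (χ ℓ') (ρ ℓ') g = (r : ℚ_[ℓ']) := by
      have hqk : (q : ℚ) ^ k ≠ 0 := pow_ne_zero _ hq0
      by_cases hb : Odd (Fintype.card {a // X.deg a = 2})
      · obtain ⟨e⟩ := exists_emb ℓ
        obtain ⟨e'⟩ := exists_emb ℓ'
        have h1 : e (blk X.deg 2 (ρ ℓ g)).det = e' (blk X.deg 2 (ρ ℓ' g)).det := by
          apply det_map_eq
          intro i hi
          rw [htr ℓ hℓ i hi, htr ℓ' hℓ' i hi, map_ratCast, map_ratCast]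
        rw [hdet ℓ, hdet ℓ', map_pow, map_pow] at h1
        have hne : ∀ z : ℂ, z ≠ 0 → z ^ Fintype.card {a // X.deg a = 2} ≠
            (-z) ^ Fintype.card {a // X.deg a = 2} := by
          intro z hz h
          rw [hb.neg_pow] at h
          have h2 : z ^ Fintype.card {a // X.deg a = 2} = 0 := by
            have h3 := add_eq_zero_iff_eq_neg.2 h
            rw [← two_mul] at h3
            exact (mul_eq_zero.1 h3).resolve_left two_ne_zero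
          exact pow_ne_zero _ hz h2
        have hqc : (((q : ℚ) ^ k : ℚ) : ℂ) ≠ 0 := by exact_mod_cast hqk
        rcases hk2 ℓ hℓ with h2 | h2 <;> rcases hk2 ℓ' hℓ' with h3 | h3
        · exact ⟨_, hqk, h2, h3⟩
        · exfalso
          rw [h2, h3, map_ratCast, map_ratCast, Rat.cast_neg] at h1
          exact hne _ hqc h1
        · exfalso
          rw [h2, h3, map_ratCast, map_ratCast, Rat.cast_neg] at h1
          exact hne _ hqc h1.symm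
        · exact ⟨_, neg_ne_zero.2 hqk, h2, h3⟩
      · refine ⟨(q : ℚ) ^ k, hqk, ?_, ?_⟩
        · unfold kap
          rw [if_neg hb]
          exact hchi ℓ hℓ
        · unfold kap
          rw [if_neg hb]
          exact hchi ℓ' hℓ'
    obtain ⟨G, hG, hG'⟩ := hDNS K ℓ ℓ' ι X (S ℓ) (S ℓ') (χ ℓ) (χ ℓ') Pol (ρ ℓ) (ρ ℓ') hX (hR ℓ)
      (hR ℓ') (hN ℓ) (hO ℓ) (hO ℓ') j hj g
    have hpt : ∀ (ℓ : ℕ) [Fact ℓ.Prime], (ℓ : 𝓞 K) ∉ v.asIdeal →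
        kap X (χ ℓ) (ρ ℓ) g = (r : ℚ_[ℓ]) → pt X (χ ℓ) (ρ ℓ) g =
          fun i => algebraMap ℚ ℚ_[ℓ] (t2 (g ^ (i + 1)) / r ^ (i + 1)) := by
      intro ℓ _ hℓ h1
      funext i
      unfold pt
      rw [h1, htr ℓ hℓ (i + 1) (by omega), eq_ratCast]
      push_cast
      rfl
    have hev : ∀ (ℓ : ℕ) [Fact ℓ.Prime] (x : ℕ → ℚ),
        MvPolynomial.eval₂ (algebraMap ℚ ℚ_[ℓ]) (fun i => algebraMap ℚ ℚ_[ℓ] (x i)) G =
          algebraMap ℚ ℚ_[ℓ] (MvPolynomial.eval x G) := by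
      intro ℓ _ x
      rw [MvPolynomial.eval, MvPolynomial.coe_eval₂Hom, MvPolynomial.eval₂_comp_left]
      rfl
    refine ⟨r ^ (j / 2) * MvPolynomial.eval (fun i => t2 (g ^ (i + 1)) / r ^ (i + 1)) G, ?_, ?_⟩
    · rw [hG, hr, hpt ℓ hℓ hr, hev, eq_ratCast]
      push_cast
      rfl
    · rw [hG', hr', hpt ℓ' hℓ' hr', hev, eq_ratCast]
      push_cast
      rfl
  -- a prime which is not below `v`
  obtain ⟨ℓ₁, hℓ₁, hℓ₁v⟩ : ∃ ℓ : ℕ, ℓ.Prime ∧ (ℓ : 𝓞 K) ∉ v.asIdeal := by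
    by_contra hcon
    push Not at hcon
    have h2 := hcon 2 Nat.prime_two
    have h3 := hcon 3 Nat.prime_three
    have h1 : (1 : 𝓞 K) ∈ v.asIdeal := by
      have h4 := v.asIdeal.sub_mem h3 h2
      have h5 : ((3 : ℕ) : 𝓞 K) - ((2 : ℕ) : 𝓞 K) = 1 := by
        push_cast
        ring
      rwa [h5] at h4
    exact v.isPrime.ne_top ((Ideal.eq_top_iff_one _).2 h1)
  have : Fact ℓ₁.Prime := ⟨hℓ₁⟩
  have ht : ∀ g : GK K, ∃ y : ℚ, ∀ k : ℕ, 1 ≤ k → FrobeniusAt Q (q ^ k) g⁻¹ →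
      (blk X.deg j (ρ ℓ₁ g)).trace = (y : ℚ_[ℓ₁]) := by
    intro g
    by_cases h : ∃ k : ℕ, 1 ≤ k ∧ FrobeniusAt Q (q ^ k) g⁻¹
    · obtain ⟨k, hk, hg⟩ := h
      obtain ⟨y, hy, _⟩ := key ℓ₁ ℓ₁ hℓ₁v hℓ₁v k hk g hg
      exact ⟨y, fun _ _ _ => hy⟩
    · exact ⟨0, fun k hk hg => absurd ⟨k, hk, hg⟩ h⟩
  choose t ht using ht
  refine ⟨t, fun ℓ _ hℓ k hk g hg => ?_⟩
  obtain ⟨y, hy, hy'⟩ := key ℓ ℓ₁ hℓ hℓ₁v k hk g hg
  have h1 := ht g k hk hg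
  rw [hy'] at h1
  have h2 : y = t g := by exact_mod_cast h1
  rw [hy, h2]

end Pool.Agent.NH56.HL
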