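import Pool.Agent.NH56.HL.Stm

/-!
# Local Euler factors of hyper-Kähler varieties: ROU, the second factor has finite order
-/

set_option autoImplicit false
set_option linter.unusedSectionVars false

namespace Pool.Agent.NH56.HL

open Matrix Polynomial Filter Topology NumberField IsDedekindDomain Pool.Agent.NH56.HY
open Pool.Agent.NH56.HO

namespace Rou

lemma root_iff {n : Type} [Fintype n] [DecidableEq n] (T : Matrix n n ℂ) (a : ℂ) :
    T.charpoly.IsRoot a ↔ ∃ v : n → ℂ, v ≠ 0 ∧ T *ᵥ v = a • v := by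
  rw [Polynomial.IsRoot.def, Matrix.eval_charpoly, ← Matrix.exists_mulVec_eq_zero_iff]
  constructor
  · rintro ⟨v, hv, h⟩
    refine ⟨v, hv, ?_⟩
    rw [Matrix.sub_mulVec, sub_eq_zero] at h
    rw [← h]
    ext i
    simp [Matrix.scalar_apply, Matrix.mulVec_diagonal]
  · rintro ⟨v, hv, h⟩
    refine ⟨v, hv, ?_⟩
    rw [Matrix.sub_mulVec, h, sub_eq_zero]
    ext i
    simp [Matrix.scalar_apply, Matrix.mulVec_diagonal]

lemma pow_mulVec {n : Type} [Fintype n] [DecidableEq n] (T : Matrix n n ℂ) (a : ℂ) (v : n → ℂ)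
    (h : T *ᵥ v = a • v) (k : ℕ) : T ^ k *ᵥ v = a ^ k • v := by
  induction k with
  | zero => simp
  | succ k ih =>
    rw [pow_succ, ← Matrix.mulVec_mulVec, h, Matrix.mulVec_smul, ih, smul_smul, pow_succ, mul_comm]

lemma root_pow {n : Type} [Fintype n] [DecidableEq n] (T : Matrix n n ℂ) (a : ℂ) (k : ℕ)
    (h : T.charpoly.IsRoot a) : (T ^ k).charpoly.IsRoot (a ^ k) := by
  obtain ⟨v, hv, hT⟩ := (root_iff T a).1 h
  exact (root_iff _ _).2 ⟨v, hv, pow_mulVec T a v hT k⟩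

section graded

variable {ι : Type} [Fintype ι] [DecidableEq ι] (deg : ι → ℕ) (j : ℕ)

/-- extension by zero -/
noncomputable def ex (x : {a // deg a = j} → ℂ) : ι → ℂ :=
  fun i => if h : deg i = j then x ⟨i, h⟩ else 0

lemma ex_val (x : {a // deg a = j} → ℂ) (i : {a // deg a = j}) : ex deg j x i = x i := by
  simp [ex, i.2]

lemma ex_smul (c : ℂ) (x : {a // deg a = j} → ℂ) : ex deg j (c • x) = c • ex deg j x := by
  ext i
  by_cases h : deg i = j <;> simp [ex, h]

lemma ex_ne (x : {a // deg a = j} → ℂ) (hx : x ≠ 0) : ex deg j x ≠ 0 := by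
  intro h
  apply hx
  ext i
  rw [← ex_val deg j x i, h]
  rfl

lemma sum_deg (f : ι → ℂ) (hf : ∀ k, deg k ≠ j → f k = 0) :
    ∑ k, f k = ∑ k : {a // deg a = j}, f k := by
  rw [← Finset.sum_subtype (Finset.univ.filter fun k => deg k = j) (by simp) f, Finset.sum_filter]
  apply Finset.sum_congr rfl
  intro k _
  split_ifs with h
  · rfl
  · exact hf k h

lemma sum_ex (f : ι → ℂ) (x : {a // deg a = j} → ℂ) :
    ∑ k, f k * ex deg j x k = ∑ k : {a // deg a = j}, f k * x k := by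
  rw [sum_deg deg j]
  · apply Finset.sum_congr rfl
    intro k _
    rw [ex_val]
  · intro k hk
    rw [ex, dif_neg hk, mul_zero]

lemma mul_ex (M : Matrix ι ι ℂ) (x : {a // deg a = j} → ℂ) (i : {a // deg a = j}) :
    (M *ᵥ ex deg j x) i = (blk deg j M *ᵥ x) i := by
  simp only [Matrix.mulVec, dotProduct, blk, Matrix.submatrix_apply]
  exact sum_ex deg j _ x

lemma graded_ex {M : Matrix ι ι ℂ} (hM : IsGraded deg M) (x : {a // deg a = j} → ℂ) :
    M *ᵥ ex deg j x = ex deg j (blk deg j M *ᵥ x) := by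
  ext i
  by_cases h : deg i = j
  · have := mul_ex deg j M x ⟨i, h⟩
    rw [this]
    exact (ex_val deg j (blk deg j M *ᵥ x) ⟨i, h⟩).symm
  · rw [ex, dif_neg h, Matrix.mulVec, dotProduct, sum_ex]
    apply Finset.sum_eq_zero
    intro k _
    rw [hM i k (by rw [k.2]; exact h), zero_mul]

lemma blk_mul {M : Matrix ι ι ℂ} (hM : IsGraded deg M) (M' : Matrix ι ι ℂ) :
    blk deg j (M * M') = blk deg j M * blk deg j M' := by
  ext i k
  simp only [blk, Matrix.submatrix_apply, Matrix.mul_apply]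
  apply sum_deg
  intro l hl
  rw [hM i l (by rw [i.2]; exact fun h => hl h.symm), zero_mul]

end graded

section add

variable {φ : ℂ → ℂ} (h : IsAdd (fun x : ℂ => x ≠ 0) φ)

include h

lemma phi_one : φ 1 = 0 := by
  have := h.map 1 1 one_ne_zero one_ne_zero
  rw [mul_one] at this
  linear_combination -this

lemma phi_inv (x : ℂ) (hx : x ≠ 0) : φ x⁻¹ = -φ x := by
  have := h.map x x⁻¹ hx (inv_ne_zero hx)
  rw [mul_inv_cancel₀ hx, phi_one h] at this
  linear_combination -this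

lemma phi_pow (x : ℂ) (hx : x ≠ 0) (n : ℕ) : φ (x ^ n) = n * φ x := by
  induction n with
  | zero => simp [phi_one h]
  | succ n ih =>
    rw [pow_succ, h.map _ _ (pow_ne_zero n hx) hx, ih]
    push_cast
    ring

lemma phi_zpow (x : ℂ) (hx : x ≠ 0) (n : ℤ) : φ (x ^ n) = n * φ x := by
  obtain ⟨m, rfl | rfl⟩ := n.eq_nat_or_neg
  · rw [zpow_natCast, phi_pow h x hx]
    simp
  · rw [_root_.zpow_neg, zpow_natCast, phi_inv h _ (pow_ne_zero m hx), phi_pow h x hx]
    simp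

lemma phi_prod {α : Type} (s : Finset α) (f : α → ℂ) (hf : ∀ i ∈ s, f i ≠ 0) :
    φ (∏ i ∈ s, f i) = ∑ i ∈ s, φ (f i) := by
  classical
  induction s using Finset.induction_on with
  | empty => simp [phi_one h]
  | insert a s ha ih =>
    rw [Finset.prod_insert ha, Finset.sum_insert ha, h.map _ _ (hf a (by simp))
      (Finset.prod_ne_zero_iff.2 fun i hi => hf i (by simp [hi])), ih fun i hi => hf i (by simp [hi])]

end add

section tor

variable {T : ℂ → Prop} (h : TorFree T) (h1 : T 1)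

include h h1

lemma tor_pow (x : ℂ) (hx : T x) (n : ℕ) : T (x ^ n) := by
  induction n with
  | zero => simpa using h1
  | succ n ih => rw [pow_succ]; exact h.mul _ _ ih hx

lemma tor_zpow (x : ℂ) (hx : T x) (n : ℤ) : T (x ^ n) := by
  obtain ⟨m, rfl | rfl⟩ := n.eq_nat_or_neg
  · rw [zpow_natCast]; exact tor_pow h h1 x hx m
  · rw [_root_.zpow_neg, zpow_natCast]; exact h.inv _ (tor_pow h h1 x hx m)

lemma tor_prod {α : Type} (s : Finset α) (f : α → ℂ) (hf : ∀ i ∈ s, T (f i)) :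
    T (∏ i ∈ s, f i) := by
  classical
  induction s using Finset.induction_on with
  | empty => simpa using h1
  | insert a s ha ih =>
    rw [Finset.prod_insert ha]
    exact h.mul _ _ (hf a (by simp)) (ih fun i hi => hf i (by simp [hi]))

end tor

lemma wd_frame {n : Type} [Fintype n] [DecidableEq n] (q : Matrix n n ℂ) {s e : ℕ}
    {u u' : Fin s → n → ℂ} {z : Fin e → n → ℂ} (h : Frame q u u' z) :
    (∀ i, u i ≠ 0) ∧ ∀ k, z k ≠ 0 := by
  constructor
  · intro i hi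
    have := h.uv i i
    rw [hi, if_pos rfl, bl, zero_dotProduct] at this
    exact zero_ne_one this
  · intro k hk
    have := h.zz k k
    rw [hk, if_pos rfl, bl, zero_dotProduct] at this
    exact zero_ne_one this

end Rou

open Rou in
theorem t_ROU (hFUN : S_FUN) (hMUL : S_MUL) (hTOR : S_TOR) (hFRC : S_FRC) (hWSP : S_WSP)
    (hINT : S_INT) (hBAS : S_BAS) : S_ROU := by
  intro ι _ _ X hX R R' κ hR hAT T N hT hN hroot s e u u' z c S A B hD j hj a ha
  obtain ⟨badd, bsmul, brat, bsa, bsk, bbr, bgr, btwo, -⟩ := hBAS ι X hX ℂ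
  have hq : (X.qF ℂ)ᵀ = X.qF ℂ := by
    rw [Coh.qF, ← Matrix.transpose_map, hX.symm]
  obtain ⟨-, fext, fhyp, fskew, fu, fu', fz, ftr, fcom, -⟩ :=
    hFRC _ (X.qF ℂ) hq s e u u' z hD.card hD.frame
  have hδ0 : X.δF ℂ 0 = 0 := by
    have := bsmul 0 0
    simpa using this
  obtain ⟨D, hDD⟩ : ∃ D : Fin s → Matrix ι ι ℂ,
      ∀ i, D i = X.δF ℂ (wd (X.qF ℂ) (u i) (u' i)) := ⟨_, fun _ => rfl⟩
  have hDgr : ∀ i, IsGraded X.deg (D i) := fun i => by rw [hDD]; exact bgr _
  have hDcom : ∀ i k, D i * D k = D k * D i := by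
    intro i k
    have h := bbr (wd (X.qF ℂ) (u i) (u' i)) (wd (X.qF ℂ) (u k) (u' k)) (fskew i)
    rw [fcom i k, sub_self, hδ0] at h
    rw [hDD, hDD]
    exact sub_eq_zero.1 h.symm
  have hBgr : IsGraded X.deg B := by
    intro i k hik
    have h := congrFun (congrFun hD.com.2 i) k
    rw [Coh.H, Matrix.mul_diagonal, Matrix.diagonal_mul] at h
    have h2 : ((X.deg i : ℂ) - X.deg k) * B i k = 0 := by linear_combination -h
    rcases mul_eq_zero.1 h2 with h3 | h3
    · exact absurd (Nat.cast_injective (sub_eq_zero.1 h3)) hik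
    · exact h3
  have hBD : ∀ i, B * D i = D i * B := by
    intro i
    rw [hDD, Coh.δF, Finset.mul_sum, Finset.sum_mul]
    refine Finset.sum_congr rfl fun a _ => ?_
    rw [Finset.mul_sum, Finset.sum_mul]
    refine Finset.sum_congr rfl fun b _ => ?_
    rw [Matrix.mul_smul, Matrix.smul_mul, hD.com.1]
  have hBDj : ∀ i, blk X.deg j B * blk X.deg j (D i) = blk X.deg j (D i) * blk X.deg j B := by
    intro i
    rw [← blk_mul _ _ hBgr, ← blk_mul _ _ (hDgr i), hBD]
  obtain ⟨E, hE⟩ := hWSP {a // X.deg a = j} s (Mx X) (fun i => blk X.deg j (D i))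
    (fun i k => by rw [← blk_mul _ _ (hDgr i), ← blk_mul _ _ (hDgr k), hDcom])
    (fun i => by rw [hDD]; exact hINT ι X hX (u i) (u' i) (fhyp i) j hj)
  obtain ⟨y, hy, hBy⟩ := (root_iff _ a).1 ha
  have hκ : κ ^ (j / 2) ≠ 0 := pow_ne_zero _ hD.κ_ne
  have hBy' : blk X.deg j B *ᵥ y = (κ ^ (j / 2) * a) • y := by
    rw [Matrix.smul_mulVec, inv_smul_eq_iff₀ hκ] at hBy
    rw [hBy, smul_smul]
  obtain ⟨μ, hμ⟩ : ∃ μ, E μ *ᵥ y ≠ 0 := by
    by_contra hcon
    push Not at hcon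
    apply hy
    have h1 : (∑ μ ∈ box s (Mx X), E μ) *ᵥ y = y := by rw [hE.sum, Matrix.one_mulVec]
    rw [← h1, Matrix.sum_mulVec]
    exact Finset.sum_eq_zero fun μ _ => hcon μ
  obtain ⟨x, hxy⟩ : ∃ x, x = E μ *ᵥ y := ⟨_, rfl⟩
  have hx : x ≠ 0 := by rw [hxy]; exact hμ
  have hBx : blk X.deg j B *ᵥ x = (κ ^ (j / 2) * a) • x := by
    rw [hxy, Matrix.mulVec_mulVec, hE.com (blk X.deg j B) hBDj μ, ← Matrix.mulVec_mulVec, hBy',
      Matrix.mulVec_smul]
  have hDx : ∀ i, blk X.deg j (D i) *ᵥ x = (μ i : ℂ) • x := by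
    intro i
    rw [hxy, Matrix.mulVec_mulVec, hE.left i μ, Matrix.smul_mulVec]
  have hAx : blk X.deg j A *ᵥ x = (∏ i, c i ^ μ i) • x :=
    hD.eig j μ x (fun i => by rw [← hDD]; exact hDx i)
  obtain ⟨lam, hlam⟩ : ∃ lam, lam = κ ^ (j / 2) * a * ∏ i, c i ^ μ i := ⟨_, rfl⟩
  have hSx : blk X.deg j S *ᵥ x = lam • x := by
    rw [hD.eq, blk_mul _ _ hD.graded.2, ← Matrix.mulVec_mulVec, hBx, Matrix.mulVec_smul, hAx,
      smul_smul, hlam]
  obtain ⟨v, hv1⟩ : ∃ v, v = ex X.deg j x := ⟨_, rfl⟩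
  have hv : v ≠ 0 := by rw [hv1]; exact ex_ne _ _ _ hx
  have hSv : S *ᵥ v = lam • v := by
    rw [hv1, graded_ex _ _ hD.graded.1, hSx, ex_smul]
  obtain ⟨⟨S', hS'⟩, mchar, -, -, mgen, -, -, -⟩ := hMUL ι R R' S hR.mul hD.fn
  have hS'' : S' * S = 1 := mul_eq_one_comm.1 hS'
  have hlam0 : lam ≠ 0 := by
    intro h0
    apply hv
    have h1 : (S' * S) *ᵥ v = v := by rw [hS'', Matrix.one_mulVec]
    rw [← h1, ← Matrix.mulVec_mulVec, hSv, h0, zero_smul, Matrix.mulVec_zero]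
  have ha0 : a ≠ 0 := by
    intro h0
    apply hlam0
    rw [hlam, h0, mul_zero, zero_mul]
  have hcz : ∀ i, c i ^ μ i ≠ 0 := fun i => zpow_ne_zero _ (hD.ne i)
  -- the eigenvectors in degree two
  have hSu : ∀ i, S *ᵥ ex X.deg 2 (u i) = (κ * c i) • ex X.deg 2 (u i) := by
    intro i
    have h := hD.acts.u i
    rw [Matrix.smul_mulVec, inv_smul_eq_iff₀ hD.κ_ne, smul_smul] at h
    rw [graded_ex _ _ hD.graded.1, h, ex_smul]
  have hSv' : ∀ i, S *ᵥ ex X.deg 2 (u' i) = (κ * (c i)⁻¹) • ex X.deg 2 (u' i) := by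
    intro i
    have h := hD.acts.v i
    rw [Matrix.smul_mulVec, inv_smul_eq_iff₀ hD.κ_ne, smul_smul] at h
    rw [graded_ex _ _ hD.graded.1, h, ex_smul]
  have hSz : ∀ k, S *ᵥ ex X.deg 2 (z k) = κ • ex X.deg 2 (z k) := by
    intro i
    have h := hD.acts.z i
    rw [Matrix.smul_mulVec, inv_smul_eq_iff₀ hD.κ_ne] at h
    rw [graded_ex _ _ hD.graded.1, h, ex_smul]
  have hne := wd_frame (X.qF ℂ) hD.frame
  -- `a` is a root of unity
  have hroot1 : ∃ m : ℕ, 0 < m ∧ a ^ m = 1 := by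
    by_contra hcon
    push Not at hcon
    obtain ⟨φ, hφ, hφa⟩ := hTOR a ha0 hcon
    apply hφa
    obtain ⟨M, hM⟩ := (hFUN ℂ ι φ R).1
    have hval : ∀ (t : ℂ) (w : ι → ℂ), S *ᵥ w = t • w → M *ᵥ w = φ t • w := by
      intro t w hw
      obtain ⟨k, hk⟩ := mgen t w hw
      exact hM t k w hk
    have hblk : ∀ (t : ℂ) (w : {a // X.deg a = 2} → ℂ), S *ᵥ ex X.deg 2 w = t • ex X.deg 2 w →
        blk X.deg 2 M *ᵥ w = φ t • w := by
      intro t w hw
      ext i
      rw [← mul_ex, hval t _ hw, Pi.smul_apply, Pi.smul_apply, ex_val]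
    have hM2 : blk X.deg 2 M = φ κ • (1 : Matrix {a // X.deg a = 2} {a // X.deg a = 2} ℂ) +
        ∑ i, φ (c i) • wd (X.qF ℂ) (u i) (u' i) := by
      apply fext
      · intro k
        rw [hblk _ _ (hSu k), Matrix.add_mulVec, Matrix.smul_mulVec, Matrix.one_mulVec,
          Matrix.sum_mulVec, Finset.sum_eq_single k]
        · rw [Matrix.smul_mulVec, fu, if_pos rfl, hφ.map _ _ hD.κ_ne (hD.ne k), add_smul]
        · intro i _ hik
          rw [Matrix.smul_mulVec, fu, if_neg hik, smul_zero]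
        · simp
      · intro k
        rw [hblk _ _ (hSv' k), Matrix.add_mulVec, Matrix.smul_mulVec, Matrix.one_mulVec,
          Matrix.sum_mulVec, Finset.sum_eq_single k]
        · rw [Matrix.smul_mulVec, fu', if_pos rfl, hφ.map _ _ hD.κ_ne (inv_ne_zero (hD.ne k)),
            phi_inv hφ _ (hD.ne k), add_smul, smul_neg, neg_smul]
        · intro i _ hik
          rw [Matrix.smul_mulVec, fu', if_neg hik, smul_zero]
        · simp
      · intro k
        rw [hblk _ _ (hSz k), Matrix.add_mulVec, Matrix.smul_mulVec, Matrix.one_mulVec,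
          Matrix.sum_mulVec, Finset.sum_eq_zero, add_zero]
        intro i _
        rw [Matrix.smul_mulVec, fz, smul_zero]
    have hb : (Fintype.card {a // X.deg a = 2} : ℂ) ≠ 0 := by
      have := hX.betti
      exact Nat.cast_ne_zero.2 (by omega)
    have htr : (blk X.deg 2 M).trace = Fintype.card {a // X.deg a = 2} * φ κ := by
      rw [hM2, Matrix.trace_add, Matrix.trace_smul, Matrix.trace_one, Matrix.trace_sum,
        Finset.sum_eq_zero, add_zero, smul_eq_mul, mul_comm]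
      intro i _
      rw [Matrix.trace_smul, ftr, smul_zero]
    have hδ1 : X.δF ℂ 1 = 0 := bsa 1 (by simp)
    have hδs : ∀ (I : Finset (Fin s)), X.δF ℂ (∑ i ∈ I, φ (c i) • wd (X.qF ℂ) (u i) (u' i)) =
        ∑ i ∈ I, φ (c i) • D i := by
      classical
      intro I
      induction I using Finset.induction_on with
      | empty => simpa using hδ0
      | insert i I hi ih => rw [Finset.sum_insert hi, Finset.sum_insert hi, badd, bsmul, ih, hDD]
    have hMM : M = ∑ i, φ (c i) • D i + (φ κ / 2) • X.H ℂ := by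
      have h := hAT φ hφ M hM
      rw [Coh.δt, htr] at h
      have h2 : X.δF ℂ (blk X.deg 2 M) = ∑ i, φ (c i) • D i := by
        rw [hM2, badd, bsmul, hδ1, smul_zero, zero_add, hδs]
      rw [h2] at h
      rw [h]
      congr 2
      field_simp
    have hDv : ∀ i, D i *ᵥ v = (μ i : ℂ) • v := by
      intro i
      rw [hv1, graded_ex _ _ (hDgr i), hDx, ex_smul]
    have hHv : X.H ℂ *ᵥ v = (j : ℂ) • v := by
      ext i
      rw [Coh.H, Matrix.mulVec_diagonal, Pi.smul_apply, smul_eq_mul, hv1]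
      by_cases h : X.deg i = j
      · rw [h]
      · rw [ex, dif_neg h, mul_zero, mul_zero]
    have hMv : M *ᵥ v = (∑ i, φ (c i) * μ i + φ κ / 2 * j) • v := by
      rw [hMM, Matrix.add_mulVec, Matrix.sum_mulVec, Matrix.smul_mulVec, hHv, add_smul,
        Finset.sum_smul, smul_smul]
      congr 1
      apply Finset.sum_congr rfl
      intro i _
      rw [Matrix.smul_mulVec, hDv, smul_smul]
    rw [hval lam v hSv] at hMv
    have hcmp := smul_left_injective ℂ hv hMv
    have hφl : φ lam = (j / 2 : ℕ) * φ κ + φ a + ∑ i, (μ i : ℂ) * φ (c i) := by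
      rw [hlam, hφ.map _ _ (mul_ne_zero hκ ha0) (Finset.prod_ne_zero_iff.2 fun i _ => hcz i),
        hφ.map _ _ hκ ha0, phi_pow hφ κ hD.κ_ne, phi_prod hφ _ _ fun i _ => hcz i]
      congr 1
      exact Finset.sum_congr rfl fun i _ => phi_zpow hφ _ (hD.ne i) _
    have hj2 : (j : ℂ) = 2 * (j / 2 : ℕ) := by
      have : j = 2 * (j / 2) := (Nat.two_mul_div_two_of_even hj).symm
      exact_mod_cast this
    have hs : ∑ i, (μ i : ℂ) * φ (c i) = ∑ i, φ (c i) * μ i :=
      Finset.sum_congr rfl fun i _ => mul_comm _ _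
    rw [hφl, hs, hj2] at hcmp
    linear_combination hcmp
  -- the group `T`
  obtain ⟨m, hm, ham⟩ := hroot1
  have hTS : ∀ (t : ℂ) (w : ι → ℂ), w ≠ 0 → S *ᵥ w = t • w → T (t ^ N) := by
    intro t w hw h
    apply hroot
    apply root_pow
    rw [← mchar]
    exact (root_iff _ _).2 ⟨w, hw, h⟩
  have hTl : T (lam ^ N) := hTS lam v hv hSv
  have hTk : T (κ ^ N) := hTS κ _ (ex_ne _ _ _ (hne.2 ⟨0, hD.e_pos⟩)) (hSz ⟨0, hD.e_pos⟩)
  have hT1 : T 1 := by
    have := hT.mul _ _ hTk (hT.inv _ hTk)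
    rwa [mul_inv_cancel₀ (hT.ne _ hTk)] at this
  have hTc : ∀ i, T (c i ^ N) := by
    intro i
    have h := hT.mul _ _ (hTS _ _ (ex_ne _ _ _ (hne.1 i)) (hSu i)) (hT.inv _ hTk)
    rwa [mul_pow, mul_comm, ← mul_assoc, inv_mul_cancel₀ (hT.ne _ hTk), one_mul] at h
  have hTp : T ((∏ i, c i ^ μ i) ^ N) := by
    rw [← Finset.prod_pow]
    apply tor_prod hT hT1
    intro i _
    rw [← zpow_natCast, ← _root_.zpow_mul, mul_comm, _root_.zpow_mul, zpow_natCast]
    exact tor_zpow hT hT1 _ (hTc i) _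
  have hTa : T (a ^ N) := by
    have h := hT.mul _ _ (hT.mul _ _ hTl (hT.inv _ hTp)) (hT.inv _ (tor_pow hT hT1 _ hTk (j / 2)))
    have he : lam ^ N * ((∏ i, c i ^ μ i) ^ N)⁻¹ * ((κ ^ N) ^ (j / 2))⁻¹ = a ^ N := by
      have h1 : (∏ i, c i ^ μ i) ≠ 0 := Finset.prod_ne_zero_iff.2 fun i _ => hcz i
      have h2 : κ ≠ 0 := hD.κ_ne
      rw [hlam, mul_pow, mul_pow, ← pow_mul, ← pow_mul, mul_comm N (j / 2)]
      field_simp
    rwa [he] at h
  apply hT.tor _ hTa m hm
  rw [← pow_mul, mul_comm, pow_mul, ham, one_pow]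

end Pool.Agent.NH56.HL
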