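import Pool.Agent.NH56.HL.Stm

/-!
# SKW: an `sl₂`-triple in the Lie algebra `so(q)` (helper31)
-/

set_option autoImplicit false

namespace Pool.Agent.NH56.HL

open Matrix

namespace SKW

variable {n : Type} [Fintype n] [DecidableEq n]

theorem star_rel {q p A : Matrix n n ℂ} (hp1 : p * q = 1) (hp2 : q * p = 1)
    (hA : Aᵀ * q + q * A = 0) : Aᵀ * q = -(q * A) ∧ p * Aᵀ = -(A * p) := by
  have e1 : Aᵀ * q = -(q * A) := eq_neg_of_add_eq_zero_left hA
  refine ⟨e1, ?_⟩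
  calc p * Aᵀ = p * (Aᵀ * (q * p)) := by rw [hp2, mul_one]
    _ = p * (Aᵀ * q * p) := by rw [← mul_assoc Aᵀ]
    _ = p * (-(q * A) * p) := by rw [e1]
    _ = -((p * q) * A * p) := by simp only [neg_mul, mul_neg, mul_assoc]
    _ = -(A * p) := by rw [hp1, one_mul]

omit [DecidableEq n] in
theorem comm_rel {q p A E : Matrix n n ℂ} (hA : Aᵀ * q = -(q * A)) (hA' : p * Aᵀ = -(A * p)) :
    A * (p * Eᵀ * q) - (p * Eᵀ * q) * A = p * (A * E - E * A)ᵀ * q := by
  rw [transpose_sub, transpose_mul, transpose_mul, mul_sub, sub_mul]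
  have e1 : p * (Eᵀ * Aᵀ) * q = -((p * Eᵀ * q) * A) := by
    calc p * (Eᵀ * Aᵀ) * q = p * Eᵀ * (Aᵀ * q) := by simp only [mul_assoc]
      _ = -((p * Eᵀ * q) * A) := by rw [hA]; simp only [mul_neg, mul_assoc]
  have e2 : p * (Aᵀ * Eᵀ) * q = -(A * (p * Eᵀ * q)) := by
    calc p * (Aᵀ * Eᵀ) * q = p * Aᵀ * Eᵀ * q := by simp only [mul_assoc]
      _ = -(A * (p * Eᵀ * q)) := by rw [hA']; simp only [neg_mul, mul_assoc]
  rw [e1, e2]
  abel

end SKW

open SKW in
theorem t_SKW : S_SKW := by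
  intro n _ _ q E H N hq hdet hH hN h1 h2
  have hu : IsUnit q.det := isUnit_iff_ne_zero.2 hdet
  obtain ⟨p, hp1, hp2⟩ : ∃ p : Matrix n n ℂ, p * q = 1 ∧ q * p = 1 :=
    ⟨q⁻¹, nonsing_inv_mul q hu, mul_nonsing_inv q hu⟩
  have hpt : pᵀ = p := by
    have e : pᵀ * q = 1 := by
      have := congrArg transpose hp2
      rwa [transpose_mul, hq, transpose_one] at this
    calc pᵀ = pᵀ * (q * p) := by rw [hp2, mul_one]
      _ = p := by rw [← mul_assoc, e, one_mul]
  obtain ⟨a1, a2⟩ := star_rel hp1 hp2 hH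
  obtain ⟨b1, b2⟩ := star_rel hp1 hp2 hN
  have k1 := comm_rel (E := E) a1 a2
  have k2 := comm_rel (E := E) b1 b2
  set F : Matrix n n ℂ := p * Eᵀ * q with hF
  have f1 : H * F - F * H = (2 : ℂ) • F := by
    rw [k1, h1, transpose_smul, hF, Matrix.mul_smul, Matrix.smul_mul]
  have f2 : N * F - F * N = H := by
    have e : N * E - E * N = -H := by rw [← h2]; abel
    rw [k2, e, transpose_neg, mul_neg, a2, neg_neg, mul_assoc, hp1, mul_one]
  have f3 : q * F = Eᵀ * q := by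
    rw [hF, ← mul_assoc, ← mul_assoc, hp2, one_mul]
  have f4 : Fᵀ * q = q * E := by
    rw [hF, transpose_mul, transpose_mul, transpose_transpose, hq, hpt, mul_assoc, mul_assoc, hp1,
      mul_one]
  refine ⟨(1 / 2 : ℂ) • (E - F), ?_, ?_, ?_⟩
  · rw [transpose_smul, transpose_sub, Matrix.smul_mul, Matrix.mul_smul, sub_mul, mul_sub, f3, f4, ← smul_add]
    have e : Eᵀ * q - q * E + (q * E - Eᵀ * q) = 0 := by abel
    rw [e, smul_zero]
  · rw [Matrix.mul_smul, Matrix.smul_mul, ← smul_sub, mul_sub, sub_mul]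
    have e : H * E - H * F - (E * H - F * H) = (H * E - E * H) - (H * F - F * H) := by abel
    rw [e, h1, f1, ← smul_sub, smul_comm]
  · rw [Matrix.mul_smul, Matrix.smul_mul, ← smul_sub, mul_sub, sub_mul]
    have e : E * N - F * N - (N * E - N * F) = (E * N - N * E) + (N * F - F * N) := by abel
    rw [e, h2, f2, ← two_smul ℂ H, smul_smul]
    norm_num

end Pool.Agent.NH56.HL
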