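import Pool.Agent.NH56.HL.Stm

/-!
# Local Euler factors of hyper-Kähler varieties at all places: sums over injective maps

The sum over all permutations `σ` of the products of the numbers
`c (σ i) ^ m i + c (σ i) ^ (-m i)` is a polynomial in the power sums `ps e c k`.
-/

set_option autoImplicit false

namespace Pool.Agent.NH56.HL

namespace Sya

open Finset

/-- the function `F` is a polynomial in the power sums -/
def Pol {s : ℕ} (e : ℂ) (F : (Fin s → ℂ) → ℂ) : Prop :=
  ∃ G : MvPolynomial ℕ ℂ, ∀ c : Fin s → ℂ, (∀ i, c i ≠ 0) → F c = MvPolynomial.eval (ps e c) G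

theorem pol_congr {s : ℕ} {e : ℂ} {F H : (Fin s → ℂ) → ℂ} (hF : Pol e F)
    (h : ∀ c : Fin s → ℂ, (∀ i, c i ≠ 0) → H c = F c) : Pol e H := by
  obtain ⟨G, hG⟩ := hF
  exact ⟨G, fun c hc => (h c hc).trans (hG c hc)⟩

theorem pol_const {s : ℕ} {e : ℂ} (a : ℂ) : Pol e (fun _ : Fin s → ℂ => a) :=
  ⟨MvPolynomial.C a, fun c _ => by simp⟩

theorem pol_add {s : ℕ} {e : ℂ} {F H : (Fin s → ℂ) → ℂ} (hF : Pol e F) (hH : Pol e H) :
    Pol e (fun c => F c + H c) := by
  obtain ⟨G, hG⟩ := hF
  obtain ⟨K, hK⟩ := hH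
  exact ⟨G + K, fun c hc => by rw [map_add, ← hG c hc, ← hK c hc]⟩

theorem pol_sub {s : ℕ} {e : ℂ} {F H : (Fin s → ℂ) → ℂ} (hF : Pol e F) (hH : Pol e H) :
    Pol e (fun c => F c - H c) := by
  obtain ⟨G, hG⟩ := hF
  obtain ⟨K, hK⟩ := hH
  exact ⟨G - K, fun c hc => by rw [map_sub, ← hG c hc, ← hK c hc]⟩

theorem pol_mul {s : ℕ} {e : ℂ} {F H : (Fin s → ℂ) → ℂ} (hF : Pol e F) (hH : Pol e H) :
    Pol e (fun c => F c * H c) := by
  obtain ⟨G, hG⟩ := hF
  obtain ⟨K, hK⟩ := hH
  exact ⟨G * K, fun c hc => by rw [map_mul, ← hG c hc, ← hK c hc]⟩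

theorem pol_sum {s : ℕ} {e : ℂ} {α : Type} (t : Finset α) (F : α → (Fin s → ℂ) → ℂ)
    (hF : ∀ a ∈ t, Pol e (F a)) : Pol e (fun c => ∑ a ∈ t, F a c) := by
  classical
  induction t using Finset.induction_on with
  | empty => exact pol_congr (pol_const 0) (fun c _ => by simp)
  | insert a t ha ih =>
    exact pol_congr (pol_add (hF a (mem_insert_self a t))
      (ih (fun b hb => hF b (mem_insert_of_mem hb)))) (fun c _ => by rw [sum_insert ha])

/-- sums of the functions `x ^ k + x ^ (-k)` -/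
inductive L : (ℂ → ℂ) → Prop
  | h (k : ℤ) : L (fun x => x ^ k + x ^ (-k))
  | add {f g : ℂ → ℂ} : L f → L g → L (fun x => f x + g x)
  | congr {f g : ℂ → ℂ} : L f → (∀ x, x ≠ 0 → g x = f x) → L g

theorem l_mul {f g : ℂ → ℂ} (hf : L f) (hg : L g) : L (fun x => f x * g x) := by
  induction hf with
  | h a =>
    induction hg with
    | h b =>
      refine L.congr (L.add (L.h (a + b)) (L.h (a - b))) (fun x hx => ?_)
      have e1 : x ^ (a + b) = x ^ a * x ^ b := zpow_add₀ hx _ _
      have e2 : x ^ (-(a + b)) = x ^ (-a) * x ^ (-b) := by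
        rw [← zpow_add₀ hx]; congr 1; ring
      have e3 : x ^ (a - b) = x ^ a * x ^ (-b) := by
        rw [← zpow_add₀ hx]; congr 1
      have e4 : x ^ (-(a - b)) = x ^ (-a) * x ^ b := by
        rw [← zpow_add₀ hx]; congr 1; ring
      show (x ^ a + x ^ (-a)) * (x ^ b + x ^ (-b)) =
        (x ^ (a + b) + x ^ (-(a + b))) + (x ^ (a - b) + x ^ (-(a - b)))
      rw [e1, e2, e3, e4]
      ring
    | add _ _ ih1 ih2 =>
      exact L.congr (L.add ih1 ih2) (fun x _ => by ring)
    | congr _ h2 ih =>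
      exact L.congr ih (fun x hx => by simp only [h2 x hx])
  | add _ _ ih1 ih2 =>
    exact L.congr (L.add ih1 ih2) (fun x _ => by ring)
  | congr _ h2 ih =>
    exact L.congr ih (fun x hx => by simp only [h2 x hx])

theorem pol_h {s : ℕ} {e : ℂ} (m : ℕ) :
    Pol e (fun c : Fin s → ℂ => ∑ i, (c i ^ (m + 1) + (c i)⁻¹ ^ (m + 1))) := by
  refine ⟨MvPolynomial.X m - MvPolynomial.C e, fun c _ => ?_⟩
  simp [ps]

theorem pol_l {s : ℕ} {e : ℂ} {f : ℂ → ℂ} (hf : L f) :
    Pol e (fun c : Fin s → ℂ => ∑ i, f (c i)) := by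
  induction hf with
  | h k =>
    rcases lt_trichotomy k 0 with hk | hk | hk
    · obtain ⟨m, rfl⟩ : ∃ m : ℕ, k = -((m : ℤ) + 1) := ⟨(-k - 1).toNat, by omega⟩
      refine pol_congr (pol_h m) (fun c _ => Finset.sum_congr rfl fun i _ => ?_)
      have e1 : c i ^ (-((m : ℤ) + 1)) = (c i)⁻¹ ^ (m + 1) := by
        rw [zpow_neg, ← inv_zpow]; exact_mod_cast zpow_natCast ((c i)⁻¹) (m + 1)
      have e2 : c i ^ (-(-((m : ℤ) + 1))) = (c i) ^ (m + 1) := by
        rw [neg_neg]; exact_mod_cast zpow_natCast (c i) (m + 1)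
      show c i ^ (-((m : ℤ) + 1)) + c i ^ (-(-((m : ℤ) + 1))) = _
      rw [e1, e2, add_comm]
    · subst hk
      refine pol_congr (pol_const ((s : ℂ) * 2)) (fun c _ => ?_)
      simp only [neg_zero, zpow_zero, Finset.sum_const, Finset.card_univ, Fintype.card_fin,
        nsmul_eq_mul]
      ring
    · obtain ⟨m, rfl⟩ : ∃ m : ℕ, k = (m : ℤ) + 1 := ⟨(k - 1).toNat, by omega⟩
      refine pol_congr (pol_h m) (fun c _ => Finset.sum_congr rfl fun i _ => ?_)
      have e1 : c i ^ (-((m : ℤ) + 1)) = (c i)⁻¹ ^ (m + 1) := by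
        rw [zpow_neg, ← inv_zpow]; exact_mod_cast zpow_natCast ((c i)⁻¹) (m + 1)
      have e2 : c i ^ ((m : ℤ) + 1) = (c i) ^ (m + 1) := by
        exact_mod_cast zpow_natCast (c i) (m + 1)
      show c i ^ ((m : ℤ) + 1) + c i ^ (-((m : ℤ) + 1)) = _
      rw [e1, e2]
  | add _ _ ih1 ih2 =>
    exact pol_congr (pol_add ih1 ih2) (fun c _ => Finset.sum_add_distrib)
  | congr _ h2 ih =>
    exact pol_congr ih (fun c hc => Finset.sum_congr rfl fun i _ => h2 _ (hc i))

open Classical in
/-- the sum over all injective maps -/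
noncomputable def A {s : ℕ} (r : ℕ) (f : Fin r → ℂ → ℂ) (c : Fin s → ℂ) : ℂ :=
  ∑ φ : Fin r → Fin s, if Function.Injective φ then ∏ k, f k (c (φ k)) else 0

theorem a_zero {s : ℕ} (f : Fin 0 → ℂ → ℂ) (c : Fin s → ℂ) : A 0 f c = 1 := by
  unfold A
  have h : Function.Injective (default : Fin 0 → Fin s) := fun a => a.elim0
  rw [Fintype.sum_unique, if_pos h]
  simp

open Classical in
theorem sum_compl {s r : ℕ} (φ : Fin r → Fin s) (hφ : Function.Injective φ) (g : Fin s → ℂ) :
    (∑ i, if i ∉ Set.range φ then g i else 0) = ∑ i, g i - ∑ k, g (φ k) := by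
  have h1 : ∑ k, g (φ k) = ∑ i, if i ∈ Set.range φ then g i else 0 := by
    rw [← Finset.sum_filter]
    have h2 : (Finset.univ.filter fun i => i ∈ Set.range φ) = Finset.univ.image φ := by
      ext i; simp
    rw [h2, Finset.sum_image (fun a _ b _ hab => hφ hab)]
  rw [h1, ← Finset.sum_sub_distrib]
  refine Finset.sum_congr rfl fun i _ => ?_
  by_cases hi : i ∈ Set.range φ
  · rw [if_neg (not_not.mpr hi), if_pos hi, sub_self]
  · rw [if_pos hi, if_neg hi, sub_zero]

theorem prod_update {s r : ℕ} (g : Fin r → ℂ → ℂ) (f : ℂ → ℂ) (c : Fin s → ℂ)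
    (φ : Fin r → Fin s) (k : Fin r) :
    ∏ j, (Function.update g k (fun x => g k x * f x)) j (c (φ j)) =
      (∏ j, g j (c (φ j))) * f (c (φ k)) := by
  rw [← Finset.mul_prod_erase Finset.univ _ (Finset.mem_univ k),
    ← Finset.mul_prod_erase Finset.univ (fun j => g j (c (φ j))) (Finset.mem_univ k)]
  have h1 : ∏ j ∈ Finset.univ.erase k,
      (Function.update g k (fun x => g k x * f x)) j (c (φ j)) =
      ∏ j ∈ Finset.univ.erase k, g j (c (φ j)) := by
    refine Finset.prod_congr rfl fun j hj => ?_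
    rw [Function.update_of_ne (Finset.ne_of_mem_erase hj)]
  rw [h1, Function.update_self]
  ring

theorem a_succ {s : ℕ} (r : ℕ) (f : Fin (r + 1) → ℂ → ℂ) (c : Fin s → ℂ) :
    A (r + 1) f c = (∑ i, f 0 (c i)) * A r (fun k => f k.succ) c -
      ∑ k : Fin r, A r (Function.update (fun k => f k.succ) k
        (fun x => f k.succ x * f 0 x)) c := by
  classical
  unfold A
  have h1 : (∑ ψ : Fin (r + 1) → Fin s,
      if Function.Injective ψ then ∏ k, f k (c (ψ k)) else 0) =
      ∑ p : Fin s × (Fin r → Fin s), if Function.Injective (Fin.cons p.1 p.2 : Fin (r + 1) → Fin s)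
        then ∏ k, f k (c ((Fin.cons p.1 p.2 : Fin (r + 1) → Fin s) k)) else 0 :=
    (Fintype.sum_equiv (Fin.consEquiv (fun _ : Fin (r + 1) => Fin s)) _ _ (fun p => rfl)).symm
  rw [h1, Fintype.sum_prod_type_right]
  have h2 : ∀ φ : Fin r → Fin s, (∑ i : Fin s,
      if Function.Injective (Fin.cons i φ : Fin (r + 1) → Fin s)
        then ∏ k, f k (c ((Fin.cons i φ : Fin (r + 1) → Fin s) k)) else 0) =
      (∑ i, f 0 (c i)) * (if Function.Injective φ then ∏ k : Fin r, f k.succ (c (φ k)) else 0) -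
        ∑ k : Fin r, (if Function.Injective φ then
          ∏ j : Fin r, (Function.update (fun k : Fin r => f k.succ) k
            (fun x => f k.succ x * f 0 x)) j (c (φ j)) else 0) := by
    intro φ
    by_cases hφ : Function.Injective φ
    · simp only [if_pos hφ]
      have h3 : (∑ i : Fin s,
          if Function.Injective (Fin.cons i φ : Fin (r + 1) → Fin s)
            then ∏ k, f k (c ((Fin.cons i φ : Fin (r + 1) → Fin s) k)) else 0) =
          ∑ i : Fin s, (if i ∉ Set.range φ then f 0 (c i) else 0) *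
            ∏ k : Fin r, f k.succ (c (φ k)) := by
        refine Finset.sum_congr rfl fun i _ => ?_
        rw [Fin.prod_univ_succ]
        simp only [Fin.cons_zero, Fin.cons_succ]
        by_cases hi : i ∈ Set.range φ
        · rw [if_neg, if_neg (not_not.mpr hi), zero_mul]
          rw [Fin.cons_injective_iff]
          exact fun h => h.1 hi
        · rw [if_pos, if_pos hi]
          rw [Fin.cons_injective_iff]
          exact ⟨hi, hφ⟩
      rw [h3, ← Finset.sum_mul, sum_compl φ hφ (fun i => f 0 (c i))]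
      have h4 : ∀ k : Fin r, (∏ j : Fin r, (Function.update (fun k : Fin r => f k.succ) k
            (fun x => f k.succ x * f 0 x)) j (c (φ j))) =
          (∏ j : Fin r, f j.succ (c (φ j))) * f 0 (c (φ k)) := fun k =>
        prod_update (fun k : Fin r => f k.succ) (f 0) c φ k
      rw [Finset.sum_congr rfl fun k _ => h4 k, ← Finset.mul_sum]
      ring
    · simp only [if_neg hφ]
      rw [Finset.sum_eq_zero, Finset.sum_const_zero, mul_zero, sub_zero]
      intro i _
      rw [if_neg]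
      rw [Fin.cons_injective_iff]
      exact fun h => hφ h.2
  rw [Finset.sum_congr rfl fun φ _ => h2 φ, Finset.sum_sub_distrib, ← Finset.mul_sum,
    Finset.sum_comm]

theorem pol_a {s : ℕ} {e : ℂ} (r : ℕ) : ∀ f : Fin r → ℂ → ℂ, (∀ k, L (f k)) →
    Pol e (fun c : Fin s → ℂ => A r f c) := by
  induction r with
  | zero => exact fun f _ => pol_congr (pol_const 1) (fun c _ => a_zero f c)
  | succ r ih =>
    intro f hf
    refine pol_congr (pol_sub (pol_mul (pol_l (hf 0)) (ih (fun k => f k.succ) fun k => hf _))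
      (pol_sum Finset.univ (fun k c => A r (Function.update (fun k => f k.succ) k
        (fun x => f k.succ x * f 0 x)) c) fun k _ => ih _ fun j => ?_)) (fun c _ => a_succ r f c)
    by_cases hj : j = k
    · subst hj
      rw [Function.update_self]
      exact l_mul (hf _) (hf _)
    · rw [Function.update_of_ne hj]
      exact hf _

theorem a_perm {s : ℕ} (f : Fin s → ℂ → ℂ) (c : Fin s → ℂ) :
    ∑ σ : Equiv.Perm (Fin s), ∏ i, f i (c (σ i)) = A s f c := by
  classical
  unfold A
  rw [← Finset.sum_filter]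
  refine Finset.sum_bij (fun σ _ => (σ : Fin s → Fin s)) (fun σ _ => ?_) (fun σ _ τ _ h => ?_)
    (fun φ hφ => ?_) (fun σ _ => rfl)
  · rw [Finset.mem_filter]
    exact ⟨Finset.mem_univ _, σ.injective⟩
  · exact Equiv.ext fun x => congrFun h x
  · rw [Finset.mem_filter] at hφ
    exact ⟨Equiv.ofBijective φ (Finite.injective_iff_bijective.mp hφ.2), Finset.mem_univ _, rfl⟩

end Sya

open Sya in
theorem t_SYA : S_SYA := by
  intro s e m
  obtain ⟨G, hG⟩ := pol_a (s := s) (e := e) s (fun i x => x ^ m i + x ^ (-m i)) (fun i => L.h (m i))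
  refine ⟨G, fun c hc => ?_⟩
  exact (a_perm (fun i x => x ^ m i + x ^ (-m i)) c).trans (hG c hc)

end Pool.Agent.NH56.HL
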