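import Pool.Agent.NH56.HL.Stm

/-!
# Rational values of complex polynomials
-/

set_option autoImplicit false

namespace Pool.Agent.NH56.HL

open Matrix Polynomial Filter Topology NumberField IsDedekindDomain Pool.Agent.NH56.HY
open Pool.Agent.NH56.HO

theorem t_TAU : S_TAU := by
  obtain ⟨t, ht⟩ := LinearMap.exists_leftInverse_of_injective (Algebra.linearMap ℚ ℂ)
    (LinearMap.ker_eq_bot.2 (algebraMap ℚ ℂ).injective)
  have ht' : ∀ r : ℚ, t (r : ℂ) = r := by
    intro r
    have h := LinearMap.congr_fun ht r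
    simpa using h
  refine ⟨fun G => ∑ m ∈ G.support, MvPolynomial.monomial m (t (G.coeff m)), ?_⟩
  intro G x y h
  have h1 : t (MvPolynomial.eval (fun k => (x k : ℂ)) G) = y := by rw [h, ht']
  rw [← h1, MvPolynomial.eval_eq (fun k => (x k : ℂ)) G, map_sum]
  rw [map_sum]
  refine Finset.sum_congr rfl fun m _ => ?_
  rw [MvPolynomial.eval_monomial]
  have h2 : MvPolynomial.coeff m G * ∏ i ∈ m.support, (x i : ℂ) ^ m i =
      (∏ i ∈ m.support, x i ^ m i : ℚ) • MvPolynomial.coeff m G := by
    rw [Rat.smul_def, mul_comm]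
    push_cast
    rfl
  rw [h2, map_smul, smul_eq_mul, mul_comm]
  rfl

end Pool.Agent.NH56.HL
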