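import Pool.Agent.NH56.HL.Stm

/-!
# Additive functions which do not vanish at a number of infinite order (TOR)
-/

set_option autoImplicit false

namespace Pool.Agent.NH56.HL

open Pool.Agent.NH56.HY Pool.Agent.NH56.HO

namespace Tor

theorem inj (u : ℂˣ) (hu : ∀ n : ℕ, 0 < n → (u : ℂ) ^ n ≠ 1) :
    Function.Injective (zmultiplesHom (Additive ℂˣ) (Additive.ofMul u)) := by
  rw [injective_iff_map_eq_zero]
  intro n hn
  rw [zmultiplesHom_apply] at hn
  have h1 : u ^ n = 1 := by
    have : Additive.ofMul (u ^ n) = 0 := by rw [ofMul_zpow]; exact hn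
    exact this
  by_contra h0
  have h2 : u ^ n.natAbs = 1 := by
    rcases Int.natAbs_eq n with h | h
    · rw [h, zpow_natCast] at h1
      exact h1
    · rw [h, zpow_neg, inv_eq_one, zpow_natCast] at h1
      exact h1
  apply hu n.natAbs (Int.natAbs_pos.2 h0)
  have := congrArg Units.val h2
  simpa using this

theorem ext (u : ℂˣ) (hu : ∀ n : ℕ, 0 < n → (u : ℂ) ^ n ≠ 1) :
    ∃ h : Additive ℂˣ →+ ℂ, h (Additive.ofMul u) = 1 := by
  obtain ⟨h, hh⟩ := (Module.Baer.of_divisible ℂ).extension_property_addMonoidHom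
    (zmultiplesHom (Additive ℂˣ) (Additive.ofMul u)) (inj u hu) (Int.castAddHom ℂ)
  refine ⟨h, ?_⟩
  have := DFunLike.congr_fun hh 1
  simpa using this

end Tor

open Classical in
/-- **TOR** -/
theorem t_TOR : S_TOR := by
  intro a ha hn
  obtain ⟨h, hh⟩ := Tor.ext (Units.mk0 a ha) hn
  refine ⟨fun x => if hx : x ≠ 0 then h (Additive.ofMul (Units.mk0 x hx)) else 0,
    ⟨one_ne_zero, fun x y hx hy => mul_ne_zero hx hy, fun x hx => inv_ne_zero hx,
      fun x hx => hx, ?_⟩, ?_⟩
  · intro x y hx hy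
    have e : Units.mk0 (x * y) (mul_ne_zero hx hy) = Units.mk0 x hx * Units.mk0 y hy := by
      ext; rfl
    simp only [dif_pos hx, dif_pos hy, dif_pos (mul_ne_zero hx hy)]
    rw [e, ofMul_mul, map_add]
  · simp only [dif_pos ha]
    rw [hh]
    exact one_ne_zero

end Pool.Agent.NH56.HL
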