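import Pool.Agent.NH56.HL.Lmu
import Pool.Agent.NH56.HY.Rig

/-!
# Local Euler factors of hyper-Kähler varieties: traces in even degrees (TRC)
-/

set_option autoImplicit false
set_option linter.unusedSectionVars false

namespace Pool.Agent.NH56.HL

open Matrix Polynomial Filter Topology NumberField IsDedekindDomain Pool.Agent.NH56.HY
open Pool.Agent.NH56.HO

namespace Trc

/-- the traces of the powers of a matrix and of its semisimple part agree -/
theorem tr_pow {n : Type} [Fintype n] [DecidableEq n] {T S : Matrix n n ℂ}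
    (hS : IsFn (fun a => a) T S) (hc : S * T = T * S) (k : ℕ) : (S ^ k).trace = (T ^ k).trace := by
  have h1 : IsNilpotent (T - S) := Pool.Agent.NH56.HY.Rig.nil_sub hS
  have h2 : Commute T S := hc.symm
  have h3 : T ^ k - S ^ k = (T - S) * ∑ i ∈ Finset.range k, T ^ i * S ^ (k - 1 - i) :=
    (h2.mul_geom_sum₂ k).symm
  have h4 : IsNilpotent (T ^ k - S ^ k) := by
    rw [h3]
    apply Commute.isNilpotent_mul_right _ h1
    apply Commute.sum_right
    intro i _
    have a1 : Commute (T - S) T := (Commute.refl T).sub_left h2.symm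
    have a2 : Commute (T - S) S := h2.sub_left (Commute.refl S)
    exact (a1.pow_right i).mul_right (a2.pow_right _)
  have h5 := Pool.Agent.NH56.HY.Rig.trace_nil h4
  rw [Matrix.trace_sub, sub_eq_zero] at h5
  exact h5.symm

variable {ι : Type} [Fintype ι] [DecidableEq ι]

theorem graded_pow (deg : ι → ℕ) (A : Matrix ι ι ℂ) (hA : IsGraded deg A) (k : ℕ) :
    IsGraded deg (A ^ k) := by
  induction k with
  | zero =>
    intro a b hab
    rw [pow_zero, Matrix.one_apply_ne (fun h => hab (by rw [h]))]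
  | succ k ih => rw [pow_succ]; exact Lmu.graded_mul deg _ _ ih hA

theorem blk_one (deg : ι → ℕ) (j : ℕ) : blk deg j (1 : Matrix ι ι ℂ) = 1 :=
  Matrix.submatrix_one _ Subtype.val_injective

theorem blk_pow (deg : ι → ℕ) (j : ℕ) (A : Matrix ι ι ℂ) (hA : IsGraded deg A) (k : ℕ) :
    blk deg j (A ^ k) = blk deg j A ^ k := by
  induction k with
  | zero => rw [pow_zero, pow_zero, blk_one]
  | succ k ih => rw [pow_succ, Lmu.blk_mul deg j _ _ (graded_pow deg A hA k), ih, pow_succ]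

/-- extension by zero -/
def ex (deg : ι → ℕ) (j : ℕ) (x : {a // deg a = j} → ℂ) : ι → ℂ :=
  fun a => if h : deg a = j then x ⟨a, h⟩ else 0

theorem ex_mul (deg : ι → ℕ) (j : ℕ) (A : Matrix ι ι ℂ) (hA : IsGraded deg A)
    (x : {a // deg a = j} → ℂ) : A *ᵥ ex deg j x = ex deg j (blk deg j A *ᵥ x) := by
  ext a
  have e1 : (A *ᵥ ex deg j x) a = ∑ b ∈ Finset.univ.filter (fun b => deg b = j), A a b * ex deg j x b := by
    rw [Matrix.mulVec, dotProduct, Finset.sum_filter]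
    apply Finset.sum_congr rfl
    intro b _
    by_cases h : deg b = j
    · rw [if_pos h]
    · rw [if_neg h, ex, dif_neg h, mul_zero]
  have e2 : ∑ b ∈ Finset.univ.filter (fun b => deg b = j), A a b * ex deg j x b =
      ∑ b : {b // deg b = j}, A a b.1 * ex deg j x b.1 :=
    Finset.sum_subtype (Finset.univ.filter (fun b => deg b = j)) (by simp)
      (fun b => A a b * ex deg j x b)
  rw [e1, e2]
  by_cases h : deg a = j
  · have e3 : ex deg j (blk deg j A *ᵥ x) a = (blk deg j A *ᵥ x) ⟨a, h⟩ := dif_pos h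
    rw [e3, Matrix.mulVec, dotProduct]
    apply Finset.sum_congr rfl
    intro b _
    have e4 : ex deg j x b.1 = x b := dif_pos b.2
    rw [e4]
    rfl
  · have e3 : ex deg j (blk deg j A *ᵥ x) a = 0 := dif_neg h
    rw [e3]
    apply Finset.sum_eq_zero
    intro b _
    rw [hA a b.1 (fun h' => h (h'.trans b.2)), zero_mul]

theorem ex_inj (deg : ι → ℕ) (j : ℕ) {x y : {a // deg a = j} → ℂ}
    (h : ex deg j x = ex deg j y) : x = y := by
  ext b
  have h1 := congrFun h b.1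
  have e1 : ∀ z : {a // deg a = j} → ℂ, ex deg j z b.1 = z b := fun z => dif_pos b.2
  rwa [e1, e1] at h1

theorem ex_smul (deg : ι → ℕ) (j : ℕ) (c : ℂ) (x : {a // deg a = j} → ℂ) :
    ex deg j (c • x) = c • ex deg j x := by
  ext b
  by_cases h : deg b = j
  · simp [ex, h]
  · simp [ex, h]

theorem ex_zero (deg : ι → ℕ) (j : ℕ) : ex deg j (0 : {a // deg a = j} → ℂ) = 0 := by
  ext b
  by_cases h : deg b = j
  · simp [ex, h]
  · simp [ex, h]

/-- the semisimple part of a block -/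
theorem fn_blk (deg : ι → ℕ) (j : ℕ) {R S : Matrix ι ι ℂ} (hR : IsGraded deg R)
    (hS : IsGraded deg S) (h : IsFn (fun a => a) R S) :
    IsFn (fun a => a) (blk deg j R) (blk deg j S) := by
  intro a k x hx
  have g1 : IsGraded deg (R - a • (1 : Matrix ι ι ℂ)) := by
    intro b c hbc
    rw [Matrix.sub_apply, Matrix.smul_apply, Matrix.one_apply_ne (fun h => hbc (by rw [h])),
      hR b c hbc, smul_zero, sub_zero]
  have g2 : blk deg j (R - a • (1 : Matrix ι ι ℂ)) = blk deg j R - a • 1 := by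
    rw [← blk_one deg j]
    rfl
  have h1 : ((R - a • (1 : Matrix ι ι ℂ)) ^ k) *ᵥ ex deg j x = 0 := by
    rw [ex_mul deg j _ (graded_pow deg _ g1 k), blk_pow deg j _ g1, g2, hx, ex_zero]
  have h2 := h a k _ h1
  rw [ex_mul deg j _ hS, ← ex_smul] at h2
  exact ex_inj deg j h2

/-- two matrices which agree on all vectors -/
theorem mul_eq_smul {n : Type} [Fintype n] [DecidableEq n] (A E : Matrix n n ℂ) (c : ℂ)
    (h : ∀ x, A *ᵥ (E *ᵥ x) = c • (E *ᵥ x)) : A * E = c • E := by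
  apply Matrix.ext_of_mulVec_single
  intro i
  rw [← Matrix.mulVec_mulVec, h, Matrix.smul_mulVec]

theorem com_graded (X : Coh ι) {B : Matrix ι ι ℂ} (hB : X.Com ℂ B) : IsGraded X.deg B := by
  intro a b hab
  have h1 := congrFun (congrFun hB.2 a) b
  unfold Coh.H at h1
  rw [Matrix.mul_diagonal, Matrix.diagonal_mul] at h1
  have h2 : ((X.deg b : ℂ) - X.deg a) * B a b = 0 := by
    rw [sub_mul, ← h1]
    ring
  rcases mul_eq_zero.1 h2 with h3 | h3
  · exact absurd (by exact_mod_cast (sub_eq_zero.1 h3).symm) hab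
  · exact h3

theorem com_del (X : Coh ι) {B : Matrix ι ι ℂ} (hB : X.Com ℂ B)
    (x : Matrix {a // X.deg a = 2} {a // X.deg a = 2} ℂ) :
    B * X.δF ℂ x = X.δF ℂ x * B := by
  unfold Coh.δF
  simp only [Matrix.mul_sum, Matrix.sum_mul, Matrix.mul_smul, Matrix.smul_mul, hB.1]

/-- the polynomial of an invariant function, and zero for the other functions -/
noncomputable def gp (hSYM : S_SYM) (s M : ℕ) (e : ℂ) (m : (Fin s → ℤ) → ℂ) : MvPolynomial ℕ ℂ :=
  open scoped Classical in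
  if h : (∀ μ i k, m (μ ∘ Equiv.swap i k) = m μ) ∧ (∀ μ i, m (Function.update μ i (-μ i)) = m μ) then
    (hSYM s M e m h.1 h.2).choose else 0

theorem gp_spec (hSYM : S_SYM) (s M : ℕ) (e : ℂ) (m : (Fin s → ℤ) → ℂ)
    (h : (∀ μ i k, m (μ ∘ Equiv.swap i k) = m μ) ∧ (∀ μ i, m (Function.update μ i (-μ i)) = m μ))
    (c : Fin s → ℂ) (hc : ∀ i, c i ≠ 0) :
    ∑ μ ∈ box s M, m μ * ∏ i, c i ^ μ i = MvPolynomial.eval (ps e c) (gp hSYM s M e m) := by
  unfold gp
  rw [dif_pos h]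
  exact (hSYM s M e m h.1 h.2).choose_spec c hc

/-- the finite set of polynomials -/
noncomputable def PS (hSYM : S_SYM) (b M : ℕ) (F : Finset ℂ) : Set (MvPolynomial ℕ ℂ) :=
  open scoped Classical in
  ⋃ s ∈ Finset.range (b + 1), ⋃ e ∈ Finset.range 3,
    Set.range fun f : (box s M) → F =>
      gp hSYM s M (e : ℂ) fun μ => if h : μ ∈ box s M then (f ⟨μ, h⟩ : ℂ) else 0

theorem PS_finite (hSYM : S_SYM) (b M : ℕ) (F : Finset ℂ) : (PS hSYM b M F).Finite := by
  classical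
  unfold PS
  apply Set.Finite.biUnion (Finset.finite_toSet _)
  intro s _
  apply Set.Finite.biUnion (Finset.finite_toSet _)
  intro e _
  exact Set.finite_range _

theorem PS_mem (hSYM : S_SYM) (b M : ℕ) (F : Finset ℂ) (s e : ℕ) (hs : s ≤ b) (he : e ≤ 2)
    (m : (Fin s → ℤ) → ℂ) (h1 : ∀ μ ∈ box s M, m μ ∈ F) (h2 : ∀ μ, μ ∉ box s M → m μ = 0) :
    gp hSYM s M (e : ℂ) m ∈ PS hSYM b M F := by
  classical
  unfold PS
  simp only [Set.mem_iUnion, Set.mem_range]
  refine ⟨s, Finset.mem_range.2 (by omega), e, Finset.mem_range.2 (by omega),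
    fun μ => ⟨m μ.1, h1 μ.1 μ.2⟩, ?_⟩
  congr 1
  ext μ
  by_cases h : μ ∈ box s M
  · rw [dif_pos h]
  · rw [dif_neg h, h2 μ h]

end Trc

open Trc in
/-- **TRC** -/
theorem t_TRC (hMUL : S_MUL) (hDEC : S_DEC) (hROU : S_ROU) (hWSP : S_WSP) (hINT : S_INT)
    (hFRC : S_FRC) (hWEI : S_WEI) (hSYM : S_SYM) (hTRF : S_TRF) (hBAS : S_BAS) : S_TRC := by
  classical
  intro ι _ _ X hX j N hj hN
  obtain ⟨F, hF⟩ := hTRF {a // X.deg a = j} N hN
  refine ⟨PS hSYM (Fintype.card {a // X.deg a = 2}) (Mx X) F, PS_finite _ _ _ _, ?_⟩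
  intro R R' κ T hR hadd hT hroot
  obtain ⟨s, e, u, u', z, c, S, A, B, hD⟩ := hDEC ι X hX R R' κ hR
  -- the form
  have hq : (X.qF ℂ)ᵀ = X.qF ℂ := by
    unfold Coh.qF
    rw [← Matrix.transpose_map, hX.symm]
  obtain ⟨-, -, f3, f4, -, -, -, -, f9, f10⟩ := hFRC _ (X.qF ℂ) hq s e u u' z hD.card hD.frame
  obtain ⟨-, -, -, -, -, b6, b7, -, -⟩ := hBAS ι X hX ℂ
  -- the torus
  set D : Fin s → Matrix {a // X.deg a = 2} {a // X.deg a = 2} ℂ :=
    fun i => wd (X.qF ℂ) (u i) (u' i) with hDdef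
  set Δ : Fin s → Matrix {a // X.deg a = j} {a // X.deg a = j} ℂ :=
    fun i => blk X.deg j (X.δF ℂ (D i)) with hΔ
  have hz : X.δF ℂ 0 = 0 := by
    unfold Coh.δF
    simp
  have hΔc : ∀ i k, Δ i * Δ k = Δ k * Δ i := by
    intro i k
    have h1 := b6 (D i) (D k) (f4 i)
    rw [f9 i k, sub_self, hz] at h1
    show blk X.deg j (X.δF ℂ (D i)) * blk X.deg j (X.δF ℂ (D k)) =
      blk X.deg j (X.δF ℂ (D k)) * blk X.deg j (X.δF ℂ (D i))
    rw [← Lmu.blk_mul _ _ _ _ (b7 _), ← Lmu.blk_mul _ _ _ _ (b7 _), sub_eq_zero.1 h1.symm]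
  have hΔ0 : ∀ i, aeval (Δ i) (pM (Mx X)) = 0 := fun i => hINT ι X hX _ _ (f3 i) j hj
  obtain ⟨E, hE⟩ := hWSP _ s (Mx X) Δ hΔc hΔ0
  -- the second factor
  have hBg := com_graded X hD.com
  have hκ : κ ^ (j / 2) ≠ 0 := pow_ne_zero _ hD.κ_ne
  set w : Matrix {a // X.deg a = j} {a // X.deg a = j} ℂ :=
    ((κ ^ (j / 2))⁻¹ : ℂ) • blk X.deg j B with hw
  have hBΔ : ∀ i, blk X.deg j B * Δ i = Δ i * blk X.deg j B := by
    intro i
    show blk X.deg j B * blk X.deg j (X.δF ℂ (D i)) = blk X.deg j (X.δF ℂ (D i)) * blk X.deg j B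
    rw [← Lmu.blk_mul _ _ _ _ (b7 _), ← Lmu.blk_mul _ _ _ _ hBg, com_del X hD.com]
  have hBE : ∀ μ, blk X.deg j B * E μ = E μ * blk X.deg j B := hE.com _ hBΔ
  have hwE : ∀ μ, w * E μ = E μ * w := by
    intro μ
    rw [hw, Matrix.smul_mul, Matrix.mul_smul, hBE]
  set m : (Fin s → ℤ) → ℂ := fun μ => (w * E μ).trace with hm
  have hm1 : ∀ μ ∈ box s (Mx X), m μ ∈ F := fun μ _ => hF w (E μ) (hE.idem μ) (hwE μ)
    (hROU ι X hX R R' κ hR hadd T N hT hN hroot s e u u' z c S A B hD j hj)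
  have hm2 : ∀ μ, μ ∉ box s (Mx X) → m μ = 0 := by
    intro μ hμ
    rw [hm]
    simp only [hE.supp μ hμ, Matrix.mul_zero, Matrix.trace_zero]
  have hmB : ∀ μ, m μ = (κ ^ (j / 2))⁻¹ * (blk X.deg j B * E μ).trace := by
    intro μ
    rw [hm]
    simp only [hw, Matrix.smul_mul, Matrix.trace_smul, smul_eq_mul]
  obtain ⟨w1, w2⟩ := hWEI ι X hX s e u u' z hD.e_pos hD.frame j (Mx X) E hE B hD.com
  have hm3 : (∀ μ i k, m (μ ∘ Equiv.swap i k) = m μ) ∧
      (∀ μ i, m (Function.update μ i (-μ i)) = m μ) := by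
    constructor
    · intro μ i k
      rw [hmB, hmB, w1]
    · intro μ i
      rw [hmB, hmB, w2]
  refine ⟨gp hSYM s (Mx X) (e : ℂ) m, PS_mem hSYM _ _ F s e (by have := hD.card; omega) hD.e_le m
    hm1 hm2, ?_⟩
  -- the semisimple part
  have hRR : blk X.deg j R * blk X.deg j R' = 1 := by
    rw [← Lmu.blk_mul _ _ _ _ hR.graded, hR.mul, blk_one]
  have hfj : IsFn (fun a => a) (blk X.deg j R) (blk X.deg j S) :=
    fn_blk X.deg j hR.graded hD.graded.1 hD.fn
  have hf2 : IsFn (fun a => a) (blk X.deg 2 R) (blk X.deg 2 S) :=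
    fn_blk X.deg 2 hR.graded hD.graded.1 hD.fn
  have hRR2 : blk X.deg 2 R * blk X.deg 2 R' = 1 := by
    rw [← Lmu.blk_mul _ _ _ _ hR.graded, hR.mul, blk_one]
  obtain ⟨-, -, -, c1, -⟩ := hMUL _ _ _ _ hRR hfj
  obtain ⟨-, -, -, c2, -⟩ := hMUL _ _ _ _ hRR2 hf2
  have t1 : (blk X.deg j R).trace = (blk X.deg j S).trace := by
    have := tr_pow hfj c1 1
    rw [pow_one, pow_one] at this
    exact this.symm
  have t2 : ∀ k : ℕ, (blk X.deg 2 R ^ (k + 1)).trace / κ ^ (k + 1) = ps (e : ℂ) c k := by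
    intro k
    have h1 := f10 c _ hD.acts (k + 1)
    unfold ps
    rw [← h1, _root_.smul_pow, Matrix.trace_smul, tr_pow hf2 c2, smul_eq_mul, inv_pow, div_eq_inv_mul]
  have t3 : (fun k => (blk X.deg 2 R ^ (k + 1)).trace / κ ^ (k + 1)) = ps (e : ℂ) c := by
    ext k
    exact t2 k
  rw [t3, ← gp_spec hSYM s (Mx X) (e : ℂ) m hm3 c hD.ne, t1]
  have hS : blk X.deg j S = blk X.deg j B * blk X.deg j A := by
    rw [← Lmu.blk_mul _ _ _ _ hBg, ← hD.eq']
  have hA : ∀ μ, blk X.deg j A * E μ = (∏ i, c i ^ μ i) • E μ := by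
    intro μ
    apply mul_eq_smul
    intro x
    apply hD.eig
    intro i
    have h1 := hE.left i μ
    rw [Matrix.mulVec_mulVec]
    show (Δ i * E μ) *ᵥ x = _
    rw [h1, Matrix.smul_mulVec]
  calc (blk X.deg j S).trace = (blk X.deg j S * ∑ μ ∈ box s (Mx X), E μ).trace := by
        rw [hE.sum, Matrix.mul_one]
    _ = ∑ μ ∈ box s (Mx X), (blk X.deg j S * E μ).trace := by
        rw [Matrix.mul_sum, Matrix.trace_sum]
    _ = ∑ μ ∈ box s (Mx X), κ ^ (j / 2) * (m μ * ∏ i, c i ^ μ i) := by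
        apply Finset.sum_congr rfl
        intro μ _
        rw [hS, Matrix.mul_assoc, hA, Matrix.mul_smul, Matrix.trace_smul, smul_eq_mul, hmB]
        field_simp
    _ = κ ^ (j / 2) * ∑ μ ∈ box s (Mx X), m μ * ∏ i, c i ^ μ i := by
        rw [Finset.mul_sum]

end Pool.Agent.NH56.HL
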