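import Pool.Agent.NH56.HL.Stm

/-!
# TRF: traces of matrices of finite order
-/

set_option autoImplicit false

namespace Pool.Agent.NH56.HL

open Matrix Polynomial

namespace Trf

theorem root_iff {n : Type} [Fintype n] [DecidableEq n] (A : Matrix n n ℂ) (b : ℂ) :
    A.charpoly.IsRoot b ↔ ∃ v, v ≠ 0 ∧ A *ᵥ v = b • v := by
  rw [Polynomial.IsRoot.def, Matrix.eval_charpoly, ← Matrix.exists_mulVec_eq_zero_iff]
  refine exists_congr fun v => and_congr_right fun _ => ?_
  rw [Matrix.sub_mulVec, sub_eq_zero]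
  have h1 : Matrix.scalar n b *ᵥ v = b • v := by
    rw [Matrix.scalar_apply, ← Matrix.smul_one_eq_diagonal, Matrix.smul_mulVec, Matrix.one_mulVec]
  rw [h1]
  exact eq_comm

theorem root_prop {n : Type} [Fintype n] [DecidableEq n] {w E : Matrix n n ℂ} (hE : E * E = E)
    (hc : w * E = E * w) {b : ℂ} (hb : (w * E).charpoly.IsRoot b) (hb0 : b ≠ 0) :
    w.charpoly.IsRoot b := by
  rw [root_iff] at hb ⊢
  obtain ⟨v, hv, h1⟩ := hb
  have h2 : E *ᵥ ((w * E) *ᵥ v) = (w * E) *ᵥ v := by
    rw [Matrix.mulVec_mulVec, ← Matrix.mul_assoc, ← hc, Matrix.mul_assoc, hE]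
  rw [h1, Matrix.mulVec_smul] at h2
  have h3 : E *ᵥ v = v := smul_right_injective _ hb0 h2
  refine ⟨v, hv, ?_⟩
  rw [← Matrix.mulVec_mulVec, h3] at h1
  exact h1

end Trf

open Trf in
/-- **TRF** -/
theorem t_TRF : S_TRF := by
  classical
  intro n _ _ N hN
  set R : Finset ℂ := insert 0 (Polynomial.nthRoots N (1 : ℂ)).toFinset with hR
  refine ⟨(R.sym (Fintype.card n)).image fun s : Sym ℂ (Fintype.card n) => s.1.sum, ?_⟩
  intro w E hE hc hw
  have hcard : Multiset.card (w * E).charpoly.roots = Fintype.card n := by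
    have h := (Polynomial.splits_iff_card_roots).1 (IsAlgClosed.splits (w * E).charpoly)
    rw [h, Matrix.charpoly_natDegree_eq_dim]
  refine Finset.mem_image.2 ⟨(⟨(w * E).charpoly.roots, hcard⟩ : Sym ℂ (Fintype.card n)), ?_, ?_⟩
  · rw [Finset.mem_sym_iff]
    intro b hb
    have hb' : b ∈ (w * E).charpoly.roots := hb
    have h1 := (Polynomial.mem_roots'.1 hb').2
    by_cases h0 : b = 0
    · rw [h0, hR]
      exact Finset.mem_insert_self _ _
    · have h2 := hw b (root_prop hE hc h1 h0)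
      rw [hR, Finset.mem_insert, Multiset.mem_toFinset, Polynomial.mem_nthRoots hN]
      exact Or.inr h2
  · exact (Matrix.trace_eq_sum_roots_charpoly _).symm

end Pool.Agent.NH56.HL
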