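import Pool.Agent.NH56.HL.Stm
import Pool.Agent.NH56.HY.Laa
import Pool.Agent.R401.Iso

/-!
# Traces in even degrees, for one prime: assembly
-/

set_option autoImplicit false

namespace Pool.Agent.NH56.HL

open Matrix Polynomial Filter Topology NumberField IsDedekindDomain Pool.Agent.NH56.HY

namespace TRL

/-- the numbers close to `1`, transported to the complex numbers, form a group without torsion -/
theorem torFree_close (hNR1 : S_NR1) (ℓ : ℕ) [Fact ℓ.Prime] (i : PadicAlgCl ℓ ≃+* ℂ) :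
    TorFree (fun x : ℂ => ‖i.symm x - 1‖ ≤ ((ℓ : ℝ) ^ 2)⁻¹) where
  ne := by
    intro x hx h0
    rw [h0, map_zero, zero_sub, norm_neg, norm_one] at hx
    exact absurd hx (not_le.2 ell_sq_inv.2.1)
  mul := by
    intro x y hx hy
    rw [map_mul]
    exact ((hNR1 ℓ).2.1 _ _ hx hy).1
  inv := by
    intro x hx
    rw [map_inv₀]
    exact ((hNR1 ℓ).2.1 _ _ hx hx).2
  tor := by
    intro x hx n hn h
    have h1 := (hNR1 ℓ).1 _ hx n hn (by rw [← map_pow, h, map_one])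
    have h2 : i (i.symm x) = i 1 := by rw [h1]
    rwa [RingEquiv.apply_symm_apply, map_one] at h2

/-- an open subgroup contains the powers with a fixed exponent -/
theorem exists_pow_mem {K : Type} [Field K] [NumberField K] (U : Subgroup (GK K)) (hU : IsOpen (U : Set (GK K))) :
    ∃ N : ℕ, 0 < N ∧ ∀ g : GK K, g ^ N ∈ U := by
  have h1 : Finite (GK K ⧸ U) := Subgroup.quotient_finite_of_isOpen U hU
  have h2 : U.FiniteIndex := Subgroup.finiteIndex_of_finite_quotient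
  have h3 : U.normalCore.FiniteIndex := inferInstance
  refine ⟨U.normalCore.index, Nat.pos_of_ne_zero h3.index_ne_zero, fun g => ?_⟩
  exact U.normalCore_le (Subgroup.pow_index_mem U.normalCore g)

theorem map_blk {ι F G : Type} [Field F] [Field G] (c : F →+* G) (deg : ι → ℕ) (j : ℕ)
    (M : Matrix ι ι F) : blk deg j (M.map c) = (blk deg j M).map c := rfl

theorem tr_map {n F G : Type} [Fintype n] [Field F] [Field G] (c : F →+* G)
    (M : Matrix n n F) : (M.map c).trace = c M.trace := by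
  simp [Matrix.trace, map_sum]

theorem roots_close (hNR1 : S_NR1) {K : Type} [Field K] (ℓ : ℕ) [Fact ℓ.Prime] {n : Type} [Fintype n]
    [DecidableEq n] (χ : GK K →* ℚ_[ℓ]) (ρ : GK K →* Matrix n n ℚ_[ℓ]) (i : PadicAlgCl ℓ ≃+* ℂ)
    (c : ℚ_[ℓ] →+* ℂ) (hc : c = (i : PadicAlgCl ℓ →+* ℂ).comp (algebraMap ℚ_[ℓ] (PadicAlgCl ℓ)))
    (g : GK K) (hg : g ∈ Near χ ρ) (a : ℂ) (ha : ((ρ g).map c).charpoly.IsRoot a) :
    ‖i.symm a - 1‖ ≤ ((ℓ : ℝ) ^ 2)⁻¹ := by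
  have h1 : ∀ x y, ‖((ρ g).map (algebraMap ℚ_[ℓ] (PadicAlgCl ℓ)) - 1) x y‖ ≤ ((ℓ : ℝ) ^ 2)⁻¹ := by
    intro x y
    have e : ((ρ g).map (algebraMap ℚ_[ℓ] (PadicAlgCl ℓ)) - 1) x y =
        algebraMap ℚ_[ℓ] (PadicAlgCl ℓ) ((ρ g - 1) x y) := by
      rw [Matrix.sub_apply, Matrix.sub_apply, map_sub, Matrix.map_apply, Matrix.one_apply,
        Matrix.one_apply]
      split_ifs <;> simp
    rw [e]
    exact (PadicAlgCl.norm_extends _ _).le.trans (hg.1 x y)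
  refine ((hNR1 ℓ).2.2 n _ h1).1 _ ?_
  have e2 : (ρ g).map c = ((ρ g).map (algebraMap ℚ_[ℓ] (PadicAlgCl ℓ))).map
      (i : PadicAlgCl ℓ →+* ℂ) := by
    rw [hc]
    ext x y
    rfl
  rw [e2, Matrix.charpoly_map] at ha
  rw [Polynomial.IsRoot, Polynomial.eval_map] at ha
  rw [Polynomial.IsRoot]
  apply i.injective
  rw [map_zero]
  have h2 : a = (i : PadicAlgCl ℓ →+* ℂ) (i.symm a) := (i.apply_symm_apply a).symm
  rw [h2, Polynomial.eval₂_at_apply] at ha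
  exact ha

end TRL

open TRL in
theorem t_TRL (hNR1 : S_NR1) (hNPH : S_NPH) (hKAP : S_KAP) (hTRC : S_TRC) : S_TRL := by
  intro K _ _ ℓ _ ι _ _ X S χ Pol ρ hX hR hN hO j hj
  obtain ⟨i⟩ := Pool.Agent.R401.Iso.exists_iso ℓ
  obtain ⟨U, hU, hUN⟩ := near_subgroup χ ρ hR.continuous.2 hR.continuous.1
  obtain ⟨N, hN0, hNU⟩ := exists_pow_mem U hU
  obtain ⟨P, hP, hPG⟩ := hTRC ι X hX j N hj hN0
  let c : ℚ_[ℓ] →+* ℂ := (i : PadicAlgCl ℓ →+* ℂ).comp (algebraMap ℚ_[ℓ] (PadicAlgCl ℓ))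
  refine ⟨c, P, hP, fun g => ?_⟩
  have hroot : ∀ a, ((ρ g).map c ^ N).charpoly.IsRoot a → ‖i.symm a - 1‖ ≤ ((ℓ : ℝ) ^ 2)⁻¹ := by
    intro a ha
    have e : (ρ g).map c ^ N = (ρ (g ^ N)).map c := by
      rw [map_pow]
      exact (map_pow (RingHom.mapMatrix c) (ρ g) N).symm
    rw [e] at ha
    refine roots_close hNR1 ℓ χ ρ i c rfl (g ^ N) ?_ a ha
    rw [← hUN]
    exact hNU g
  obtain ⟨G, hG, hG'⟩ := hPG ((ρ g).map c) ((ρ g⁻¹).map c) (c (kap X χ ρ g)) _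
    ((hKAP K ℓ ι X S χ Pol ρ hX hR hO).2.2 c g) (hNPH K ℓ ι X S χ Pol ρ hX hR hN c g)
    (torFree_close hNR1 ℓ i) hroot
  refine ⟨G, hG, ?_⟩
  rw [map_blk, tr_map] at hG'
  rw [hG']
  have e : (fun k => (blk X.deg 2 ((ρ g).map c) ^ (k + 1)).trace / c (kap X χ ρ g) ^ (k + 1)) =
      fun k => c (pt X χ ρ g k) := by
    funext k
    rw [map_blk, pt, map_div₀, map_pow]
    have e1 : (blk X.deg 2 (ρ g)).map c ^ (k + 1) = ((blk X.deg 2 (ρ g)) ^ (k + 1)).map c :=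
      (map_pow (RingHom.mapMatrix c) (blk X.deg 2 (ρ g)) (k + 1)).symm
    rw [e1, tr_map]
  rw [e]

end Pool.Agent.NH56.HL
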