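import Pool.Agent.NH56.HL.Stm
import Pool.Agent.NH56.HY.Laa
import Pool.Agent.TH658.Eq.Newt
import Pool.Agent.R401.Iso

/-!
# Project HL (helper56), part UNP (helper52): unipotent inertia in even degrees, uniformly in `ℓ`
-/

set_option autoImplicit false

namespace Pool.Agent.NH56.HL.UNP

open Matrix Polynomial Filter Topology NumberField IsDedekindDomain Pool.Agent.NH56.HY
open Pool.Agent.NH56.HO Pool.Agent.NH56.HL

/-! ### unipotent matrices -/

section uni

variable {F n : Type} [Field F] [Fintype n] [DecidableEq n]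

theorem pow_sub_one_nilpotent {T : Matrix n n F} (h : IsNilpotent (T - 1)) (k : ℕ) :
    IsNilpotent (T ^ k - 1) := by
  have h1 : T ^ k - 1 = (T - 1) * ∑ i ∈ Finset.range k, T ^ i := by
    rw [mul_geom_sum]
  rw [h1]
  refine Commute.isNilpotent_mul_right ?_ h
  exact (Commute.sum_right _ _ _ fun i _ => ((Commute.refl T).pow_right i).sub_left
    (Commute.one_left _))

theorem trace_unipotent {T : Matrix n n F} (h : IsNilpotent (T - 1)) :
    T.trace = (Fintype.card n : F) := by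
  have h1 := (Matrix.isNilpotent_trace_of_isNilpotent h).eq_zero
  rw [Matrix.trace_sub, Matrix.trace_one, sub_eq_zero] at h1
  exact h1

theorem trace_pow_unipotent {T : Matrix n n F} (h : IsNilpotent (T - 1)) (k : ℕ) :
    (T ^ k).trace = (Fintype.card n : F) := trace_unipotent (pow_sub_one_nilpotent h k)

theorem nilpotent_of_charpoly {T : Matrix n n F} (h : T.charpoly = (X - 1) ^ Fintype.card n) :
    IsNilpotent (T - 1) := by
  refine ⟨Fintype.card n, ?_⟩
  have h1 := Matrix.aeval_self_charpoly T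
  rw [h] at h1
  simpa using h1

theorem nilpotent_of_traces [CharZero F] {T : Matrix n n F}
    (h : ∀ k : ℕ, 1 ≤ k → (T ^ k).trace = (Fintype.card n : F)) : IsNilpotent (T - 1) := by
  apply nilpotent_of_charpoly
  rw [← Matrix.charpoly_one]
  apply Pool.Agent.TH658.Eq.charpoly_eq_of_traces
  intro k
  rw [one_pow, Matrix.trace_one]
  rcases Nat.eq_zero_or_pos k with rfl | hk
  · rw [pow_zero, Matrix.trace_one]
  · exact h k hk

theorem charpoly_unipotent [CharZero F] {T : Matrix n n F} (h : IsNilpotent (T - 1)) :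
    T.charpoly = (X - 1) ^ Fintype.card n := by
  rw [← Matrix.charpoly_one]
  apply Pool.Agent.TH658.Eq.charpoly_eq_of_traces
  intro k
  rw [one_pow, Matrix.trace_one, trace_pow_unipotent h k]

theorem det_unipotent [CharZero F] {T : Matrix n n F} (h : IsNilpotent (T - 1)) : T.det = 1 := by
  rw [Matrix.det_eq_sign_charpoly_coeff, charpoly_unipotent h, ← Matrix.charpoly_one,
    ← Matrix.det_eq_sign_charpoly_coeff, Matrix.det_one]

/-- over an algebraically closed field: all eigenvalues are one -/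
theorem nilpotent_of_roots [IsAlgClosed F] {T : Matrix n n F}
    (h : ∀ a, T.charpoly.IsRoot a → a = 1) : T.charpoly = (X - 1) ^ Fintype.card n := by
  have h1 : T.charpoly.Splits := IsAlgClosed.splits _
  have h2 := h1.eq_prod_roots_of_monic (Matrix.charpoly_monic T)
  have h3 : T.charpoly.roots = Multiset.replicate (Fintype.card n) 1 := by
    refine Multiset.eq_replicate.2 ⟨?_, fun b hb => h b (Polynomial.isRoot_of_mem_roots hb)⟩
    rw [← h1.natDegree_eq_card_roots, Matrix.charpoly_natDegree_eq_dim]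
  rw [h2, h3]
  simp

end uni

/-! ### blocks -/

section blocks

set_option linter.unusedSectionVars false

variable {F ι : Type} [Field F] [Fintype ι] [DecidableEq ι]

theorem blk_mul (deg : ι → ℕ) (j : ℕ) {A B : Matrix ι ι F} (h : IsGraded deg A) :
    blk deg j (A * B) = blk deg j A * blk deg j B := by
  ext a b
  simp only [blk, Matrix.submatrix_apply, Matrix.mul_apply]
  have hs : ∑ c : ι, A a.1 c * B c b.1 =
      ∑ c ∈ Finset.univ.filter (fun c => deg c = j), A a.1 c * B c b.1 := by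
    rw [Finset.sum_filter]
    refine Finset.sum_congr rfl fun c _ => ?_
    split_ifs with hc
    · rfl
    · rw [h a.1 c (by rw [a.2]; exact fun h' => hc h'.symm), zero_mul]
  rw [hs]
  exact (Finset.sum_subtype (Finset.univ.filter fun c => deg c = j) (by simp)
    (fun c => A a.1 c * B c b.1))

theorem blk_one (deg : ι → ℕ) (j : ℕ) : blk deg j (1 : Matrix ι ι F) = 1 := by
  ext a b
  simp [blk, Matrix.one_apply, Subtype.ext_iff]

theorem blk_sub (deg : ι → ℕ) (j : ℕ) (A B : Matrix ι ι F) :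
    blk deg j (A - B) = blk deg j A - blk deg j B := rfl

theorem graded_sub_one {deg : ι → ℕ} {A : Matrix ι ι F} (h : IsGraded deg A) :
    IsGraded deg (A - 1) := by
  intro a b hab
  rw [Matrix.sub_apply, h a b hab, Matrix.one_apply_ne (fun h' => hab (by rw [h'])), sub_zero]

theorem blk_pow (deg : ι → ℕ) (j : ℕ) {A : Matrix ι ι F} (h : IsGraded deg A) (k : ℕ) :
    blk deg j (A ^ k) = blk deg j A ^ k := by
  induction k with
  | zero => rw [pow_zero, pow_zero, blk_one]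
  | succ k ih => rw [pow_succ', pow_succ', blk_mul deg j h, ih]

theorem blk_nilpotent {deg : ι → ℕ} {A : Matrix ι ι F} (h : IsGraded deg A)
    (hn : IsNilpotent (A - 1)) (j : ℕ) : IsNilpotent (blk deg j A - 1) := by
  obtain ⟨k, hk⟩ := hn
  refine ⟨k, ?_⟩
  rw [← blk_one deg j, ← blk_sub, ← blk_pow deg j (graded_sub_one h), hk]
  rfl

/-- the projection to the part of degree `j` -/
def pr (deg : ι → ℕ) (j : ℕ) (F : Type) [Field F] : Matrix {a // deg a = j} ι F :=
  fun a b => if a.1 = b then 1 else 0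

theorem pr_mul_apply (deg : ι → ℕ) (j : ℕ) (A : Matrix ι ι F) (a : {a // deg a = j}) (b : ι) :
    (pr deg j F * A) a b = A a.1 b := by
  simp [pr, Matrix.mul_apply]

theorem pr_comm {deg : ι → ℕ} (j : ℕ) {A : Matrix ι ι F} (h : IsGraded deg A) :
    pr deg j F * A = blk deg j A * pr deg j F := by
  ext a b
  rw [pr_mul_apply, Matrix.mul_apply]
  by_cases hb : deg b = j
  · rw [Finset.sum_eq_single ⟨b, hb⟩]
    · simp [pr, blk]
    · intro c _ hc
      have : c.1 ≠ b := fun h' => hc (Subtype.ext h')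
      simp [pr, this]
    · intro h'
      exact absurd (Finset.mem_univ _) h'
  · rw [h a.1 b (by rw [a.2]; exact fun h' => hb h'.symm)]
    symm
    refine Finset.sum_eq_zero fun c _ => ?_
    have : c.1 ≠ b := fun h' => hb (by rw [← h']; exact c.2)
    simp [pr, this]

end blocks

/-! ### The element is unipotent for one prime -/

theorem fn_unipotent {n : Type} [Fintype n] [DecidableEq n] {T : Matrix n n ℂ}
    (h : IsNilpotent (T - 1)) {φ : ℂ → ℂ} (hφ : IsAdd (fun x => x ≠ 0) φ) : IsFn φ T 0 := by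
  intro a k x hx
  rw [Matrix.zero_mulVec]
  by_cases hx0 : x = 0
  · rw [hx0, smul_zero]
  · have h1 : φ 1 = 0 := by
      have := hφ.map 1 1 one_ne_zero one_ne_zero
      rw [mul_one] at this
      linear_combination -this
    have ha : a = 1 := by
      by_contra ha
      apply hx0
      -- `T - a` is invertible
      have h2 : IsUnit (T - a • (1 : Matrix n n ℂ)) := by
        have h3 : T - a • (1 : Matrix n n ℂ) = (1 - a) • (1 : Matrix n n ℂ) + (T - 1) := by
          module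
        rw [h3]
        have h4 : IsUnit ((1 - a) • (1 : Matrix n n ℂ)) := by
          have h5 : (1 - a) ≠ 0 := sub_ne_zero.2 (Ne.symm ha)
          refine ⟨⟨(1 - a) • 1, (1 - a)⁻¹ • 1, ?_, ?_⟩, rfl⟩
          · rw [smul_mul_smul_comm, mul_inv_cancel₀ h5, one_mul, one_smul]
          · rw [smul_mul_smul_comm, inv_mul_cancel₀ h5, one_mul, one_smul]
        refine IsNilpotent.isUnit_add_left_of_commute h h4 ?_
        exact (Commute.one_right _).smul_right _
      have h6 : IsUnit ((T - a • (1 : Matrix n n ℂ)) ^ k) := h2.pow k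
      obtain ⟨w, hw⟩ := h6
      have h7 : (w⁻¹ : (Matrix n n ℂ)ˣ).1 *ᵥ (w.1 *ᵥ x) = x := by
        rw [Matrix.mulVec_mulVec, ← Units.val_mul, inv_mul_cancel, Units.val_one, Matrix.one_mulVec]
      rw [← h7, hw, hx, Matrix.mulVec_zero]
    rw [ha, h1, zero_smul]

theorem δt_zero {ι : Type} [Fintype ι] [DecidableEq ι] (X : Coh ι) : X.δt ℂ 0 = 0 := by
  simp [Coh.δt, Coh.δF]

theorem step_one (hFUN : S_FUN) (hTOR : S_TOR) (hNR1 : S_NR1) {ι : Type} [Fintype ι]
    [DecidableEq ι] (X : Coh ι) (ℓ : ℕ) [Fact ℓ.Prime] (A A' : Matrix ι ι ℚ_[ℓ]) (hA : A * A' = 1)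
    (hg : IsGraded X.deg A) (h2 : IsNilpotent (blk X.deg 2 A - 1))
    (hnear : ∀ i j, ‖(A - 1) i j‖ ≤ ((ℓ : ℝ) ^ 2)⁻¹)
    (hadd : ∀ c : ℚ_[ℓ] →+* ℂ, AddTwo X (A.map c)) : IsNilpotent (A - 1) := by
  obtain ⟨i⟩ := Pool.Agent.R401.Iso.exists_iso ℓ
  set M : Matrix ι ι (PadicAlgCl ℓ) := A.map (algebraMap ℚ_[ℓ] (PadicAlgCl ℓ)) with hM
  set c : ℚ_[ℓ] →+* ℂ := i.toRingHom.comp (algebraMap ℚ_[ℓ] (PadicAlgCl ℓ)) with hc
  set R : Matrix ι ι ℂ := A.map c with hR
  have hRM : R = M.map i := by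
    rw [hR, hM]
    ext a b
    simp [hc]
  have hgR : IsGraded X.deg R := fun a b hab => by
    rw [hR, Matrix.map_apply, hg a b hab, map_zero]
  have h2R : IsNilpotent (blk X.deg 2 R - 1) := by
    obtain ⟨k, hk⟩ := h2
    refine ⟨k, ?_⟩
    have e : blk X.deg 2 R - 1 = (blk X.deg 2 A - 1).map c := by
      ext a b
      simp only [blk, hR, Matrix.sub_apply, Matrix.submatrix_apply, Matrix.map_apply,
        Matrix.one_apply, map_sub]
      split_ifs <;> simp
    have e2 : (blk X.deg 2 R - 1) ^ k = ((blk X.deg 2 A - 1) ^ k).map c := by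
      rw [e]
      exact (map_pow c.mapMatrix (blk X.deg 2 A - 1) k).symm
    rw [e2, hk]
    ext a b
    simp
  have hRR : R * A'.map c = 1 := by
    have := congrArg c.mapMatrix hA
    rw [map_mul, map_one] at this
    exact this
  have hroot : ∀ z, M.charpoly.IsRoot z → z = 1 := by
    intro z hz
    set a : ℂ := i z with ha
    have haR : R.charpoly.IsRoot a := by
      have e : R.charpoly = M.charpoly.map i.toRingHom := by
        rw [← Matrix.charpoly_map]
        congr 1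
      rw [e, ha]
      exact Polynomial.IsRoot.map (f := i.toRingHom) hz
    -- an eigenvector
    obtain ⟨v, hv0, hv⟩ : ∃ v : ι → ℂ, v ≠ 0 ∧ (R - a • (1 : Matrix ι ι ℂ)) *ᵥ v = 0 := by
      have hdet : (R - a • (1 : Matrix ι ι ℂ)).det = 0 := by
        have h1 : (Matrix.scalar ι a - R).det = 0 := by
          rw [← Matrix.eval_charpoly]
          exact haR
        have h3 : R - a • (1 : Matrix ι ι ℂ) = -(Matrix.scalar ι a - R) := by
          rw [neg_sub, Matrix.smul_one_eq_diagonal]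
          rfl
        rw [h3, Matrix.det_neg, h1, mul_zero]
      obtain ⟨v, hv0, hv⟩ := Matrix.exists_mulVec_eq_zero_iff.2 hdet
      exact ⟨v, hv0, hv⟩
    have ha0 : a ≠ 0 := by
      intro h0
      apply hv0
      rw [h0, zero_smul, sub_zero] at hv
      have hRR' : A'.map c * R = 1 := mul_eq_one_comm.1 hRR
      calc v = (A'.map c * R) *ᵥ v := by rw [hRR', Matrix.one_mulVec]
        _ = 0 := by rw [← Matrix.mulVec_mulVec, hv, Matrix.mulVec_zero]
    obtain ⟨m, hm, ham⟩ : ∃ m : ℕ, 0 < m ∧ a ^ m = 1 := by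
      by_contra hcon
      push Not at hcon
      obtain ⟨φ, hφ, hφa⟩ := hTOR a ha0 hcon
      obtain ⟨N, hN⟩ := (hFUN ℂ ι φ R).1
      have hNt := hadd c φ hφ N hN
      have hpN := ((hFUN ℂ ι φ R).2 N hN).1 {a // X.deg a = 2} (blk X.deg 2 R) 0
        (pr X.deg 2 ℂ) (fn_unipotent h2R hφ) (pr_comm 2 hgR)
      rw [Matrix.zero_mul] at hpN
      have hb : blk X.deg 2 N = 0 := by
        ext a b
        have := congrFun (congrFun hpN a) b.1
        rw [pr_mul_apply] at this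
        exact this
      rw [hb, δt_zero] at hNt
      have := hN a 1 v (by rw [pow_one]; exact hv)
      rw [hNt, Matrix.zero_mulVec] at this
      have h3 := smul_eq_zero.1 this.symm
      rcases h3 with h3 | h3
      · exact hφa h3
      · exact hv0 h3
    have hzm : z ^ m = 1 := by
      apply i.injective
      rw [map_pow, map_one]
      exact ham
    refine (hNR1 ℓ).1 z ?_ m hm hzm
    refine ((hNR1 ℓ).2.2 ι M ?_).1 z hz
    intro i' j'
    have e : (M - 1) i' j' = algebraMap ℚ_[ℓ] (PadicAlgCl ℓ) ((A - 1) i' j') := by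
      simp only [hM, Matrix.sub_apply, Matrix.map_apply, Matrix.one_apply, map_sub]
      split_ifs <;> simp
    rw [e]
    have : ‖algebraMap ℚ_[ℓ] (PadicAlgCl ℓ) ((A - 1) i' j')‖ = ‖(A - 1) i' j'‖ := by
      exact PadicAlgCl.norm_extends ℓ _
    rw [this]
    exact hnear i' j'
  have hMc := nilpotent_of_roots hroot
  apply nilpotent_of_charpoly
  have h5 : (A.charpoly).map (algebraMap ℚ_[ℓ] (PadicAlgCl ℓ)) =
      ((Polynomial.X - 1) ^ Fintype.card ι : ℚ_[ℓ][X]).map (algebraMap ℚ_[ℓ] (PadicAlgCl ℓ)) := by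
    rw [← Matrix.charpoly_map]
    show M.charpoly = _
    rw [hMc]
    simp
  exact Polynomial.map_injective _ (algebraMap ℚ_[ℓ] (PadicAlgCl ℓ)).injective h5

/-! ### inertia -/

section inert

set_option linter.unusedSectionVars false

variable {K : Type} [Field K] [NumberField K]

theorem inertia_mul {Q : Ideal (𝓞 (AlgebraicClosure K))} {g h : GK K} (hg : g ∈ inertia Q)
    (hh : h ∈ inertia Q) : g * h ∈ inertia Q := by
  intro x
  have h1 := hg (h • x)
  have h2 := hh x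
  have : (g * h) • x - x = (g • (h • x) - h • x) + (h • x - x) := by
    rw [mul_smul]
    ring
  rw [this]
  exact Q.add_mem h1 h2

theorem inertia_one {Q : Ideal (𝓞 (AlgebraicClosure K))} : (1 : GK K) ∈ inertia Q := by
  intro x
  rw [one_smul, sub_self]
  exact Q.zero_mem

theorem inertia_pow {Q : Ideal (𝓞 (AlgebraicClosure K))} {g : GK K} (hg : g ∈ inertia Q) (k : ℕ) :
    g ^ k ∈ inertia Q := by
  induction k with
  | zero => rw [pow_zero]; exact inertia_one
  | succ k ih => rw [pow_succ]; exact inertia_mul ih hg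

theorem inertia_frob {Q : Ideal (𝓞 (AlgebraicClosure K))} {g : GK K} (hg : g ∈ inertia Q) (q : ℕ) :
    FrobeniusAt Q (q ^ 0) g⁻¹ := by
  intro x
  rw [pow_zero, pow_one]
  have h1 := hg (g⁻¹ • x)
  rw [smul_inv_smul] at h1
  have := Q.neg_mem h1
  rwa [neg_sub] at this

theorem exists_normal (W : Subgroup (GK K)) (hW : IsOpen (W : Set (GK K))) :
    ∃ U : Subgroup (GK K), U.Normal ∧ IsOpen (U : Set (GK K)) ∧ U ≤ W := by
  have h1 : (W : Set (GK K)) ∈ nhds (1 : GK K) := hW.mem_nhds W.one_mem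
  obtain ⟨L, hfd, hnorm, hLW⟩ :=
    (krullTopology_mem_nhds_one_iff_of_normal K (AlgebraicClosure K) _).1 h1
  refine ⟨L.fixingSubgroup, ?_, IntermediateField.fixingSubgroup_isOpen L, hLW⟩
  rw [← IntermediateField.restrictNormalHom_ker]
  infer_instance

theorem exists_prime (v : HeightOneSpectrum (𝓞 K)) :
    ∃ (ℓ : ℕ) (_ : Fact ℓ.Prime), (ℓ : 𝓞 K) ∉ v.asIdeal := by
  by_cases h2 : ((2 : ℕ) : 𝓞 K) ∈ v.asIdeal
  · refine ⟨3, ⟨Nat.prime_three⟩, fun h3 => ?_⟩
    apply v.isPrime.ne_top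
    rw [Ideal.eq_top_iff_one]
    have : (1 : 𝓞 K) = ((3 : ℕ) : 𝓞 K) - ((2 : ℕ) : 𝓞 K) := by push_cast; ring
    rw [this]
    exact v.asIdeal.sub_mem h3 h2
  · exact ⟨2, ⟨Nat.prime_two⟩, h2⟩

end inert

end Pool.Agent.NH56.HL.UNP

namespace Pool.Agent.NH56.HL

open Matrix Polynomial Filter Topology NumberField IsDedekindDomain Pool.Agent.NH56.HY
open Pool.Agent.NH56.HO UNP

theorem t_UNP (hFUN : S_FUN) (hBAS : S_BAS) (hTOR : S_TOR) (hNR1 : S_NR1) (hNPH : S_NPH)
    (hKAP : S_KAP) (hDNS : S_DNS) : S_UNP := by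
  intro K _ _ ι _ _ X S χ Pol ρ hX hR hNU hOr v Q U₀ hQ hK
  obtain ⟨ℓ₁, hℓ₁, hv₁⟩ := exists_prime v
  obtain ⟨W, hWo, hWn⟩ := near_subgroup (χ ℓ₁) (ρ ℓ₁) (hR ℓ₁).continuous.2 (hR ℓ₁).continuous.1
  have hWo' : IsOpen ((U₀ ⊓ W : Subgroup (GK K)) : Set (GK K)) := by
    rw [Subgroup.coe_inf]
    exact hK.isOpen.inter hWo
  obtain ⟨U, hUn, hUo, hUW⟩ := exists_normal (U₀ ⊓ W) hWo'
  refine ⟨U, hUn, hUo, hUW.trans inf_le_left, ?_⟩
  -- properties in degree two
  have hχ : ∀ (ℓ : ℕ) [Fact ℓ.Prime], (ℓ : 𝓞 K) ∉ v.asIdeal → ∀ g ∈ inertia Q, χ ℓ g = 1 := by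
    intro ℓ _ hℓ g hg
    have := hK.cyclotomic ℓ hℓ 0 g (inertia_frob hg _)
    rw [pow_zero] at this
    exact this
  have hκ : ∀ (ℓ : ℕ) [Fact ℓ.Prime], (ℓ : 𝓞 K) ∉ v.asIdeal → ∀ g ∈ U, g ∈ inertia Q →
      kap X (χ ℓ) (ρ ℓ) g = 1 := by
    intro ℓ _ hℓ g hgU hg
    have hu := hK.unipotent ℓ hℓ g (hUW hgU).1 hg
    unfold kap
    split_ifs
    · rw [det_unipotent hu, hχ ℓ hℓ g hg, one_pow, div_one]
    · exact hχ ℓ hℓ g hg
  have hpt : ∀ (ℓ : ℕ) [Fact ℓ.Prime], (ℓ : 𝓞 K) ∉ v.asIdeal → ∀ g ∈ U, g ∈ inertia Q →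
      pt X (χ ℓ) (ρ ℓ) g = fun _ => (Fintype.card {a // X.deg a = 2} : ℚ_[ℓ]) := by
    intro ℓ _ hℓ g hgU hg
    have hu := hK.unipotent ℓ hℓ g (hUW hgU).1 hg
    funext k
    unfold pt
    rw [hκ ℓ hℓ g hgU hg, one_pow, div_one, trace_pow_unipotent hu]
  have hev : ∀ (ℓ : ℕ) [Fact ℓ.Prime] (G : MvPolynomial ℕ ℚ),
      MvPolynomial.eval₂ (algebraMap ℚ ℚ_[ℓ])
        (fun _ => (Fintype.card {a // X.deg a = 2} : ℚ_[ℓ])) G =
      algebraMap ℚ ℚ_[ℓ] (MvPolynomial.eval (fun _ => (Fintype.card {a // X.deg a = 2} : ℚ)) G) := by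
    intro ℓ _ G
    have h1 := MvPolynomial.eval₂_comp_left (algebraMap ℚ ℚ_[ℓ]) (RingHom.id ℚ)
      (fun _ => (Fintype.card {a // X.deg a = 2} : ℚ)) G
    rw [MvPolynomial.eval₂_id] at h1
    rw [h1, RingHom.comp_id]
    congr 1
  -- the prime `ℓ₁`
  have hone : ∀ g ∈ U, g ∈ inertia Q → ∀ j, (blk X.deg j (ρ ℓ₁ g)).trace =
      (Fintype.card {a // X.deg a = j} : ℚ_[ℓ₁]) := by
    intro g hgU hg j
    have hnear : g ∈ Near (χ ℓ₁) (ρ ℓ₁) := by
      rw [← hWn]
      exact (hUW hgU).2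
    have h1 : IsNilpotent (ρ ℓ₁ g - 1) :=
      step_one hFUN hTOR hNR1 X ℓ₁ (ρ ℓ₁ g) (ρ ℓ₁ g⁻¹)
        (by rw [← map_mul, mul_inv_cancel, map_one]) ((hR ℓ₁).graded g)
        (hK.unipotent ℓ₁ hv₁ g (hUW hgU).1 hg) hnear.1
        (fun c => hNPH K ℓ₁ ι X (S ℓ₁) (χ ℓ₁) Pol (ρ ℓ₁) hX (hR ℓ₁) (hNU ℓ₁) c g)
    exact trace_unipotent (blk_nilpotent ((hR ℓ₁).graded g) h1 j)
  intro j hj ℓ _ hℓ g hgU hg
  apply nilpotent_of_traces
  intro k _
  rw [← blk_pow X.deg j ((hR ℓ).graded g), ← map_pow]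
  have hgU' : g ^ k ∈ U := U.pow_mem hgU k
  have hg' : g ^ k ∈ inertia Q := inertia_pow hg k
  obtain ⟨G, hG1, hG2⟩ := hDNS K ℓ₁ ℓ ι X (S ℓ₁) (S ℓ) (χ ℓ₁) (χ ℓ) Pol (ρ ℓ₁) (ρ ℓ) hX (hR ℓ₁)
    (hR ℓ) (hNU ℓ₁) (hOr ℓ₁) (hOr ℓ) j hj (g ^ k)
  rw [hκ ℓ₁ hv₁ _ hgU' hg', hpt ℓ₁ hv₁ _ hgU' hg', hev, one_pow, one_mul,
    hone _ hgU' hg' j] at hG1
  rw [hκ ℓ hℓ _ hgU' hg', hpt ℓ hℓ _ hgU' hg', hev, one_pow, one_mul] at hG2
  have h3 : MvPolynomial.eval (fun _ => (Fintype.card {a // X.deg a = 2} : ℚ)) G =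
      (Fintype.card {a // X.deg a = j} : ℚ) := by
    apply (algebraMap ℚ ℚ_[ℓ₁]).injective
    rw [← hG1]
    simp
  rw [hG2, h3]
  simp

end Pool.Agent.NH56.HL
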