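import Pool.Agent.NH56.HL.Stm

/-!
# HL-WEI (helper99): the traces on the weight spaces are invariant under the Weyl group
-/

set_option autoImplicit false

namespace Pool.Agent.NH56.HL

open Matrix Polynomial Filter Topology NumberField IsDedekindDomain Pool.Agent.NH56.HY
open Pool.Agent.NH56.HO

namespace WEI

section blocks

variable {ι F : Type} [Fintype ι] [DecidableEq ι] [Field F] {deg : ι → ℕ}

omit [DecidableEq ι] in
theorem blk_mul_left (j : ℕ) {M N : Matrix ι ι F} (hM : IsGraded deg M) :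
    blk deg j (M * N) = blk deg j M * blk deg j N := by
  ext a b
  simp only [blk, submatrix_apply, mul_apply]
  rw [← Finset.sum_subtype (Finset.univ.filter fun c => deg c = j)
    (fun x => by simp) (fun c => M a.1 c * N c b.1)]
  refine (Finset.sum_filter_of_ne fun c _ hc => ?_).symm
  by_contra h
  refine hc ?_
  rw [hM a.1 c (fun h' => h (h'.symm.trans a.2)), zero_mul]

omit [DecidableEq ι] in
theorem blk_mul_right (j : ℕ) {M N : Matrix ι ι F} (hN : IsGraded deg N) :
    blk deg j (M * N) = blk deg j M * blk deg j N := by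
  ext a b
  simp only [blk, submatrix_apply, mul_apply]
  rw [← Finset.sum_subtype (Finset.univ.filter fun c => deg c = j)
    (fun x => by simp) (fun c => M a.1 c * N c b.1)]
  refine (Finset.sum_filter_of_ne fun c _ hc => ?_).symm
  by_contra h
  refine hc ?_
  rw [hN c b.1 (fun h' => h (h'.trans b.2)), mul_zero]

omit [Fintype ι] in
theorem blk_one (j : ℕ) : blk deg j (1 : Matrix ι ι F) = 1 := by
  ext a b
  simp only [blk, submatrix_apply, one_apply]
  by_cases h : a = b
  · rw [if_pos h, if_pos (by rw [h])]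
  · rw [if_neg h, if_neg (fun e => h (Subtype.ext e))]

omit [Fintype ι] [DecidableEq ι] in
theorem blk_neg (j : ℕ) (M : Matrix ι ι F) : blk deg j (-M) = -blk deg j M := rfl

end blocks

/-- the abstract form -/
theorem abs {n : Type} [Fintype n] [DecidableEq n] {s M : ℕ} {Δ : Fin s → Matrix n n ℂ}
    {E : (Fin s → ℤ) → Matrix n n ℂ} (hE : IsProj M Δ E) {A A' B : Matrix n n ℂ} (hA : A * A' = 1)
    (hB : A * B = B * A) (f : (Fin s → ℤ) → (Fin s → ℤ)) (hf : ∀ μ, f (f μ) = μ)
    (hbox : ∀ μ, μ ∈ box s M → f μ ∈ box s M)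
    (h : ∀ k μ, Δ k * (A * E μ) = ((f μ k : ℤ) : ℂ) • (A * E μ)) (μ : Fin s → ℤ) :
    (B * E (f μ)).trace = (B * E μ).trace := by
  have hA' : A' * A = 1 := mul_eq_one_comm.1 hA
  by_cases hμ : μ ∈ box s M
  · have h1 : ∀ ν, E (f ν) * (A * E ν * A') = A * E ν * A' := by
      intro ν
      have h2 : E (f ν) * (A * E ν) = A * E ν := by
        apply Matrix.ext_of_mulVec_single
        intro i
        rw [← Matrix.mulVec_mulVec]
        apply hE.eig
        intro k
        rw [Matrix.mulVec_mulVec, h k ν, Matrix.smul_mulVec]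
      rw [← mul_assoc, h2]
    have h3 : ∑ ν ∈ box s M, A * E ν * A' = 1 := by
      rw [← Finset.sum_mul, ← Finset.mul_sum, hE.sum, mul_one, hA]
    have h4 : E (f μ) = A * E μ * A' := by
      have h5 : E (f μ) = ∑ ν ∈ box s M, E (f μ) * (A * E ν * A') := by
        rw [← Finset.mul_sum, h3, mul_one]
      rw [h5, Finset.sum_eq_single μ]
      · exact h1 μ
      · intro ν _ hne
        rw [← h1 ν, ← mul_assoc, hE.orth (f μ) (f ν) (fun e => hne ?_), zero_mul]
        rw [← hf ν, ← e, hf]
      · intro h6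
        exact absurd hμ h6
    have h7 : A' * (B * A) = B := by rw [← hB, ← mul_assoc, hA', one_mul]
    rw [h4, ← mul_assoc, Matrix.trace_mul_comm, ← mul_assoc B, ← mul_assoc A', h7]
  · have hμ' : f μ ∉ box s M := fun e => hμ (by rw [← hf μ]; exact hbox _ e)
    rw [hE.supp _ hμ, hE.supp _ hμ']

theorem gen (hLMU : S_LMU) {ι : Type} [Fintype ι] [DecidableEq ι] {X : Coh ι}
    (hX : IsHyperKahler X) : Gen (X.qF ℂ) (Lif X) := by
  obtain ⟨-, h2, h3, h4⟩ := hLMU ι X hX
  exact ⟨h2, fun J hJ hJ3 => (h3 J hJ hJ3).1, fun J hJ hJ3 => (h3 J hJ hJ3).2,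
    fun y hy hy3 => h4 y hy hy3⟩

/-- elements of the Lie algebra -/
theorem wd_skew {n : Type} [Fintype n] {q : Matrix n n ℂ} (hq : qᵀ = q) (a c : n → ℂ) :
    (wd q a c)ᵀ * q + q * wd q a c = 0 := by
  have h1 : ∀ v : n → ℂ, v ᵥ* q = q *ᵥ v := by
    intro v
    conv_lhs => rw [← hq]
    exact Matrix.vecMul_transpose q v
  unfold wd
  rw [transpose_sub, transpose_vecMulVec, transpose_vecMulVec, sub_mul, mul_sub, vecMulVec_mul,
    vecMulVec_mul, mul_vecMulVec, mul_vecMulVec, h1, h1]
  abel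

end WEI

open WEI

theorem t_WEI (hLMU : S_LMU) (hWEY : S_WEY) (hBAS : S_BAS) : S_WEI := by
  intro ι _ _ X hX s e u u' z he hfr j M E hE B hB
  have hq : (X.qF ℂ)ᵀ = X.qF ℂ := by
    unfold Coh.qF
    rw [← transpose_map, hX.symm]
  obtain ⟨b1, b2, b3, b4, b5, b6, b7, b8, b9⟩ := hBAS ι X hX ℂ
  obtain ⟨w1, w2⟩ := hWEY {a // X.deg a = 2} (X.qF ℂ) hq s e u u' z he hfr (Lif X) (gen hLMU hX)
  have hneg : ∀ x, X.δF ℂ (-x) = -X.δF ℂ x := by
    intro x
    have := b2 (-1) x
    rwa [neg_one_smul, neg_one_smul] at this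
  -- the situation of a lift
  have key : ∀ g g' A A', IsLift X g g' A A' → blk X.deg j A * blk X.deg j A' = 1 ∧
      blk X.deg j A * blk X.deg j B = blk X.deg j B * blk X.deg j A ∧
      ∀ k, blk X.deg j A * blk X.deg j (X.δF ℂ (wd (X.qF ℂ) (u k) (u' k))) =
        blk X.deg j (X.δF ℂ (g * wd (X.qF ℂ) (u k) (u' k) * g')) * blk X.deg j A := by
    intro g g' A A' hA
    refine ⟨?_, ?_, fun k => ?_⟩
    · rw [← blk_mul_left j hA.graded, hA.mul, blk_one]
    · rw [← blk_mul_left j hA.graded, ← blk_mul_right j hA.graded, hA.com B hB]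
    · have h1 := hA.conj (wd (X.qF ℂ) (u k) (u' k)) (wd_skew hq _ _)
      rw [← h1, ← blk_mul_left j hA.graded, ← blk_mul_right j hA.graded, mul_assoc, mul_assoc,
        mul_eq_one_comm.1 hA.mul, mul_one]
  refine ⟨fun μ i k => ?_, fun μ i => ?_⟩
  · by_cases hik : i = k
    · subst hik
      rw [Equiv.swap_self]
      rfl
    · obtain ⟨g, g', ⟨A, A', hA⟩, hg, hw⟩ := w1 i k hik
      obtain ⟨k1, k2, k3⟩ := key g g' A A' hA
      refine abs hE k1 k2 (fun μ => μ ∘ Equiv.swap i k) (fun μ => ?_) (fun μ hμ => ?_) (fun l μ => ?_) μ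
      · funext l
        simp
      · rw [box, Fintype.mem_piFinset] at hμ ⊢
        intro l
        exact hμ _
      · have h1 := k3 (Equiv.swap i k l)
        rw [hw, Equiv.swap_apply_self] at h1
        rw [← mul_assoc, ← h1, mul_assoc]
        have h2 := hE.left (Equiv.swap i k l) μ
        rw [h2, Matrix.mul_smul]
        rfl
  · obtain ⟨g, g', ⟨A, A', hA⟩, hg, hw⟩ := w2 i
    obtain ⟨k1, k2, k3⟩ := key g g' A A' hA
    refine abs hE k1 k2 (fun μ => Function.update μ i (-μ i)) (fun μ => ?_) (fun μ hμ => ?_)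
      (fun l μ => ?_) μ
    · funext l
      by_cases hl : l = i
      · subst hl
        simp
      · simp [hl]
    · rw [box, Fintype.mem_piFinset] at hμ ⊢
      intro l
      by_cases hl : l = i
      · subst hl
        have h1 := hμ l
        simp only [Function.update_self, Finset.mem_Icc] at h1 ⊢
        omega
      · rw [Function.update_of_ne hl]
        exact hμ l
    · have h1 := k3 l
      rw [hw] at h1
      have h2 := hE.left l μ
      by_cases hl : l = i
      · subst hl
        rw [if_pos rfl, hneg, blk_neg, neg_mul] at h1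
        have h3 : blk X.deg j (X.δF ℂ (wd (X.qF ℂ) (u l) (u' l))) * blk X.deg j A =
            -(blk X.deg j A * blk X.deg j (X.δF ℂ (wd (X.qF ℂ) (u l) (u' l)))) := by
          rw [h1, neg_neg]
        rw [← mul_assoc, h3, neg_mul, mul_assoc, h2, Matrix.mul_smul, Function.update_self,
          Int.cast_neg, neg_smul]
      · rw [if_neg hl] at h1
        rw [← mul_assoc, ← h1, mul_assoc, h2, Matrix.mul_smul, Function.update_of_ne hl]

end Pool.Agent.NH56.HL
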