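import Pool.Agent.NH56.HL.Hyp

/-!
# WEY: generators of the Weyl group
-/

set_option autoImplicit false

namespace Pool.Agent.NH56.HL

namespace WeyAux

open Matrix HypAux

variable {n : Type} [Fintype n] [DecidableEq n] {q : Matrix n n ℂ}

theorem iso_two {G : Matrix n n ℂ → Matrix n n ℂ → Prop} (hG : Gen q G) {J : Matrix n n ℂ}
    (hJ : Jᵀ * q + q * J = 0) (h3 : J ^ 3 = -J) :
    Iso q G (1 + J + J ^ 2) (1 - J + J ^ 2) := by
  have hJ' : Jᵀ * q = -(q * J) := eq_neg_of_add_eq_zero_left hJ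
  have h31 : J * J ^ 2 = -J := by rw [← h3]; noncomm_ring
  have h32 : J ^ 2 * J = -J := by rw [← h3]; noncomm_ring
  have h4 : J ^ 2 * J ^ 2 = -J ^ 2 := by
    calc J ^ 2 * J ^ 2 = J ^ 3 * J := by noncomm_ring
      _ = -J ^ 2 := by rw [h3]; noncomm_ring
  have h2 : J * J = J ^ 2 := (pow_two J).symm
  have hinv : (1 + J + J ^ 2) * (1 - J + J ^ 2) = 1 := by
    simp only [add_mul, mul_add, mul_sub, one_mul, mul_one, h31, h32, h4, h2]
    abel
  have hinv' : (1 - J + J ^ 2) * (1 + J + J ^ 2) = 1 := mul_eq_one_comm.1 hinv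
  refine ⟨hG.two J hJ h3, hinv, ?_⟩
  have h5 : (1 + J + J ^ 2)ᵀ * q = q * (1 - J + J ^ 2) := by
    have h6 : (Jᵀ) ^ 2 * q = q * J ^ 2 := by
      rw [pow_two, pow_two, Matrix.mul_assoc, hJ', mul_neg, ← Matrix.mul_assoc, hJ', neg_mul,
        neg_neg, Matrix.mul_assoc]
    rw [transpose_add, transpose_add, transpose_one, transpose_pow, add_mul,
      add_mul, one_mul, h6, hJ', mul_add, mul_sub, mul_one]
    abel
  rw [h5, Matrix.mul_assoc, hinv', Matrix.mul_one]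

omit [DecidableEq n] in
theorem wd_neg (a c : n → ℂ) : wd q (-a) (-c) = wd q a c := by
  unfold wd
  rw [mulVec_neg, mulVec_neg, neg_vecMulVec, vecMulVec_neg, neg_vecMulVec, vecMulVec_neg,
    neg_neg, neg_neg]

omit [DecidableEq n] in
theorem wd_swap (a c : n → ℂ) : wd q c a = -wd q a c := by
  unfold wd
  rw [neg_sub]

theorem sq_mulVec (J : Matrix n n ℂ) (v : n → ℂ) : J ^ 2 *ᵥ v = J *ᵥ (J *ᵥ v) := by
  rw [mulVec_mulVec, pow_two]

theorem swap_step (hq : qᵀ = q) {s e : ℕ} {u u' : Fin s → n → ℂ} {z : Fin e → n → ℂ}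
    (hF : Frame q u u' z) {G : Matrix n n ℂ → Matrix n n ℂ → Prop} (hG : Gen q G)
    (i j : Fin s) (hij : i ≠ j) : ∃ g g', G g g' ∧ g * g' = 1 ∧
    ∀ k, g * wd q (u k) (u' k) * g' = wd q (u (Equiv.swap i j k)) (u' (Equiv.swap i j k)) := by
  have vu : ∀ a b, bl q (u' a) (u b) = if b = a then 1 else 0 := fun a b => by
    rw [bl_comm hq, hF.uv]
  set J := wd q (u i) (u' j) - wd q (u j) (u' i) with hJ
  have hJv : ∀ v, J *ᵥ v = bl q (u' j) v • u i - bl q (u i) v • u' j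
      - (bl q (u' i) v • u j - bl q (u j) v • u' i) := by
    intro v
    rw [hJ, sub_mulVec, wd_mulVec hq, wd_mulVec hq]
  have hs : Jᵀ * q + q * J = 0 := by
    have h1 := wd_skew hq (u i) (u' j)
    have h2 := wd_skew hq (u j) (u' i)
    rw [hJ, transpose_sub, Matrix.sub_mul, Matrix.mul_sub]
    calc _ = ((wd q (u i) (u' j))ᵀ * q + q * wd q (u i) (u' j))
        - ((wd q (u j) (u' i))ᵀ * q + q * wd q (u j) (u' i)) := by abel
      _ = 0 := by rw [h1, h2, sub_zero]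
  have a1 : J *ᵥ u i = -u j := by
    rw [hJv, vu, vu, hF.uu, hF.uu, if_neg hij, if_pos rfl]; simp
  have a2 : J *ᵥ u j = u i := by
    rw [hJv, vu, vu, hF.uu, hF.uu, if_neg hij.symm, if_pos rfl]; simp
  have a3 : J *ᵥ u' i = -u' j := by
    rw [hJv, hF.uv, hF.uv, hF.vv, hF.vv, if_neg hij.symm, if_pos rfl]; simp
  have a4 : J *ᵥ u' j = u' i := by
    rw [hJv, hF.uv, hF.uv, hF.vv, hF.vv, if_neg hij, if_pos rfl]; simp
  have a5 : ∀ k, k ≠ i → k ≠ j → J *ᵥ u k = 0 := by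
    intro k h1 h2
    rw [hJv, vu, vu, hF.uu, hF.uu, if_neg h1, if_neg h2]; simp
  have a6 : ∀ k, k ≠ i → k ≠ j → J *ᵥ u' k = 0 := by
    intro k h1 h2
    rw [hJv, hF.uv, hF.uv, hF.vv, hF.vv, if_neg h1.symm, if_neg h2.symm]; simp
  have h3 : J ^ 3 = -J := by
    apply mulVec_injective
    funext v
    rw [show J ^ 3 = J ^ 2 * J by noncomm_ring, ← mulVec_mulVec, sq_mulVec, neg_mulVec, hJv v]
    simp only [mulVec_sub, mulVec_smul, a1, a2, a3, a4, mulVec_neg]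
    module
  have hI := iso_two hG hs h3
  refine ⟨_, _, hI.cls, hI.inv, ?_⟩
  have hg : ∀ v, (1 + J + J ^ 2) *ᵥ v = v + J *ᵥ v + J *ᵥ (J *ᵥ v) := by
    intro v
    rw [add_mulVec, add_mulVec, sq_mulVec, one_mulVec]
  intro k
  rw [hI.conj hq, hg, hg]
  by_cases h1 : k = i
  · subst h1
    rw [Equiv.swap_apply_left, a1, a3, mulVec_neg, mulVec_neg, a2, a4, ← wd_neg (u j)]
    congr 1 <;> abel
  · by_cases h2 : k = j
    · subst h2
      rw [Equiv.swap_apply_right, a2, a4, a1, a3]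
      congr 1 <;> abel
    · rw [Equiv.swap_apply_of_ne_of_ne h1 h2, a5 k h1 h2, a6 k h1 h2, mulVec_zero]
      simp

theorem sign_step (hq : qᵀ = q) {s e : ℕ} {u u' : Fin s → n → ℂ} {z : Fin e → n → ℂ}
    (he : 1 ≤ e) (hF : Frame q u u' z) {G : Matrix n n ℂ → Matrix n n ℂ → Prop} (hG : Gen q G)
    (i : Fin s) : ∃ g g', G g g' ∧ g * g' = 1 ∧
    ∀ k, g * wd q (u k) (u' k) * g' = if k = i then -wd q (u k) (u' k) else wd q (u k) (u' k) := by
  have vu : ∀ a b, bl q (u' a) (u b) = if b = a then 1 else 0 := fun a b => by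
    rw [bl_comm hq, hF.uv]
  obtain ⟨r, hr⟩ := IsAlgClosed.exists_pow_nat_eq (-(1 / 2) : ℂ) (n := 2) (by norm_num)
  set z0 := z ⟨0, he⟩ with hz0
  have hzz : bl q z0 z0 = 1 := by rw [hz0, hF.zz, if_pos rfl]
  obtain ⟨x, hx⟩ : ∃ x, x = r • z0 := ⟨_, rfl⟩
  obtain ⟨w, hw⟩ : ∃ w, w = u i - u' i := ⟨_, rfl⟩
  have hxx : bl q x x = -(1 / 2) := by
    rw [hx, smul_bl, bl_smul, hzz, ← hr]; ring
  have hzu : ∀ k, bl q z0 (u k) = 0 := fun k => by rw [bl_comm hq, hF.uz]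
  have hzv : ∀ k, bl q z0 (u' k) = 0 := fun k => by rw [bl_comm hq, hF.vz]
  have hxu : ∀ k, bl q x (u k) = 0 := fun k => by rw [hx, smul_bl, hzu, mul_zero]
  have hxv : ∀ k, bl q x (u' k) = 0 := fun k => by rw [hx, smul_bl, hzv, mul_zero]
  have hxw : bl q x w = 0 := by rw [hw, bl_sub, hxu, hxv, sub_zero]
  have hwx : bl q w x = 0 := by rw [bl_comm hq, hxw]
  have hwu : ∀ k, bl q w (u k) = if k = i then -1 else 0 := by
    intro k
    rw [hw, sub_bl, hF.uu, vu]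
    split_ifs <;> simp
  have hwv : ∀ k, bl q w (u' k) = if k = i then 1 else 0 := by
    intro k
    rw [hw, sub_bl, hF.uv, hF.vv, sub_zero]
    by_cases h : k = i
    · subst h; simp
    · rw [if_neg h, if_neg (Ne.symm h)]
  have hww : bl q w w = -2 := by
    have h1 : bl q w w = bl q w (u i - u' i) := by rw [← hw]
    rw [h1, bl_sub, hwu, hwv, if_pos rfl, if_pos rfl]
    norm_num
  set J := wd q w x with hJ
  have hJv : ∀ v, J *ᵥ v = bl q x v • w - bl q w v • x := fun v => wd_mulVec hq w x v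
  have b1 : J *ᵥ w = (2 : ℂ) • x := by
    rw [hJv, hxw, hww]; module
  have b2 : J *ᵥ x = (-(1 / 2) : ℂ) • w := by
    rw [hJv, hxx, hwx]; module
  have h3 : J ^ 3 = -J := by
    apply mulVec_injective
    funext v
    rw [show J ^ 3 = J ^ 2 * J by noncomm_ring, ← mulVec_mulVec, sq_mulVec, neg_mulVec, hJv v]
    simp only [mulVec_sub, mulVec_smul, b1, b2]
    module
  have hI := iso_one hG (wd_skew hq w x) h3
  refine ⟨_, _, hI.cls, hI.inv, ?_⟩
  have hg : ∀ v, (1 + (2 : ℂ) • wd q w x ^ 2) *ᵥ v = v + (4 * bl q x v) • x + bl q w v • w := by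
    intro v
    rw [add_mulVec, smul_mulVec, ← hJ, sq_mulVec, one_mulVec, hJv v, mulVec_sub, mulVec_smul,
      mulVec_smul, b1, b2]
    module
  intro k
  rw [hI.conj hq, hg, hg, hxu, hxv, hwu, hwv]
  by_cases h1 : k = i
  · subst h1
    rw [if_pos rfl, if_pos rfl, if_pos rfl, ← wd_swap]
    congr 1
    · rw [hw]; module
    · rw [hw]; module
  · rw [if_neg h1, if_neg h1, if_neg h1]
    simp

end WeyAux

theorem t_WEY : S_WEY := by
  intro n _ _ q hq s e u u' z he hF G hG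
  exact ⟨fun i j hij => WeyAux.swap_step hq hF hG i j hij, fun i => WeyAux.sign_step hq he hF hG i⟩

end Pool.Agent.NH56.HL
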