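import Pool.Agent.NH56.HL.Stm
import Pool.Agent.NH56.HY.Bas
import Pool.Agent.NH56.HY.Fun
import Pool.Agent.NH56.HY.Trn
import Pool.Agent.NH56.HY.Val

/-!
# Weights on the invariants and the coinvariants of inertia in all degrees
-/

set_option autoImplicit false

namespace Pool.Agent.NH56.HL

open Matrix Polynomial Filter Topology NumberField IsDedekindDomain Pool.Agent.NH56.HY
open Pool.Agent.NH56.HO

namespace Wmj

section adic

variable {ℓ : ℕ} [Fact ℓ.Prime] {n : Type} [Fintype n] [DecidableEq n]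

theorem lim_right {A L : Matrix n n ℚ_[ℓ]}
    (h : Tendsto (fun k : ℕ => ((ℓ : ℚ_[ℓ]) ^ k)⁻¹ • (A ^ (ℓ ^ k) - 1)) atTop (𝓝 L)) :
    ∃ Y, L = Y * (A - 1) := by
  have hc : IsClosed ((LinearMap.range (LinearMap.mulRight ℚ_[ℓ] (A - 1)) :
      Submodule ℚ_[ℓ] (Matrix n n ℚ_[ℓ])) : Set (Matrix n n ℚ_[ℓ])) :=
    Submodule.closed_of_finiteDimensional _
  have hm : L ∈ ((LinearMap.range (LinearMap.mulRight ℚ_[ℓ] (A - 1)) :
      Submodule ℚ_[ℓ] (Matrix n n ℚ_[ℓ])) : Set (Matrix n n ℚ_[ℓ])) := by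
    refine hc.mem_of_tendsto h (Eventually.of_forall fun k => ?_)
    refine ⟨((ℓ : ℚ_[ℓ]) ^ k)⁻¹ • ∑ i ∈ Finset.range (ℓ ^ k), A ^ i, ?_⟩
    rw [LinearMap.mulRight_apply, smul_mul_assoc, geom_sum_mul]
  obtain ⟨Y, hY⟩ := hm
  exact ⟨Y, by rw [← hY, LinearMap.mulRight_apply]⟩

theorem lim_left {A L : Matrix n n ℚ_[ℓ]}
    (h : Tendsto (fun k : ℕ => ((ℓ : ℚ_[ℓ]) ^ k)⁻¹ • (A ^ (ℓ ^ k) - 1)) atTop (𝓝 L)) :
    ∃ Y, L = (A - 1) * Y := by
  have hc : IsClosed ((LinearMap.range (LinearMap.mulLeft ℚ_[ℓ] (A - 1)) :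
      Submodule ℚ_[ℓ] (Matrix n n ℚ_[ℓ])) : Set (Matrix n n ℚ_[ℓ])) :=
    Submodule.closed_of_finiteDimensional _
  have hm : L ∈ ((LinearMap.range (LinearMap.mulLeft ℚ_[ℓ] (A - 1)) :
      Submodule ℚ_[ℓ] (Matrix n n ℚ_[ℓ])) : Set (Matrix n n ℚ_[ℓ])) := by
    refine hc.mem_of_tendsto h (Eventually.of_forall fun k => ?_)
    refine ⟨((ℓ : ℚ_[ℓ]) ^ k)⁻¹ • ∑ i ∈ Finset.range (ℓ ^ k), A ^ i, ?_⟩
    rw [LinearMap.mulLeft_apply, mul_smul_comm, mul_geom_sum]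
  obtain ⟨Y, hY⟩ := hm
  exact ⟨Y, by rw [← hY, LinearMap.mulLeft_apply]⟩

theorem sim_pow {F : Type} [Field F] {T q : Matrix n n F} {z : F} (hT : Tᵀ * q * T = z • q) (m : ℕ) :
    (T ^ m)ᵀ * q * T ^ m = z ^ m • q := by
  induction m with
  | zero => rw [pow_zero, pow_zero, transpose_one, one_mul, mul_one, one_smul]
  | succ m ih =>
    have e : (T ^ (m + 1))ᵀ * q * T ^ (m + 1) = Tᵀ * ((T ^ m)ᵀ * q * T ^ m) * T := by
      rw [pow_succ, transpose_mul]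
      simp only [mul_assoc]
    rw [e, ih, mul_smul_comm, smul_mul_assoc, hT, smul_smul, pow_succ]

theorem trace_eq {F : Type} [Field F] {q N : Matrix n n F} (hq : IsUnit q.det) {z : F}
    (h : Nᵀ * q + q * N = z • q) : 2 * N.trace = z * (Fintype.card n : F) := by
  have h1 : (q⁻¹ * (Nᵀ * q + q * N)).trace = z * (Fintype.card n : F) := by
    rw [h, mul_smul_comm, nonsing_inv_mul _ hq, trace_smul, trace_one, smul_eq_mul]
  have h2 : (q⁻¹ * (Nᵀ * q + q * N)).trace = 2 * N.trace := by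
    rw [mul_add, trace_add, ← mul_assoc q⁻¹ q N, nonsing_inv_mul _ hq, one_mul, ← mul_assoc,
      trace_mul_cycle, mul_nonsing_inv _ hq, one_mul, trace_transpose, two_mul]
  rw [← h2, h1]

theorem lim_skew {T N q : Matrix n n ℚ_[ℓ]} (hq : IsUnit q.det) {z : ℚ_[ℓ]}
    (hT : Tᵀ * q * T = z • q)
    (h : Tendsto (fun k : ℕ => ((ℓ : ℚ_[ℓ]) ^ k)⁻¹ • (T ^ (ℓ ^ k) - 1)) atTop (𝓝 N))
    (hN : N.trace = 0) : Nᵀ * q + q * N = 0 := by
  have hc : IsClosed ((Submodule.span ℚ_[ℓ] {q} : Submodule ℚ_[ℓ] (Matrix n n ℚ_[ℓ])) :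
      Set (Matrix n n ℚ_[ℓ])) := Submodule.closed_of_finiteDimensional _
  have hl : Tendsto (fun k : ℕ => (ℓ : ℚ_[ℓ]) ^ k) atTop (𝓝 0) :=
    tendsto_pow_atTop_nhds_zero_of_norm_lt_one Padic.norm_p_lt_one
  have hcont : Continuous fun M : Matrix n n ℚ_[ℓ] => Mᵀ * q + q * M := by fun_prop
  have hcont2 : Continuous fun M : Matrix n n ℚ_[ℓ] => Mᵀ * q * M := by fun_prop
  have h1 := (hcont.tendsto N).comp h
  have h2 := hl.smul ((hcont2.tendsto N).comp h)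
  rw [zero_smul] at h2
  have h3 := h1.add h2
  rw [add_zero] at h3
  have hm : Nᵀ * q + q * N ∈ ((Submodule.span ℚ_[ℓ] {q} : Submodule ℚ_[ℓ] (Matrix n n ℚ_[ℓ])) :
      Set (Matrix n n ℚ_[ℓ])) := by
    refine hc.mem_of_tendsto h3 (Eventually.of_forall fun k => ?_)
    have hl0 : (ℓ : ℚ_[ℓ]) ^ k ≠ 0 :=
      pow_ne_zero _ (Nat.cast_ne_zero.2 (Fact.out (p := ℓ.Prime)).ne_zero)
    have e := sim_pow hT (ℓ ^ k)
    refine Submodule.mem_span_singleton.2 ⟨((ℓ : ℚ_[ℓ]) ^ k)⁻¹ * (z ^ (ℓ ^ k) - 1), ?_⟩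
    simp only [Function.comp_apply]
    set B := T ^ (ℓ ^ k) with hB
    have e1 : (((ℓ : ℚ_[ℓ]) ^ k)⁻¹ • (B - 1))ᵀ * q + q * (((ℓ : ℚ_[ℓ]) ^ k)⁻¹ • (B - 1)) +
        (ℓ : ℚ_[ℓ]) ^ k • ((((ℓ : ℚ_[ℓ]) ^ k)⁻¹ • (B - 1))ᵀ * q * (((ℓ : ℚ_[ℓ]) ^ k)⁻¹ • (B - 1))) =
        ((ℓ : ℚ_[ℓ]) ^ k)⁻¹ • (Bᵀ * q * B - q) := by
      rw [transpose_smul, transpose_sub, transpose_one, smul_mul_assoc, mul_smul_comm,
        smul_mul_assoc, mul_smul_comm, smul_smul, smul_smul, mul_inv_cancel₀ hl0, one_mul,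
        ← smul_add, ← smul_add]
      congr 1
      noncomm_ring
    rw [e1, e, mul_smul, sub_smul, one_smul]
  obtain ⟨t, ht⟩ := Submodule.mem_span_singleton.1 hm
  have h4 := trace_eq hq ht.symm
  rw [hN, mul_zero] at h4
  rcases mul_eq_zero.1 h4.symm with h5 | h5
  · rw [← ht, h5, zero_smul]
  · have h6 : IsEmpty n := Fintype.card_eq_zero_iff.1 (by exact_mod_cast h5)
    exact Subsingleton.elim _ _

end adic

section row

variable {F n : Type} [Field F] [Fintype n] [DecidableEq n]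

theorem row_pow {T : Matrix n n F} {x : n → F} {y : F} (hx : x ᵥ* T = y • x) (a : F) (k : ℕ) :
    x ᵥ* (T - a • (1 : Matrix n n F)) ^ k = (y - a) ^ k • x := by
  induction k with
  | zero => rw [pow_zero, pow_zero, vecMul_one, one_smul]
  | succ k ih =>
    rw [pow_succ, ← vecMul_vecMul, ih, smul_vecMul, vecMul_sub, hx, vecMul_smul, vecMul_one,
      ← sub_smul, smul_smul, pow_succ]

theorem row_fn [IsAlgClosed F] {φ : F → F} {T N : Matrix n n F} (h : IsFn φ T N) {x : n → F} {y : F}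
    (hx : x ᵥ* T = y • x) : x ᵥ* N = φ y • x := by
  have key : ∀ v, x ⬝ᵥ (N *ᵥ v) = φ y * (x ⬝ᵥ v) := by
    intro v
    refine Fun.span_ind T (P := fun v => x ⬝ᵥ (N *ᵥ v) = φ y * (x ⬝ᵥ v)) ?_ ?_ ?_ v
    · rw [mulVec_zero, dotProduct_zero, mul_zero]
    · intro v w hv hw
      rw [mulVec_add, dotProduct_add, hv, hw, dotProduct_add, mul_add]
    · intro a v hv
      rw [(Fun.isFn_iff φ T N).1 h a v hv, dotProduct_smul, smul_eq_mul]
      rcases eq_or_ne a y with rfl | hay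
      · rfl
      · rw [Module.End.mem_maxGenEigenspace] at hv
        obtain ⟨k, hk⟩ := hv
        rw [← Fun.pow_vec] at hk
        have h1 : x ⬝ᵥ (((T - a • (1 : Matrix n n F)) ^ k) *ᵥ v) = (y - a) ^ k * (x ⬝ᵥ v) := by
          rw [dotProduct_mulVec, row_pow hx, smul_dotProduct, smul_eq_mul]
        rw [hk, dotProduct_zero] at h1
        rcases mul_eq_zero.1 h1.symm with h2 | h2
        · exact absurd (sub_eq_zero.1 (eq_zero_of_pow_eq_zero h2)).symm hay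
        · rw [h2, mul_zero, mul_zero]
  funext i
  have h1 := key (Pi.single i 1)
  rw [dotProduct_mulVec, dotProduct_single_one, dotProduct_single_one] at h1
  rw [h1]
  rfl

end row

section misc

variable {ι : Type} [Fintype ι] [DecidableEq ι]

theorem isAdd_log (q : ℕ) :
    IsAdd (fun x : ℂ => x ≠ 0) (fun z => ((2 * Real.logb q ‖z‖ : ℝ) : ℂ)) where
  one := one_ne_zero
  mul := fun x y hx hy => mul_ne_zero hx hy
  inv := fun x hx => inv_ne_zero hx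
  ne := fun x hx => hx
  map := by
    intro x y hx hy
    rw [norm_mul, Real.logb_mul (norm_ne_zero_iff.2 hx) (norm_ne_zero_iff.2 hy)]
    push_cast
    ring

theorem blk_H {F : Type} [Field F] [CharZero F] (X : Coh ι) (j : ℕ) :
    blk X.deg j (X.H F) = (j : F) • 1 := by
  ext a b
  change Matrix.diagonal (fun a => (X.deg a : F)) a.1 b.1 = ((j : F) • (1 : Matrix _ _ F)) a b
  rw [Matrix.smul_apply, Matrix.one_apply, Matrix.diagonal_apply]
  by_cases h : a = b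
  · subst h
    rw [if_pos rfl, if_pos rfl, a.2, smul_eq_mul, mul_one]
  · rw [if_neg h, if_neg (fun h' => h (Subtype.ext h')), smul_zero]

omit [Fintype ι] [DecidableEq ι] in
theorem graded_add {F : Type} [Field F] {deg : ι → ℕ} {M M' : Matrix ι ι F} (h : IsGraded deg M)
    (h' : IsGraded deg M') : IsGraded deg (M + M') := by
  intro a b hab
  rw [Matrix.add_apply, h a b hab, h' a b hab, add_zero]

theorem graded_H {F : Type} [Field F] [CharZero F] (X : Coh ι) : IsGraded X.deg (X.H F) := by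
  intro a b hab
  exact Matrix.diagonal_apply_ne _ (fun h => hab (by rw [h]))

omit [Fintype ι] [DecidableEq ι] in
theorem graded_map {F G : Type} [Field F] [Field G] {deg : ι → ℕ} {M : Matrix ι ι F}
    (h : IsGraded deg M) (c : F →+* G) : IsGraded deg (M.map c) := by
  intro a b hab
  rw [Matrix.map_apply, h a b hab, map_zero]

theorem norm_le {q : ℕ} (hq : 2 ≤ q) {y : ℂ} (hy : y ≠ 0) (j : ℕ) :
    (2 * Real.logb q ‖y‖ - j ≤ 0 → ‖y‖ ^ 2 ≤ (q : ℝ) ^ j) ∧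
      (0 ≤ 2 * Real.logb q ‖y‖ - j → (q : ℝ) ^ j ≤ ‖y‖ ^ 2) := by
  have hq1 : (1 : ℝ) < q := by exact_mod_cast (by omega : 1 < q)
  have hy0 : 0 < ‖y‖ := norm_pos_iff.2 hy
  have e1 : Real.logb q (‖y‖ ^ 2) = 2 * Real.logb q ‖y‖ := by
    rw [Real.logb_pow]
    norm_num
  have e2 : Real.logb q ((q : ℝ) ^ j) = j := by
    rw [Real.logb_pow, Real.logb_self_eq_one hq1, mul_one]
  have hp1 : 0 < ‖y‖ ^ 2 := by positivity
  have hp2 : 0 < (q : ℝ) ^ j := by positivity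
  constructor
  · intro h
    rw [← Real.logb_le_logb hq1 hp1 hp2, e1, e2]
    linarith
  · intro h
    rw [← Real.logb_le_logb hq1 hp2 hp1, e1, e2]
    linarith

end misc

end Wmj

open Wmj in
theorem t_WMJ (hFUN : S_FUN) (hADJ : S_ADJ) (hBAS : S_BAS) (hLOG : S_LOG) (hLAA : S_LAA)
    (hNPH : S_NPH) (hSLK : S_SLK) (hSKW : S_SKW) (hLGU : S_LGU)
    (hcft : ∀ (K : Type) [Field K] [NumberField K] (ℓ : ℕ) [Fact ℓ.Prime], ClassFieldTheory K ℓ) :
    S_WMJ := by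
  intro K _ _ ℓ _ ι _ _ X S χ Pol ρ hX hR hNU c q g u hq hu hnil hWM j x y hx
  obtain ⟨hadd, hsmul, hmap, hself, -, hbr, hgr, hnat, -⟩ := hBAS ι X hX ℂ
  have hb3 := hX.betti
  have hbC : (Fintype.card {a // X.deg a = 2} : ℂ) ≠ 0 := Nat.cast_ne_zero.2 (by omega)
  -- the logarithm of `ρ u`
  obtain ⟨L, hL, -, -⟩ := hLOG ℓ ι (ρ u) ((ℓ : ℝ) ^ 2)⁻¹ le_rfl hu.1
  have hLmem : L ∈ LieImage ρ Set.univ :=
    ⟨fun k => u ^ (ℓ ^ k), fun _ => Set.mem_univ _, by simpa only [map_pow] using hL⟩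
  have hLeq : L = X.δt ℚ_[ℓ] (blk X.deg 2 L) :=
    hLAA K ℓ ι X S χ Pol ρ (hcft K ℓ) hX hR hNU L hLmem
  have hgA : IsGraded X.deg (ρ u) := hR.graded u
  have hbj : ∀ i, Tendsto (fun k : ℕ => ((ℓ : ℚ_[ℓ]) ^ k)⁻¹ • ((blk X.deg i (ρ u)) ^ (ℓ ^ k) - 1))
      atTop (𝓝 (blk X.deg i L)) := by
    intro i
    have hc : Continuous fun M : Matrix ι ι ℚ_[ℓ] => blk X.deg i M :=
      continuous_id.matrix_submatrix _ _
    refine ((hc.tendsto L).comp hL).congr fun k => ?_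
    rw [Function.comp_apply, ValH89.blk_smul, ValH89.blk_sub, ValH89.blk_pow hgA, ValH89.blk_one]
  obtain ⟨hlg1, hlg2, -⟩ := hLGU ℓ {a // X.deg a = 2} (blk X.deg 2 (ρ u)) hnil
  have hN2 : lgu (blk X.deg 2 (ρ u)) = blk X.deg 2 L := tendsto_nhds_unique hlg1 (hbj 2)
  rw [hN2] at hWM hlg2
  have htr : (blk X.deg 2 L).trace = 0 := (Matrix.isNilpotent_trace_of_isNilpotent hlg2).eq_zero
  have hsk : (blk X.deg 2 L)ᵀ * X.qF ℚ_[ℓ] + X.qF ℚ_[ℓ] * blk X.deg 2 L = 0 :=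
    lim_skew (BasP.qF_det hX) (hR.similitude u) (hbj 2) htr
  have hLδ : L = X.δF ℚ_[ℓ] (blk X.deg 2 L) := by
    conv_lhs => rw [hLeq]
    unfold Coh.δt
    rw [htr, zero_div, zero_smul, add_zero]
  set N : Matrix {a // X.deg a = 2} {a // X.deg a = 2} ℂ := (blk X.deg 2 L).map c with hN
  have hLc : L.map c = X.δF ℂ N := by
    conv_lhs => rw [hLδ]
    rw [Trn78.δF_map]
  have hNsk : Nᵀ * X.qF ℂ + X.qF ℂ * N = 0 := by
    have h := congrArg (fun M : Matrix {a // X.deg a = 2} {a // X.deg a = 2} ℚ_[ℓ] => M.map c) hsk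
    rw [Matrix.map_add _ (map_add c), Matrix.map_mul, Matrix.map_mul, Trn78.qF_map,
      Matrix.transpose_map, Matrix.map_zero _ (map_zero c)] at h
    exact h
  -- the weights of `ρ g`
  have hRR : (ρ g).map c * (ρ g⁻¹).map c = 1 := by
    rw [← Matrix.map_mul, ← map_mul, mul_inv_cancel, map_one]
    exact Matrix.map_one _ (map_zero _) (map_one _)
  set R : Matrix ι ι ℂ := (ρ g).map c with hRdef
  have hgR : IsGraded X.deg R := graded_map (hR.graded g) c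
  have hφ := isAdd_log q
  set φ : ℂ → ℂ := fun z => ((2 * Real.logb q ‖z‖ : ℝ) : ℂ) with hφdef
  obtain ⟨W, hW⟩ := (hFUN ℂ ι φ R).1
  have hWt : W = X.δt ℂ (blk X.deg 2 W) := hNPH K ℓ ι X S χ Pol ρ hX hR hNU c g φ hφ W hW
  have hgW : IsGraded X.deg W := by
    rw [hWt]
    exact graded_add (hgr _) (ValH89.graded_smul _ (graded_H X))
  have hW2 : IsFn φ (blk X.deg 2 R) (blk X.deg 2 W) := ValH89.fn_blk hgR hgW hW 2
  have hWj : IsFn φ (blk X.deg j R) (blk X.deg j W) := ValH89.fn_blk hgR hgW hW j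
  obtain ⟨E, H0, hH0, hHE, hHN, hEN⟩ := hWM
  have hfn : IsFn (fun a => φ a - 2) (blk X.deg 2 R) H0 := by
    intro a k z hz
    rw [hH0 a k z hz, hφdef]
    push_cast
    rfl
  have hfn' : IsFn (fun a => φ a - 2) (blk X.deg 2 R) (blk X.deg 2 W - (2 : ℂ) • 1) := by
    intro a k z hz
    rw [sub_mulVec, hW2 a k z hz, smul_mulVec, one_mulVec, sub_smul]
  have hH0W : H0 = blk X.deg 2 W - (2 : ℂ) • 1 := by
    have h := ((hFUN ℂ _ (fun a => φ a - 2) (blk X.deg 2 R)).2 H0 hfn).1 _ (blk X.deg 2 R)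
      (blk X.deg 2 W - (2 : ℂ) • 1) 1 hfn' (by rw [one_mul, mul_one])
    rwa [one_mul, mul_one] at h
  have htrH : H0.trace = 0 := by
    rw [← hEN, trace_sub, trace_mul_comm, sub_self]
  have htrW : (blk X.deg 2 W).trace = 2 * (Fintype.card {a // X.deg a = 2} : ℂ) := by
    rw [hH0W, trace_sub, trace_smul, trace_one, smul_eq_mul, sub_eq_zero] at htrH
    exact htrH
  have hqd : IsUnit (X.qF ℂ).det := BasP.qF_det hX
  have hqs : (X.qF ℂ)ᵀ = X.qF ℂ := BasP.qF_symm hX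
  have hχ : c (χ g) ≠ 0 := by
    intro h
    have h1 : χ g * χ g⁻¹ = 1 := by rw [← map_mul, mul_inv_cancel, map_one]
    have h2 := congrArg c h1
    rw [map_mul, h, zero_mul, map_one] at h2
    exact zero_ne_one h2
  have hsim : (blk X.deg 2 R)ᵀ * X.qF ℂ * blk X.deg 2 R = (c (χ g)) ^ 2 • X.qF ℂ := by
    have h := congrArg (fun M : Matrix {a // X.deg a = 2} {a // X.deg a = 2} ℚ_[ℓ] => M.map c)
      (hR.similitude g)
    rw [Matrix.map_mul, Matrix.map_mul, Trn78.qF_map, Matrix.transpose_map, Trn78.mapsm,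
      Trn78.qF_map, map_pow] at h
    exact h
  have hRR2 : blk X.deg 2 R * blk X.deg 2 ((ρ g⁻¹).map c) = 1 := by
    rw [← ValH89.blk_mul hgR, hRR, ValH89.blk_one]
  have hroot : ∀ a, (blk X.deg 2 R).charpoly.IsRoot a → a ≠ 0 := by
    rintro a ha rfl
    rw [Polynomial.IsRoot.def, Matrix.eval_charpoly, map_zero, zero_sub, Matrix.det_neg] at ha
    have h1 := congrArg Matrix.det hRR2
    rw [det_mul, det_one] at h1
    rcases mul_eq_zero.1 ha with h2 | h2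
    · exact absurd h2 (pow_ne_zero _ (by norm_num))
    · rw [h2, zero_mul] at h1
      exact zero_ne_one h1
  have hWq := (hADJ ℂ (fun x => x ≠ 0) φ hφ {a // X.deg a = 2} (blk X.deg 2 R) _ _ hRR2 hroot
    hW2).2.2.1 (X.qF ℂ) ((c (χ g)) ^ 2) hsim (pow_ne_zero 2 hχ)
  have hφμ : φ ((c (χ g)) ^ 2) = 4 := by
    have h := trace_eq hqd hWq
    rw [htrW] at h
    have h2 : (φ ((c (χ g)) ^ 2) - 4) * (Fintype.card {a // X.deg a = 2} : ℂ) = 0 := by
      linear_combination -h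
    rcases mul_eq_zero.1 h2 with h3 | h3
    · exact sub_eq_zero.1 h3
    · exact absurd h3 hbC
  rw [hφμ] at hWq
  have hH0sk : H0ᵀ * X.qF ℂ + X.qF ℂ * H0 = 0 := by
    rw [hH0W, transpose_sub, transpose_smul, transpose_one, sub_mul, mul_sub, smul_mul_assoc,
      mul_smul_comm, one_mul, mul_one]
    have e : (blk X.deg 2 W)ᵀ * X.qF ℂ - (2 : ℂ) • X.qF ℂ +
        (X.qF ℂ * blk X.deg 2 W - (2 : ℂ) • X.qF ℂ) =
        ((blk X.deg 2 W)ᵀ * X.qF ℂ + X.qF ℂ * blk X.deg 2 W) - (4 : ℂ) • X.qF ℂ := by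
      module
    rw [e, hWq, sub_self]
  -- the `sl₂`-triple in all degrees
  obtain ⟨E', hE'sk, hHE', hEN'⟩ := hSKW _ (X.qF ℂ) E H0 N hqs hqd.ne_zero hH0sk hNsk hHE hEN
  have hWδ : W = X.δF ℂ H0 + X.H ℂ := by
    have h1 : X.δF ℂ (1 : Matrix {a // X.deg a = 2} {a // X.deg a = 2} ℂ) = 0 :=
      hself 1 (by rw [transpose_one, one_mul, mul_one])
    have h2 : X.δF ℂ (blk X.deg 2 W) = X.δF ℂ H0 := by
      have h3 : blk X.deg 2 W = H0 + (2 : ℂ) • 1 := by rw [hH0W, sub_add_cancel]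
      rw [h3, hadd, hsmul, h1, smul_zero, add_zero]
    conv_lhs => rw [hWt]
    unfold Coh.δt
    rw [h2, htrW, div_self (mul_ne_zero two_ne_zero hbC), one_smul]
  have e1 : blk X.deg j (X.δF ℂ H0) * blk X.deg j (X.δF ℂ E') -
      blk X.deg j (X.δF ℂ E') * blk X.deg j (X.δF ℂ H0) = (2 : ℂ) • blk X.deg j (X.δF ℂ E') := by
    rw [← ValH89.blk_mul (hgr _), ← ValH89.blk_mul (hgr _), ← ValH89.blk_sub, ← hbr H0 E' hH0sk,
      hHE', hsmul, ValH89.blk_smul]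
  have e2 : blk X.deg j (X.δF ℂ H0) * blk X.deg j (X.δF ℂ N) -
      blk X.deg j (X.δF ℂ N) * blk X.deg j (X.δF ℂ H0) = -((2 : ℂ) • blk X.deg j (X.δF ℂ N)) := by
    rw [← ValH89.blk_mul (hgr _), ← ValH89.blk_mul (hgr _), ← ValH89.blk_sub, ← hbr H0 N hH0sk,
      hHN, ← neg_smul, hsmul, ValH89.blk_smul, neg_smul]
  have e3 : blk X.deg j (X.δF ℂ E') * blk X.deg j (X.δF ℂ N) -
      blk X.deg j (X.δF ℂ N) * blk X.deg j (X.δF ℂ E') = blk X.deg j (X.δF ℂ H0) := by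
    rw [← ValH89.blk_mul (hgr _), ← ValH89.blk_mul (hgr _), ← ValH89.blk_sub, ← hbr E' N hE'sk,
      hEN']
  obtain ⟨hk1, hk2⟩ := hSLK _ _ _ _ e1 e2 e3
  have hNj : blk X.deg j (X.δF ℂ N) = (blk X.deg j L).map c := by
    rw [← hLc, Trn78.blk_map]
  have hWjδ : blk X.deg j W = blk X.deg j (X.δF ℂ H0) + (j : ℂ) • 1 := by
    rw [hWδ, ← blk_H]
    rfl
  have hRRj : blk X.deg j ((ρ g⁻¹).map c) * blk X.deg j R = 1 := by
    rw [← ValH89.blk_mul (graded_map (hR.graded g⁻¹) c), hRdef, ← Matrix.map_mul, ← map_mul,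
      inv_mul_cancel, map_one, Matrix.map_one _ (map_zero _) (map_one _), ValH89.blk_one]
  have hRRj' : blk X.deg j R * blk X.deg j ((ρ g⁻¹).map c) = 1 := by
    rw [← ValH89.blk_mul hgR, hRR, ValH89.blk_one]
  constructor
  · intro hux hgx
    change blk X.deg j R *ᵥ x = y • x at hgx
    have hy : y ≠ 0 := by
      rintro rfl
      rw [zero_smul] at hgx
      have h := congrArg (fun z => blk X.deg j ((ρ g⁻¹).map c) *ᵥ z) hgx
      rw [mulVec_mulVec, hRRj, one_mulVec, mulVec_zero] at h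
      exact hx h
    have hNx : blk X.deg j (X.δF ℂ N) *ᵥ x = 0 := by
      obtain ⟨Y, hY⟩ := lim_right (hbj j)
      rw [hNj, hY, Matrix.map_mul, Matrix.map_sub _ (map_sub c),
        Matrix.map_one _ (map_zero c) (map_one c), ← mulVec_mulVec, sub_mulVec, one_mulVec, hux,
        sub_self, mulVec_zero]
    have hHx : blk X.deg j (X.δF ℂ H0) *ᵥ x = ((2 * Real.logb q ‖y‖ - j : ℝ) : ℂ) • x := by
      have h := hWj y 1 x (by rw [pow_one, sub_mulVec, smul_mulVec, one_mulVec, hgx, sub_self])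
      rw [hWjδ, add_mulVec, smul_mulVec, one_mulVec] at h
      rw [eq_sub_of_add_eq h, ← sub_smul, hφdef]
      push_cast
      rfl
    exact (norm_le hq hy j).1 (hk1 x _ hx hNx hHx)
  · intro hux hgx
    change x ᵥ* blk X.deg j R = y • x at hgx
    have hy : y ≠ 0 := by
      rintro rfl
      rw [zero_smul] at hgx
      have h := congrArg (fun z => z ᵥ* blk X.deg j ((ρ g⁻¹).map c)) hgx
      rw [vecMul_vecMul, hRRj', vecMul_one, zero_vecMul] at h
      exact hx h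
    have hNx : x ᵥ* blk X.deg j (X.δF ℂ N) = 0 := by
      obtain ⟨Y, hY⟩ := lim_left (hbj j)
      rw [hNj, hY, Matrix.map_mul, Matrix.map_sub _ (map_sub c),
        Matrix.map_one _ (map_zero c) (map_one c), ← vecMul_vecMul, vecMul_sub, vecMul_one, hux,
        sub_self, zero_vecMul]
    have hHx : x ᵥ* blk X.deg j (X.δF ℂ H0) = ((2 * Real.logb q ‖y‖ - j : ℝ) : ℂ) • x := by
      have h := row_fn hWj hgx
      rw [hWjδ, vecMul_add, vecMul_smul, vecMul_one] at h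
      rw [eq_sub_of_add_eq h, ← sub_smul, hφdef]
      push_cast
      rfl
    exact (norm_le hq hy j).2 (hk2 x _ hx hNx hHx)

end Pool.Agent.NH56.HL
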