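import Pool.Agent.NH56.HL.Stm

/-!
# WSP: joint eigenspaces (helper48)
-/

set_option autoImplicit false

namespace Pool.Agent.NH56.HL

open Matrix Polynomial

namespace Wsp

theorem inj (s : Finset ℤ) : Set.InjOn (fun m : ℤ => (m : ℂ)) s := fun _ _ _ _ h =>
  Int.cast_injective h

/-- one element -/
theorem one {A : Type} [CommRing A] [Algebra ℂ A] (M : ℕ) (d : A) (h : aeval d (pM M) = 0) :
    ∃ e : ℤ → A, (∀ m, m ∉ Finset.Icc (-(M : ℤ)) M → e m = 0) ∧
      (∀ m, d * e m = algebraMap ℂ A m * e m) ∧ ∑ m ∈ Finset.Icc (-(M : ℤ)) M, e m = 1 ∧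
      (∀ m m', m ≠ m' → e m * e m' = 0) ∧ (∀ m, e m * e m = e m) ∧
      ∀ m ∈ Finset.Icc (-(M : ℤ)) M, ∃ q : ℂ[X], e m = aeval d q ∧ q.eval (m : ℂ) = 1 := by
  classical
  set S : Finset ℤ := Finset.Icc (-(M : ℤ)) M with hS
  have hne : S.Nonempty := ⟨0, by rw [hS, Finset.mem_Icc]; constructor <;> omega⟩
  have hn : Lagrange.nodal S (fun m : ℤ => (m : ℂ)) = pM M := Lagrange.nodal_eq _ _
  set b : ℤ → ℂ[X] := fun m => Lagrange.basis S (fun m : ℤ => (m : ℂ)) m with hb
  have hb1 : ∀ m ∈ S, ∃ c : ℂ, (X - C (m : ℂ)) * b m = C c * pM M := by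
    intro m hm
    refine ⟨Lagrange.nodalWeight S (fun m : ℤ => (m : ℂ)) m, ?_⟩
    rw [hb]
    simp only []
    rw [Lagrange.basis_eq_prod_sub_inv_mul_nodal_div hm, ← Lagrange.nodal_erase_eq_nodal_div hm,
      ← hn, Lagrange.nodal_eq_mul_nodal_erase hm]
    ring
  set e : ℤ → A := fun m => if m ∈ S then aeval d (b m) else 0 with he
  have e0 : ∀ m, m ∉ S → e m = 0 := fun m hm => if_neg hm
  have e1 : ∀ m ∈ S, e m = aeval d (b m) := fun m hm => if_pos hm
  have e2 : ∀ m, d * e m = algebraMap ℂ A m * e m := by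
    intro m
    by_cases hm : m ∈ S
    · obtain ⟨c, hc⟩ := hb1 m hm
      have h1 := congrArg (aeval d) hc
      rw [map_mul, map_mul, h, mul_zero, map_sub, aeval_X, aeval_C, sub_mul, sub_eq_zero] at h1
      rw [e1 m hm]
      exact h1
    · rw [e0 m hm, mul_zero, mul_zero]
  have e3 : ∑ m ∈ S, e m = 1 := by
    rw [Finset.sum_congr rfl e1, ← map_sum, Lagrange.sum_basis (inj S) hne, map_one]
  have e4 : ∀ m m', m ≠ m' → e m * e m' = 0 := by
    intro m m' hmm
    have h1 : algebraMap ℂ A m * (e m * e m') = algebraMap ℂ A m' * (e m * e m') := by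
      calc algebraMap ℂ A m * (e m * e m') = (algebraMap ℂ A m * e m) * e m' := by ring
        _ = (d * e m') * e m := by rw [← e2]; ring
        _ = algebraMap ℂ A m' * (e m * e m') := by rw [e2]; ring
    have h2 : algebraMap ℂ A ((m : ℂ) - m') * (e m * e m') = 0 := by
      rw [map_sub, sub_mul, h1, sub_self]
    have h3 : ((m : ℂ) - m') ≠ 0 := by
      rw [sub_ne_zero]
      exact_mod_cast hmm
    calc e m * e m' = algebraMap ℂ A (((m : ℂ) - m')⁻¹ * ((m : ℂ) - m')) * (e m * e m') := by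
          rw [inv_mul_cancel₀ h3, map_one, one_mul]
      _ = algebraMap ℂ A (((m : ℂ) - m')⁻¹) * (algebraMap ℂ A ((m : ℂ) - m') * (e m * e m')) := by
          rw [map_mul]
          ring
      _ = 0 := by rw [h2, mul_zero]
  have e5 : ∀ m, e m * e m = e m := by
    intro m
    by_cases hm : m ∈ S
    · have h1 : e m * ∑ m' ∈ S, e m' = e m := by rw [e3, mul_one]
      rw [Finset.mul_sum, Finset.sum_eq_single_of_mem m hm (fun m' _ hmm => e4 m m' hmm.symm)] at h1
      exact h1
    · rw [e0 m hm, mul_zero]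
  exact ⟨e, e0, e2, e3, e4, e5, fun m hm => ⟨b m, e1 m hm, Lagrange.eval_basis_self (inj S) hm⟩⟩

theorem aeval_mulVec {n : Type} [Fintype n] [DecidableEq n] (D : Matrix n n ℂ) (x : n → ℂ) (a : ℂ)
    (h : D *ᵥ x = a • x) (q : ℂ[X]) : aeval D q *ᵥ x = q.eval a • x := by
  induction q using Polynomial.induction_on' with
  | add p q hp hq => rw [map_add, Matrix.add_mulVec, hp, hq, eval_add, add_smul]
  | monomial k c =>
    have h1 : ∀ k : ℕ, D ^ k *ᵥ x = a ^ k • x := by
      intro k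
      induction k with
      | zero => simp
      | succ k ih => rw [pow_succ', ← Matrix.mulVec_mulVec, ih, Matrix.mulVec_smul, h, smul_smul, pow_succ]
    rw [aeval_monomial, eval_monomial, ← Matrix.mulVec_mulVec, h1, Matrix.mulVec_smul,
      Algebra.algebraMap_eq_smul_one, Matrix.smul_mulVec, Matrix.one_mulVec, smul_smul, mul_comm]

theorem main {n : Type} [Fintype n] [DecidableEq n] {s M : ℕ} {Δ : Fin s → Matrix n n ℂ}
    {A : Type} [CommRing A] [Algebra ℂ A] (φ : A →ₐ[ℂ] Matrix n n ℂ) (d : Fin s → A)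
    (hφ : ∀ i, φ (d i) = Δ i) (h0 : ∀ i, aeval (d i) (pM M) = 0)
    (hc : ∀ Y, (∀ i, Y * Δ i = Δ i * Y) → ∀ a, Y * φ a = φ a * Y) : ∃ E, IsProj M Δ E := by
  classical
  choose e e0 e2 e3 e4 e5 e6 using fun i => one M (d i) (h0 i)
  refine ⟨fun μ => φ (∏ i, e i (μ i)), ?_, ?_, ?_, ?_, ?_, ?_, fun Y hY μ => hc Y hY _⟩
  · intro μ hμ
    have h1 : ∃ i, μ i ∉ Finset.Icc (-(M : ℤ)) M := by
      by_contra h1
      push Not at h1
      exact hμ (Fintype.mem_piFinset.2 h1)
    obtain ⟨i, hi⟩ := h1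
    rw [Finset.prod_eq_zero (Finset.mem_univ i) (e0 i _ hi), map_zero]
  · intro i μ
    rw [← hφ, ← map_mul, ← Finset.mul_prod_erase _ _ (Finset.mem_univ i), ← mul_assoc, e2,
      mul_assoc, map_mul, AlgHom.commutes, Algebra.algebraMap_eq_smul_one, smul_mul_assoc, one_mul]
  · intro μ
    rw [← map_mul, ← Finset.prod_mul_distrib, Finset.prod_congr rfl fun i _ => e5 i (μ i)]
  · intro μ ν hμν
    obtain ⟨i, hi⟩ := Function.ne_iff.1 hμν
    rw [← map_mul, ← Finset.prod_mul_distrib, Finset.prod_eq_zero (Finset.mem_univ i)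
      (e4 i _ _ hi), map_zero]
  · rw [← map_sum]
    have h1 := Finset.prod_univ_sum (fun _ : Fin s => Finset.Icc (-(M : ℤ)) M) (fun i m => e i m)
    unfold box
    rw [← h1, Finset.prod_congr rfl fun i _ => e3 i, Finset.prod_const_one, map_one]
  · intro μ x hx
    have h1 : ∀ i, φ (e i (μ i)) *ᵥ x = x := by
      intro i
      by_cases hi : μ i ∈ Finset.Icc (-(M : ℤ)) M
      · obtain ⟨q, hq1, hq2⟩ := e6 i _ hi
        rw [hq1, ← Polynomial.aeval_algHom_apply, hφ, aeval_mulVec _ x _ (hx i), hq2, one_smul]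
      · have h2 : aeval (Δ i) (pM M) *ᵥ x = (pM M).eval (μ i : ℂ) • x := aeval_mulVec _ x _ (hx i) _
        have h3 : aeval (Δ i) (pM M) = 0 := by
          rw [← hφ, Polynomial.aeval_algHom_apply, h0, map_zero]
        rw [h3, Matrix.zero_mulVec] at h2
        have h4 : (pM M).eval (μ i : ℂ) ≠ 0 := by
          unfold pM
          rw [Polynomial.eval_prod, Finset.prod_ne_zero_iff]
          intro m hm
          rw [eval_sub, eval_X, eval_C, sub_ne_zero]
          intro h5
          exact hi (by rwa [Int.cast_injective h5])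
        have h5 : x = 0 := by
          rcases smul_eq_zero.1 h2.symm with h6 | h6
          · exact absurd h6 h4
          · exact h6
        rw [h5, Matrix.mulVec_zero]
    have h2 : ∀ t : Finset (Fin s), φ (∏ i ∈ t, e i (μ i)) *ᵥ x = x := by
      intro t
      induction t using Finset.induction_on with
      | empty => rw [Finset.prod_empty, map_one, Matrix.one_mulVec]
      | insert i t hi ih => rw [Finset.prod_insert hi, map_mul, ← Matrix.mulVec_mulVec, ih, h1]
    exact h2 _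

end Wsp

open scoped IsMulCommutative in
theorem t_WSP : S_WSP := by
  intro n _ _ s M Δ hcomm h0
  have hc : ∀ a ∈ Set.range Δ, ∀ b ∈ Set.range Δ, a * b = b * a := by
    rintro _ ⟨i, rfl⟩ _ ⟨j, rfl⟩
    exact hcomm i j
  have := Algebra.isMulCommutative_adjoin ℂ hc
  refine Wsp.main (A := Algebra.adjoin ℂ (Set.range Δ)) (Algebra.adjoin ℂ (Set.range Δ)).val
    (fun i => ⟨Δ i, Algebra.subset_adjoin ⟨i, rfl⟩⟩) (fun i => rfl) (fun i => ?_) ?_
  · apply Subtype.ext
    have h1 := Polynomial.aeval_algHom_apply (Algebra.adjoin ℂ (Set.range Δ)).val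
      (⟨Δ i, Algebra.subset_adjoin ⟨i, rfl⟩⟩ : Algebra.adjoin ℂ (Set.range Δ)) (pM M)
    exact h1.symm.trans (h0 i)
  · intro Y hY a
    have h1 : Algebra.adjoin ℂ (Set.range Δ) ≤ Subalgebra.centralizer ℂ {Y} := by
      rw [Algebra.adjoin_le_iff]
      rintro _ ⟨i, rfl⟩
      rw [SetLike.mem_coe, Subalgebra.mem_centralizer_iff]
      intro Z hZ
      rw [Set.mem_singleton_iff.1 hZ]
      exact hY i
    have h2 := h1 a.2
    rw [Subalgebra.mem_centralizer_iff] at h2
    exact h2 Y rfl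

end Pool.Agent.NH56.HL
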