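import Pool.Agent.NH56.HO.Main
import Pool.Agent.NH56.HL.Exm
import Pool.Agent.NH56.HL.Exp
import Pool.Agent.NH56.HL.Lmu
import Pool.Agent.NH56.HL.Hyp
import Pool.Agent.NH56.HL.Wey
import Pool.Agent.NH56.HL.Hdg
import Pool.Agent.NH56.HL.Int
import Pool.Agent.NH56.HL.Fra
import Pool.Agent.NH56.HL.Frm
import Pool.Agent.NH56.HL.Frc
import Pool.Agent.NH56.HL.Wsp
import Pool.Agent.NH56.HL.Wei
import Pool.Agent.NH56.HL.Sya
import Pool.Agent.NH56.HL.Sym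
import Pool.Agent.NH56.HL.Trf
import Pool.Agent.NH56.HL.Tor
import Pool.Agent.NH56.HL.Mul
import Pool.Agent.NH56.HL.Dec
import Pool.Agent.NH56.HL.Rou
import Pool.Agent.NH56.HL.Trc
import Pool.Agent.NH56.HL.Dtc
import Pool.Agent.NH56.HL.Ctr
import Pool.Agent.NH56.HL.Npu
import Pool.Agent.NH56.HL.Nph
import Pool.Agent.NH56.HL.Kap
import Pool.Agent.NH56.HL.Trl
import Pool.Agent.NH56.HL.Tau
import Pool.Agent.NH56.HL.Dns
import Pool.Agent.NH56.HL.Slk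
import Pool.Agent.NH56.HL.Skw
import Pool.Agent.NH56.HL.Lgu
import Pool.Agent.NH56.HL.Wmj
import Pool.Agent.NH56.HL.Unp
import Pool.Agent.NH56.HL.Rat
import Pool.Agent.NH56.HL.Loc
import Pool.Agent.NH56.HL.Fin

/-!
# Assembly
-/

set_option autoImplicit false

namespace Pool.Agent.NH56.HL

open Pool.Agent.NH56.HY Pool.Agent.NH56.HO

theorem main : S_FIN := by
  have hFUN := t_FUN
  have hADJ := t_ADJ hFUN
  have hMAJ := t_MAJ
  have hBAS := t_BAS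
  have hPER := t_PER hBAS
  have hNDG := t_NDG
  have hRIG := t_RIG hFUN
  have hVAL := t_VAL hFUN hADJ hMAJ hBAS hPER hNDG hRIG
  have hKRO := t_KRO
  have hARI := t_ARI
  have hNWT := Pool.Agent.NH66.HY.Nwt.t_NWT hARI
  have hNR1 := t_NR1
  have hLOG := t_LOG
  have hTRN := t_TRN hBAS hARI
  have hPHI := t_PHI hFUN hADJ hBAS hPER hARI hNWT hTRN hVAL
  have hEIG := t_EIG hFUN hADJ hKRO hARI hTRN hPHI
  have hDET := t_DET hFUN hADJ hKRO hARI hTRN hPHI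
  have hORD := t_ORD hNR1 t_DG1
  have hUNI := t_UNI hBAS hNR1 hEIG hDET
  have hCOM := t_COM hBAS hPER hLOG
  have hCMU := t_CMU hORD hUNI hCOM cft
  have hLAA := t_LAA hORD hUNI hCOM (t_TAN hFUN hBAS hPER hNDG)
  have hEXM := t_EXM
  have hEXP := t_EXP hEXM hBAS hPER
  have hLMU := t_LMU hEXM hEXP hBAS
  have hINT := t_INT hLMU t_HYP (t_HDG hBAS) hBAS
  have hFRM := t_FRM t_FRA
  have hFRC := t_FRC
  have hWSP := t_WSP
  have hWEI := t_WEI hLMU t_WEY hBAS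
  have hSYM := t_SYM t_SYA
  have hMUL := t_MUL hFUN
  have hDEC := t_DEC hFUN hMUL hEXM hEXP hFRM hFRC hBAS
  have hROU := t_ROU hFUN hMUL t_TOR hFRC hWSP hINT hBAS
  have hTRC := t_TRC hMUL hDEC hROU hWSP hINT hFRC hWEI hSYM t_TRF hBAS
  have hDTC := t_DTC hUNI hORD hCMU hNDG
  have hCTR := t_CTR hFUN hNDG
  have hNPU := t_NPU hFUN hADJ hBAS hPER hNDG hCTR
  have hNPH := t_NPH hFUN hNPU hDTC hBAS
  have hKAP := t_KAP hBAS
  have hTRL := t_TRL hNR1 hNPH hKAP hTRC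
  have hDNS := t_DNS t_DG1 hKAP hTRL t_TAU
  have hWMJ := t_WMJ hFUN hADJ hBAS hLOG hLAA hNPH t_SLK t_SKW t_LGU (fun K _ _ ℓ _ => cft K ℓ)
  have hUNP := t_UNP hFUN hBAS t_TOR hNR1 hNPH hKAP hDNS
  have hRAT := t_RAT hKAP hDNS
  exact t_FIN t_NUS t_LGU hWMJ hUNP hRAT t_LOC

end Pool.Agent.NH56.HL
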