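import Pool.Agent.NH56.HL.Stm

set_option autoImplicit false

namespace Pool.Agent.NH56.HL

open Matrix

namespace Slk

variable {n : Type} [Fintype n] [DecidableEq n]

lemma wt {E H : Matrix n n ℂ} (hE : H * E - E * H = (2 : ℂ) • E) {x : n → ℂ} {r : ℂ}
    (hx : H *ᵥ x = r • x) (k : ℕ) : H *ᵥ (E ^ k *ᵥ x) = (r + 2 * k) • (E ^ k *ᵥ x) := by
  induction k with
  | zero => simp [hx]
  | succ k ih =>
    have e1 : H * E = E * H + (2 : ℂ) • E := by rw [← hE]; abel
    rw [pow_succ', ← mulVec_mulVec, mulVec_mulVec _ H E, e1, add_mulVec, ← mulVec_mulVec, ih,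
      smul_mulVec, mulVec_smul, ← add_smul]
    congr 1
    push_cast
    ring

lemma low {E H N : Matrix n n ℂ} (hE : H * E - E * H = (2 : ℂ) • E) (hEN : E * N - N * E = H)
    {x : n → ℂ} {r : ℂ} (hN : N *ᵥ x = 0) (hx : H *ᵥ x = r • x) (k : ℕ) :
    N *ᵥ (E ^ (k + 1) *ᵥ x) = (-((k + 1) * (r + k))) • (E ^ k *ᵥ x) := by
  have e1 : N * E = E * N - H := by rw [← hEN]; abel
  induction k with
  | zero =>
    rw [zero_add, pow_one, mulVec_mulVec, e1, sub_mulVec, ← mulVec_mulVec, hN, hx]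
    simp
  | succ k ih =>
    rw [pow_succ' E (k + 1), ← mulVec_mulVec, mulVec_mulVec _ N E, e1, sub_mulVec,
      ← mulVec_mulVec, ih, wt hE hx, mulVec_smul, mulVec_mulVec, ← pow_succ', ← sub_smul]
    congr 1
    push_cast
    ring

lemma main {E H N : Matrix n n ℂ} (hE : H * E - E * H = (2 : ℂ) • E) (hEN : E * N - N * E = H)
    (x : n → ℂ) (r : ℝ) (hx0 : x ≠ 0) (hN : N *ᵥ x = 0) (hx : H *ᵥ x = (r : ℂ) • x) : r ≤ 0 := by
  by_contra hr
  push Not at hr
  have hne : ∀ k : ℕ, E ^ k *ᵥ x ≠ 0 := by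
    intro k
    induction k with
    | zero => simpa using hx0
    | succ k ih =>
      intro h
      have h1 := low hE hEN hN hx k
      rw [h, mulVec_zero] at h1
      have h2 : (-(((k : ℂ) + 1) * ((r : ℂ) + k))) ≠ 0 := by
        rw [neg_ne_zero]
        have : (((k : ℝ) + 1) * (r + k)) ≠ 0 := by positivity
        exact_mod_cast this
      rcases smul_eq_zero.1 h1.symm with h3 | h3
      · exact h2 h3
      · exact ih h3
  have hli : LinearIndependent ℂ (fun k : ℕ => E ^ k *ᵥ x) := by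
    refine Module.End.eigenvectors_linearIndependent' (Matrix.toLin' H)
      (fun k : ℕ => (r : ℂ) + 2 * k) ?_ _ ?_
    · intro a b hab
      have : (2 : ℂ) * a = 2 * b := by simpa using hab
      exact_mod_cast mul_left_cancel₀ two_ne_zero this
    · intro k
      refine ⟨?_, hne k⟩
      rw [Module.End.mem_eigenspace_iff, toLin'_apply]
      exact wt hE hx k
  have : Finite ℕ := hli.finite
  exact not_finite ℕ

end Slk

theorem t_SLK : S_SLK := by
  intro n _ _ E H N hE hHN hEN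
  refine ⟨fun x r hx0 hN hx => Slk.main hE hEN x r hx0 hN hx, fun x r hx0 hN hx => ?_⟩
  -- the transposed triple `(Eᵀ, -Hᵀ, Nᵀ)`, with the roles of the raising and lowering operators
  have h1 : (-Hᵀ) * Eᵀ - Eᵀ * (-Hᵀ) = (2 : ℂ) • Eᵀ := by
    have := congrArg Matrix.transpose hE
    rw [transpose_sub, transpose_mul, transpose_mul, transpose_smul] at this
    rw [← this, neg_mul, mul_neg]
    abel
  have h2 : Eᵀ * Nᵀ - Nᵀ * Eᵀ = -Hᵀ := by
    have := congrArg Matrix.transpose hEN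
    rw [transpose_sub, transpose_mul, transpose_mul] at this
    rw [← this]
    abel
  have h3 : Nᵀ *ᵥ x = 0 := by rw [mulVec_transpose, hN]
  have h4 : (-Hᵀ) *ᵥ x = ((-r : ℝ) : ℂ) • x := by
    rw [neg_mulVec, mulVec_transpose, hx]
    push_cast
    rw [neg_smul]
  have := Slk.main h1 h2 x (-r) hx0 h3 h4
  linarith

end Pool.Agent.NH56.HL
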