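import Pool.Agent.NH56.HL.Def
import Pool.Agent.NH56.HO.Stm

/-!
# Local Euler factors of hyper-Kähler varieties at all places: statements of the parts
-/

set_option autoImplicit false

namespace Pool.Agent.NH56.HL

open Matrix Polynomial Filter Topology NumberField IsDedekindDomain Pool.Agent.NH56.HY
open Pool.Agent.NH56.HO

/-! ### Isometries and their lifts -/

/-- the bilinear form with matrix `q` -/
def bl {n : Type} [Fintype n] (q : Matrix n n ℂ) (a c : n → ℂ) : ℂ := a ⬝ᵥ (q *ᵥ c)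

/-- the element `v ↦ q(c, v) a - q(a, v) c` of the Lie algebra `so(q)` -/
def wd {n : Type} [Fintype n] (q : Matrix n n ℂ) (a c : n → ℂ) : Matrix n n ℂ :=
  vecMulVec a (q *ᵥ c) - vecMulVec c (q *ᵥ a)

/-- a hyperbolic pair -/
structure Hyp {n : Type} [Fintype n] (q : Matrix n n ℂ) (a c : n → ℂ) : Prop where
  aa : bl q a a = 0
  cc : bl q c c = 0
  ac : bl q a c = 1

/-- the element `g` of `SO(q)`, with inverse `g'`, is lifted to `A`, with inverse `A'` -/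
structure IsLift {ι : Type} [Fintype ι] [DecidableEq ι] (X : Coh ι)
    (g g' : Matrix {a // X.deg a = 2} {a // X.deg a = 2} ℂ) (A A' : Matrix ι ι ℂ) : Prop where
  mul : A * A' = 1
  mul' : g * g' = 1
  graded : IsGraded X.deg A
  graded' : IsGraded X.deg A'
  two : blk X.deg 2 A = g
  orth : gᵀ * X.qF ℂ * g = X.qF ℂ
  conj : ∀ x, X.IsSkew ℂ x → A * X.δF ℂ x * A' = X.δF ℂ (g * x * g')
  com : ∀ B, X.Com ℂ B → A * B = B * A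

/-- `g` can be lifted -/
def Lif {ι : Type} [Fintype ι] [DecidableEq ι] (X : Coh ι)
    (g g' : Matrix {a // X.deg a = 2} {a // X.deg a = 2} ℂ) : Prop :=
  ∃ A A', IsLift X g g' A A'

/-- a bound for the eigenvalues -/
def Mx {ι : Type} [Fintype ι] [DecidableEq ι] (X : Coh ι) : ℕ := ∑ a, (X.hdg a + X.deg a)

/-- the polynomial with the roots `-M, …, M` -/
noncomputable def pM (M : ℕ) : ℂ[X] :=
  ∏ m ∈ Finset.Icc (-(M : ℤ)) M, (Polynomial.X - Polynomial.C (m : ℂ))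

/-- an orthogonal system of `s` hyperbolic pairs `u i, u' i` and `e` vectors `z k` of square `1` -/
structure Frame {n : Type} [Fintype n] (q : Matrix n n ℂ) {s e : ℕ} (u u' : Fin s → n → ℂ)
    (z : Fin e → n → ℂ) : Prop where
  uu : ∀ i j, bl q (u i) (u j) = 0
  vv : ∀ i j, bl q (u' i) (u' j) = 0
  uv : ∀ i j, bl q (u i) (u' j) = if i = j then 1 else 0
  uz : ∀ i k, bl q (u i) (z k) = 0
  vz : ∀ i k, bl q (u' i) (z k) = 0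
  zz : ∀ k l, bl q (z k) (z l) = if k = l then 1 else 0

/-- the matrix `t` with `t (u i) = c i • u i`, `t (u' i) = (c i)⁻¹ • u' i`, `t (z k) = z k` -/
structure Acts {n : Type} [Fintype n] {s e : ℕ} (u u' : Fin s → n → ℂ) (z : Fin e → n → ℂ)
    (c : Fin s → ℂ) (t : Matrix n n ℂ) : Prop where
  u : ∀ i, t *ᵥ u i = c i • u i
  v : ∀ i, t *ᵥ u' i = (c i)⁻¹ • u' i
  z : ∀ k, t *ᵥ z k = z k

/-- **EXM**: properties of the matrix exponential -/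
def S_EXM : Prop := ∀ (n : Type) [Fintype n] [DecidableEq n] (M : Matrix n n ℂ),
  NormedSpace.exp M * NormedSpace.exp (-M) = 1 ∧
  (∀ (m : Type) [Fintype m] [DecidableEq m] (M' : Matrix m m ℂ) (L : Matrix m n ℂ),
    L * M = M' * L → L * NormedSpace.exp M = NormedSpace.exp M' * L) ∧
  (∀ (v : n → ℂ) (l : ℂ), M *ᵥ v = l • v → NormedSpace.exp M *ᵥ v = Complex.exp l • v) ∧
  (M ^ 3 = 0 → NormedSpace.exp M = 1 + M + (2 : ℂ)⁻¹ • M ^ 2) ∧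
  (M ^ 3 = -M → NormedSpace.exp ((Real.pi : ℂ) • M) = 1 + (2 : ℂ) • M ^ 2 ∧
    NormedSpace.exp ((Real.pi / 2 : ℂ) • M) = 1 + M + M ^ 2) ∧
  (∀ (m : Type) [Fintype m] [DecidableEq m] (M' : Matrix m m ℂ)
    (d : Matrix n n ℂ →ₗ[ℂ] Matrix m m ℂ), (∀ x, M' * d x - d x * M' = d (M * x - x * M)) →
    ∀ x, NormedSpace.exp M' * d x * NormedSpace.exp (-M') =
      d (NormedSpace.exp M * x * NormedSpace.exp (-M))) ∧
  (∀ q : Matrix n n ℂ, Mᵀ * q + q * M = 0 → (NormedSpace.exp M)ᵀ * q * NormedSpace.exp M = q)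

/-- **EXP**: the exponentials of the elements of the Lie algebra can be lifted -/
def S_EXP : Prop := ∀ (ι : Type) [Fintype ι] [DecidableEq ι] (X : Coh ι), IsHyperKahler X →
  ∀ x, X.IsSkew ℂ x → IsLift X (NormedSpace.exp x) (NormedSpace.exp (-x))
    (NormedSpace.exp (X.δF ℂ x)) (NormedSpace.exp (-(X.δF ℂ x)))

/-- **LMU**: products of lifts -/
def S_LMU : Prop := ∀ (ι : Type) [Fintype ι] [DecidableEq ι] (X : Coh ι), IsHyperKahler X →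
  (∀ g g' h h' A A' B B', IsLift X g g' A A' → IsLift X h h' B B' →
    IsLift X (g * h) (h' * g') (A * B) (B' * A')) ∧
  (∀ g g' h h', Lif X g g' → Lif X h h' → Lif X (g * h) (h' * g')) ∧
  (∀ J, X.IsSkew ℂ J → J ^ 3 = -J → Lif X (1 + (2 : ℂ) • J ^ 2) (1 + (2 : ℂ) • J ^ 2) ∧
    Lif X (1 + J + J ^ 2) (1 - J + J ^ 2)) ∧
  (∀ y, X.IsSkew ℂ y → y ^ 3 = 0 →
    Lif X (1 + y + (2 : ℂ)⁻¹ • y ^ 2) (1 - y + (2 : ℂ)⁻¹ • y ^ 2))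

/-- a class of pairs of matrices which is closed under products and contains the generators -/
structure Gen {n : Type} [Fintype n] [DecidableEq n] (q : Matrix n n ℂ)
    (G : Matrix n n ℂ → Matrix n n ℂ → Prop) : Prop where
  mul : ∀ g g' h h', G g g' → G h h' → G (g * h) (h' * g')
  one : ∀ J, Jᵀ * q + q * J = 0 → J ^ 3 = -J → G (1 + (2 : ℂ) • J ^ 2) (1 + (2 : ℂ) • J ^ 2)
  two : ∀ J, Jᵀ * q + q * J = 0 → J ^ 3 = -J → G (1 + J + J ^ 2) (1 - J + J ^ 2)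
  uni : ∀ y, yᵀ * q + q * y = 0 → y ^ 3 = 0 →
    G (1 + y + (2 : ℂ)⁻¹ • y ^ 2) (1 - y + (2 : ℂ)⁻¹ • y ^ 2)

/-- **HYP**: any two hyperbolic pairs are conjugate -/
def S_HYP : Prop := ∀ (n : Type) [Fintype n] [DecidableEq n] (q : Matrix n n ℂ), qᵀ = q → q.det ≠ 0 →
  3 ≤ Fintype.card n → ∀ G : Matrix n n ℂ → Matrix n n ℂ → Prop, Gen q G →
  ∀ a a' b b', Hyp q a a' → Hyp q b b' → ∃ g g', G g g' ∧ g * g' = 1 ∧ g * wd q a a' * g' = wd q b b'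

/-- **WEY**: generators of the Weyl group -/
def S_WEY : Prop := ∀ (n : Type) [Fintype n] [DecidableEq n] (q : Matrix n n ℂ), qᵀ = q →
  ∀ (s e : ℕ) (u u' : Fin s → n → ℂ) (z : Fin e → n → ℂ), 1 ≤ e → Frame q u u' z →
  ∀ G : Matrix n n ℂ → Matrix n n ℂ → Prop, Gen q G →
  (∀ i j, i ≠ j → ∃ g g', G g g' ∧ g * g' = 1 ∧
    ∀ k, g * wd q (u k) (u' k) * g' = wd q (u (Equiv.swap i j k)) (u' (Equiv.swap i j k))) ∧
  ∀ i, ∃ g g', G g g' ∧ g * g' = 1 ∧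
    ∀ k, g * wd q (u k) (u' k) * g' = if k = i then -wd q (u k) (u' k) else wd q (u k) (u' k)

/-- **HDG**: the Hodge operator is given by a hyperbolic pair -/
def S_HDG : Prop := ∀ (ι : Type) [Fintype ι] [DecidableEq ι] (X : Coh ι), IsHyperKahler X →
  ∃ a a', Hyp (X.qF ℂ) a a' ∧ blk X.deg 2 X.D - 1 = wd (X.qF ℂ) a a'

/-- **INT**: integrality in even degrees -/
def S_INT : Prop := ∀ (ι : Type) [Fintype ι] [DecidableEq ι] (X : Coh ι), IsHyperKahler X →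
  ∀ a a', Hyp (X.qF ℂ) a a' → ∀ j, Even j →
    aeval (blk X.deg j (X.δF ℂ (wd (X.qF ℂ) a a'))) (pM (Mx X)) = 0

/-- **FRA**: hyperbolic bases of eigenvectors -/
def S_FRA : Prop := ∀ (s : ℕ) (V : Type) [AddCommGroup V] [Module ℂ V] [FiniteDimensional ℂ V]
  (B : V →ₗ[ℂ] V →ₗ[ℂ] ℂ) (t : V →ₗ[ℂ] V), (∀ x y, B x y = B y x) →
  (∀ x, (∀ y, B x y = 0) → x = 0) → (∀ x y, B (t x) (t y) = B x y) → LinearMap.det t = 1 →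
  ⨆ a, Module.End.eigenspace t a = ⊤ → Module.finrank ℂ V = 2 * s →
  ∃ (u u' : Fin s → V) (c : Fin s → ℂ), (∀ i j, B (u i) (u j) = 0) ∧ (∀ i j, B (u' i) (u' j) = 0) ∧
    (∀ i j, B (u i) (u' j) = if i = j then 1 else 0) ∧ (∀ i, c i ≠ 0) ∧ (∀ i, t (u i) = c i • u i) ∧
    ∀ i, t (u' i) = (c i)⁻¹ • u' i

/-- **FRM**: a frame of eigenvectors -/
def S_FRM : Prop := ∀ (n : Type) [Fintype n] [DecidableEq n] (q t : Matrix n n ℂ), qᵀ = q →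
  q.det ≠ 0 → tᵀ * q * t = q → t.det = 1 → HO.IsDiag t → t.charpoly.IsRoot 1 →
  ∃ (s e : ℕ) (u u' : Fin s → n → ℂ) (z : Fin e → n → ℂ) (c : Fin s → ℂ), 1 ≤ e ∧ e ≤ 2 ∧
    Fintype.card n = 2 * s + e ∧ Frame q u u' z ∧ (∀ i, c i ≠ 0) ∧ Acts u u' z c t

/-- **FRC**: consequences of a frame -/
def S_FRC : Prop := ∀ (n : Type) [Fintype n] [DecidableEq n] (q : Matrix n n ℂ), qᵀ = q →
  ∀ (s e : ℕ) (u u' : Fin s → n → ℂ) (z : Fin e → n → ℂ), Fintype.card n = 2 * s + e →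
  Frame q u u' z →
  (∀ v, v = ∑ i, (bl q (u' i) v • u i + bl q (u i) v • u' i) + ∑ k, bl q (z k) v • z k) ∧
  (∀ M M' : Matrix n n ℂ, (∀ i, M *ᵥ u i = M' *ᵥ u i) → (∀ i, M *ᵥ u' i = M' *ᵥ u' i) →
    (∀ k, M *ᵥ z k = M' *ᵥ z k) → M = M') ∧
  (∀ i, Hyp q (u i) (u' i)) ∧
  (∀ i, (wd q (u i) (u' i))ᵀ * q + q * wd q (u i) (u' i) = 0) ∧
  (∀ i j, wd q (u i) (u' i) *ᵥ u j = if i = j then u j else 0) ∧
  (∀ i j, wd q (u i) (u' i) *ᵥ u' j = if i = j then -u' j else 0) ∧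
  (∀ i k, wd q (u i) (u' i) *ᵥ z k = 0) ∧
  (∀ i, (wd q (u i) (u' i)).trace = 0) ∧
  (∀ i j, wd q (u i) (u' i) * wd q (u j) (u' j) = wd q (u j) (u' j) * wd q (u i) (u' i)) ∧
  ∀ (c : Fin s → ℂ) (t : Matrix n n ℂ), Acts u u' z c t →
    ∀ k : ℕ, (t ^ k).trace = (e : ℂ) + ∑ i, (c i ^ k + (c i)⁻¹ ^ k)

/-! ### Weights -/

/-- the box of the integral vectors with coordinates in `[-M, M]` -/
noncomputable def box (s M : ℕ) : Finset (Fin s → ℤ) :=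
  Fintype.piFinset fun _ => Finset.Icc (-(M : ℤ)) M

/-- the projectors `E` on the joint eigenspaces of the commuting matrices `Δ` -/
structure IsProj {n : Type} [Fintype n] [DecidableEq n] {s : ℕ} (M : ℕ)
    (Δ : Fin s → Matrix n n ℂ) (E : (Fin s → ℤ) → Matrix n n ℂ) : Prop where
  supp : ∀ μ, μ ∉ box s M → E μ = 0
  left : ∀ i μ, Δ i * E μ = (μ i : ℂ) • E μ
  idem : ∀ μ, E μ * E μ = E μ
  orth : ∀ μ ν, μ ≠ ν → E μ * E ν = 0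
  sum : ∑ μ ∈ box s M, E μ = 1
  eig : ∀ (μ : Fin s → ℤ) (x : n → ℂ), (∀ i, Δ i *ᵥ x = (μ i : ℂ) • x) → E μ *ᵥ x = x
  com : ∀ Y, (∀ i, Y * Δ i = Δ i * Y) → ∀ μ, Y * E μ = E μ * Y

/-- **WSP**: joint eigenspaces -/
def S_WSP : Prop := ∀ (n : Type) [Fintype n] [DecidableEq n] (s M : ℕ) (Δ : Fin s → Matrix n n ℂ),
  (∀ i j, Δ i * Δ j = Δ j * Δ i) → (∀ i, aeval (Δ i) (pM M) = 0) → ∃ E, IsProj M Δ E

/-- **WEI**: the traces on the weight spaces are invariant under the Weyl group -/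
def S_WEI : Prop := ∀ (ι : Type) [Fintype ι] [DecidableEq ι] (X : Coh ι), IsHyperKahler X →
  ∀ (s e : ℕ) (u u' : Fin s → {a // X.deg a = 2} → ℂ) (z : Fin e → {a // X.deg a = 2} → ℂ), 1 ≤ e →
  Frame (X.qF ℂ) u u' z → ∀ (j M : ℕ) (E : (Fin s → ℤ) → Matrix {a // X.deg a = j} {a // X.deg a = j} ℂ),
  IsProj M (fun i => blk X.deg j (X.δF ℂ (wd (X.qF ℂ) (u i) (u' i)))) E →
  ∀ B, X.Com ℂ B →
  (∀ μ i k, (blk X.deg j B * E (μ ∘ Equiv.swap i k)).trace = (blk X.deg j B * E μ).trace) ∧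
  ∀ μ i, (blk X.deg j B * E (Function.update μ i (-μ i))).trace = (blk X.deg j B * E μ).trace

/-- the functions `∑_i (c_i ^ (k + 1) + c_i ^ (- k - 1)) + e` of `c` -/
noncomputable def ps {s : ℕ} (e : ℂ) (c : Fin s → ℂ) (k : ℕ) : ℂ :=
  e + ∑ i, (c i ^ (k + 1) + (c i)⁻¹ ^ (k + 1))

/-- **SYA**: sums over injective maps are polynomials in the power sums -/
def S_SYA : Prop := ∀ (s : ℕ) (e : ℂ) (m : Fin s → ℤ), ∃ G : MvPolynomial ℕ ℂ,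
  ∀ c : Fin s → ℂ, (∀ i, c i ≠ 0) →
    ∑ σ : Equiv.Perm (Fin s), ∏ i, (c (σ i) ^ m i + c (σ i) ^ (-m i)) = MvPolynomial.eval (ps e c) G

/-- **SYM**: symmetric Laurent polynomials -/
def S_SYM : Prop := ∀ (s M : ℕ) (e : ℂ) (m : (Fin s → ℤ) → ℂ),
  (∀ μ i k, m (μ ∘ Equiv.swap i k) = m μ) → (∀ μ i, m (Function.update μ i (-μ i)) = m μ) →
  ∃ G : MvPolynomial ℕ ℂ, ∀ c : Fin s → ℂ, (∀ i, c i ≠ 0) →
    ∑ μ ∈ box s M, m μ * ∏ i, c i ^ μ i = MvPolynomial.eval (ps e c) G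

/-- **TRF**: traces of matrices of finite order -/
def S_TRF : Prop := ∀ (n : Type) [Fintype n] [DecidableEq n] (N : ℕ), 0 < N → ∃ F : Finset ℂ,
  ∀ w E : Matrix n n ℂ, E * E = E → w * E = E * w → (∀ a, w.charpoly.IsRoot a → a ^ N = 1) →
    (w * E).trace ∈ F

/-- **TOR**: additive functions separate the numbers which are not roots of unity -/
def S_TOR : Prop := ∀ a : ℂ, a ≠ 0 → (∀ n : ℕ, 0 < n → a ^ n ≠ 1) →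
  ∃ φ : ℂ → ℂ, IsAdd (fun x => x ≠ 0) φ ∧ φ a ≠ 0

/-- **MUL**: the semisimple part -/
def S_MUL : Prop := ∀ (n : Type) [Fintype n] [DecidableEq n] (T T' S : Matrix n n ℂ), T * T' = 1 →
  IsFn (fun a => a) T S →
  (∃ S' : Matrix n n ℂ, S * S' = 1) ∧ S.charpoly = T.charpoly ∧ HO.IsDiag S ∧ S * T = T * S ∧
  (∀ (a : ℂ) (x : n → ℂ), S *ᵥ x = a • x → ∃ k, ((T - a • (1 : Matrix n n ℂ)) ^ k) *ᵥ x = 0) ∧
  (∀ B : Matrix n n ℂ, B * T = T * B → B * S = S * B) ∧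
  (∀ (q : Matrix n n ℂ) (μ : ℂ), Tᵀ * q * T = μ • q → Sᵀ * q * S = μ • q) ∧
  (∀ (m : Type) [Fintype m] [DecidableEq m] (T₂ T₂' S₂ S₂' : Matrix m m ℂ)
    (d : Matrix m m ℂ →ₗ[ℂ] Matrix n n ℂ), T₂ * T₂' = 1 → IsFn (fun a => a) T₂ S₂ → S₂ * S₂' = 1 →
    (∀ x, T * d x * T' = d (T₂ * x * T₂')) → ∀ x, S * d x = d (S₂ * x * S₂') * S)

/-- the properties of an automorphism of the cohomology with similitude factor `κ ^ 2` -/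
structure IsAut {ι : Type} [Fintype ι] [DecidableEq ι] (X : Coh ι) (R R' : Matrix ι ι ℂ) (κ : ℂ) :
    Prop where
  mul : R * R' = 1
  graded : IsGraded X.deg R
  graded' : IsGraded X.deg R'
  sim : (blk X.deg 2 R)ᵀ * X.qF ℂ * blk X.deg 2 R = κ ^ 2 • X.qF ℂ
  conj : ∀ x, X.IsSkew ℂ x → R * X.δF ℂ x * R' = X.δF ℂ (blk X.deg 2 R * x * blk X.deg 2 R')
  det : (blk X.deg 2 R).det = κ ^ Fintype.card {a // X.deg a = 2}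
  eig : (blk X.deg 2 R).charpoly.IsRoot κ

/-- additive functions of `R` come from degree two -/
def AddTwo {ι : Type} [Fintype ι] [DecidableEq ι] (X : Coh ι) (R : Matrix ι ι ℂ) : Prop :=
  ∀ φ : ℂ → ℂ, IsAdd (fun x => x ≠ 0) φ → ∀ N, IsFn φ R N → N = X.δt ℂ (blk X.deg 2 N)

/-- The semisimple part `S` of `R` is the product of the lift `A` of an element of a torus and of an
element `B` of the commutant. -/
structure IsDec {ι : Type} [Fintype ι] [DecidableEq ι] (X : Coh ι) (R : Matrix ι ι ℂ) (κ : ℂ)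
    {s e : ℕ} (u u' : Fin s → {a // X.deg a = 2} → ℂ) (z : Fin e → {a // X.deg a = 2} → ℂ)
    (c : Fin s → ℂ) (S A B : Matrix ι ι ℂ) : Prop where
  e_pos : 1 ≤ e
  e_le : e ≤ 2
  card : Fintype.card {a // X.deg a = 2} = 2 * s + e
  frame : Frame (X.qF ℂ) u u' z
  ne : ∀ i, c i ≠ 0
  κ_ne : κ ≠ 0
  fn : IsFn (fun a => a) R S
  acts : Acts u u' z c (κ⁻¹ • blk X.deg 2 S)
  com : X.Com ℂ B
  eq : S = A * B
  eq' : S = B * A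
  graded : IsGraded X.deg S ∧ IsGraded X.deg A
  eig : ∀ (j : ℕ) (μ : Fin s → ℤ) (x : {a // X.deg a = j} → ℂ),
    (∀ i, blk X.deg j (X.δF ℂ (wd (X.qF ℂ) (u i) (u' i))) *ᵥ x = (μ i : ℂ) • x) →
    blk X.deg j A *ᵥ x = (∏ i, c i ^ μ i) • x

/-- **DEC**: the decomposition -/
def S_DEC : Prop := ∀ (ι : Type) [Fintype ι] [DecidableEq ι] (X : Coh ι), IsHyperKahler X →
  ∀ (R R' : Matrix ι ι ℂ) (κ : ℂ), IsAut X R R' κ →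
  ∃ (s e : ℕ) (u u' : Fin s → {a // X.deg a = 2} → ℂ) (z : Fin e → {a // X.deg a = 2} → ℂ)
    (c : Fin s → ℂ) (S A B : Matrix ι ι ℂ), IsDec X R κ u u' z c S A B

/-- a group of numbers without torsion -/
structure TorFree (T : ℂ → Prop) : Prop where
  ne : ∀ x, T x → x ≠ 0
  mul : ∀ x y, T x → T y → T (x * y)
  inv : ∀ x, T x → T x⁻¹
  tor : ∀ x, T x → ∀ n : ℕ, 0 < n → x ^ n = 1 → x = 1

/-- **ROU**: the second factor has finite order -/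
def S_ROU : Prop := ∀ (ι : Type) [Fintype ι] [DecidableEq ι] (X : Coh ι), IsHyperKahler X →
  ∀ (R R' : Matrix ι ι ℂ) (κ : ℂ), IsAut X R R' κ → AddTwo X R → ∀ (T : ℂ → Prop) (N : ℕ), TorFree T →
  0 < N → (∀ a, (R ^ N).charpoly.IsRoot a → T a) →
  ∀ (s e : ℕ) (u u' : Fin s → {a // X.deg a = 2} → ℂ) (z : Fin e → {a // X.deg a = 2} → ℂ)
    (c : Fin s → ℂ) (S A B : Matrix ι ι ℂ), IsDec X R κ u u' z c S A B → ∀ j, Even j →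
  ∀ a, (((κ ^ (j / 2))⁻¹ : ℂ) • blk X.deg j B).charpoly.IsRoot a → a ^ N = 1

/-- **TRC**: traces in even degrees -/
def S_TRC : Prop := ∀ (ι : Type) [Fintype ι] [DecidableEq ι] (X : Coh ι), IsHyperKahler X →
  ∀ (j N : ℕ), Even j → 0 < N → ∃ P : Set (MvPolynomial ℕ ℂ), P.Finite ∧
  ∀ (R R' : Matrix ι ι ℂ) (κ : ℂ) (T : ℂ → Prop), IsAut X R R' κ → AddTwo X R → TorFree T →
  (∀ a, (R ^ N).charpoly.IsRoot a → T a) → ∃ G ∈ P,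
    (blk X.deg j R).trace = κ ^ (j / 2) *
      MvPolynomial.eval (fun k => (blk X.deg 2 R ^ (k + 1)).trace / κ ^ (k + 1)) G

/-! ### The Galois image -/

/-- **DTC**: determinants on the images of idempotents, for all elements of an open subgroup -/
def S_DTC : Prop := ∀ (K : Type) [Field K] [NumberField K] (ℓ : ℕ) [Fact ℓ.Prime] (ι : Type)
  [Fintype ι] [DecidableEq ι] (X : Coh ι) (S : Finset ℕ) (χ : GK K →* ℚ_[ℓ])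
  (Pol : HeightOneSpectrum (𝓞 K) → ℕ → ℤ[X]) (ρ : GK K →* Matrix ι ι ℚ_[ℓ]),
  IsHyperKahler X → IsRealization X S χ Pol ρ → NonUnip χ (fun g => blk X.deg 2 (ρ g)) →
  ∃ U : Subgroup (GK K), IsOpen (U : Set (GK K)) ∧ (U : Set (GK K)) ⊆ Near χ ρ ∧
    (∀ g ∈ U, ∀ B : Matrix ι ι ℚ_[ℓ], X.Com ℚ_[ℓ] B → ρ g * B = B * ρ g) ∧
    ∀ g ∈ U, ∀ M : Matrix ι ι (PadicAlgCl ℓ), M = (ρ g).map (algebraMap ℚ_[ℓ] (PadicAlgCl ℓ)) →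
    ∀ (e : Matrix ι ι (PadicAlgCl ℓ)) (m : ℕ), X.Com (PadicAlgCl ℓ) e → e * e = e →
      e * M = M * e → (X.H (PadicAlgCl ℓ) * e).trace = m →
      (M * e + (1 - e)).det ^ 2 = algebraMap ℚ_[ℓ] (PadicAlgCl ℓ) (χ g) ^ m

/-- **CTR**: elements of the center of the commutant -/
def S_CTR : Prop := ∀ (ι : Type) [Fintype ι] [DecidableEq ι] (X : Coh ι), IsHyperKahler X →
  ∀ (Ω : Type) [Field Ω] [CharZero Ω] [IsAlgClosed Ω] (σ : Ω →+* ℂ) (C : Matrix ι ι ℂ),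
  X.Com ℂ C → (∀ B, X.Com ℂ B → C * B = B * C) →
  (∀ e : Matrix ι ι Ω, X.Com Ω e → e * e = e → (∀ B, X.Com Ω B → e * B = B * e) →
    (C * e.map σ).trace = 0) → C = 0

/-- **NPU**: additive functions of the elements of an open subgroup -/
def S_NPU : Prop := ∀ (ι : Type) [Fintype ι] [DecidableEq ι] (X : Coh ι), IsHyperKahler X →
  ∀ (Ω : Type) [Field Ω] [CharZero Ω] [IsAlgClosed Ω] (σ : Ω →+* ℂ) (T₀ : Matrix ι ι Ω)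
    (T T' : Matrix ι ι ℂ) (χ₀ : Ω), T = T₀.map σ → T * T' = 1 → IsGraded X.deg T → χ₀ ≠ 0 →
  (blk X.deg 2 T)ᵀ * X.qF ℂ * blk X.deg 2 T = σ χ₀ ^ 2 • X.qF ℂ →
  (∀ x, X.IsSkew ℂ x → T * X.δF ℂ x * T' = X.δF ℂ (blk X.deg 2 T * x * blk X.deg 2 T')) →
  (∀ B : Matrix ι ι ℚ, X.Com ℚ B →
    T₀ * B.map (algebraMap ℚ Ω) = B.map (algebraMap ℚ Ω) * T₀) →
  (∀ (e : Matrix ι ι Ω) (m : ℕ), X.Com Ω e → e * e = e → e * T₀ = T₀ * e → (X.H Ω * e).trace = m →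
    (T₀ * e + (1 - e)).det ^ 2 = χ₀ ^ m) → AddTwo X T

/-- **NPH**: additive functions of all elements of the Galois group -/
def S_NPH : Prop := ∀ (K : Type) [Field K] [NumberField K] (ℓ : ℕ) [Fact ℓ.Prime] (ι : Type)
  [Fintype ι] [DecidableEq ι] (X : Coh ι) (S : Finset ℕ) (χ : GK K →* ℚ_[ℓ])
  (Pol : HeightOneSpectrum (𝓞 K) → ℕ → ℤ[X]) (ρ : GK K →* Matrix ι ι ℚ_[ℓ]),
  IsHyperKahler X → IsRealization X S χ Pol ρ → NonUnip χ (fun g => blk X.deg 2 (ρ g)) →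
  ∀ (c : ℚ_[ℓ] →+* ℂ) (g : GK K), AddTwo X ((ρ g).map c)

/-- the similitude character `κ` -/
noncomputable def kap {Γ F ι : Type} [Group Γ] [Field F] [Fintype ι] [DecidableEq ι] (X : Coh ι)
    (χ : Γ →* F) (ρ : Γ →* Matrix ι ι F) (g : Γ) : F :=
  open scoped Classical in
  if Odd (Fintype.card {a // X.deg a = 2}) then
    (blk X.deg 2 (ρ g)).det / χ g ^ (Fintype.card {a // X.deg a = 2} - 1) else χ g

/-- **KAP**: properties of `κ` -/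
def S_KAP : Prop := ∀ (K : Type) [Field K] [NumberField K] (ℓ : ℕ) [Fact ℓ.Prime] (ι : Type)
  [Fintype ι] [DecidableEq ι] (X : Coh ι) (S : Finset ℕ) (χ : GK K →* ℚ_[ℓ])
  (Pol : HeightOneSpectrum (𝓞 K) → ℕ → ℤ[X]) (ρ : GK K →* Matrix ι ι ℚ_[ℓ]),
  IsHyperKahler X → IsRealization X S χ Pol ρ → Orient X χ ρ →
  Continuous (kap X χ ρ) ∧ (∀ g, χ g ≠ 0 ∧ kap X χ ρ g ≠ 0 ∧ kap X χ ρ g ^ 2 = χ g ^ 2 ∧
    (blk X.deg 2 (ρ g)).det = kap X χ ρ g ^ Fintype.card {a // X.deg a = 2}) ∧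
  ∀ (c : ℚ_[ℓ] →+* ℂ) (g : GK K), IsAut X ((ρ g).map c) ((ρ g⁻¹).map c) (c (kap X χ ρ g))

/-- the normalized traces of the powers on the second cohomology -/
noncomputable def pt {Γ F ι : Type} [Group Γ] [Field F] [Fintype ι] [DecidableEq ι] (X : Coh ι)
    (χ : Γ →* F) (ρ : Γ →* Matrix ι ι F) (g : Γ) (k : ℕ) : F :=
  (blk X.deg 2 (ρ g) ^ (k + 1)).trace / kap X χ ρ g ^ (k + 1)

/-- **TRL**: traces in even degrees, for one prime `ℓ` -/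
def S_TRL : Prop := ∀ (K : Type) [Field K] [NumberField K] (ℓ : ℕ) [Fact ℓ.Prime] (ι : Type)
  [Fintype ι] [DecidableEq ι] (X : Coh ι) (S : Finset ℕ) (χ : GK K →* ℚ_[ℓ])
  (Pol : HeightOneSpectrum (𝓞 K) → ℕ → ℤ[X]) (ρ : GK K →* Matrix ι ι ℚ_[ℓ]),
  IsHyperKahler X → IsRealization X S χ Pol ρ → NonUnip χ (fun g => blk X.deg 2 (ρ g)) →
  Orient X χ ρ → ∀ j, Even j → ∃ (c : ℚ_[ℓ] →+* ℂ) (P : Set (MvPolynomial ℕ ℂ)), P.Finite ∧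
    ∀ g, ∃ G ∈ P, c (blk X.deg j (ρ g)).trace = c (kap X χ ρ g) ^ (j / 2) *
      MvPolynomial.eval (fun k => c (pt X χ ρ g k)) G

/-- **TAU**: rational values of complex polynomials -/
def S_TAU : Prop := ∃ τ : MvPolynomial ℕ ℂ → MvPolynomial ℕ ℚ, ∀ (G : MvPolynomial ℕ ℂ) (x : ℕ → ℚ)
  (y : ℚ), MvPolynomial.eval (fun k => (x k : ℂ)) G = (y : ℂ) → MvPolynomial.eval x (τ G) = y

/-- **DNS**: traces in even degrees, for two primes -/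
def S_DNS : Prop := ∀ (K : Type) [Field K] [NumberField K] (ℓ ℓ' : ℕ) [Fact ℓ.Prime] [Fact ℓ'.Prime]
  (ι : Type) [Fintype ι] [DecidableEq ι] (X : Coh ι) (S S' : Finset ℕ) (χ : GK K →* ℚ_[ℓ])
  (χ' : GK K →* ℚ_[ℓ']) (Pol : HeightOneSpectrum (𝓞 K) → ℕ → ℤ[X]) (ρ : GK K →* Matrix ι ι ℚ_[ℓ])
  (ρ' : GK K →* Matrix ι ι ℚ_[ℓ']), IsHyperKahler X → IsRealization X S χ Pol ρ →
  IsRealization X S' χ' Pol ρ' → NonUnip χ (fun g => blk X.deg 2 (ρ g)) → Orient X χ ρ →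
  Orient X χ' ρ' → ∀ j, Even j → ∀ g, ∃ G : MvPolynomial ℕ ℚ,
    (blk X.deg j (ρ g)).trace = kap X χ ρ g ^ (j / 2) *
      MvPolynomial.eval₂ (algebraMap ℚ ℚ_[ℓ]) (pt X χ ρ g) G ∧
    (blk X.deg j (ρ' g)).trace = kap X χ' ρ' g ^ (j / 2) *
      MvPolynomial.eval₂ (algebraMap ℚ ℚ_[ℓ']) (pt X χ' ρ' g) G

/-! ### Monodromy -/

/-- **SLK**: weights of the kernel and of the cokernel of the lowering operator -/
def S_SLK : Prop := ∀ (n : Type) [Fintype n] [DecidableEq n] (E H N : Matrix n n ℂ),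
  H * E - E * H = (2 : ℂ) • E → H * N - N * H = -((2 : ℂ) • N) → E * N - N * E = H →
  (∀ (x : n → ℂ) (r : ℝ), x ≠ 0 → N *ᵥ x = 0 → H *ᵥ x = (r : ℂ) • x → r ≤ 0) ∧
  ∀ (x : n → ℂ) (r : ℝ), x ≠ 0 → x ᵥ* N = 0 → x ᵥ* H = (r : ℂ) • x → 0 ≤ r

/-- **SKW**: an `sl₂`-triple in the Lie algebra `so(q)` -/
def S_SKW : Prop := ∀ (n : Type) [Fintype n] [DecidableEq n] (q E H N : Matrix n n ℂ), qᵀ = q →
  q.det ≠ 0 → Hᵀ * q + q * H = 0 → Nᵀ * q + q * N = 0 → H * E - E * H = (2 : ℂ) • E →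
  E * N - N * E = H →
  ∃ E' : Matrix n n ℂ, E'ᵀ * q + q * E' = 0 ∧ H * E' - E' * H = (2 : ℂ) • E' ∧ E' * N - N * E' = H

/-- **LGU**: the logarithm of a unipotent matrix -/
def S_LGU : Prop := ∀ (ℓ : ℕ) [Fact ℓ.Prime] (n : Type) [Fintype n] [DecidableEq n]
  (T : Matrix n n ℚ_[ℓ]), IsNilpotent (T - 1) →
  Tendsto (fun k : ℕ => ((ℓ : ℚ_[ℓ]) ^ k)⁻¹ • (T ^ (ℓ ^ k) - 1)) atTop (𝓝 (lgu T)) ∧
  IsNilpotent (lgu T) ∧ ∀ m : ℕ, lgu (T ^ m) = (m : ℚ_[ℓ]) • lgu T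

/-- **WMJ**: weights on the invariants and the coinvariants of inertia in all degrees -/
def S_WMJ : Prop := ∀ (K : Type) [Field K] [NumberField K] (ℓ : ℕ) [Fact ℓ.Prime] (ι : Type)
  [Fintype ι] [DecidableEq ι] (X : Coh ι) (S : Finset ℕ) (χ : GK K →* ℚ_[ℓ])
  (Pol : HeightOneSpectrum (𝓞 K) → ℕ → ℤ[X]) (ρ : GK K →* Matrix ι ι ℚ_[ℓ]),
  IsHyperKahler X → IsRealization X S χ Pol ρ → NonUnip χ (fun g => blk X.deg 2 (ρ g)) →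
  ∀ (c : ℚ_[ℓ] →+* ℂ) (q : ℕ) (g u : GK K), 2 ≤ q → u ∈ Near χ ρ →
  IsNilpotent (blk X.deg 2 (ρ u) - 1) →
  IsWM q 2 ((blk X.deg 2 (ρ g)).map c) ((lgu (blk X.deg 2 (ρ u))).map c) →
  ∀ (j : ℕ) (x : {a // X.deg a = j} → ℂ) (y : ℂ), x ≠ 0 →
    (((blk X.deg j (ρ u)).map c *ᵥ x = x → (blk X.deg j (ρ g)).map c *ᵥ x = y • x →
      ‖y‖ ^ 2 ≤ (q : ℝ) ^ j) ∧
    (x ᵥ* (blk X.deg j (ρ u)).map c = x → x ᵥ* (blk X.deg j (ρ g)).map c = y • x →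
      (q : ℝ) ^ j ≤ ‖y‖ ^ 2))

/-- **UNP**: unipotent inertia in even degrees, uniformly in `ℓ` -/
def S_UNP : Prop := ∀ (K : Type) [Field K] [NumberField K] (ι : Type) [Fintype ι] [DecidableEq ι]
  (X : Coh ι) (S : ∀ (ℓ : ℕ) [Fact ℓ.Prime], Finset ℕ)
  (χ : ∀ (ℓ : ℕ) [Fact ℓ.Prime], GK K →* ℚ_[ℓ]) (Pol : HeightOneSpectrum (𝓞 K) → ℕ → ℤ[X])
  (ρ : ∀ (ℓ : ℕ) [Fact ℓ.Prime], GK K →* Matrix ι ι ℚ_[ℓ]), IsHyperKahler X →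
  (∀ (ℓ : ℕ) [Fact ℓ.Prime], IsRealization X (S ℓ) (χ ℓ) Pol (ρ ℓ)) →
  (∀ (ℓ : ℕ) [Fact ℓ.Prime], NonUnip (χ ℓ) (fun g => blk X.deg 2 (ρ ℓ g))) →
  (∀ (ℓ : ℕ) [Fact ℓ.Prime], Orient X (χ ℓ) (ρ ℓ)) → ∀ v Q U₀, Above v Q →
  KnownTwo X χ ρ v Q U₀ → ∃ U : Subgroup (GK K), U.Normal ∧ IsOpen (U : Set (GK K)) ∧ U ≤ U₀ ∧
    ∀ j, Even j → ∀ (ℓ : ℕ) [Fact ℓ.Prime], (ℓ : 𝓞 K) ∉ v.asIdeal → ∀ g ∈ U, g ∈ inertia Q →
      IsNilpotent (blk X.deg j (ρ ℓ g) - 1)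

/-- **RAT**: rational traces -/
def S_RAT : Prop := ∀ (K : Type) [Field K] [NumberField K] (ι : Type) [Fintype ι] [DecidableEq ι]
  (X : Coh ι) (S : ∀ (ℓ : ℕ) [Fact ℓ.Prime], Finset ℕ)
  (χ : ∀ (ℓ : ℕ) [Fact ℓ.Prime], GK K →* ℚ_[ℓ]) (Pol : HeightOneSpectrum (𝓞 K) → ℕ → ℤ[X])
  (ρ : ∀ (ℓ : ℕ) [Fact ℓ.Prime], GK K →* Matrix ι ι ℚ_[ℓ]), IsHyperKahler X →
  (∀ (ℓ : ℕ) [Fact ℓ.Prime], IsRealization X (S ℓ) (χ ℓ) Pol (ρ ℓ)) →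
  (∀ (ℓ : ℕ) [Fact ℓ.Prime], NonUnip (χ ℓ) (fun g => blk X.deg 2 (ρ ℓ g))) →
  (∀ (ℓ : ℕ) [Fact ℓ.Prime], Orient X (χ ℓ) (ρ ℓ)) → ∀ v Q U₀, Above v Q →
  KnownTwo X χ ρ v Q U₀ → ∀ j, Even j → ∃ t : GK K → ℚ, ∀ (ℓ : ℕ) [Fact ℓ.Prime],
    (ℓ : 𝓞 K) ∉ v.asIdeal → ∀ k : ℕ, 1 ≤ k → ∀ g,
    FrobeniusAt Q (Ideal.absNorm v.asIdeal ^ k) g⁻¹ → (blk X.deg j (ρ ℓ g)).trace = (t g : ℚ_[ℓ])

/-- **LOC**: local factors of a family of representations with known local properties -/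
def S_LOC : Prop := ∀ (K : Type) [Field K] [NumberField K] (n : Type) [Fintype n] [DecidableEq n]
  (V : ∀ (ℓ : ℕ) [Fact ℓ.Prime], GK K →* Matrix n n ℚ_[ℓ]),
  (∀ (ℓ : ℕ) [Fact ℓ.Prime], Continuous (V ℓ)) → ∀ (v : HeightOneSpectrum (𝓞 K))
  (Q : Ideal (𝓞 (AlgebraicClosure K))) (U : Subgroup (GK K)) (w : ℕ), Above v Q → U.Normal →
  IsOpen (U : Set (GK K)) →
  (∀ (ℓ : ℕ) [Fact ℓ.Prime], (ℓ : 𝓞 K) ∉ v.asIdeal → ∀ g ∈ U, g ∈ inertia Q →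
    IsNilpotent (V ℓ g - 1)) →
  (∃ t : GK K → ℚ, ∀ (ℓ : ℕ) [Fact ℓ.Prime], (ℓ : 𝓞 K) ∉ v.asIdeal →
    ∀ k : ℕ, 1 ≤ k → ∀ g, FrobeniusAt Q (Ideal.absNorm v.asIdeal ^ k) g⁻¹ →
      (V ℓ g).trace = (t g : ℚ_[ℓ])) →
  (∀ (ℓ : ℕ) [Fact ℓ.Prime], (ℓ : 𝓞 K) ∉ v.asIdeal →
    ∀ g, FrobeniusAt Q (Ideal.absNorm v.asIdeal) g⁻¹ → ∃ f : ℤ[X], f.Monic ∧ aeval (V ℓ g) f = 0) →
  (∀ (ℓ : ℕ) [Fact ℓ.Prime], (ℓ : 𝓞 K) ∉ v.asIdeal → ∀ c : ℚ_[ℓ] →+* ℂ,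
    ∀ g, FrobeniusAt Q (Ideal.absNorm v.asIdeal) g⁻¹ → ∀ (y : ℂ) (x : n → ℂ), x ≠ 0 →
      ((∀ h ∈ U, h ∈ inertia Q → (V ℓ h).map c *ᵥ x = x) → (V ℓ g).map c *ᵥ x = y • x →
        ‖y‖ ^ 2 ≤ (Ideal.absNorm v.asIdeal : ℝ) ^ w) ∧
      ((∀ h ∈ U, h ∈ inertia Q → x ᵥ* (V ℓ h).map c = x) → x ᵥ* (V ℓ g).map c = y • x →
        (Ideal.absNorm v.asIdeal : ℝ) ^ w ≤ ‖y‖ ^ 2)) →
  ∀ g, FrobeniusAt Q (Ideal.absNorm v.asIdeal) g⁻¹ → ∃ P : ℤ[X], ∀ (ℓ : ℕ) [Fact ℓ.Prime],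
    (ℓ : 𝓞 K) ∉ v.asIdeal → ∀ f : ℚ_[ℓ][X],
      IsLocalFactor (fun g => V ℓ g) Q g f ↔ f = P.map (Int.castRingHom ℚ_[ℓ])

/-- **FIN**: the theorem -/
def S_FIN : Prop := ∀ (K : Type) [Field K] [NumberField K] (ι : Type) [Fintype ι] [DecidableEq ι]
  (X : Coh ι) (S : ∀ (ℓ : ℕ) [Fact ℓ.Prime], Finset ℕ)
  (χ : ∀ (ℓ : ℕ) [Fact ℓ.Prime], GK K →* ℚ_[ℓ]) (Pol : HeightOneSpectrum (𝓞 K) → ℕ → ℤ[X])
  (ρ : ∀ (ℓ : ℕ) [Fact ℓ.Prime], GK K →* Matrix ι ι ℚ_[ℓ]), IsHyperKahler X →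
  (∀ (ℓ : ℕ) [Fact ℓ.Prime], IsRealization X (S ℓ) (χ ℓ) Pol (ρ ℓ)) →
  (∀ (ℓ : ℕ) [Fact ℓ.Prime], IsHodgeTate X (ρ ℓ)) →
  (∀ (ℓ : ℕ) [Fact ℓ.Prime], Orient X (χ ℓ) (ρ ℓ)) → ∀ v Q U₀, Above v Q →
  KnownTwo X χ ρ v Q U₀ → ∀ j, Even j →
  (∃ U : Subgroup (GK K), IsOpen (U : Set (GK K)) ∧ ∀ (ℓ : ℕ) [Fact ℓ.Prime],
    (ℓ : 𝓞 K) ∉ v.asIdeal → ∀ g ∈ U, g ∈ inertia Q → IsNilpotent (blk X.deg j (ρ ℓ g) - 1)) ∧
  ∀ g, FrobeniusAt Q (Ideal.absNorm v.asIdeal) g⁻¹ → ∃ P : ℤ[X], ∀ (ℓ : ℕ) [Fact ℓ.Prime],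
    (ℓ : 𝓞 K) ∉ v.asIdeal → ∀ f : ℚ_[ℓ][X],
      IsLocalFactor (fun g => blk X.deg j (ρ ℓ g)) Q g f ↔ f = P.map (Int.castRingHom ℚ_[ℓ])

end Pool.Agent.NH56.HL
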