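import Pool.Agent.NH56.HL.Stm

/-!
# Project HL (helper56): symmetric Laurent polynomials (part SYM)
-/

set_option autoImplicit false

namespace Pool.Agent.NH56.HL

namespace Sym

open Finset

/-- change of the signs in `T` -/
def sg {s : ℕ} (T : Finset (Fin s)) (μ : Fin s → ℤ) : Fin s → ℤ :=
  fun i => if i ∈ T then -μ i else μ i

theorem sg_sg {s : ℕ} (T : Finset (Fin s)) (μ : Fin s → ℤ) : sg T (sg T μ) = μ := by
  funext i
  unfold sg
  split_ifs <;> simp

theorem inv_sg {s : ℕ} (m : (Fin s → ℤ) → ℂ)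
    (hneg : ∀ μ i, m (Function.update μ i (-μ i)) = m μ) (μ : Fin s → ℤ) (T : Finset (Fin s)) :
    m (sg T μ) = m μ := by
  induction T using Finset.induction with
  | empty =>
    congr 1
  | insert a T ha ih =>
    rw [← ih, ← hneg (sg T μ) a]
    congr 1
    funext i
    by_cases h : i = a
    · subst h
      simp [sg, ha]
    · simp [sg, h, Function.update_of_ne]

theorem inv_perm {s : ℕ} (m : (Fin s → ℤ) → ℂ)
    (hswap : ∀ μ i k, m (μ ∘ Equiv.swap i k) = m μ) (σ : Equiv.Perm (Fin s)) :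
    ∀ μ, m (μ ∘ σ) = m μ := by
  induction σ using Equiv.Perm.swap_induction_on with
  | one =>
    intro μ
    congr 1
  | swap_mul f x y _ ih =>
    intro μ
    rw [← hswap μ x y, ← ih (μ ∘ Equiv.swap x y)]
    congr 1

theorem mem_box {s M : ℕ} (μ : Fin s → ℤ) : μ ∈ box s M ↔ ∀ i, -(M : ℤ) ≤ μ i ∧ μ i ≤ M := by
  simp [box, Fintype.mem_piFinset, Finset.mem_Icc]

theorem mem_sg {s M : ℕ} (T : Finset (Fin s)) (μ : Fin s → ℤ) :
    sg T μ ∈ box s M ↔ μ ∈ box s M := by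
  have h : ∀ μ : Fin s → ℤ, μ ∈ box s M → sg T μ ∈ box s M := by
    intro μ h
    rw [mem_box] at h ⊢
    intro i
    have := h i
    unfold sg
    split_ifs <;> omega
  exact ⟨fun h1 => by simpa [sg_sg] using h _ h1, h μ⟩

/-- the symmetries -/
def act {s : ℕ} (σ : Equiv.Perm (Fin s)) (T : Finset (Fin s)) : (Fin s → ℤ) ≃ (Fin s → ℤ) where
  toFun μ := sg T μ ∘ σ
  invFun μ := sg T (μ ∘ σ.symm)
  left_inv μ := by
    have : (sg T μ ∘ σ) ∘ σ.symm = sg T μ := by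
      funext i
      simp
    show sg T ((sg T μ ∘ σ) ∘ σ.symm) = μ
    rw [this, sg_sg]
  right_inv μ := by
    show sg T (sg T (μ ∘ σ.symm)) ∘ σ = μ
    rw [sg_sg]
    funext i
    simp

theorem mem_act {s M : ℕ} (σ : Equiv.Perm (Fin s)) (T : Finset (Fin s)) (μ : Fin s → ℤ) :
    act σ T μ ∈ box s M ↔ μ ∈ box s M := by
  rw [← mem_sg T μ, mem_box, mem_box]
  show (∀ i, -(M : ℤ) ≤ sg T μ (σ i) ∧ sg T μ (σ i) ≤ M) ↔ _
  exact ⟨fun h i => by simpa using h (σ.symm i), fun h i => h (σ i)⟩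

theorem key {s M : ℕ} (m : (Fin s → ℤ) → ℂ) (hswap : ∀ μ i k, m (μ ∘ Equiv.swap i k) = m μ)
    (hneg : ∀ μ i, m (Function.update μ i (-μ i)) = m μ) (c : Fin s → ℂ)
    (σ : Equiv.Perm (Fin s)) (T : Finset (Fin s)) :
    ∑ μ ∈ box s M, m μ * ∏ i, c i ^ μ i =
      ∑ μ ∈ box s M, m μ * ∏ i, T.piecewise (fun i => c (σ.symm i) ^ (-μ i))
        (fun i => c (σ.symm i) ^ μ i) i := by
  symm
  refine Finset.sum_equiv (act σ T) (fun μ => (mem_act σ T μ).symm) fun μ _ => ?_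
  have h1 : m (act σ T μ) = m μ := (inv_perm m hswap σ (sg T μ)).trans (inv_sg m hneg μ T)
  rw [h1]
  congr 1
  rw [← Equiv.prod_comp σ]
  refine Finset.prod_congr rfl fun i _ => ?_
  show T.piecewise (fun i => c (σ.symm i) ^ (-μ i)) (fun i => c (σ.symm i) ^ μ i) (σ i) =
    c i ^ (if σ i ∈ T then -μ (σ i) else μ (σ i))
  by_cases h : σ i ∈ T
  · rw [Finset.piecewise_eq_of_mem _ _ _ h, if_pos h, Equiv.symm_apply_apply]
  · rw [Finset.piecewise_eq_of_notMem _ _ _ h, if_neg h, Equiv.symm_apply_apply]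

end Sym

open Pool.Agent.NH56.HL.Sym in
/-- **SYM** -/
theorem t_SYM (hSYA : S_SYA) : S_SYM := by
  intro s M e m hswap hneg
  choose G hG using fun μ => hSYA s e μ
  refine ⟨MvPolynomial.C (((Nat.factorial s : ℂ) * 2 ^ s)⁻¹) *
    ∑ μ ∈ box s M, MvPolynomial.C (m μ) * G μ, fun c hc => ?_⟩
  rw [map_mul, MvPolynomial.eval_C, map_sum]
  simp_rw [map_mul, MvPolynomial.eval_C, ← hG _ c hc]
  have hne : (Nat.factorial s : ℂ) * 2 ^ s ≠ 0 :=
    mul_ne_zero (Nat.cast_ne_zero.2 (Nat.factorial_ne_zero s)) (pow_ne_zero _ two_ne_zero)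
  rw [eq_inv_mul_iff_mul_eq₀ hne]
  calc ((Nat.factorial s : ℂ) * 2 ^ s) * ∑ μ ∈ box s M, m μ * ∏ i, c i ^ μ i
      = ∑ σ : Equiv.Perm (Fin s), ∑ T : Finset (Fin s), ∑ μ ∈ box s M, m μ * ∏ i, c i ^ μ i := by
        simp only [Finset.sum_const, Finset.card_univ, Fintype.card_perm, Fintype.card_fin,
          Fintype.card_finset, nsmul_eq_mul]
        push_cast
        ring
    _ = ∑ σ : Equiv.Perm (Fin s), ∑ T : Finset (Fin s), ∑ μ ∈ box s M, m μ *
          ∏ i, T.piecewise (fun i => c (σ.symm i) ^ (-μ i)) (fun i => c (σ.symm i) ^ μ i) i :=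
        Finset.sum_congr rfl fun σ _ => Finset.sum_congr rfl fun T _ => key m hswap hneg c σ T
    _ = ∑ μ ∈ box s M, m μ * ∑ σ : Equiv.Perm (Fin s), ∑ T : Finset (Fin s),
          ∏ i, T.piecewise (fun i => c (σ.symm i) ^ (-μ i)) (fun i => c (σ.symm i) ^ μ i) i := by
        have h1 : ∀ σ : Equiv.Perm (Fin s), ∑ T : Finset (Fin s), ∑ μ ∈ box s M, m μ *
            ∏ i, T.piecewise (fun i => c (σ.symm i) ^ (-μ i)) (fun i => c (σ.symm i) ^ μ i) i =
            ∑ μ ∈ box s M, ∑ T : Finset (Fin s), m μ *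
            ∏ i, T.piecewise (fun i => c (σ.symm i) ^ (-μ i)) (fun i => c (σ.symm i) ^ μ i) i :=
          fun σ => Finset.sum_comm
        rw [Finset.sum_congr rfl fun σ _ => h1 σ, Finset.sum_comm]
        refine Finset.sum_congr rfl fun μ _ => ?_
        rw [Finset.mul_sum]
        exact Finset.sum_congr rfl fun σ _ => by rw [Finset.mul_sum]
    _ = ∑ μ ∈ box s M, m μ * ∑ σ : Equiv.Perm (Fin s),
          ∏ i, (c (σ i) ^ μ i + c (σ i) ^ (-μ i)) := by
        refine Finset.sum_congr rfl fun μ _ => ?_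
        congr 1
        rw [← Equiv.sum_comp (Equiv.inv (Equiv.Perm (Fin s)))
          (fun σ => ∏ i, (c (σ i) ^ μ i + c (σ i) ^ (-μ i)))]
        refine Finset.sum_congr rfl fun σ _ => ?_
        rw [Equiv.inv_apply]
        have h2 : ∏ i, (c (σ⁻¹ i) ^ μ i + c (σ⁻¹ i) ^ (-μ i)) =
            ∏ i, (c (σ.symm i) ^ (-μ i) + c (σ.symm i) ^ μ i) :=
          Finset.prod_congr rfl fun i _ => add_comm _ _
        rw [h2, Finset.prod_add, Finset.powerset_univ]
        refine Finset.sum_congr rfl fun T _ => ?_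
        rw [Finset.prod_piecewise, Finset.univ_inter]

end Pool.Agent.NH56.HL
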